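import Pool.Agent.H74.JD.SMem
import Pool.Agent.H9.JH.Defs

set_option autoImplicit false
set_option linter.unusedSectionVars false

/-!
# JD SGen: general facts on S-systems in three letters (helper74)

All proofs use `alt_mem'` (file `SMem.lean`): for a permutation invariant class `P` of words of length `n ≥ 2`: if
`S (v ++ w) + S (v ++ w*) + S (v* ++ w) + S (w ++ v) ∈ T` for all nonempty `v, w` with `|v| ≤ 2`, `|v| + |w| = n`,
`P (v ++ w)`, then `S w ∈ T` for all `w` in `P` of length `n`; the sum is `4 • (S v * S w)` by `SSys.mul`.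

* `pair`: `4 x i x j = S[i,j] + S[i,j] + S[i,j] + S[j,i]` and `S[j,i] = S[i,j]` (`rev`).
* `pow`: `4 S[i] S(i^n) = 4 S(i^(n+1))`.
* `zero_of_letter`: `P w = (i ∈ w)`, `T = ⊥`, strong induction on the length (`n = 1`: `single`; `n ≥ 2`: one of `v, w`
  contains `i`, it is shorter, so the product is `0`).
* `unique`: `P w = ∀ i ∈ w, L i`, `T = ⊥`, the function `w ↦ S w - S' w`, strong induction on the length.
* `gen_le`: `T` contains all products, so `alt_mem'` with `P w = ∀ i ∈ w, L i`.
* `kill_on`: strong induction on the length `n`. `n = 1`: `h1`. `n = 2`: `S[i,j] = x i * x j`. `n ≥ 3`: `alt_mem'` with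
  `T = {b | b * h = 0}`: for `|v| + |w| = n`: let `m = max(|v|,|w|) ≥ 2`, by commutativity say `|v| ≥ 2` [if `|v| = 1`, exchange]; show
  `(S v * S w) * h = 0` by `alt_mem'` again (for the word `v`, `T' = {b | (b * S w) * h = 0}`): for `|p| + |q| = |v|`,
  `gJ4 F h2 hJ (S p) (S q) (S w) h : ((a b) d) h = (a b)(d h) + (a d)(b h) + (b d)(a h) - a(d(b h)) - b(d(a h))`, and
  `S p * h = S q * h = S w * h = 0` by induction.
-/

namespace JD

universe u

variable {F : Type u} [Field F] {J : Type u} [NonUnitalNonAssocCommRing J] [Module F J]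
  [IsScalarTower F J J] [SMulCommClass F J J] {x x' : Fin 3 → J} {S S' : List (Fin 3) → J}

/-- the product as an element of a submodule -/
theorem SGen_four (h2 : (2 : F) ≠ 0) : (4 : F) ≠ 0 := by
  have : (4 : F) = 2 * 2 := by norm_num
  rw [this]
  exact mul_ne_zero h2 h2

theorem SGen_smul_cancel (h2 : (2 : F) ≠ 0) {a b : J} (h : (4 : F) • a = (4 : F) • b) : a = b := by
  have h4 := SGen_four h2
  have := congrArg (fun t => (4 : F)⁻¹ • t) h
  simpa [smul_smul, inv_mul_cancel₀ h4] using this

theorem SSys.pair (h2 : (2 : F) ≠ 0) (hS : SSys F x S) (i j : Fin 3) : S [i, j] = x i * x j := by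
  have h := hS.mul [i] [j] (by simp) (by simp)
  rw [hS.single, hS.single] at h
  have h3 : S [j, i] = S [i, j] := by
    rw [← hS.rev [i, j]]
    rfl
  simp only [List.reverse_singleton, List.singleton_append] at h
  rw [h3] at h
  refine (SGen_smul_cancel h2 ?_).symm
  rw [h]
  module

theorem SSys.succ (h2 : (2 : F) ≠ 0) (hS : SSys F x S) (i : Fin 3) (n : ℕ) :
    S (List.replicate (n + 2) i) = x i * S (List.replicate (n + 1) i) := by
  have h := hS.mul [i] (List.replicate (n + 1) i) (by simp) (by simp)
  rw [hS.single] at h
  rw [List.reverse_replicate, List.reverse_singleton, List.singleton_append,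
    ← List.replicate_succ, ← List.replicate_succ'] at h
  refine (SGen_smul_cancel h2 ?_).symm
  rw [h]
  module

/-- words that contain a letter `i` with `x i = 0` -/
theorem SSys.zero_of_letter (h2 : (2 : F) ≠ 0) (hS : SSys F x S) {i : Fin 3} (hi : x i = 0)
    (w : List (Fin 3)) (hw : i ∈ w) : S w = 0 := by
  have key : ∀ (n : ℕ) (w : List (Fin 3)), w.length = n → i ∈ w → S w = 0 := by
    intro n
    induction n using Nat.strong_induction_on with
    | _ n ih =>
      intro w hl hw
      rcases Nat.lt_or_ge n 2 with hn | hn
      · match w, hl, hw with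
        | [j], _, hw =>
          rw [hS.single]
          rw [List.mem_singleton] at hw
          rw [← hw, hi]
        | _ :: _ :: _, hl, _ => simp at hl; omega
      · rw [← Submodule.mem_bot F]
        refine alt_mem' h2 ⊥ n hn (fun w => i ∈ w) (fun v w h hv => h.mem_iff.1 hv) S hS.rev ?_ w
          hl hw
        intro v v' hv hv' _ hl' hP
        rw [← hS.mul v v' hv hv', Submodule.mem_bot]
        have h3 : 0 < v.length := List.length_pos_iff.2 hv
        have h4 : 0 < v'.length := List.length_pos_iff.2 hv'
        rcases List.mem_append.1 hP with h | h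
        · rw [ih v.length (by omega) v rfl h, zero_mul, smul_zero]
        · rw [ih v'.length (by omega) v' rfl h, mul_zero, smul_zero]
  exact key _ w rfl hw

/-- two systems with the same letters in `L` agree on the words in `L` -/
theorem SSys.unique (h2 : (2 : F) ≠ 0) (hS : SSys F x S) (hS' : SSys F x' S') (L : Fin 3 → Prop)
    (hx : ∀ i, L i → x i = x' i) (w : List (Fin 3)) (hw : ∀ i ∈ w, L i) : S w = S' w := by
  have key : ∀ (n : ℕ) (w : List (Fin 3)), w.length = n → (∀ i ∈ w, L i) → S w - S' w = 0 := by
    intro n
    induction n using Nat.strong_induction_on with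
    | _ n ih =>
      intro w hl hw
      rcases Nat.lt_or_ge n 2 with hn | hn
      · match w, hl, hw with
        | [], _, _ => rw [hS.nil, hS'.nil, sub_zero]
        | [j], _, hw =>
          rw [hS.single, hS'.single, hx j (hw j (by simp)), sub_self]
        | _ :: _ :: _, hl, _ => simp at hl; omega
      · rw [← Submodule.mem_bot F]
        refine alt_mem' h2 ⊥ n hn (fun w => ∀ i ∈ w, L i)
          (fun v w h hv i hi => hv i (h.mem_iff.2 hi)) (fun w => S w - S' w)
          (fun w => by simp only [hS.rev, hS'.rev]) ?_ w hl hw
        intro v v' hv hv' _ hl' hP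
        have h3 : 0 < v.length := List.length_pos_iff.2 hv
        have h4 : 0 < v'.length := List.length_pos_iff.2 hv'
        have e1 : S v = S' v := sub_eq_zero.1 (ih v.length (by omega) v rfl
          fun i hi => hP i (List.mem_append_left _ hi))
        have e2 : S v' = S' v' := sub_eq_zero.1 (ih v'.length (by omega) v' rfl
          fun i hi => hP i (List.mem_append_right _ hi))
        have h5 := hS.mul v v' hv hv'
        have h6 := hS'.mul v v' hv hv'
        rw [← e1, ← e2] at h6
        rw [Submodule.mem_bot]
        have h7 : S (v ++ v') + S (v ++ v'.reverse) + S (v.reverse ++ v') + S (v' ++ v) =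
            S' (v ++ v') + S' (v ++ v'.reverse) + S' (v.reverse ++ v') + S' (v' ++ v) :=
          h5.symm.trans h6
        rw [← sub_eq_zero] at h7
        rw [← h7]
        abel
  exact sub_eq_zero.1 (key _ w rfl hw)

/-- a word of length `n ≥ 3` in letters from `L` is a combination of products with short words -/
theorem SSys.gen_le (h2 : (2 : F) ≠ 0) (hS : SSys F x S) (L : Fin 3 → Prop) (n : ℕ) (hn : 2 ≤ n)
    (T : Submodule F J)
    (hT : ∀ v w : List (Fin 3), v ≠ [] → w ≠ [] → v.length ≤ 2 → v.length + w.length = n →
      (∀ i ∈ v, L i) → (∀ i ∈ w, L i) → S v * S w ∈ T)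
    (w : List (Fin 3)) (hl : w.length = n) (hw : ∀ i ∈ w, L i) : S w ∈ T := by
  refine alt_mem' h2 T n hn (fun w => ∀ i ∈ w, L i)
    (fun v w h hv i hi => hv i (h.mem_iff.2 hi)) S hS.rev ?_ w hl hw
  intro v v' hv hv' hv2 hl' hP
  rw [← hS.mul v v' hv hv']
  exact T.smul_mem _ (hT v v' hv hv' hv2 hl' (fun i hi => hP i (List.mem_append_left _ hi))
    fun i hi => hP i (List.mem_append_right _ hi))

/-- an element killed by the letters in `L` and their products is killed by all words in `L` -/
theorem SSys.kill_on (h2 : (2 : F) ≠ 0) (hJ : IsJordan J) (hS : SSys F x S) (L : Fin 3 → Prop)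
    (h : J) (h1 : ∀ i, L i → x i * h = 0) (h3 : ∀ i j, L i → L j → (x i * x j) * h = 0)
    (w : List (Fin 3)) (hw : ∀ i ∈ w, L i) : S w * h = 0 := by
  have key : ∀ (n : ℕ) (w : List (Fin 3)), w.length = n → (∀ i ∈ w, L i) → S w * h = 0 := by
    intro n
    induction n using Nat.strong_induction_on with
    | _ n ih =>
      intro w hl hw
      rcases Nat.lt_or_ge n 3 with hn | hn
      · match w, hl, hw with
        | [], _, _ => rw [hS.nil, zero_mul]
        | [j], _, hw => rw [hS.single]; exact h1 j (hw j (by simp))
        | [j, k], _, hw =>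
          rw [hS.pair h2]
          exact h3 j k (hw j (by simp)) (hw k (by simp))
        | _ :: _ :: _ :: _, hl, _ => simp at hl; omega
      · -- the core: `|v| ≥ 2`
        have core : ∀ v v' : List (Fin 3), 2 ≤ v.length → v' ≠ [] → v.length + v'.length = n →
            (∀ i ∈ v, L i) → (∀ i ∈ v', L i) → (S v * S v') * h = 0 := by
          intro v v' hv2 hv' hl' hv hv'L
          have h4 : 0 < v'.length := List.length_pos_iff.2 hv'
          have e0 : S v' * h = 0 := ih v'.length (by omega) v' rfl hv'L
          have := hS.gen_le h2 L v.length hv2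
            (LinearMap.ker ((LinearMap.mul F J).flip h ∘ₗ (LinearMap.mul F J).flip (S v'))) ?_ v
            rfl hv
          · exact LinearMap.mem_ker.1 this
          · intro p q hp hq _ hpq hpL hqL
            have h5 : 0 < p.length := List.length_pos_iff.2 hp
            have h6 : 0 < q.length := List.length_pos_iff.2 hq
            have e1 : S p * h = 0 := ih p.length (by omega) p rfl hpL
            have e2 : S q * h = 0 := ih q.length (by omega) q rfl hqL
            have := gJ4 F h2 hJ (S p) (S q) (S v') h
            rw [e0, e1, e2] at this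
            simp only [mul_zero, add_zero, sub_zero] at this
            exact LinearMap.mem_ker.2 this
        have := hS.gen_le h2 L n (by omega)
            (LinearMap.ker ((LinearMap.mul F J).flip h)) ?_ w hl hw
        · exact LinearMap.mem_ker.1 this
        · intro v v' hv hv' _ hl' hvL hv'L
          rw [LinearMap.mem_ker, LinearMap.flip_apply, LinearMap.mul_apply']
          rcases Nat.lt_or_ge v.length 2 with h7 | h7
          · rw [mul_comm (S v)]
            exact core v' v (by omega) hv (by omega) hv'L hvL
          · exact core v v' h7 hv' hl' hvL hv'L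
  exact key _ w rfl hw

end JD
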