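import Pool.Agent.H74.JD.SMem

set_option autoImplicit false

/-!
# JD Weight: the weight lemma

Setting: `P : EPic F J x S u E` (associative picture with the relation `r`), weights `a : Fin 3 → ℕ`, `Φ` a
multiplicative filtration of `J` with `x i ∈ Φ (a i)`.
* `EPic.ge P a s`: span of the words of weight `≥ s` in `E`.
* `EPic.rho_ge`: `ρ (ge s) ≤ Φ s`.
* `EPic.u_mem`: `r ∈ ge s` implies `u ∈ Φ (s + a 0 + a 1 + a 2)`.
* `EPic.sq_zero`: (squares) `X i * X i - G = c • r`, `G ∈ ge g`, `Φ (g + a 0 + a 1 + a 2) = ⊥` imply `c = 0`.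
* `EPic.step`: if the leading part (weight `s`) of a relation of `J` vanishes modulo `ge (s+1)`, then
  `r ∈ ge s → r ∈ ge (s+1)`.
* `EPic.false_of_steps`: conclusion.
-/

namespace JD

universe u v w

variable {F : Type u} [Field F] {J : Type v} [NonUnitalNonAssocCommRing J] [Module F J]
  {x : Fin 3 → J} {S : List (Fin 3) → J} {u : J} {E : Type w} [Ring E] [Algebra F E]

theorem word_nil {ι : Type w} {E : Type*} [Monoid E] (X : ι → E) : word X [] = 1 := rfl

theorem word_cons {ι : Type w} {E : Type*} [Monoid E] (X : ι → E) (i : ι) (l : List ι) :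
    word X (i :: l) = X i * word X l := by simp [word]

theorem word_append {ι : Type w} {E : Type*} [Monoid E] (X : ι → E) (l m : List ι) :
    word X (l ++ m) = word X l * word X m := by simp [word]

namespace EPic

variable (P : EPic F J x S u E)

theorem star_word (w : List (Fin 3)) : P.star (word P.X w) = word P.X w.reverse := by
  induction w with
  | nil =>
    rw [List.reverse_nil, word_nil]
    have h := P.star_mul 1 (P.star 1)
    rw [one_mul, P.star_star, one_mul] at h
    exact h.symm
  | cons i w ih =>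
    rw [word_cons, P.star_mul, ih, P.star_X, List.reverse_cons, word_append, word_cons, word_nil,
      mul_one]

theorem star_one : P.star 1 = 1 := by
  have := P.star_word []
  rwa [List.reverse_nil, word_nil] at this

/-- span of the words of weight at least `s` -/
def ge (a : Fin 3 → ℕ) (s : ℕ) : Submodule F E :=
  Submodule.span F (word P.X '' {w | s ≤ wt a w})

variable (a : Fin 3 → ℕ)

theorem word_mem_ge {s : ℕ} {w : List (Fin 3)} (h : s ≤ wt a w) : word P.X w ∈ P.ge a s :=
  Submodule.subset_span ⟨w, h, rfl⟩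

theorem ge_anti {s t : ℕ} (h : s ≤ t) : P.ge a t ≤ P.ge a s := by
  refine Submodule.span_mono ?_
  rintro _ ⟨w, hw, rfl⟩
  exact ⟨w, h.trans hw, rfl⟩

theorem ge_zero : P.ge a 0 = ⊤ := by
  rw [eq_top_iff, ← P.span]
  refine Submodule.span_mono ?_
  rintro _ ⟨w, rfl⟩
  exact ⟨w, Nat.zero_le _, rfl⟩

theorem mul_mem_ge {s t : ℕ} {b c : E} (hb : b ∈ P.ge a s) (hc : c ∈ P.ge a t) :
    b * c ∈ P.ge a (s + t) := by
  unfold ge at hb
  induction hb using Submodule.span_induction with
  | mem y hy =>
    obtain ⟨p, hp, rfl⟩ := hy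
    unfold ge at hc
    induction hc using Submodule.span_induction with
    | mem z hz =>
      obtain ⟨q, hq, rfl⟩ := hz
      rw [← word_append]
      refine P.word_mem_ge a ?_
      rw [SM.wt_append]
      exact add_le_add hp hq
    | zero => simp
    | add y z _ _ hy hz => rw [mul_add]; exact Submodule.add_mem _ hy hz
    | smul t y _ hy => rw [mul_smul_comm]; exact Submodule.smul_mem _ _ hy
  | zero => simp
  | add y z _ _ hy hz => rw [add_mul]; exact Submodule.add_mem _ hy hz
  | smul t y _ hy => rw [smul_mul_assoc]; exact Submodule.smul_mem _ _ hy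

theorem X_mem_ge (i : Fin 3) : P.X i ∈ P.ge a (a i) := by
  have := P.word_mem_ge a (s := a i) (w := [i]) (by simp)
  rwa [word_cons, word_nil, mul_one] at this

theorem star_mem_ge {s : ℕ} {b : E} (hb : b ∈ P.ge a s) : P.star b ∈ P.ge a s := by
  unfold ge at hb
  induction hb using Submodule.span_induction with
  | mem y hy =>
    obtain ⟨p, hp, rfl⟩ := hy
    rw [P.star_word]
    refine P.word_mem_ge a ?_
    rw [SM.wt_reverse]
    exact hp
  | zero => simp
  | add y z _ _ hy hz => rw [map_add]; exact Submodule.add_mem _ hy hz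
  | smul t y _ hy => rw [map_smul]; exact Submodule.smul_mem _ _ hy

variable {a} in
theorem rho_ge (h2 : (2 : F) ≠ 0) (hS : SSys F x S) {Φ : ℕ → Submodule F J} (hΦ : Filt F x a Φ)
    {s : ℕ} {b : E} (hb : b ∈ P.ge a s) : P.ρ b ∈ Φ s := by
  unfold ge at hb
  induction hb using Submodule.span_induction with
  | mem y hy =>
    obtain ⟨p, hp, rfl⟩ := hy
    rw [P.ρ_word]
    rcases eq_or_ne p [] with h | h
    · subst h
      rw [hS.nil]
      exact Submodule.zero_mem _
    · exact hΦ.anti _ _ hp (hS.mem_filt h2 hΦ p h)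
  | zero => simp
  | add y z _ _ hy hz => rw [map_add]; exact Submodule.add_mem _ hy hz
  | smul t y _ hy => rw [map_smul]; exact Submodule.smul_mem _ _ hy

theorem rho_r_word (q : List (Fin 3)) : P.ρ (P.r * word P.X q) = det3 F q • u := by
  have := P.ρ_r [] q
  rwa [word_nil, one_mul, List.length_nil, pow_zero, one_mul, List.nil_append] at this

theorem rho_r : P.ρ P.r = 0 := by
  have := P.rho_r_word []
  rw [word_nil, mul_one] at this
  rw [this]
  simp [det3]

theorem X_mul_r (i : Fin 3) : P.X i * P.r = - (P.r * P.X i) := by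
  rw [eq_neg_iff_add_eq_zero]
  apply P.nondeg
  intro p q
  have h1 := P.ρ_r (p ++ [i]) q
  have h2 := P.ρ_r p (i :: q)
  rw [word_append, word_cons, word_nil, mul_one] at h1
  rw [word_cons] at h2
  have e : word P.X p * (P.X i * P.r + P.r * P.X i) * word P.X q =
      word P.X p * P.X i * P.r * word P.X q + word P.X p * P.r * (P.X i * word P.X q) := by
    noncomm_ring
  rw [e, map_add, h1, h2, ← add_smul]
  have e2 : p ++ [i] ++ q = p ++ i :: q := by simp
  rw [e2, List.length_append, List.length_singleton, pow_succ]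
  simp

variable {a} in
/-- The weight lemma. -/
theorem u_mem (h2 : (2 : F) ≠ 0) (hS : SSys F x S) {Φ : ℕ → Submodule F J} (hΦ : Filt F x a Φ)
    {s : ℕ} (hr : P.r ∈ P.ge a s) : u ∈ Φ (s + (a 0 + a 1 + a 2)) := by
  have h1 := P.rho_r_word [0, 1, 2]
  have h3 : det3 F [0, 1, 2] = 1 := by simp [det3]
  rw [h3, one_smul] at h1
  rw [← h1]
  refine P.rho_ge h2 hS hΦ (P.mul_mem_ge a hr (P.word_mem_ge a ?_))
  simp
  omega

/-- The first step for squares: `2 c X_i r = G X_i - X_i G`. -/
theorem sq_comm {i : Fin 3} {c : F} {G : E} (h : P.X i * P.X i - G = c • P.r) :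
    (2 * c) • (P.X i * P.r) = G * P.X i - P.X i * G := by
  have h1 : P.X i * (P.X i * P.X i - G) - (P.X i * P.X i - G) * P.X i = G * P.X i - P.X i * G := by
    noncomm_ring
  rw [h] at h1
  rw [← h1, mul_smul_comm, smul_mul_assoc]
  have h3 := P.X_mul_r i
  have h4 : P.r * P.X i = - (P.X i * P.r) := by rw [h3, neg_neg]
  rw [h4, smul_neg, sub_neg_eq_add, ← add_smul]
  congr 1
  ring

/-- The improved weight lemma for squares. -/
theorem sq_zero (h2 : (2 : F) ≠ 0) (hS : SSys F x S) (hu0 : u ≠ 0) {Φ : ℕ → Submodule F J}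
    (hΦ : Filt F x a Φ) {g : ℕ} (hg0 : Φ (g + (a 0 + a 1 + a 2)) = ⊥) {i : Fin 3} {c : F} {G : E}
    (hG : G ∈ P.ge a g) (h : P.X i * P.X i - G = c • P.r) : c = 0 := by
  have h1 := P.sq_comm h
  have h3 : G * P.X i - P.X i * G ∈ P.ge a (g + a i) := by
    refine Submodule.sub_mem _ (P.mul_mem_ge a hG (P.X_mem_ge a i)) ?_
    rw [add_comm]
    exact P.mul_mem_ge a (P.X_mem_ge a i) hG
  -- the other two letters
  obtain ⟨q, hq, hwq⟩ : ∃ q : List (Fin 3), (det3 F ([i] ++ q) = 1 ∨ det3 F ([i] ++ q) = -1) ∧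
      a i + wt a q = a 0 + a 1 + a 2 := by
    fin_cases i
    · exact ⟨[1, 2], Or.inl (by simp [det3]), by simp; omega⟩
    · exact ⟨[2, 0], Or.inl (by simp [det3]), by simp; omega⟩
    · exact ⟨[0, 1], Or.inl (by simp [det3]), by simp; omega⟩
  have h4 := P.ρ_r [i] q
  rw [word_cons, word_nil, mul_one, List.length_singleton, pow_one] at h4
  have h5 : P.ρ ((G * P.X i - P.X i * G) * word P.X q) ∈ Φ (g + (a 0 + a 1 + a 2)) := by
    refine P.rho_ge h2 hS hΦ ?_
    have := P.mul_mem_ge a h3 (P.word_mem_ge a (s := wt a q) (w := q) le_rfl)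
    rwa [add_assoc, hwq] at this
  rw [hg0, Submodule.mem_bot, ← h1, smul_mul_assoc, map_smul, h4, smul_smul] at h5
  rcases smul_eq_zero.1 h5 with h6 | h6
  · rcases hq with hq | hq
    · rw [hq] at h6
      have : 2 * c = 0 := by linear_combination -h6
      rcases mul_eq_zero.1 this with h7 | h7
      · exact absurd h7 h2
      · exact h7
    · rw [hq] at h6
      have : 2 * c = 0 := by linear_combination h6
      rcases mul_eq_zero.1 this with h7 | h7
      · exact absurd h7 h2
      · exact h7
  · exact absurd h6 hu0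

/-- leading part of an element of `ge s` -/
theorem exists_lead {s : ℕ} (ws : Finset (List (Fin 3)))
    (hws : ∀ w : List (Fin 3), wt a w = s → w ∈ ws ∨ w.reverse ∈ ws) {b : E}
    (hb : b ∈ P.ge a s) : ∃ c : List (Fin 3) → F,
      b + P.star b - ∑ w ∈ ws, c w • (word P.X w + word P.X w.reverse) ∈ P.ge a (s + 1) := by
  classical
  unfold ge at hb
  induction hb using Submodule.span_induction with
  | mem y hy =>
    obtain ⟨p, hp, rfl⟩ := hy
    rw [P.star_word]
    rcases Nat.lt_or_ge s (wt a p) with h | h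
    · refine ⟨fun _ => 0, ?_⟩
      simp only [zero_smul, Finset.sum_const_zero, sub_zero]
      exact Submodule.add_mem _ (P.word_mem_ge a h) (P.word_mem_ge a (by rw [SM.wt_reverse]; exact h))
    · have hs : wt a p = s := le_antisymm h hp
      rcases hws p hs with h1 | h1
      · refine ⟨fun w => if w = p then 1 else 0, ?_⟩
        have : ∑ w ∈ ws, (if w = p then (1 : F) else 0) • (word P.X w + word P.X w.reverse) =
            word P.X p + word P.X p.reverse := by
          rw [Finset.sum_eq_single p (fun w _ hw => by rw [if_neg hw, zero_smul])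
            (fun h => absurd h1 h), if_pos rfl, one_smul]
        rw [this, sub_self]
        exact Submodule.zero_mem _
      · refine ⟨fun w => if w = p.reverse then 1 else 0, ?_⟩
        have : ∑ w ∈ ws, (if w = p.reverse then (1 : F) else 0) •
            (word P.X w + word P.X w.reverse) = word P.X p + word P.X p.reverse := by
          rw [Finset.sum_eq_single p.reverse (fun w _ hw => by rw [if_neg hw, zero_smul])
            (fun h => absurd h1 h), if_pos rfl, one_smul, List.reverse_reverse, add_comm]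
        rw [this, sub_self]
        exact Submodule.zero_mem _
  | zero => exact ⟨fun _ => 0, by simp⟩
  | add y z _ _ hy hz =>
    obtain ⟨c, hc⟩ := hy
    obtain ⟨d, hd⟩ := hz
    refine ⟨fun w => c w + d w, ?_⟩
    have e : y + z + P.star (y + z) -
        ∑ w ∈ ws, (c w + d w) • (word P.X w + word P.X w.reverse) =
        (y + P.star y - ∑ w ∈ ws, c w • (word P.X w + word P.X w.reverse)) +
        (z + P.star z - ∑ w ∈ ws, d w • (word P.X w + word P.X w.reverse)) := by
      simp only [add_smul, Finset.sum_add_distrib, map_add]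
      abel
    rw [e]
    exact Submodule.add_mem _ hc hd
  | smul t y _ hy =>
    obtain ⟨c, hc⟩ := hy
    refine ⟨fun w => t * c w, ?_⟩
    have e : t • y + P.star (t • y) -
        ∑ w ∈ ws, (t * c w) • (word P.X w + word P.X w.reverse) =
        t • (y + P.star y - ∑ w ∈ ws, c w • (word P.X w + word P.X w.reverse)) := by
      simp only [mul_smul, map_smul, smul_sub, smul_add, Finset.smul_sum]
    rw [e]
    exact Submodule.smul_mem _ _ hc

/-- One step: if every combination of words of weight `s` whose value in `J` lies in `Φ (s+1)` lies in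
`ge (s+1)` (in `E`), then a relation in `ge s` lies in `ge (s+1)`. -/
theorem step (h2 : (2 : F) ≠ 0) (hS : SSys F x S) {Φ : ℕ → Submodule F J}
    (hΦ : Filt F x a Φ) {s : ℕ} (ws : Finset (List (Fin 3)))
    (hws : ∀ w : List (Fin 3), wt a w = s → w ∈ ws ∨ w.reverse ∈ ws)
    (hgood : ∀ c : List (Fin 3) → F, ∑ w ∈ ws, c w • S w ∈ Φ (s + 1) →
      ∑ w ∈ ws, c w • (word P.X w + word P.X w.reverse) ∈ P.ge a (s + 1))
    {b : E} (hb : b ∈ P.ge a s) (hsym : P.star b = b) (hρ : P.ρ b ∈ Φ (s + 1)) :
    b ∈ P.ge a (s + 1) := by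
  obtain ⟨c, hc⟩ := P.exists_lead a ws hws hb
  have h1 := P.rho_ge h2 hS hΦ hc
  have h3 : P.ρ (∑ w ∈ ws, c w • (word P.X w + word P.X w.reverse)) =
      (2 : F) • ∑ w ∈ ws, c w • S w := by
    rw [map_sum, Finset.smul_sum]
    refine Finset.sum_congr rfl fun w _ => ?_
    rw [map_smul, map_add, P.ρ_word, P.ρ_word, hS.rev, ← two_smul F, smul_comm]
  have h4 : ∑ w ∈ ws, c w • S w ∈ Φ (s + 1) := by
    have h5 : (2 : F) • ∑ w ∈ ws, c w • S w ∈ Φ (s + 1) := by
      rw [← h3]
      have e : P.ρ (∑ w ∈ ws, c w • (word P.X w + word P.X w.reverse)) =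
          P.ρ (b + P.star b) -
            P.ρ (b + P.star b - ∑ w ∈ ws, c w • (word P.X w + word P.X w.reverse)) := by
        rw [map_sub]
        abel
      rw [e]
      refine Submodule.sub_mem _ ?_ h1
      rw [hsym, map_add]
      exact Submodule.add_mem _ hρ hρ
    have h6 := Submodule.smul_mem _ (2 : F)⁻¹ h5
    rwa [smul_smul, inv_mul_cancel₀ h2, one_smul] at h6
  have h7 := Submodule.add_mem _ hc (hgood c h4)
  rw [sub_add_cancel, hsym, ← two_smul F] at h7
  have h8 := Submodule.smul_mem _ (2 : F)⁻¹ h7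
  rwa [smul_smul, inv_mul_cancel₀ h2, one_smul] at h8

/-- Conclusion: `J` cannot have a picture with `r`. -/
theorem false_of_steps (h2 : (2 : F) ≠ 0) (hS : SSys F x S) (hu0 : u ≠ 0)
    {Φ : ℕ → Submodule F J} (hΦ : Filt F x a Φ) {N : ℕ} (hN : Φ (N + 1) = ⊥)
    (hsteps : ∀ s, s + (a 0 + a 1 + a 2) ≤ N → P.r ∈ P.ge a s → P.r ∈ P.ge a (s + 1)) :
    False := by
  have key : ∀ s, s + (a 0 + a 1 + a 2) ≤ N + 1 → P.r ∈ P.ge a s := by
    intro s
    induction s with
    | zero => intro _; rw [ge_zero]; trivial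
    | succ s ih => intro hs; exact hsteps s (by omega) (ih (by omega))
  rcases Nat.lt_or_ge N (a 0 + a 1 + a 2) with h | h
  · have h3 := P.u_mem h2 hS hΦ (s := 0) (by rw [ge_zero]; trivial)
    have h4 := hΦ.anti (N + 1) (0 + (a 0 + a 1 + a 2)) (by omega) h3
    rw [hN, Submodule.mem_bot] at h4
    exact hu0 h4
  · have h3 := P.u_mem h2 hS hΦ (key (N + 1 - (a 0 + a 1 + a 2)) (by omega))
    have h4 : N + 1 - (a 0 + a 1 + a 2) + (a 0 + a 1 + a 2) = N + 1 := by omega
    rw [h4, hN, Submodule.mem_bot] at h3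
    exact hu0 h3

end EPic

end JD
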