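import Pool.Agent.H8.JD.SSysDef

set_option autoImplicit false

/-!
# JD SMem: S-systems in three letters and filtrations (`alt_mem'`: version with a
permutation invariant class `P` of words)

* `alt_mem`: a symmetric function `S` on words in three letters such that all sums
  `S (v ++ w) + S (v ++ w*) + S (v* ++ w) + S (w ++ v)` (`v`, `w` nonempty, total length `n ≥ 2`,
  total weight `W`) lie in `T` has all values `S w` (length `n`, weight `W`) in `T`.
* `SSys.mem_filt`: `S w ∈ Φ (wt a w)` for `w ≠ []`.
-/

namespace JD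

universe u v w

namespace SM

variable {ι : Type w} (a : ι → ℕ)

@[simp] theorem wt_nil : wt a [] = 0 := rfl

@[simp] theorem wt_cons (i : ι) (l : List ι) : wt a (i :: l) = a i + wt a l := by
  simp [wt]

@[simp] theorem wt_append (l m : List ι) : wt a (l ++ m) = wt a l + wt a m := by
  simp [wt]

@[simp] theorem wt_reverse (l : List ι) : wt a l.reverse = wt a l := by
  simp [wt]

end SM

section alt

variable {F : Type u} [Field F] {J : Type v} [AddCommGroup J] [Module F J]

private theorem smem_dup {α : Type*} : ∀ w : List α, ¬ w.Nodup →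
    ∃ (p : List α) (i : α) (q r : List α), w = p ++ i :: (q ++ i :: r)
  | [], h => absurd List.nodup_nil h
  | y :: w, h => by
    by_cases hy : y ∈ w
    · obtain ⟨q, r, rfl⟩ := List.append_of_mem hy
      exact ⟨[], y, q, r, rfl⟩
    · have hw : ¬ w.Nodup := fun hw => h (List.nodup_cons.2 ⟨hy, hw⟩)
      obtain ⟨p, i, q, r, rfl⟩ := smem_dup w hw
      exact ⟨y :: p, i, q, r, rfl⟩

theorem alt_mem2 (h2 : (2 : F) ≠ 0) (T : Submodule F J) (a : Fin 3 → ℕ) (n W : ℕ) (hn : 2 ≤ n)
    (S : List (Fin 3) → J) (hrev : ∀ w, S w.reverse = S w)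
    (hprod : ∀ v w : List (Fin 3), v ≠ [] → w ≠ [] → v.length ≤ 2 → v.length + w.length = n →
      wt a v + wt a w = W →
      S (v ++ w) + S (v ++ w.reverse) + S (v.reverse ++ w) + S (w ++ v) ∈ T)
    (w : List (Fin 3)) (hl : w.length = n) (hw : wt a w = W) : S w ∈ T := by
  have half : ∀ z : J ⧸ T, (2 : F) • z = 0 → z = 0 := by
    intro z hz
    have := congrArg (fun t => (2 : F)⁻¹ • t) hz
    simpa [smul_smul, inv_mul_cancel₀ h2] using this
  let D : List (Fin 3) → J ⧸ T := fun w => T.mkQ (S w)
  have hDrev : ∀ w, D w.reverse = D w := fun w => by simp only [D, hrev]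
  have hD : ∀ v w : List (Fin 3), v ≠ [] → w ≠ [] → v.length ≤ 2 → v.length + w.length = n →
      wt a v + wt a w = W →
      D (v ++ w) + D (v ++ w.reverse) + D (v.reverse ++ w) + D (w ++ v) = 0 := by
    intro v w h1 h3 h3' h4 h5
    have h6 := (Submodule.Quotient.mk_eq_zero T).2 (hprod v w h1 h3 h3' h4 h5)
    simpa [D] using h6
  suffices h : D w = 0 from (Submodule.Quotient.mk_eq_zero T).1 h
  -- rotation
  have rot1 : ∀ (i : Fin 3) (w : List (Fin 3)), w ≠ [] → (i :: w).length = n →
      wt a (i :: w) = W → D (i :: w) = - D (w ++ [i]) := by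
    intro i w h0 h3 h4
    have h5 := hD [i] w (by simp) h0 (by simp) (by simp at h3 ⊢; omega) (by simp at h4 ⊢; omega)
    have h6 : D ([i] ++ w.reverse) = D (w ++ [i]) := by
      rw [← hDrev (w ++ [i])]
      simp
    rw [h6] at h5
    simp only [List.reverse_singleton, List.singleton_append] at h5
    rw [eq_neg_iff_add_eq_zero]
    apply half
    rw [two_smul]
    rw [← h5]
    abel
  have rot : ∀ (p q : List (Fin 3)), q ≠ [] → (p ++ q).length = n → wt a (p ++ q) = W →
      D (p ++ q) = (-1 : ℤ) ^ p.length • D (q ++ p) := by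
    intro p
    induction p with
    | nil => intro q _ _ _; simp
    | cons i p ih =>
      intro q hq h3 h4
      rw [List.cons_append, rot1 i (p ++ q) (by simp [hq]) (by simpa using h3)
        (by simpa using h4)]
      rw [List.append_assoc, ih (q ++ [i]) (by simp) (by simp at h3 ⊢; omega)
        (by simp at h4 ⊢; omega)]
      simp only [List.length_cons, pow_succ, List.append_assoc, List.singleton_append]
      simp
  rcases Nat.lt_or_ge n 3 with hn3 | hn3
  · -- n = 2
    obtain rfl : n = 2 := by omega
    match w, hl, hw with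
    | [i, j], _, hw =>
      have h5 := hD [i] [j] (by simp) (by simp) (by simp) (by simp) (by simpa using hw)
      have h6 : D [j, i] = D [i, j] := by rw [← hDrev [i, j]]; rfl
      simp only [List.reverse_singleton, List.singleton_append] at h5
      rw [h6] at h5
      apply half
      apply half
      rw [two_smul, two_smul, ← h5]
      abel
  -- adjacent transposition at the front
  have sw0 : ∀ (i j : Fin 3) (w : List (Fin 3)), (i :: j :: w).length = n →
      wt a (i :: j :: w) = W → D (i :: j :: w) = - D (j :: i :: w) := by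
    intro i j w h3 h4
    have hw0 : w ≠ [] := by
      rintro rfl
      simp at h3
      omega
    have h5 := hD [i, j] w (by simp) hw0 (by simp) (by simp at h3 ⊢; omega) (by simp at h4 ⊢; omega)
    have h6 : D ([i, j] ++ w.reverse) = D (w ++ [j, i]) := by
      rw [← hDrev (w ++ [j, i])]
      simp
    have h7 : D (w ++ [j, i]) = D (j :: i :: w) := by
      have := rot [j, i] w hw0 (by simp at h3 ⊢; omega) (by simp at h4 ⊢; omega)
      simp only [List.cons_append, List.nil_append] at this
      rw [this]
      simp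
    have h8 : D (w ++ [i, j]) = D (i :: j :: w) := by
      have := rot [i, j] w hw0 (by simp at h3 ⊢; omega) (by simp at h4 ⊢; omega)
      simp only [List.cons_append, List.nil_append] at this
      rw [this]
      simp
    rw [h6, h7, h8] at h5
    have h9 : ([i, j] : List (Fin 3)).reverse ++ w = j :: i :: w := by simp
    rw [h9] at h5
    simp only [List.cons_append, List.nil_append] at h5
    rw [eq_neg_iff_add_eq_zero]
    apply half
    rw [two_smul, ← h5]
    abel
  have sw : ∀ (p : List (Fin 3)) (i j : Fin 3) (q : List (Fin 3)),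
      (p ++ i :: j :: q).length = n → wt a (p ++ i :: j :: q) = W →
      D (p ++ i :: j :: q) = - D (p ++ j :: i :: q) := by
    intro p i j q h3 h4
    rw [rot p (i :: j :: q) (by simp) h3 h4,
      rot p (j :: i :: q) (by simp) (by simp at h3 ⊢; omega) (by simp at h4 ⊢; omega)]
    rw [List.cons_append, List.cons_append, sw0 i j (q ++ p) (by simp at h3 ⊢; omega)
      (by simp at h4 ⊢; omega)]
    simp
  rcases Nat.lt_or_ge n 4 with hn4 | hn4
  · -- n = 3
    obtain rfl : n = 3 := by omega
    match w, hl, hw with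
    | [i, j, k], _, hw =>
      have e1 := rot1 i [j, k] (by simp) rfl (by simpa using hw)
      have e2 := rot1 j [k, i] (by simp) rfl (by simp at hw ⊢; omega)
      have e3 := rot1 k [i, j] (by simp) rfl (by simp at hw ⊢; omega)
      simp only [List.cons_append, List.nil_append] at e1 e2 e3
      rw [e2, e3] at e1
      apply half
      rw [two_smul]
      nth_rewrite 1 [e1]
      simp
  -- moving a letter
  have mv : ∀ (i : Fin 3) (q p r : List (Fin 3)), (p ++ (q ++ i :: r)).length = n →
      wt a (p ++ (q ++ i :: r)) = W →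
      D (p ++ (q ++ i :: r)) = (-1 : ℤ) ^ q.length • D (p ++ i :: (q ++ r)) := by
    intro i q
    induction q with
    | nil => intro p r _ _; simp
    | cons j q ih =>
      intro p r h3 h4
      have e1 : p ++ (j :: q ++ i :: r) = (p ++ [j]) ++ (q ++ i :: r) := by simp
      rw [e1, ih (p ++ [j]) r (by simp at h3 ⊢; omega) (by simp at h4 ⊢; omega)]
      have e2 : p ++ [j] ++ i :: (q ++ r) = p ++ j :: i :: (q ++ r) := by simp
      rw [e2, sw p j i (q ++ r) (by simp at h3 ⊢; omega) (by simp at h4 ⊢; omega)]
      simp [pow_succ]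
  have hnd : ¬ w.Nodup := by
    intro h
    have := h.length_le_card
    simp at this
    omega
  obtain ⟨p, i, q, r, rfl⟩ := smem_dup w hnd
  have e1 : p ++ i :: (q ++ i :: r) = (p ++ [i]) ++ (q ++ i :: r) := by simp
  rw [e1, mv i q (p ++ [i]) r (by simp at hl ⊢; omega) (by simp at hw ⊢; omega)]
  have e2 : p ++ [i] ++ i :: (q ++ r) = p ++ i :: i :: (q ++ r) := by simp
  rw [e2]
  have e3 := sw p i i (q ++ r) (by simp at hl ⊢; omega) (by simp at hw ⊢; omega)
  have e4 : D (p ++ i :: i :: (q ++ r)) = 0 := by
    apply half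
    rw [two_smul]
    nth_rewrite 1 [e3]
    simp
  rw [e4, smul_zero]

theorem alt_mem (h2 : (2 : F) ≠ 0) (T : Submodule F J) (a : Fin 3 → ℕ) (n W : ℕ) (hn : 2 ≤ n)
    (S : List (Fin 3) → J) (hrev : ∀ w, S w.reverse = S w)
    (hprod : ∀ v w : List (Fin 3), v ≠ [] → w ≠ [] → v.length + w.length = n →
      wt a v + wt a w = W →
      S (v ++ w) + S (v ++ w.reverse) + S (v.reverse ++ w) + S (w ++ v) ∈ T)
    (w : List (Fin 3)) (hl : w.length = n) (hw : wt a w = W) : S w ∈ T :=
  alt_mem2 h2 T a n W hn S hrev (fun v w h1 h3 _ h4 h5 => hprod v w h1 h3 h4 h5) w hl hw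

/-- The count of a letter is at most the length; three counts add up to the length. -/
private theorem smem_count (w : List (Fin 3)) :
    w.count 0 + w.count 1 + w.count 2 = w.length := by
  induction w with
  | nil => simp
  | cons i w ih =>
    fin_cases i <;> simp [List.count_cons] <;> omega

private theorem smem_wt (K : ℕ) (w : List (Fin 3)) :
    wt ![1, K, K * K] w = w.count 0 + K * (w.count 1 + K * w.count 2) := by
  induction w with
  | nil => simp
  | cons i w ih =>
    rw [SM.wt_cons, ih]
    fin_cases i <;> simp [List.count_cons] <;> ring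

private theorem smem_perm {n : ℕ} {v w : List (Fin 3)} (hv : v.length = n) (hw : w.length = n)
    (h : wt ![1, n + 1, (n + 1) * (n + 1)] v = wt ![1, n + 1, (n + 1) * (n + 1)] w) :
    v.Perm w := by
  rw [smem_wt, smem_wt] at h
  have h1 := smem_count v
  have h2 := smem_count w
  have h3 : v.count 0 = w.count 0 := by
    have := congrArg (· % (n + 1)) h
    simp only [Nat.add_mul_mod_self_left] at this
    rwa [Nat.mod_eq_of_lt (by omega), Nat.mod_eq_of_lt (by omega)] at this
  rw [h3] at h
  have h4 : v.count 1 + (n + 1) * v.count 2 = w.count 1 + (n + 1) * w.count 2 :=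
    Nat.eq_of_mul_eq_mul_left (Nat.succ_pos n) (Nat.add_left_cancel h)
  have h5 : v.count 1 = w.count 1 := by
    have := congrArg (· % (n + 1)) h4
    simp only [Nat.add_mul_mod_self_left] at this
    rwa [Nat.mod_eq_of_lt (by omega), Nat.mod_eq_of_lt (by omega)] at this
  rw [List.perm_iff_count]
  intro i
  fin_cases i
  · exact h3
  · exact h5
  · simp only [Fin.reduceFinMk]
    omega

theorem alt_mem' (h2 : (2 : F) ≠ 0) (T : Submodule F J) (n : ℕ) (hn : 2 ≤ n)
    (P : List (Fin 3) → Prop) (hP : ∀ v w : List (Fin 3), v.Perm w → P v → P w)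
    (S : List (Fin 3) → J) (hrev : ∀ w, S w.reverse = S w)
    (hprod : ∀ v w : List (Fin 3), v ≠ [] → w ≠ [] → v.length ≤ 2 → v.length + w.length = n →
      P (v ++ w) → S (v ++ w) + S (v ++ w.reverse) + S (v.reverse ++ w) + S (w ++ v) ∈ T)
    (w : List (Fin 3)) (hl : w.length = n) (hw : P w) : S w ∈ T := by
  refine alt_mem2 h2 T ![1, n + 1, (n + 1) * (n + 1)] n
    (wt ![1, n + 1, (n + 1) * (n + 1)] w) hn S hrev ?_ w hl rfl
  intro v v' h1 h3 h3' h4 h5
  refine hprod v v' h1 h3 h3' h4 (hP w _ ?_ hw)
  refine (smem_perm (n := n) ?_ hl ?_).symm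
  · simpa using h4
  · rw [SM.wt_append]
    exact h5

end alt

section filt

variable {F : Type u} [Field F] {J : Type v} [NonUnitalNonAssocCommRing J] [Module F J]

theorem SSys.mem_filt (h2 : (2 : F) ≠ 0) {x : Fin 3 → J} {S : List (Fin 3) → J} (hS : SSys F x S)
    {a : Fin 3 → ℕ} {Φ : ℕ → Submodule F J} (hΦ : Filt F x a Φ) :
    ∀ w : List (Fin 3), w ≠ [] → S w ∈ Φ (wt a w) := by
  have key : ∀ (n : ℕ) (w : List (Fin 3)), w ≠ [] → w.length = n → S w ∈ Φ (wt a w) := by
    intro n
    induction n using Nat.strong_induction_on with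
    | _ n ih =>
      intro w hw0 hl
      rcases Nat.lt_or_ge n 2 with hn | hn
      · match w, hw0, hl with
        | [i], _, _ =>
          rw [hS.single]
          simpa using hΦ.mem i
        | _ :: _ :: _, _, hl => simp at hl; omega
      · refine alt_mem h2 (Φ (wt a w)) a n (wt a w) hn S hS.rev ?_ w hl rfl
        intro v v' hv hv' hl' hw'
        rw [← hS.mul v v' hv hv']
        apply Submodule.smul_mem
        rw [← hw']
        have h3 : 0 < v.length := List.length_pos_iff.2 hv
        have h4 : 0 < v'.length := List.length_pos_iff.2 hv'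
        exact hΦ.mul_mem _ _ _ (ih v.length (by omega) v hv rfl) _
          (ih v'.length (by omega) v' hv' rfl)
  intro w hw
  exact key _ w hw rfl

end filt

end JD
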