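import Pool.Agent.H74.JD.Raise

set_option autoImplicit false
set_option linter.unusedSectionVars false

/-!
# JD Adapt: generators adapted to the quotient `A` of the powers filtration (helper74)

`J` critical of class 6 with three generators; `A, D, π` the picture of the powers filtration (`exists_GJ`). `π 1 : J → A` has image `D 1` and kills `J^2`.

* `first_pic`: collect the output of `exists_GJ` (`h.top`, `h.bot`, `jpow F J 6`); `rad` and `rdf` of `jpow` agree by `rfl`; `1 ≤ i → ...`.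
* `exists_Stg_of_basis`: `x : Fin 3 → J` independent mod `J^2`; as `ngen F J = 3` (`finrank (J ⧸ J^2) = 3`) it spans mod `J^2`, `gen_of_span` (file `Pow.lean`, nilpotency: `jpow F J 7 = ⊥`) shows that
  it generates. `S` from `exists_SSys7`, `span (range S) = ⊤` (last part of `exists_SSys7`), `Stg.first`.
* `exists_adapted`: let `v : Fin k → A` be a basis of `D 1` (`k = finrank (D 1) ≤ 3`). LINEAR ALGEBRA: `π 1` induces `p : J ⧸ J^2 → A` with image `D 1`; choose lifts `y_i ∈ J` of `v_i` (`i < k`), and a basis of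
  `ker p` (dimension `3 - k`), lifts of it to `J` lie in `ker (π 1)`. Together they are independent mod `J^2`.
* `D1_le`: `finrank (D 1) ≤ finrank (J ⧸ J^2) = 3`.
-/

namespace JD

universe u

variable {F : Type u} [Field F] {J : Type u} [NonUnitalNonAssocCommRing J] [Module F J]
  [IsScalarTower F J J] [SMulCommClass F J J] {e : J}

theorem first_pic [Infinite F] (hcr : Crit F J 6 e) :
    ∃ (A : Type u) (_ : NonUnitalNonAssocCommRing A) (_ : Module F A) (_ : IsScalarTower F A A)
      (_ : SMulCommClass F A A) (D : ℕ → Submodule F A) (π : ℕ → J →ₗ[F] A),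
      GJ F A 6 D ∧ GPic F (jpow F J) 6 A D π := by
  have := hcr.fin
  obtain ⟨A, i1, i2, i3, i4, D, π, hGJ, hGF, hmap, hmul, hker, hkill, hinj, hlay, hdim⟩ :=
    exists_GJ F J hcr.two hcr.jordan 6 (by norm_num) e hcr.ne hcr.top hcr.bot
  exact ⟨A, i1, i2, i3, i4, D, π, hGJ,
    { gf := hGF
      map := hmap
      mul := hmul
      ker := hker
      kill := hkill
      inj := hinj
      lay := hlay
      dim := hdim }⟩

private theorem Adapt_span [Module.Finite F J] (hn : ngen F J = 3) (x : Fin 3 → J)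
    (hi : ∀ c : Fin 3 → F, ∑ i, c i • x i ∈ jpow F J 2 → c = 0) :
    Submodule.span F (Set.range x) ⊔ jpow F J 2 = ⊤ := by
  have hw : LinearIndependent F (fun i => (jpow F J 2).mkQ (x i)) := by
    rw [Fintype.linearIndependent_iff]
    intro c hc i
    have h1 : (jpow F J 2).mkQ (∑ i, c i • x i) = 0 := by
      rw [map_sum, ← hc]
      exact Finset.sum_congr rfl fun i _ => map_smul _ _ _
    rw [Submodule.mkQ_apply, Submodule.Quotient.mk_eq_zero] at h1
    exact congrFun (hi c h1) i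
  have hspan : Submodule.span F (Set.range fun i => (jpow F J 2).mkQ (x i)) = ⊤ := by
    apply hw.span_eq_top_of_card_eq_finrank'
    rw [Fintype.card_fin]
    exact hn.symm
  have hmap : (Submodule.span F (Set.range x)).map (jpow F J 2).mkQ = ⊤ := by
    rw [Submodule.map_span, ← Set.range_comp, ← hspan]
    rfl
  rw [eq_top_iff]
  intro a _
  have ha : (jpow F J 2).mkQ a ∈ (Submodule.span F (Set.range x)).map (jpow F J 2).mkQ := by
    rw [hmap]; exact Submodule.mem_top
  obtain ⟨b, hb, hab⟩ := Submodule.mem_map.mp ha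
  have hd : a - b ∈ jpow F J 2 := by
    rw [← Submodule.Quotient.mk_eq_zero, Submodule.Quotient.mk_sub]
    rw [Submodule.mkQ_apply, Submodule.mkQ_apply] at hab
    rw [hab, sub_self]
  have : a = b + (a - b) := by abel
  rw [this]
  exact Submodule.add_mem_sup hb hd

theorem exists_Stg_of_basis (hcr : Crit F J 6 e) (hn : ngen F J = 3) (x : Fin 3 → J)
    (hi : ∀ c : Fin 3 → F, ∑ i, c i • x i ∈ jpow F J 2 → c = 0) :
    ∃ S : List (Fin 3) → J, Stg F x S (fun _ => 1) 6 e ∧ wfil F S (fun _ => 1) = jpow F J := by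
  have := hcr.fin
  have hnil : IsNilpotentAlg F J := ⟨7, by norm_num, hcr.bot⟩
  have hspan := Adapt_span (F := F) hn x hi
  have h8 : jpow F J 8 = ⊥ := by
    rw [eq_bot_iff, ← hcr.bot]
    exact jpow_anti (by norm_num)
  obtain ⟨S, hS, _, _, hgen⟩ := exists_SSys7 hcr.two hcr.jordan h8 x
  have hg : Submodule.span F (Set.range S) = ⊤ :=
    hgen fun T hT hm => gen_of_span hnil x hspan T hT hm
  exact ⟨S, Stg.first hcr hS hg hi, wfil_one_eq_jpow hcr.two hS hg⟩

variable {A : Type u} [NonUnitalNonAssocCommRing A] [Module F A]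
  [IsScalarTower F A A] [SMulCommClass F A A] {D : ℕ → Submodule F A} {π : ℕ → J →ₗ[F] A}

private noncomputable def Adapt_p (G : GPic F (jpow F J) 6 A D π) : (J ⧸ jpow F J 2) →ₗ[F] A :=
  (jpow F J 2).liftQ (π 1) fun a ha => LinearMap.mem_ker.mpr (G.kill 1 le_rfl a ha)

private theorem Adapt_p_mk (G : GPic F (jpow F J) 6 A D π) (a : J) :
    Adapt_p G (Submodule.Quotient.mk a) = π 1 a := rfl

private theorem Adapt_range (G : GPic F (jpow F J) 6 A D π) :
    LinearMap.range (Adapt_p G) = D 1 := by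
  unfold Adapt_p
  rw [Submodule.range_liftQ, ← G.map 1 le_rfl, jpow_one, Submodule.map_top]

private theorem Adapt_lift (G : GPic F (jpow F J) 6 A D π) {v : A} (hv : v ∈ D 1) :
    ∃ y : J, π 1 y = v := by
  rw [← G.map 1 le_rfl] at hv
  obtain ⟨y, _, hy⟩ := Submodule.mem_map.mp hv
  exact ⟨y, hy⟩

theorem D1_le (hcr : Crit F J 6 e) (hn : ngen F J = 3) (G : GPic F (jpow F J) 6 A D π) :
    Module.finrank F (D 1) ≤ 3 := by
  have := hcr.fin
  have h := LinearMap.finrank_range_add_finrank_ker (Adapt_p G)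
  rw [Adapt_range G] at h
  unfold ngen at hn
  omega

/-- three essential letters or fewer: the letters `i` with `k ≤ i` have image `0` -/
theorem exists_adapted2 (hcr : Crit F J 6 e) (hn : ngen F J = 3)
    (G : GPic F (jpow F J) 6 A D π) (h1 : Module.finrank F (D 1) = 2) (v0 v1 : A)
    (hv0 : v0 ∈ D 1) (hv1 : v1 ∈ D 1)
    (hli : ∀ r s : F, r • v0 + s • v1 = 0 → r = 0 ∧ s = 0) :
    ∃ x : Fin 3 → J, (∀ c : Fin 3 → F, ∑ i, c i • x i ∈ jpow F J 2 → c = 0) ∧
      π 1 (x 0) = v0 ∧ π 1 (x 1) = v1 ∧ π 1 (x 2) = 0 := by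
  have := hcr.fin
  have h := LinearMap.finrank_range_add_finrank_ker (Adapt_p G)
  rw [Adapt_range G] at h
  unfold ngen at hn
  have hk : Module.finrank F (LinearMap.ker (Adapt_p G)) = 1 := by omega
  obtain ⟨k, hk0, _⟩ := finrank_eq_one_iff'.mp hk
  obtain ⟨z, hz⟩ := Submodule.Quotient.mk_surjective _ (k : J ⧸ jpow F J 2)
  have hz0 : π 1 z = 0 := by
    have h1 := k.2
    rw [LinearMap.mem_ker, ← hz, Adapt_p_mk] at h1
    exact h1
  have hz2 : z ∉ jpow F J 2 := by
    intro h1
    apply hk0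
    rw [← (Submodule.Quotient.mk_eq_zero _)] at h1
    apply Subtype.ext
    rw [← hz]
    exact h1
  obtain ⟨y0, hy0⟩ := Adapt_lift G hv0
  obtain ⟨y1, hy1⟩ := Adapt_lift G hv1
  refine ⟨![y0, y1, z], ?_, hy0, hy1, hz0⟩
  intro c hc
  rw [Fin.sum_univ_three] at hc
  change c 0 • y0 + c 1 • y1 + c 2 • z ∈ jpow F J 2 at hc
  have h1' := G.kill 1 le_rfl _ hc
  rw [map_add, map_add, map_smul, map_smul, map_smul, hy0, hy1, hz0, smul_zero, add_zero] at h1'
  obtain ⟨c0, c1⟩ := hli _ _ h1'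
  rw [c0, c1, zero_smul, zero_smul, zero_add, zero_add] at hc
  have c2 : c 2 = 0 := by
    by_contra hne
    apply hz2
    have := (jpow F J 2).smul_mem (c 2)⁻¹ hc
    rwa [smul_smul, inv_mul_cancel₀ hne, one_smul] at this
  funext i
  fin_cases i
  · exact c0
  · exact c1
  · exact c2

theorem exists_adapted1 (hcr : Crit F J 6 e) (hn : ngen F J = 3)
    (G : GPic F (jpow F J) 6 A D π) (h1 : Module.finrank F (D 1) = 1) (v0 : A)
    (hv0 : v0 ∈ D 1) (hv : v0 ≠ 0) :
    ∃ x : Fin 3 → J, (∀ c : Fin 3 → F, ∑ i, c i • x i ∈ jpow F J 2 → c = 0) ∧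
      π 1 (x 0) = v0 ∧ π 1 (x 1) = 0 ∧ π 1 (x 2) = 0 := by
  have := hcr.fin
  have h := LinearMap.finrank_range_add_finrank_ker (Adapt_p G)
  rw [Adapt_range G] at h
  unfold ngen at hn
  have hk : Module.finrank F (LinearMap.ker (Adapt_p G)) = 2 := by omega
  let b : Module.Basis (Fin 2) F (LinearMap.ker (Adapt_p G)) :=
    Module.finBasisOfFinrankEq F (LinearMap.ker (Adapt_p G)) hk
  obtain ⟨z1, hz1⟩ := Submodule.Quotient.mk_surjective _ (b 0 : J ⧸ jpow F J 2)
  obtain ⟨z2, hz2⟩ := Submodule.Quotient.mk_surjective _ (b 1 : J ⧸ jpow F J 2)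
  have e1 : π 1 z1 = 0 := by
    have h1 := (b 0).2
    rw [LinearMap.mem_ker, ← hz1, Adapt_p_mk] at h1
    exact h1
  have e2 : π 1 z2 = 0 := by
    have h1 := (b 1).2
    rw [LinearMap.mem_ker, ← hz2, Adapt_p_mk] at h1
    exact h1
  obtain ⟨y0, hy0⟩ := Adapt_lift G hv0
  refine ⟨![y0, z1, z2], ?_, hy0, e1, e2⟩
  intro c hc
  rw [Fin.sum_univ_three] at hc
  change c 0 • y0 + c 1 • z1 + c 2 • z2 ∈ jpow F J 2 at hc
  have h1' := G.kill 1 le_rfl _ hc
  rw [map_add, map_add, map_smul, map_smul, map_smul, hy0, e1, e2, smul_zero, smul_zero,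
    add_zero, add_zero] at h1'
  have c0 : c 0 = 0 := (smul_eq_zero.mp h1').resolve_right hv
  rw [c0, zero_smul, zero_add] at hc
  have hb : c 1 • b 0 + c 2 • b 1 = 0 := by
    apply Subtype.ext
    change c 1 • (b 0 : J ⧸ jpow F J 2) + c 2 • (b 1 : J ⧸ jpow F J 2) = 0
    rw [← hz1, ← hz2]
    have := (Submodule.Quotient.mk_eq_zero (jpow F J 2)).mpr hc
    rw [Submodule.Quotient.mk_add, Submodule.Quotient.mk_smul, Submodule.Quotient.mk_smul] at this
    exact this
  have hli := Fintype.linearIndependent_iff.mp b.linearIndependent ![c 1, c 2]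
    (by rw [Fin.sum_univ_two]; exact hb)
  funext i
  fin_cases i
  · exact c0
  · exact hli 0
  · exact hli 1

end JD
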