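import Pool.Agent.H74.JD.QuadA

set_option autoImplicit false
set_option linter.unusedSectionVars false

/-!
# JD Quad: two final contradictions (helper74)

`P : EPic F J x S e E` (from `crit_EPic`), `r = P.r`, `ρ = P.ρ`.
* Use of `EPic.quad`: apply `ρ`: `ρ r = 0` and `ρ (X i * X j) = S [i, j] = x i * x j`; `ρ (ge a t) ⊆ wfil a t` (`rho_ge`, `filt_wfil`). For general weights: `G ∈ ge 1 3` is in `ge a t` as soon as all words of length `≥ 3` have weight `≥ t`.
* `final0`: words of length `≥ 2` have weight `≥ 2 μ`, so `r ∈ ge a (2 μ)`, `u_mem`: `e ∈ wfil a (2 μ + a0 + a1 + a2) = ⊥`.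
* `final_sq`: `quad`; `c 0 0 • (x 0 * x 0) ∈ wfil a (2 a 0 + 1)` (all other `x i * x j` and `ρ G` have higher weight), so `c 0 0 • π _ (x 0 * x 0) = 0`, `c 0 0 = 0`. Then `r ∈ ge a t` for `t = min (a 0 + a 1, a 0 + a 2, 3 a 0)` and `u_mem`: `e = 0`.
-/

namespace JD

universe u

variable {F : Type u} [Field F] {J : Type u} [NonUnitalNonAssocCommRing J] [Module F J]
  [IsScalarTower F J J] [SMulCommClass F J J] {x : Fin 3 → J} {S : List (Fin 3) → J}
  {a : Fin 3 → ℕ} {N : ℕ} {e : J} {E : Type u} [Ring E] [Algebra F E]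

private theorem Quad_wt_ge (a : Fin 3 → ℕ) (μ : ℕ) (hμ : ∀ i, μ ≤ a i) (k : ℕ)
    (w : List (Fin 3)) (hw : k ≤ wt (fun _ : Fin 3 => 1) w) : k * μ ≤ wt a w := by
  have h1 : ∀ w : List (Fin 3), wt (fun _ : Fin 3 => 1) w * μ ≤ wt a w := by
    intro w
    induction w with
    | nil => simp
    | cons i w ih =>
      rw [SM.wt_cons, SM.wt_cons, add_mul, one_mul]
      exact add_le_add (hμ i) ih
  exact (Nat.mul_le_mul_right μ hw).trans (h1 w)

private theorem Quad_XX (P : EPic F J x S e E) {t : ℕ} (i j : Fin 3) (ht : t ≤ a i + a j) :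
    P.X i * P.X j ∈ P.ge a t :=
  P.ge_anti a ht (P.mul_mem_ge a (P.X_mem_ge a i) (P.X_mem_ge a j))

private theorem Quad_S2 (h2 : (2 : F) ≠ 0) (hS : SSys F x S) (i j : Fin 3) :
    S [i, j] = x i * x j := by
  have h1 := hS.mul [i] [j] (by simp) (by simp)
  have h3 : S [j, i] = S [i, j] := by rw [← hS.rev [i, j]]; rfl
  simp only [List.reverse_singleton, List.singleton_append, hS.single, h3] at h1
  have h4 : (4 : F) • S [i, j] = (4 : F) • (x i * x j) := by
    rw [h1]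
    module
  have h40 : (4 : F) ≠ 0 := by
    have : (4 : F) = 2 * 2 := by norm_num
    rw [this]
    exact mul_ne_zero h2 h2
  have h5 := congrArg (fun z => (4 : F)⁻¹ • z) h4
  simpa [smul_smul, inv_mul_cancel₀ h40] using h5

private theorem Quad_XX_rho (P : EPic F J x S e E) (h2 : (2 : F) ≠ 0) (hS : SSys F x S)
    (i j : Fin 3) : P.ρ (P.X i * P.X j) = x i * x j := by
  have h1 := P.ρ_word [i, j]
  rw [word_cons, word_cons, word_nil, mul_one, Quad_S2 h2 hS] at h1
  exact h1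

theorem final0 (hcr : Crit F J 6 e) (h : Stg F x S a N e) (μ : ℕ) (hμ : ∀ i, μ ≤ a i)
    (hN : N < 2 * μ + (a 0 + a 1 + a 2)) : False := by
  obtain ⟨E, i1, i2, ⟨P⟩⟩ := crit_EPic hcr x S h.sys h.gen
  have h1 := P.r_ge_two hcr h
  have h3 : P.r ∈ P.ge a (2 * μ) :=
    P.ge_le_ge (fun w hw => Quad_wt_ge a μ hμ 2 w hw) h1
  have h4 := P.u_mem hcr.two h.sys (filt_wfil hcr.two h.sys) h3
  rw [h.wfil_bot hN, Submodule.mem_bot] at h4
  exact hcr.ne h4

theorem final_sq (hcr : Crit F J 6 e) (h : Stg F x S a N e)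
    {A : Type u} [NonUnitalNonAssocCommRing A] [Module F A]
    [IsScalarTower F A A] [SMulCommClass F A A] {D : ℕ → Submodule F A} {π : ℕ → J →ₗ[F] A}
    (G : GPic F (wfil F S a) N A D π) (h1 : a 0 < a 1) (h3 : a 0 < a 2) (t : ℕ)
    (ht1 : t ≤ a 0 + a 1) (ht2 : t ≤ a 0 + a 2) (ht3 : t ≤ 3 * a 0)
    (hN : N < t + (a 0 + a 1 + a 2)) (hX : π (a 0) (x 0) * π (a 0) (x 0) ≠ 0) : False := by
  have hcr2 : (2 : F) ≠ 0 := hcr.two
  have hF := filt_wfil (a := a) hcr2 h.sys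
  have hp0 : 1 ≤ a 0 := h.pos 0
  have hμ : ∀ i, a 0 ≤ a i := by
    intro i
    fin_cases i
    · exact le_rfl
    · exact h1.le
    · exact h3.le
  obtain ⟨E, i1, i2, ⟨P⟩⟩ := crit_EPic hcr x S h.sys h.gen
  obtain ⟨c, hc, hq⟩ := P.quad hcr h
  set R : E := P.r - ∑ i, ∑ j, c i j • (P.X i * P.X j) with hR
  have hR3 : R ∈ P.ge a (3 * a 0) := P.ge_le_ge (fun w hw => Quad_wt_ge a (a 0) hμ 3 w hw) hq
  -- the lower bound for the weight of the other quadratic words
  have hlow : ∀ i j : Fin 3, ¬ (i = 0 ∧ j = 0) → t ≤ a i + a j ∧ 2 * a 0 + 1 ≤ a i + a j := by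
    intro i j hij
    fin_cases i <;> fin_cases j <;> simp at hij ⊢ <;> omega
  -- the split of the quadratic part
  have hsplit : ∀ (M : Type u) [AddCommGroup M] [Module F M] (T : Submodule F M)
      (f : Fin 3 → Fin 3 → M), (∀ i j : Fin 3, ¬ (i = 0 ∧ j = 0) → f i j ∈ T) →
      ∑ i, ∑ j, f i j - f 0 0 ∈ T := by
    intro M _ _ T f hf
    have e1 : ∑ i, ∑ j, f i j - f 0 0 = (f 0 1 + f 0 2) + ((f 1 0 + f 1 1 + f 1 2) +
        (f 2 0 + f 2 1 + f 2 2)) := by
      simp only [Fin.sum_univ_three]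
      abel
    rw [e1]
    have g := fun i j hij => hf i j hij
    refine T.add_mem (T.add_mem (hf 0 1 (by simp)) (hf 0 2 (by simp))) (T.add_mem
      (T.add_mem (T.add_mem (hf 1 0 (by simp)) (hf 1 1 (by simp))) (hf 1 2 (by simp)))
      (T.add_mem (T.add_mem (hf 2 0 (by simp)) (hf 2 1 (by simp))) (hf 2 2 (by simp))))
  -- the value of the quadratic part in `J`
  have hval : c 0 0 • (x 0 * x 0) ∈ wfil F S a (2 * a 0 + 1) := by
    have e1 := P.rho_ge hcr2 h.sys hF hR3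
    have e2 : P.ρ R = - ∑ i, ∑ j, c i j • (x i * x j) := by
      rw [hR, map_sub, P.rho_r, zero_sub]
      simp only [map_sum, map_smul, Quad_XX_rho P hcr2 h.sys]
    rw [e2] at e1
    have e3 : ∑ i, ∑ j, c i j • (x i * x j) ∈ wfil F S a (2 * a 0 + 1) := by
      have := hF.anti (2 * a 0 + 1) (3 * a 0) (by omega) e1
      simpa using Submodule.neg_mem _ this
    have e4 := hsplit J (wfil F S a (2 * a 0 + 1)) (fun i j => c i j • (x i * x j)) (by
      intro i j hij
      refine Submodule.smul_mem _ _ (hF.anti _ _ (hlow i j hij).2 ?_)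
      exact hF.mul_mem _ _ _ (hF.mem i) _ (hF.mem j))
    have e5 := Submodule.sub_mem _ e3 e4
    rwa [sub_sub_cancel] at e5
  have hc0 : c 0 0 = 0 := by
    by_contra hne
    have e1 : x 0 * x 0 ∈ wfil F S a (2 * a 0 + 1) := by
      have := Submodule.smul_mem _ (c 0 0)⁻¹ hval
      rwa [smul_smul, inv_mul_cancel₀ hne, one_smul] at this
    have e2 := G.kill (2 * a 0) (by omega) _ e1
    have e3 := G.mul (a 0) (a 0) hp0 hp0 (x 0) (hF.mem 0) (x 0) (hF.mem 0)
    rw [← two_mul, e2] at e3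
    exact hX e3.symm
  have hr : P.r ∈ P.ge a t := by
    have e4 := hsplit E (P.ge a t) (fun i j => c i j • (P.X i * P.X j)) (by
      intro i j hij
      exact Submodule.smul_mem _ _ (Quad_XX P i j (hlow i j hij).1))
    simp only [hc0, zero_smul, sub_zero] at e4
    have e5 := Submodule.add_mem _ (P.ge_anti a ht3 hR3) e4
    rwa [hR, sub_add_cancel] at e5
  have h4 := P.u_mem hcr2 h.sys hF hr
  rw [h.wfil_bot hN, Submodule.mem_bot] at h4
  exact hcr.ne h4

end JD
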