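import Pool.Agent.H74.JD.RaiseA

set_option autoImplicit false
set_option linter.unusedSectionVars false

/-!
# JD Raise: changing the letters of a stage (helper74)

* `Stg.change`: `Filt F x' a (wfil F S a)`, so `S' w ∈ wfil F S a (wt a w)` for `w ≠ []` (`SSys.mem_filt`); so `wfil F S' a s ≤ wfil F S a s` (`S' [] = 0`). By symmetry `=`. `gen`: `wfil F S' a 0 = span (range S')` and
  `wfil F S a 0 = span (range S) = ⊤`. `cls`: `S' w ∈ J^|w| ≤ J^7 = ⊥` (`filt_jpow`). `van`: `S' w ∈ wfil F S a (wt a w) = ⊥`. `top`: `S' w ∈ wfil F S a N = F e`. `ne`: otherwise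
  `wfil F S' a N = ⊥` (all words of weight `≥ N` vanish), but it is `F e ≠ ⊥`.
* `Stg.lin`: `exists_Sj` for `x' = ![x 0, α x 1 + β x 2, γ x 1 + δ x 2]` and `Stg.change` (`a 1 = a 2`; solve for `x 1`, `x 2`; the inverse matrix).
* `Stg.sub`: `exists_Sj` for `x' = ![x 0, x 1, x 2 - g]`; `S' w = S w` for words in `0, 1` (`SSys.unique`), so `g ∈ pw F S a (a 2) = pw F S' a (a 2) ≤ wfil F S' a (a 2)`.
-/

namespace JD

universe u

variable {F : Type u} [Field F] {J : Type u} [NonUnitalNonAssocCommRing J] [Module F J]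
  [IsScalarTower F J J] [SMulCommClass F J J] {x : Fin 3 → J} {S : List (Fin 3) → J}
  {a : Fin 3 → ℕ} {N : ℕ} {e : J}

omit [IsScalarTower F J J] [SMulCommClass F J J] in
private theorem Raise_zero (T : List (Fin 3) → J) (a : Fin 3 → ℕ) :
    wfil F T a 0 = Submodule.span F (Set.range T) := by
  unfold wfil
  congr 1
  rw [← Set.image_univ]
  congr 1
  ext w
  simp

private theorem Raise_le (h2 : (2 : F) ≠ 0) {x' : Fin 3 → J} {S S' : List (Fin 3) → J}
    {a : Fin 3 → ℕ} (hS' : SSys F x' S') (hF : Filt F x' a (wfil F S a)) (s : ℕ) :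
    wfil F S' a s ≤ wfil F S a s := by
  unfold wfil
  rw [Submodule.span_le]
  rintro _ ⟨w, hw, rfl⟩
  by_cases hw0 : w = []
  · rw [hw0, hS'.nil]
    exact Submodule.zero_mem _
  · exact wfil_anti hw (hS'.mem_filt h2 hF w hw0)

private theorem Raise_mem (h2 : (2 : F) ≠ 0) {x' : Fin 3 → J} {S S' : List (Fin 3) → J}
    {a : Fin 3 → ℕ} (hS' : SSys F x' S') (hF : Filt F x' a (wfil F S a)) (w : List (Fin 3)) :
    S' w ∈ wfil F S a (wt a w) :=
  Raise_le h2 hS' hF _ (mem_wfil le_rfl)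

private theorem Raise_sum (c : Fin 3 → F) (y : Fin 3 → J) :
    ∑ i, c i • y i = c 0 • y 0 + c 1 • y 1 + c 2 • y 2 := Fin.sum_univ_three _

theorem Stg.change (hcr : Crit F J 6 e) (h : Stg F x S a N e) {x' : Fin 3 → J}
    {S' : List (Fin 3) → J} (hS' : SSys F x' S') (h1 : ∀ i, x' i ∈ wfil F S a (a i))
    (h3 : ∀ i, x i ∈ wfil F S' a (a i))
    (hi : ∀ c : Fin 3 → F, ∑ i, c i • x' i ∈ jpow F J 2 → c = 0) :
    Stg F x' S' a N e ∧ wfil F S' a = wfil F S a := by
  have h2 : (2 : F) ≠ 0 := hcr.two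
  have hf := filt_wfil (a := a) h2 h.sys
  have hf' := filt_wfil (a := a) h2 hS'
  have hF : Filt F x' a (wfil F S a) := ⟨hf.anti, hf.mul_mem, h1⟩
  have hF' : Filt F x a (wfil F S' a) := ⟨hf'.anti, hf'.mul_mem, h3⟩
  have heq : wfil F S' a = wfil F S a := by
    funext s
    exact le_antisymm (Raise_le h2 hS' hF s) (Raise_le h2 h.sys hF' s)
  refine ⟨?_, heq⟩
  refine ⟨hS', ?_, hi, ?_, h.pos, ?_, ?_, ?_, h.e0⟩
  · rw [← Raise_zero S' a, heq, Raise_zero, h.gen]
  · intro w hw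
    have hw0 : w ≠ [] := by
      rintro rfl
      simp at hw
    have h5 := hS'.mem_filt h2 (filt_jpow x') w hw0
    rw [wt_one] at h5
    have h6 : S' w ∈ jpow F J (6 + 1) := jpow_anti hw h5
    rw [hcr.bot] at h6
    exact (Submodule.mem_bot F).1 h6
  · intro w hw
    have h5 := Raise_mem h2 hS' hF w
    rw [h.wfil_bot hw] at h5
    exact (Submodule.mem_bot F).1 h5
  · intro w hw
    have h5 := Raise_mem h2 hS' hF w
    rw [hw, h.wfil_top] at h5
    exact h5
  · by_contra hcon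
    push Not at hcon
    have h5 : wfil F S' a N = ⊥ := by
      rw [eq_bot_iff]
      unfold wfil
      rw [Submodule.span_le]
      rintro _ ⟨w, hw, rfl⟩
      rcases Nat.lt_or_ge N (wt a w) with h6 | h6
      · have h7 := Raise_mem h2 hS' hF w
        rw [h.wfil_bot h6] at h7
        exact h7
      · rw [hcon w (le_antisymm h6 hw)]
        exact Submodule.zero_mem _
    rw [heq, h.wfil_top, Submodule.span_singleton_eq_bot] at h5
    exact h.e0 h5

theorem Stg.lin (hcr : Crit F J 6 e) (h : Stg F x S a N e) (h12 : a 1 = a 2) (α β γ δ : F)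
    (hdet : α * δ - β * γ ≠ 0) :
    ∃ S' : List (Fin 3) → J,
      Stg F ![x 0, α • x 1 + β • x 2, γ • x 1 + δ • x 2] S' a N e ∧
      wfil F S' a = wfil F S a := by
  have h2 : (2 : F) ≠ 0 := hcr.two
  obtain ⟨x', hx'⟩ : ∃ x' : Fin 3 → J,
      x' = ![x 0, α • x 1 + β • x 2, γ • x 1 + δ • x 2] := ⟨_, rfl⟩
  have e0 : x' 0 = x 0 := by rw [hx']; rfl
  have e1 : x' 1 = α • x 1 + β • x 2 := by rw [hx']; rfl
  have e2 : x' 2 = γ • x 1 + δ • x 2 := by rw [hx']; rfl
  rw [← hx']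
  obtain ⟨S', hS'⟩ := exists_Sj hcr x'
  have hf := filt_wfil (a := a) h2 h.sys
  have hf' := filt_wfil (a := a) h2 hS'
  refine ⟨S', h.change hcr hS' ?_ ?_ ?_⟩
  · have m1 := hf.mem 1
    have m2 := hf.mem 2
    rw [← h12] at m2
    intro i
    fin_cases i
    · change x' 0 ∈ wfil F S a (a 0)
      rw [e0]
      exact hf.mem 0
    · change x' 1 ∈ wfil F S a (a 1)
      rw [e1]
      exact Submodule.add_mem _ (Submodule.smul_mem _ _ m1) (Submodule.smul_mem _ _ m2)
    · change x' 2 ∈ wfil F S a (a 2)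
      rw [e2, ← h12]
      exact Submodule.add_mem _ (Submodule.smul_mem _ _ m1) (Submodule.smul_mem _ _ m2)
  · have m1 := hf'.mem 1
    have m2 := hf'.mem 2
    rw [← h12] at m2
    have i1 : x 1 = (α * δ - β * γ)⁻¹ • (δ • x' 1 - β • x' 2) := by
      rw [eq_inv_smul_iff₀ hdet, e1, e2]
      module
    have i2 : x 2 = (α * δ - β * γ)⁻¹ • (α • x' 2 - γ • x' 1) := by
      rw [eq_inv_smul_iff₀ hdet, e1, e2]
      module
    intro i
    fin_cases i
    · change x 0 ∈ wfil F S' a (a 0)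
      rw [← e0]
      exact hf'.mem 0
    · change x 1 ∈ wfil F S' a (a 1)
      rw [i1]
      exact Submodule.smul_mem _ _
        (Submodule.sub_mem _ (Submodule.smul_mem _ _ m1) (Submodule.smul_mem _ _ m2))
    · change x 2 ∈ wfil F S' a (a 2)
      rw [i2, ← h12]
      exact Submodule.smul_mem _ _
        (Submodule.sub_mem _ (Submodule.smul_mem _ _ m2) (Submodule.smul_mem _ _ m1))
  · intro c hc
    have h5 := h.ind ![c 0, c 1 * α + c 2 * γ, c 1 * β + c 2 * δ] (by
      rw [Raise_sum] at hc ⊢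
      have h6 : (![c 0, c 1 * α + c 2 * γ, c 1 * β + c 2 * δ] : Fin 3 → F) 0 • x 0 +
          (![c 0, c 1 * α + c 2 * γ, c 1 * β + c 2 * δ] : Fin 3 → F) 1 • x 1 +
          (![c 0, c 1 * α + c 2 * γ, c 1 * β + c 2 * δ] : Fin 3 → F) 2 • x 2 =
          c 0 • x' 0 + c 1 • x' 1 + c 2 • x' 2 := by
        rw [e0, e1, e2]
        change c 0 • x 0 + (c 1 * α + c 2 * γ) • x 1 + (c 1 * β + c 2 * δ) • x 2 = _
        module
      rw [h6]
      exact hc)
    have k0 : c 0 = 0 := congrFun h5 0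
    have k1 : c 1 * α + c 2 * γ = 0 := congrFun h5 1
    have k2 : c 1 * β + c 2 * δ = 0 := congrFun h5 2
    have l1 : c 1 * (α * δ - β * γ) = 0 := by linear_combination δ * k1 - γ * k2
    have l2 : c 2 * (α * δ - β * γ) = 0 := by linear_combination α * k2 - β * k1
    have n1 : c 1 = 0 := (mul_eq_zero.1 l1).resolve_right hdet
    have n2 : c 2 = 0 := (mul_eq_zero.1 l2).resolve_right hdet
    funext i
    fin_cases i
    · exact k0
    · exact n1
    · exact n2

theorem Stg.sub (hcr : Crit F J 6 e) (h : Stg F x S a N e) (g : J) (hg : g ∈ pw F S a (a 2))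
    (hg2 : g ∈ jpow F J 2) :
    ∃ S' : List (Fin 3) → J, Stg F ![x 0, x 1, x 2 - g] S' a N e ∧
      wfil F S' a = wfil F S a ∧ ∀ w : List (Fin 3), (∀ i ∈ w, i ≠ 2) → S' w = S w := by
  have h2 : (2 : F) ≠ 0 := hcr.two
  obtain ⟨x', hx'⟩ : ∃ x' : Fin 3 → J, x' = ![x 0, x 1, x 2 - g] := ⟨_, rfl⟩
  have e0 : x' 0 = x 0 := by rw [hx']; rfl
  have e1 : x' 1 = x 1 := by rw [hx']; rfl
  have e2 : x' 2 = x 2 - g := by rw [hx']; rfl
  rw [← hx']
  obtain ⟨S', hS'⟩ := exists_Sj hcr x'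
  have hf := filt_wfil (a := a) h2 h.sys
  have hf' := filt_wfil (a := a) h2 hS'
  have huniq : ∀ w : List (Fin 3), (∀ i ∈ w, i ≠ 2) → S' w = S w := by
    refine SSys.unique h2 hS' h.sys (fun i => i ≠ 2) ?_
    intro i hi
    fin_cases i
    · exact e0
    · exact e1
    · exact absurd rfl hi
  have hpw : pw F S a (a 2) ≤ pw F S' a (a 2) := by
    unfold pw
    rw [Submodule.span_le]
    rintro _ ⟨w, hw, rfl⟩
    rw [← huniq w hw.1]
    exact Submodule.subset_span ⟨w, hw, rfl⟩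
  obtain ⟨hc1, hc2⟩ := h.change hcr hS' (by
      intro i
      fin_cases i
      · change x' 0 ∈ wfil F S a (a 0)
        rw [e0]
        exact hf.mem 0
      · change x' 1 ∈ wfil F S a (a 1)
        rw [e1]
        exact hf.mem 1
      · change x' 2 ∈ wfil F S a (a 2)
        rw [e2]
        exact Submodule.sub_mem _ (hf.mem 2) (pw_le hg)) (by
      intro i
      fin_cases i
      · change x 0 ∈ wfil F S' a (a 0)
        rw [← e0]
        exact hf'.mem 0
      · change x 1 ∈ wfil F S' a (a 1)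
        rw [← e1]
        exact hf'.mem 1
      · change x 2 ∈ wfil F S' a (a 2)
        have h5 : x 2 = x' 2 + g := by rw [e2]; abel
        rw [h5]
        exact Submodule.add_mem _ (hf'.mem 2) (pw_le (hpw hg))) (by
      intro c hc
      refine h.ind c ?_
      rw [Raise_sum] at hc ⊢
      have h6 : c 0 • x 0 + c 1 • x 1 + c 2 • x 2 =
          (c 0 • x' 0 + c 1 • x' 1 + c 2 • x' 2) + c 2 • g := by
        rw [e0, e1, e2]
        module
      rw [h6]
      exact Submodule.add_mem _ hc (Submodule.smul_mem _ _ hg2))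
  exact ⟨S', hc1, hc2, huniq⟩

end JD
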