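import Pool.Agent.H74.JD.C72I
import Pool.Agent.H74.JD.Raise
import Pool.Agent.H74.JD.Quad

set_option autoImplicit false
set_option linter.unusedSectionVars false

/-!
# JD C72Z: the stage `(60, 72, 72)` is impossible (helper74)

* `C72_false`. PROOF. `exists_GPic`. `D 6 = span {π 6 (x 1), π 6 (x 2)} ≠ ⊥`, `finrank (D 6) = 1` (`C72_dim`), so there are `α, β, γ, δ`, `α δ - β γ ≠ 0`, with `γ π(x 1) + δ π (x 2) = 0`, `α π (x 1) + β π (x 2) ≠ 0`; `Stg.lin` (`S 0^6` unchanged by `SSys.unique`, or: `S (0^6)` is the power of `x 0`, `SSys.succ`); the filtration is the same, so `G` is a picture for the new letters.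
  Now `π 6 (x 2) = 0`. CLAIM: `Stg F x S ![300, 360, W] 1800 e` for `361 ≤ W ≤ 481`: induction on `W`. Base: `Stg.raise_cnt` from `![5, 6, 6]`, 30, `L = (· = 2)` (`hL` by `GPic.zero_top`): `1800 < 300 i + 360 j + 361 k`, `i + j + k ≤ 6` implies `30 ≤ 5 i + 6 j + 6 k`, and `1 ≤ k` if equality. Step: `exists_GPic`, `Two` (`m = 60`), if `π' W (x 2) ≠ 0`
  then `Z72_intro`, `Z72_false`; so `π' W (x 2) = 0`, `GPic.zero_top`, `Stg.raise_cnt` (`interval_cases k`, `omega`; `300 i + 360 j` is divisible by 60 and `k ∣ 60`). `ne`: `0^6`. At `W = 481`: `final_sq` with `t = 660` (`660 + 1141 > 1800`), `X X ≠ 0` from `gS (0^6) ≠ 0`.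
-/

namespace JD

universe u

variable {F : Type u} [Field F] {J : Type u} [NonUnitalNonAssocCommRing J] [Module F J]
  [IsScalarTower F J J] [SMulCommClass F J J] {x : Fin 3 → J} {S : List (Fin 3) → J} {e : J}
  {A : Type u} [NonUnitalNonAssocCommRing A] [Module F A] [IsScalarTower F A A]
  [SMulCommClass F A A] {D : ℕ → Submodule F A} {π : ℕ → J →ₗ[F] A}
  {A' : Type u} [NonUnitalNonAssocCommRing A'] [Module F A'] [IsScalarTower F A' A']
  [SMulCommClass F A' A'] {D' : ℕ → Submodule F A'} {π' : ℕ → J →ₗ[F] A'}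

private theorem C72Z_sq {B : Type u} [NonUnitalNonAssocCommRing B] [Module F B]
    [IsScalarTower F B B] [SMulCommClass F B B] {y : Fin 3 → B} {T : List (Fin 3) → B}
    (h2 : (2 : F) ≠ 0) (hS : SSys F y T) (hn : T (List.replicate 6 0) ≠ 0) : y 0 * y 0 ≠ 0 := by
  intro h0
  apply hn
  have e4 := SSys.succ h2 hS 0 4
  have e3 := SSys.succ h2 hS 0 3
  have e2 := SSys.succ h2 hS 0 2
  have e1 := SSys.succ h2 hS 0 1
  have e0 := SSys.succ h2 hS 0 0
  have es : T (List.replicate (0 + 1) 0) = y 0 := hS.single 0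
  rw [es, h0] at e0
  rw [show (1 : ℕ) + 1 = 0 + 2 from rfl, e0, mul_zero] at e1
  rw [show (2 : ℕ) + 1 = 1 + 2 from rfl, e1, mul_zero] at e2
  rw [show (3 : ℕ) + 1 = 2 + 2 from rfl, e2, mul_zero] at e3
  rw [show (4 : ℕ) + 1 = 3 + 2 from rfl, e3, mul_zero] at e4
  exact e4

/-- the new letters -/
private theorem C72Z_lin (hcr : Crit F J 6 e) (h : Stg F x S ![5, 6, 6] 30 e)
    (G : GPic F (wfil F S ![5, 6, 6]) 30 A D π) (hx : S (List.replicate 6 0) ≠ 0)
    (hW : D 6 ≠ ⊥) :
    ∃ (x' : Fin 3 → J) (S' : List (Fin 3) → J), Stg F x' S' ![5, 6, 6] 30 e ∧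
      GPic F (wfil F S' ![5, 6, 6]) 30 A D π ∧ S' (List.replicate 6 0) ≠ 0 ∧
      π 6 (x' 2) = 0 := by
  have hfin := G.gf.fin
  have h2 := hcr.two
  obtain ⟨g, hg, hg0, φ, -, hφ⟩ := exists_coord (C72_dim hcr h G hx hW)
  have hm1 : π 6 (x 1) ∈ D 6 := by
    have := G.gS_mem h [1] (by simp)
    simpa [gS, wt, h.sys.single] using this
  have hm2 : π 6 (x 2) ∈ D 6 := by
    have := G.gS_mem h [2] (by simp)
    simpa [gS, wt, h.sys.single] using this
  have hp := hφ _ hm1
  have hq := hφ _ hm2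
  have hne : φ (π 6 (x 1)) ≠ 0 ∨ φ (π 6 (x 2)) ≠ 0 := by
    by_contra hcon
    push Not at hcon
    apply hW
    rw [G.D_eq h (by omega), Submodule.span_eq_bot]
    rintro _ ⟨w, hw, rfl⟩
    have hc := wt_cnt ![5, 6, 6] w
    simp only [Set.mem_ofPred_eq] at hw
    simp only [Matrix.cons_val_zero, Matrix.cons_val_one, Matrix.cons_val] at hc
    rw [hw] at hc
    have hl : w.length = 1 := by omega
    obtain ⟨i, rfl⟩ := List.length_eq_one_iff.mp hl
    have hi : i = 1 ∨ i = 2 := by
      fin_cases i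
      · simp [wt] at hw
      · exact Or.inl rfl
      · exact Or.inr rfl
    rcases hi with rfl | rfl
    · rw [gS, hw, h.sys.single, hp, hcon.1, zero_smul]
    · rw [gS, hw, h.sys.single, hq, hcon.2, zero_smul]
  obtain ⟨α, β, hdet⟩ : ∃ α β : F,
      α * φ (π 6 (x 1)) - β * (-φ (π 6 (x 2))) ≠ 0 := by
    rcases hne with hne | hne
    · exact ⟨1, 0, by simpa using hne⟩
    · exact ⟨0, 1, by simpa using hne⟩
  obtain ⟨S', hS', hfil⟩ := Stg.lin hcr h (by simp) α β (-φ (π 6 (x 2))) (φ (π 6 (x 1))) hdet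
  refine ⟨_, S', hS', by rw [hfil]; exact G, ?_, ?_⟩
  · rw [← SSys.unique h2 h.sys hS'.sys (fun i => i = 0) (by rintro i rfl; simp)
      (List.replicate 6 0) (by intro i hi; exact List.eq_of_mem_replicate hi)]
    exact hx
  · simp only [Matrix.cons_val]
    rw [map_add, map_smul, map_smul, hp, hq]
    simp only [map_smul, smul_eq_mul, smul_smul, ← add_smul]
    rw [show -(φ (π 6 (x 2)) * φ g) * (φ (π 6 (x 1))) + φ (π 6 (x 1)) * φ g * φ (π 6 (x 2))
      = 0 by ring]
    rw [zero_smul]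

theorem C72_false [Infinite F] (hcr : Crit F J 6 e) (h : Stg F x S ![5, 6, 6] 30 e)
    (G : GPic F (wfil F S ![5, 6, 6]) 30 A D π) (hx : S (List.replicate 6 0) ≠ 0)
    (hW : D 6 ≠ ⊥) : False := by
  have h2 := hcr.two
  have hfinJ := hcr.fin
  obtain ⟨y, T, hst, G1, hT, hz⟩ := C72Z_lin hcr h G hx hW
  have hwt : ∀ W : ℕ, wt ![300, 360, W] (List.replicate 6 (0 : Fin 3)) = 1800 := by
    intro W
    simp [wt]
  -- all the stages
  have key : ∀ n : ℕ, n ≤ 120 → Stg F y T ![300, 360, 361 + n] 1800 e := by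
    intro n
    induction n with
    | zero =>
      intro _
      refine Stg.raise_cnt hcr hst (fun i => i = 2) ?_ _ _ ?_ ?_ ⟨_, hwt _, hT⟩
      · rintro i rfl w hw hiw
        exact GPic.zero_top h2 hst G1 (i := 2) hz w hw hiw
      · intro i
        fin_cases i <;> simp
      · intro i j k hijk hlt
        simp only [Matrix.cons_val_zero, Matrix.cons_val_one, Matrix.cons_val] at hlt ⊢
        have : k ≤ 6 := by omega
        interval_cases k <;> simp <;> omega
    | succ n ih =>
      intro hn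
      have hst' := ih (by omega)
      obtain ⟨A', i1, i2, i3, i4, D', π', G'⟩ := exists_GPic h2 hcr.jordan hst'
      have T2 : Two F y y T T ![5, 6, 6] ![300, 360, 361 + n] 30 1800 60 e A D π A' D' π' :=
        { hm := by omega
          st := hst
          st' := hst'
          G := G1
          G' := G'
          a0 := by simp
          a1 := by simp
          hN := by norm_num
          SS := fun _ _ => rfl
          z0 := hz }
      have hz' : π' (361 + n) (y 2) = 0 := by
        by_contra hne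
        exact Z72_false (Z72_intro hcr T2 hT hW (by omega) (by omega) hne)
      refine Stg.raise_cnt hcr hst' (fun i => i = 2) ?_ _ _ ?_ ?_ ⟨_, hwt _, hT⟩
      · rintro i rfl w hw hiw
        exact GPic.zero_top h2 hst' G' (i := 2) hz' w hw hiw
      · intro i
        fin_cases i <;> simp <;> omega
      · intro i j k hijk hlt
        simp only [Matrix.cons_val_zero, Matrix.cons_val_one, Matrix.cons_val] at hlt ⊢
        have : k ≤ 6 := by omega
        interval_cases k <;> simp <;> omega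
  have hlast := key 120 (by omega)
  obtain ⟨A', i1, i2, i3, i4, D', π', G'⟩ := exists_GPic h2 hcr.jordan hlast
  have hX : π' 300 (y 0) * π' 300 (y 0) ≠ 0 := by
    have := C72Z_sq h2 (G'.sys hlast) (fun h0 => hT (G'.gS_top hlast _ (hwt _) h0))
    exact this
  exact final_sq hcr hlast G' (by simp) (by simp) 660 (by simp) (by simp) (by simp)
    (by simp) hX

end JD
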