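import Pool.Agent.H74.JD.C75I
import Pool.Agent.H74.JD.Raise
import Pool.Agent.H74.JD.Quad

set_option autoImplicit false
set_option linter.unusedSectionVars false

/-!
# JD C75Z: the stage `(60, 75, 75)` is impossible (helper74)

* `C75_false`. PROOF. `D 5 = span {π 5 (x 1), π 5 (x 2)} ≠ ⊥`, `finrank (D 5) = 1` (`C75_dim`), so `Stg.lin` gives new letters with `π 5 (x 2) = 0`, `π 5 (x 1) ≠ 0` (same filtration, `G` remains a picture; `S 0^6` unchanged by `SSys.unique` with `L = (· = 0)`).
  CLAIM: `Stg F x S ![240, 300, W] 1440 e` for `301 ≤ W ≤ 361`: induction on `W`. Base: `Stg.raise_cnt` from `![4, 5, 5]`, 24, `L = (· = 2)` (`GPic.zero_top`). Step: `exists_GPic`, `Two` (`m = 60`), if `π' W (x 2) ≠ 0` then `Z75_intro`, `Z75_false`; so `π' W (x 2) = 0`, `GPic.zero_top`, `Stg.raise_cnt` (`interval_cases k`, `omega`;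
  `240 i + 300 j` is divisible by 60 and `k ∣ 60`). `ne`: `0^6`. At `W = 361`: `final_sq` with `t = 540` (`540 + 901 > 1440`), `X X ≠ 0` from `gS (0^6) ≠ 0`.
-/

namespace JD

universe u

variable {F : Type u} [Field F] {J : Type u} [NonUnitalNonAssocCommRing J] [Module F J]
  [IsScalarTower F J J] [SMulCommClass F J J] {x : Fin 3 → J} {S : List (Fin 3) → J} {e : J}
  {A : Type u} [NonUnitalNonAssocCommRing A] [Module F A] [IsScalarTower F A A]
  [SMulCommClass F A A] {D : ℕ → Submodule F A} {π : ℕ → J →ₗ[F] A}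
  {A' : Type u} [NonUnitalNonAssocCommRing A'] [Module F A'] [IsScalarTower F A' A']
  [SMulCommClass F A' A'] {D' : ℕ → Submodule F A'} {π' : ℕ → J →ₗ[F] A'}

private theorem C75Z_wt6 (a : Fin 3 → ℕ) : wt a (List.replicate 6 0) = 6 * a 0 := by
  rw [(wt_cnt a _).1]
  simp [List.count_replicate]
  ring

private theorem C75Z_sq {a : Fin 3 → ℕ} {N : ℕ} (h2 : (2 : F) ≠ 0) (h : Stg F x S a N e)
    (G : GPic F (wfil F S a) N A D π) (hx : S (List.replicate 6 0) ≠ 0) (hN : N = 6 * a 0) :
    π (a 0) (x 0) * π (a 0) (x 0) ≠ 0 := by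
  intro hcon
  apply hx
  have hsys := G.sys h
  have e4 : ∀ n, gS S a π (List.replicate (n + 2) 0) = 0 := by
    intro n
    induction n with
    | zero =>
      have e1 : (List.replicate (0 + 2) (0 : Fin 3)) = [0, 0] := rfl
      rw [e1, hsys.pair h2]
      exact hcon
    | succ n ih =>
      have := hsys.succ h2 0 (n + 1)
      rw [this, ih, mul_zero]
  exact G.gS_top h _ (by rw [C75Z_wt6, hN]) (e4 4)

private theorem C75Z_main [Infinite F] (hcr : Crit F J 6 e) (h : Stg F x S ![4, 5, 5] 24 e)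
    (G : GPic F (wfil F S ![4, 5, 5]) 24 A D π) (hx : S (List.replicate 6 0) ≠ 0)
    (hW : D 5 ≠ ⊥) (hz : π 5 (x 2) = 0) : False := by
  have h2 := hcr.two
  have hfin := hcr.fin
  have stage : ∀ W, 301 ≤ W → W ≤ 361 → Stg F x S ![240, 300, W] 1440 e := by
    intro W hW1
    induction W, hW1 using Nat.le_induction with
    | base =>
      intro _
      refine h.raise_cnt hcr (fun i => i = 2) ?_ _ _ ?_ ?_ ?_
      · rintro i rfl w hw hiw
        exact G.zero_top h2 h (i := 2) hz w hw hiw
      · intro i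
        fin_cases i <;> simp
      · intro i j k hijk hlt
        simp only [Matrix.cons_val_zero, Matrix.cons_val_one, Matrix.cons_val] at hlt ⊢
        simp only [true_and]
        omega
      · exact ⟨_, by rw [C75Z_wt6]; rfl, hx⟩
    | succ W hW1 ih =>
      intro hW2
      have hs := ih (by omega)
      obtain ⟨A', i1, i2, i3, i4, D', π', G'⟩ := exists_GPic h2 hcr.jordan hs
      have hz' : π' W (x 2) = 0 := by
        by_contra hne
        refine Z75_false (Z75_intro hcr (w := W) (S := S) (x := x) (D := D) (π := π)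
          (D' := D') (π' := π') ?_ hx hW hW1 (by omega) hne)
        exact
          { hm := by norm_num
            st := h
            st' := hs
            G := G
            G' := G'
            a0 := rfl
            a1 := rfl
            hN := rfl
            SS := fun _ _ => rfl
            z0 := hz }
      refine hs.raise_cnt hcr (fun i => i = 2) ?_ _ _ ?_ ?_ ?_
      · rintro i rfl w hw hiw
        exact G'.zero_top h2 hs (i := 2) hz' w hw hiw
      · intro i
        fin_cases i <;> simp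
      · intro i j k hijk hlt
        simp only [Matrix.cons_val_zero, Matrix.cons_val_one, Matrix.cons_val] at hlt ⊢
        simp only [true_and]
        have hk : k ≤ 6 := by omega
        interval_cases k <;> omega
      · exact ⟨_, by rw [C75Z_wt6]; rfl, hx⟩
  have hs := stage 361 (by norm_num) le_rfl
  obtain ⟨A', i1, i2, i3, i4, D', π', G'⟩ := exists_GPic h2 hcr.jordan hs
  exact final_sq hcr hs G' (by decide) (by decide) 540 (by decide) (by decide)
    (by decide) (by decide) (C75Z_sq h2 hs G' hx rfl)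

theorem C75_false [Infinite F] (hcr : Crit F J 6 e) (h : Stg F x S ![4, 5, 5] 24 e)
    (G : GPic F (wfil F S ![4, 5, 5]) 24 A D π) (hx : S (List.replicate 6 0) ≠ 0)
    (hW : D 5 ≠ ⊥) : False := by
  have h2 := hcr.two
  have hdim := C75_dim hcr h G hx hW
  have hm1 : π 5 (x 1) ∈ D 5 := by
    have := G.gS_mem h [1] (by simp)
    rw [gS, h.sys.single] at this
    exact this
  have hm2 : π 5 (x 2) ∈ D 5 := by
    have := G.gS_mem h [2] (by simp)
    rw [gS, h.sys.single] at this
    exact this
  have hne : ¬ (π 5 (x 1) = 0 ∧ π 5 (x 2) = 0) := by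
    rintro ⟨h3, h4⟩
    apply hW
    rw [G.D_eq h (by norm_num), eq_bot_iff, Submodule.span_le]
    rintro _ ⟨w, hw, rfl⟩
    have hw' : wt ![4, 5, 5] w = 5 := hw
    have e1 := wt_cnt ![4, 5, 5] w
    simp only [Matrix.cons_val_zero, Matrix.cons_val_one, Matrix.cons_val] at e1
    have hl : w.length = 1 := by omega
    obtain ⟨i, rfl⟩ := List.length_eq_one_iff.1 hl
    change gS S ![4, 5, 5] π [i] ∈ (⊥ : Submodule F A)
    rw [Submodule.mem_bot, gS, h.sys.single]
    fin_cases i
    · simp [wt] at hw'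
    · exact h3
    · exact h4
  obtain ⟨v, hv0, hv⟩ := finrank_eq_one_iff'.mp hdim
  obtain ⟨s1, hs1⟩ := hv ⟨_, hm1⟩
  obtain ⟨s2, hs2⟩ := hv ⟨_, hm2⟩
  have hs1' : s1 • (v : A) = π 5 (x 1) := congrArg Subtype.val hs1
  have hs2' : s2 • (v : A) = π 5 (x 2) := congrArg Subtype.val hs2
  obtain ⟨α, β, hdet⟩ : ∃ α β : F, α * s1 - β * (-s2) ≠ 0 := by
    by_cases h3 : s1 = 0
    · refine ⟨0, 1, ?_⟩
      intro h4
      apply hne
      have h5 : s2 = 0 := by simpa using h4
      rw [← hs1', ← hs2', h3, h5, zero_smul]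
      exact ⟨rfl, rfl⟩
    · exact ⟨1, 0, by simpa using h3⟩
  obtain ⟨S', h1, hwf⟩ := h.lin hcr rfl α β (-s2) s1 hdet
  have G1 : GPic F (wfil F S' ![4, 5, 5]) 24 A D π := by rw [hwf]; exact G
  refine C75Z_main hcr h1 G1 ?_ hW ?_
  · rw [h1.sys.unique h2 h.sys (fun i => i = 0) (by rintro i rfl; rfl) _
      (fun i hi => List.eq_of_mem_replicate hi)]
    exact hx
  · change π 5 ((-s2) • x 1 + s1 • x 2) = 0
    rw [map_add, map_smul, map_smul, ← hs1', ← hs2', smul_smul, smul_smul, ← add_smul]
    have : -s2 * s1 + s1 * s2 = 0 := by ring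
    rw [this, zero_smul]

end JD
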