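import Pool.Agent.H74.JD.C80A

set_option autoImplicit false
set_option linter.unusedSectionVars false

/-!
# JD C80: one essential letter, the stage `(3, 4, 4)`, `N = 18`: contradiction (helper74)

(`C80_special` is (1), `C80_false` combines `C80_rel`, `C80_stg`, (1) and (2).)
`C80_false`. PROOF. `a = ![3, 4, 4]`. `exists_GPic` for `h`: `A, D, π`; `π 6 (x 0 * x 0) ≠ 0` (`gS (0^6) ≠ 0` by `GPic.gS_top`, `SSys.succ`). `P : EPic` (`crit_EPic`), `EPic.quad`: `r = ∑ c i j • X i X j + G`, `G ∈ ge 1 3`, `c` symmetric. Apply `ρ` (`P.rho_r`, `ρ (X i X j) = x i * x j`): `x 0 * x 0` has weight 6, `x 0 * x i` (`i = 1, 2`)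
weight 7, the others and `ρ G ∈ wfil a 9` weight `≥ 8`. So `c 0 0 • (x 0 * x 0) ∈ wfil a 7`, `π 6` gives `c 0 0 = 0`; and (REL) `2 c 0 1 • (x 0 * x 1) + 2 c 0 2 • (x 0 * x 2) ∈ wfil a 8`.
`e = ρ (r * word [0,1,2])` (`rho_r_word`, `det3 = 1`) `= c 0 1 • (S [0,1,0,1,2] + S [1,0,0,1,2]) + c 0 2 • (S [0,2,0,1,2] + S [2,0,0,1,2])` + elements of `wfil a (8 + 11) = ⊥` (SUM). As `e ≠ 0`, one of the four words `v` has `S v ≠ 0`; its weight for `a' = ![60, 81, 81]` is `2 * 60 + 3 * 81 = 363`.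
`h' : Stg F x S ![60, 81, 81] 363 e`: `Stg.raise_cnt` with `L = (fun _ => False)`: `363 < 60 i + 81 j + 81 k`, `i + j + k ≤ 6` implies `18 < 3 i + 4 j + 4 k`. [`60 i + 80 m = 20 (3 i + 4 m)`, `m = j + k ≤ 6`: if `3 i + 4 m ≤ 17` then `60 i + 81 m ≤ 340 + 6`; if `3 i + 4 m = 18` then `m ≤ 3`: `60 i + 81 m ≤ 363`.]
`exists_GPic` for `h'`: `A', D', π'`. `wfil F S a 8 ≤ wfil F S a' 142` (`3 i + 4 m ≥ 8` implies `60 i + 81 m ≥ 160`), so by (REL) `X' * (c 0 1 • Y' + c 0 2 • Z') = 0` in `A'` (`X' = π' 60 (x 0)`, `Y' = π' 81 (x 1)`, `Z' = π' 81 (x 2)`; `π' 141` kills `wfil F S a' 142`).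
(1) `A'` is special by `hcr.min`: `Module.Finite`, `IsJordan` (`gf`), `finrank A' ≤ finrank J` (`GPic.A_finrank_le`, `GPic.dim`), `jpow F A' 6 = ⊥`: `wfil_one_eq_jpow` for `gS S a' π'` (`GPic.sys`, `GPic.A_gen`): the span of the `gS w` with `|w| ≥ 6`; `gS w = 0` for those: if `wt a' w > 363` then `S w = 0`; otherwise
  `w = 0^6` (`wt_cnt`), weight 360, and `S (0^6) ∈ F e = wfil F S a' 363 ≤ wfil F S a' 361` (weight 18 for `a`: `h.top`), killed by `π' 360` (`GPic.kill`). `IsNilpotentAlg`: `jpow F A' 6 = ⊥`.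
(2) Let `f : A' → B` be injective with `f (b b') = (f b f b' + f b' f b)/2`; `g : A' → Unitization F B` as in `crit_hFu` (file `CritPic.lean`). `CritPic_zero g h2 hgm (G'.sys h') ...`: `2 g (gS w) = word w + word w.reverse` for `w ≠ []` (words in `X = g X', Y = g Y', Z = g Z'`). `Q := c 0 1 (X Y + Y X) + c 0 2 (X Z + Z X) = 2 g (X' (c 0 1 Y' + c 0 2 Z')) = 0`. (SUM) and `π' 363`:
  `2 g (π' 363 e) = Q X Y Z + Z Y X Q = 0`, so `π' 363 e = 0`, so `e = 0` (`GPic.inj`), contradiction.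
-/

namespace JD

universe u

variable {F : Type u} [Field F] {J : Type u} [NonUnitalNonAssocCommRing J] [Module F J]
  [IsScalarTower F J J] [SMulCommClass F J J] {x : Fin 3 → J} {S : List (Fin 3) → J} {e : J}

theorem C80_special (hcr : Crit F J 6 e) (h : Stg F x S ![3, 4, 4] 18 e)
    (h' : Stg F x S ![60, 81, 81] 363 e)
    {A' : Type u} [NonUnitalNonAssocCommRing A'] [Module F A'] [IsScalarTower F A' A']
    [SMulCommClass F A' A'] {D' : ℕ → Submodule F A'} {π' : ℕ → J →ₗ[F] A'}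
    (G' : GPic F (wfil F S ![60, 81, 81]) 363 A' D' π') : IsSpecial.{u, u, u} F A' := by
  have hj : jpow F A' 6 = ⊥ := by
    rw [← wfil_one_eq_jpow hcr.two (G'.sys h') (G'.A_gen h'), eq_bot_iff, wfil, Submodule.span_le]
    rintro _ ⟨w, hw, rfl⟩
    have hw' : 6 ≤ wt (fun _ => 1) w := hw
    rw [wt_one] at hw'
    have e1 := wt_cnt ![60, 81, 81] w
    have e3 := wt_cnt ![3, 4, 4] w
    simp only [Matrix.cons_val_zero, Matrix.cons_val_one, Matrix.cons_val] at e1 e3
    change gS S ![60, 81, 81] π' w ∈ (⊥ : Submodule F A')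
    rw [Submodule.mem_bot]
    rcases Nat.lt_or_ge 363 (wt ![60, 81, 81] w) with h1 | h1
    · rw [gS, h'.van w h1, map_zero]
    · have h3 : S w ∈ wfil F S ![60, 81, 81] 361 := by
        have h4 := h.top w (by omega)
        rw [← h'.wfil_top] at h4
        exact wfil_anti (by norm_num) h4
      have h5 : wt ![60, 81, 81] w = 360 := by omega
      rw [gS, h5]
      exact G'.kill 360 (by norm_num) _ h3
  exact hcr.min A' _ _ _ _ G'.gf.fin G'.gf.jordan ⟨6, by norm_num, hj⟩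
    (G'.A_finrank_le.trans G'.dim) hj

theorem C80_false [Infinite F] (hcr : Crit F J 6 e) (h : Stg F x S ![3, 4, 4] 18 e)
    (hx : S (List.replicate 6 0) ≠ 0) : False := by
  have h2 := hcr.two
  have hfin := hcr.fin
  obtain ⟨c1, c2, hrel, he⟩ := C80_rel hcr h hx
  have h' := C80_stg hcr h he
  obtain ⟨A', i1, i2, i3, i4, D', π', G'⟩ := exists_GPic h2 hcr.jordan h'
  obtain ⟨B, b1, b2, b3, b4, f, hinj, hf⟩ := C80_special hcr h h' G'
  set g : A' →ₗ[F] Unitization F B := (Unitization.inrHom F F B) ∘ₗ f with hg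
  have hgm : ∀ a b : A', (2 : F) • g (a * b) = g a * g b + g b * g a := by
    intro a b
    simp only [hg, LinearMap.comp_apply, hf]
    rw [map_smul, smul_smul, mul_inv_cancel₀ h2, one_smul, map_add]
    simp [Unitization.inr_mul]
  have hgi : ∀ a : A', g a = 0 → a = 0 := by
    intro a ha
    have h6 : (Unitization.inr (f a) : Unitization F B) = 0 := ha
    have h7 : f a = 0 := Unitization.inr_injective (by rw [h6, Unitization.inr_zero])
    exact hinj (by rw [h7, map_zero])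
  have hsys := G'.sys h'
  set X : Fin 3 → Unitization F B := fun i => g (π' (![60, 81, 81] i) (x i)) with hX
  have hz : ∀ v : List (Fin 3), v ≠ [] → (2 : F) • g (gS S ![60, 81, 81] π' v) =
      word X v + word X v.reverse := by
    intro v hv
    have := CritPic_zero g h2 hgm hsys v.length v rfl hv
    unfold CritPic_D at this
    rw [sub_sub, sub_eq_zero] at this
    exact this
  -- the relation
  have hmem : ∀ i : Fin 3, x i ∈ wfil F S ![60, 81, 81] (![60, 81, 81] i) := by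
    intro i
    rw [← h.sys.single i]
    exact mem_wfil (by simp)
  have hle : wfil F S ![3, 4, 4] 8 ≤ wfil F S ![60, 81, 81] 142 := by
    refine Submodule.span_mono ?_
    rintro _ ⟨w, hw, rfl⟩
    have hw' : 8 ≤ wt ![3, 4, 4] w := hw
    refine ⟨w, ?_, rfl⟩
    have e1 := wt_cnt ![60, 81, 81] w
    have e3 := wt_cnt ![3, 4, 4] w
    simp only [Matrix.cons_val_zero, Matrix.cons_val_one, Matrix.cons_val] at e1 e3
    change 142 ≤ wt ![60, 81, 81] w
    omega
  have e1 : π' 141 (x 0 * x 1) = π' 60 (x 0) * π' 81 (x 1) :=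
    G'.mul 60 81 (by norm_num) (by norm_num) _ (hmem 0) _ (hmem 1)
  have e2 : π' 141 (x 0 * x 2) = π' 60 (x 0) * π' 81 (x 2) :=
    G'.mul 60 81 (by norm_num) (by norm_num) _ (hmem 0) _ (hmem 2)
  have e3 : c1 • (π' 60 (x 0) * π' 81 (x 1)) + c2 • (π' 60 (x 0) * π' 81 (x 2)) = 0 := by
    have := G'.kill 141 (by norm_num) _ (hle hrel)
    rw [map_add, map_smul, map_smul, e1, e2] at this
    exact this
  have hQ : c1 • (X 0 * X 1 + X 1 * X 0) + c2 • (X 0 * X 2 + X 2 * X 0) = 0 := by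
    have := congrArg (fun t => (2 : F) • g t) e3
    simp only [map_add, map_smul, map_zero, smul_zero, smul_add] at this
    rw [smul_comm (2 : F) c1, smul_comm (2 : F) c2, hgm, hgm] at this
    rw [← this, smul_add, smul_add, smul_add, smul_add]
    rfl
  -- the value
  have hv : ∀ v : List (Fin 3), wt ![60, 81, 81] v = 363 →
      gS S ![60, 81, 81] π' v = π' 363 (S v) := by
    intro v hv
    rw [gS, hv]
  have e4 : (2 : F) • g (π' 363 e) = 0 := by
    rw [he]
    simp only [map_add, map_smul]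
    rw [← hv [0, 1, 0, 1, 2] rfl, ← hv [1, 0, 0, 1, 2] rfl, ← hv [0, 2, 0, 1, 2] rfl,
      ← hv [2, 0, 0, 1, 2] rfl]
    have e5 : (2 : F) • (c1 • (g (gS S ![60, 81, 81] π' [0, 1, 0, 1, 2]) +
        g (gS S ![60, 81, 81] π' [1, 0, 0, 1, 2])) +
        c2 • (g (gS S ![60, 81, 81] π' [0, 2, 0, 1, 2]) +
        g (gS S ![60, 81, 81] π' [2, 0, 0, 1, 2]))) =
        c1 • ((2 : F) • g (gS S ![60, 81, 81] π' [0, 1, 0, 1, 2]) +
        (2 : F) • g (gS S ![60, 81, 81] π' [1, 0, 0, 1, 2])) +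
        c2 • ((2 : F) • g (gS S ![60, 81, 81] π' [0, 2, 0, 1, 2]) +
        (2 : F) • g (gS S ![60, 81, 81] π' [2, 0, 0, 1, 2])) := by module
    rw [e5, hz _ (by simp), hz _ (by simp), hz _ (by simp), hz _ (by simp)]
    have e6 : c1 • (word X [0, 1, 0, 1, 2] + word X [0, 1, 0, 1, 2].reverse +
        (word X [1, 0, 0, 1, 2] + word X [1, 0, 0, 1, 2].reverse)) +
        c2 • (word X [0, 2, 0, 1, 2] + word X [0, 2, 0, 1, 2].reverse +
        (word X [2, 0, 0, 1, 2] + word X [2, 0, 0, 1, 2].reverse)) =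
        (c1 • (X 0 * X 1 + X 1 * X 0) + c2 • (X 0 * X 2 + X 2 * X 0)) * (X 0 * (X 1 * X 2)) +
        (X 2 * (X 1 * X 0)) * (c1 • (X 0 * X 1 + X 1 * X 0) + c2 • (X 0 * X 2 + X 2 * X 0)) := by
      simp only [word, List.reverse_cons, List.reverse_nil, List.nil_append, List.cons_append,
        List.map_cons, List.map_nil, List.prod_cons, List.prod_nil, mul_one, mul_add, add_mul,
        smul_mul_assoc, mul_smul_comm, mul_assoc]
      module
    rw [e6, hQ, zero_mul, mul_zero, add_zero]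
  have e7 : g (π' 363 e) = 0 := CritPic_half h2 e4
  have e8 := G'.inj e (by rw [h'.wfil_top]; exact Submodule.mem_span_singleton_self e) (hgi _ e7)
  exact h.e0 e8

end JD
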