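import Pool.Agent.H74.JD.FMain
import Pool.Agent.H74.JD.C72Z
import Pool.Agent.H74.JD.C75Z
import Pool.Agent.H74.JD.C80

set_option autoImplicit false
set_option linter.unusedSectionVars false

/-!
# JD C6: class 6, three generators: assembly (helper74)

* `C_false` (`finrank (D 1) = 1`). PROOF. `v0 ∈ D 1` nonzero, `exists_adapted1` gives `x`, `exists_Stg_of_basis` gives `S` and the first stage (`a = 1`, `N = 6`), picture `G` (rewrite `wfil = jpow`); `π 1 (x 1) = π 1 (x 2) = 0`, so words of length 6 that contain 1 or 2 vanish (`GPic.zero_top`), so `h.ne` gives `S 0^6 ≠ 0`.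
  CLAIM: `Stg F x S ![60, b, b] 360 e` for `61 ≤ b ≤ 80` (induction on `b`, this `x` and `S`). Base: `Stg.raise_cnt` from the first stage, `L = (· ≠ 0)`. Step `b → b + 1` (`b ≤ 79`):
  - `b = 72`: `Stg F x S ![5, 6, 6] 30 e` by `Stg.raise_cnt` with `L = (fun _ => False)` (`30 < 5 i + 6 j + 6 k` implies `360 < 60 i + 72 j + 72 k`), `exists_GPic`. If `D 6 ≠ ⊥`: `C72_false`. Otherwise `π 6 (x 1) = π 6 (x 2) = 0` (`GPic.gS_mem` for `[1]`, `[2]`), `GPic.zero_top`, `Stg.raise_cnt` from `![5, 6, 6]`, 30 to `![60, 73, 73]`, 360, `L = (· ≠ 0)`.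
  - `b = 75`: the same with `![4, 5, 5]`, 24 and `C75_false`.
  - other `b`: `exists_GPic` for `![60, b, b]`. If `D b ≠ ⊥`: `GPic.compl`: `360 = b + 60 i + b j` (`wt_cnt`), so `(j + 1) b = 60 (6 - i)`, `61 ≤ b ≤ 79`: `b = 72` or `b = 75` (`interval_cases`/`omega`), contradiction. So `D b = ⊥`, `π b (x 1) = π b (x 2) = 0`, `GPic.zero_top`, `Stg.raise_cnt` with `L = (· ≠ 0)`
    (`360 < 60 i + (b+1)(j + k)` implies `360 < 60 i + b (j + k)` or `= 360` and `j + k ≥ 1`: `interval_cases (j + k)`).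
  At `b = 80`: `Stg F x S ![3, 4, 4] 18 e` by `Stg.raise_cnt` (`L = (fun _ => False)`), `C80_false`.
* `crit_n3_c6_H`: `first_pic`: `A, D, π, hG, G`. `finrank (D 1) ≤ 3` (`D1_le`). `= 3`: `H6_three` and `lay_sum` (`finrank (D 6) = 1`). `= 2`: `F_false`. `= 1`: `C_false`. `= 0`: `D 1 = ⊥`, so `D 2 = ⊥` (`gen2`), `D n = ⊥` (`gen`), contradiction to `finrank (D 6) = 1`.
-/

namespace JD

universe u

variable {F : Type u} [Field F] {J : Type u} [NonUnitalNonAssocCommRing J] [Module F J]
  [IsScalarTower F J J] [SMulCommClass F J J] {e : J}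
  {A : Type u} [NonUnitalNonAssocCommRing A] [Module F A] [IsScalarTower F A A]
  [SMulCommClass F A A] {D : ℕ → Submodule F A} {π : ℕ → J →ₗ[F] A}

/-- the weight of a constant word -/
private theorem C6_wt_replicate (a : Fin 3 → ℕ) (n : ℕ) :
    wt a (List.replicate n 0) = n * a 0 := by
  simp [wt]

private theorem C6_wt_one (w : List (Fin 3)) : wt (fun _ => 1) w = w.length := by
  simp [wt]

/-- raising the weights when the letters `1, 2` are killed at the top -/
private theorem C6_raise (hcr : Crit F J 6 e) {x : Fin 3 → J} {S : List (Fin 3) → J}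
    {a : Fin 3 → ℕ} {N : ℕ} (h : Stg F x S a N e)
    (hL : ∀ i : Fin 3, i ≠ 0 → ∀ w : List (Fin 3), wt a w = N → i ∈ w → S w = 0)
    (p q N' : ℕ) (hp : 1 ≤ p) (hq : 1 ≤ q) (hx : S (List.replicate 6 0) ≠ 0) (h6 : 6 * p = N')
    (hc : ∀ i m : ℕ, i + m ≤ 6 → N' < p * i + q * m →
      N < a 0 * i + a 1 * m ∨ (a 0 * i + a 1 * m = N ∧ 1 ≤ m)) (h12 : a 2 = a 1) :
    Stg F x S ![p, q, q] N' e := by
  refine Stg.raise_cnt hcr h (fun i => i ≠ 0) hL ![p, q, q] N' ?_ ?_ ?_
  · intro i
    fin_cases i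
    · exact hp
    · exact hq
    · exact hq
  · intro i j k hs hlt
    have e0 : (![p, q, q] : Fin 3 → ℕ) 0 = p := rfl
    have e1 : (![p, q, q] : Fin 3 → ℕ) 1 = q := rfl
    have e3 : (![p, q, q] : Fin 3 → ℕ) 2 = q := rfl
    rw [e0, e1, e3] at hlt
    have h3 := hc i (j + k) (by omega) (by rw [mul_add]; omega)
    rw [h12]
    rcases h3 with h3 | ⟨h3, h4⟩
    · left
      rw [mul_add] at h3
      omega
    · right
      rw [mul_add] at h3
      refine ⟨by omega, ?_⟩
      rcases Nat.eq_zero_or_pos j with hj | hj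
      · right; right
        exact ⟨by decide, by omega⟩
      · right; left
        exact ⟨by decide, hj⟩
  · refine ⟨List.replicate 6 0, ?_, hx⟩
    rw [C6_wt_replicate]
    exact h6

/-- lowering the weights -/
private theorem C6_lower (hcr : Crit F J 6 e) {x : Fin 3 → J} {S : List (Fin 3) → J}
    {a : Fin 3 → ℕ} {N : ℕ} (h : Stg F x S a N e)
    (p q N' : ℕ) (hp : 1 ≤ p) (hq : 1 ≤ q) (hx : S (List.replicate 6 0) ≠ 0) (h6 : 6 * p = N')
    (hc : ∀ i m : ℕ, i + m ≤ 6 → N' < p * i + q * m → N < a 0 * i + a 1 * m)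
    (h12 : a 2 = a 1) :
    Stg F x S ![p, q, q] N' e := by
  refine Stg.raise_cnt hcr h (fun _ => False) (fun i hi => hi.elim) ![p, q, q] N' ?_ ?_ ?_
  · intro i
    fin_cases i
    · exact hp
    · exact hq
    · exact hq
  · intro i j k hs hlt
    have e0 : (![p, q, q] : Fin 3 → ℕ) 0 = p := rfl
    have e1 : (![p, q, q] : Fin 3 → ℕ) 1 = q := rfl
    have e3 : (![p, q, q] : Fin 3 → ℕ) 2 = q := rfl
    rw [e0, e1, e3] at hlt
    have h3 := hc i (j + k) (by omega) (by rw [mul_add]; omega)
    rw [h12]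
    left
    rw [mul_add] at h3
    omega
  · refine ⟨List.replicate 6 0, ?_, hx⟩
    rw [C6_wt_replicate]
    exact h6

/-- if the layer of the letters `1, 2` vanishes then they are killed at the top -/
private theorem C6_zero (hcr : Crit F J 6 e) {x : Fin 3 → J} {S : List (Fin 3) → J}
    {p q N : ℕ} (h : Stg F x S ![p, q, q] N e)
    {A : Type u} [NonUnitalNonAssocCommRing A] [Module F A] [IsScalarTower F A A]
    [SMulCommClass F A A] {D : ℕ → Submodule F A} {π : ℕ → J →ₗ[F] A}
    (G : GPic F (wfil F S ![p, q, q]) N A D π) (hD : D q = ⊥) :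
    ∀ i : Fin 3, i ≠ 0 → ∀ w : List (Fin 3), wt ![p, q, q] w = N → i ∈ w → S w = 0 := by
  intro i hi w hw hiw
  refine GPic.zero_top hcr.two h G (i := i) ?_ w hw hiw
  have h1 := G.gS_mem h [i] (by simp)
  have h3 : wt ![p, q, q] [i] = q := by
    fin_cases i
    · exact absurd rfl hi
    · rfl
    · rfl
  have h4 : (![p, q, q] : Fin 3 → ℕ) i = q := by
    fin_cases i
    · exact absurd rfl hi
    · rfl
    · rfl
  unfold gS at h1
  rw [h3, hD, Submodule.mem_bot, h.sys.single] at h1
  rw [h4]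
  exact h1

/-- one step of the sweep -/
private theorem C6_step [Infinite F] (hcr : Crit F J 6 e) {x : Fin 3 → J}
    {S : List (Fin 3) → J} (hx : S (List.replicate 6 0) ≠ 0) {b : ℕ} (hb : 61 ≤ b)
    (hb' : b ≤ 79) (h : Stg F x S ![60, b, b] 360 e) :
    Stg F x S ![60, b + 1, b + 1] 360 e := by
  haveI := hcr.fin
  by_cases h72 : b = 72
  · subst h72
    have h5 : Stg F x S ![5, 6, 6] 30 e :=
      C6_lower hcr h 5 6 30 (by norm_num) (by norm_num) hx (by norm_num)
        (by
          intro i m hs hlt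
          change 360 < 60 * i + 72 * m
          omega) rfl
    obtain ⟨A, i1, i2, i3, i4, D, π, G⟩ := exists_GPic hcr.two hcr.jordan h5
    by_cases hD : D 6 = ⊥
    · refine C6_raise hcr h5 (C6_zero hcr h5 G hD) 60 73 360 (by norm_num) (by norm_num) hx
        (by norm_num) ?_ rfl
      intro i m hs hlt
      change 30 < 5 * i + 6 * m ∨ (5 * i + 6 * m = 30 ∧ 1 ≤ m)
      omega
    · exact (C72_false hcr h5 G hx hD).elim
  by_cases h75 : b = 75
  · subst h75
    have h5 : Stg F x S ![4, 5, 5] 24 e :=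
      C6_lower hcr h 4 5 24 (by norm_num) (by norm_num) hx (by norm_num)
        (by
          intro i m hs hlt
          change 360 < 60 * i + 75 * m
          omega) rfl
    obtain ⟨A, i1, i2, i3, i4, D, π, G⟩ := exists_GPic hcr.two hcr.jordan h5
    by_cases hD : D 5 = ⊥
    · refine C6_raise hcr h5 (C6_zero hcr h5 G hD) 60 76 360 (by norm_num) (by norm_num) hx
        (by norm_num) ?_ rfl
      intro i m hs hlt
      change 24 < 4 * i + 5 * m ∨ (4 * i + 5 * m = 24 ∧ 1 ≤ m)
      omega
    · exact (C75_false hcr h5 G hx hD).elim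
  obtain ⟨A, i1, i2, i3, i4, D, π, G⟩ := exists_GPic hcr.two hcr.jordan h
  by_cases hD : D b = ⊥
  · refine C6_raise hcr h (C6_zero hcr h G hD) 60 (b + 1) 360 (by norm_num) (by omega) hx
      (by norm_num) ?_ rfl
    intro i m hs hlt
    change 360 < 60 * i + b * m ∨ (60 * i + b * m = 360 ∧ 1 ≤ m)
    have hm : m ≤ 6 := by omega
    interval_cases m <;> omega
  · exfalso
    obtain ⟨v, w, -, hw⟩ := G.compl h (by omega : 1 ≤ b) hD
    obtain ⟨h3, -⟩ := wt_cnt ![60, b, b] w
    have e0 : (![60, b, b] : Fin 3 → ℕ) 0 = 60 := rfl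
    have e1 : (![60, b, b] : Fin 3 → ℕ) 1 = b := rfl
    have e3 : (![60, b, b] : Fin 3 → ℕ) 2 = b := rfl
    rw [e0, e1, e3] at h3
    generalize w.count 0 = i at h3
    generalize w.count 1 = j at h3
    generalize w.count 2 = k at h3
    have h4 : 60 * i + b * (j + k + 1) = 360 := by
      rw [mul_add, mul_add]
      omega
    generalize hm : j + k + 1 = m at h4
    have hm1 : 1 ≤ m := by omega
    have hm6 : m ≤ 5 := by
      by_contra hcon
      have : b * 6 ≤ b * m := Nat.mul_le_mul_left b (by omega)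
      omega
    interval_cases m <;> omega

theorem C_false [IsAlgClosed F] (hcr : Crit F J 6 e) (hn : ngen F J = 3) (hG : GJ F A 6 D)
    (G : GPic F (jpow F J) 6 A D π) (h1 : Module.finrank F (D 1) = 1) : False := by
  haveI : Infinite F := IsAlgClosed.instInfinite
  haveI := hcr.fin
  obtain ⟨⟨v0, hv0⟩, hv0', -⟩ := finrank_eq_one_iff'.1 h1
  have hv : v0 ≠ 0 := fun h => hv0' (Subtype.ext h)
  obtain ⟨x, hi, -, hx1, hx3⟩ := exists_adapted1 hcr hn G h1 v0 hv0 hv
  obtain ⟨S, hS, hwf⟩ := exists_Stg_of_basis hcr hn x hi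
  have G' : GPic F (wfil F S (fun _ => 1)) 6 A D π := by rw [hwf]; exact G
  have hL : ∀ i : Fin 3, i ≠ 0 → ∀ w : List (Fin 3), wt (fun _ => 1) w = 6 → i ∈ w →
      S w = 0 := by
    intro i hi0 w hw hiw
    refine GPic.zero_top hcr.two hS G' (i := i) ?_ w hw hiw
    fin_cases i
    · exact absurd rfl hi0
    · exact hx1
    · exact hx3
  have hx : S (List.replicate 6 0) ≠ 0 := by
    obtain ⟨w, hw, hSw⟩ := hS.ne
    have h3 : w = List.replicate 6 0 := by
      rw [List.eq_replicate_iff]
      refine ⟨by rw [← C6_wt_one]; exact hw, fun i hiw => ?_⟩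
      by_contra hi0
      exact hSw (hL i hi0 w hw hiw)
    rw [← h3]
    exact hSw
  have base : Stg F x S ![60, 61, 61] 360 e := by
    refine C6_raise hcr hS hL 60 61 360 (by norm_num) (by norm_num) hx (by norm_num) ?_ rfl
    intro i m hs hlt
    change 6 < 1 * i + 1 * m ∨ (1 * i + 1 * m = 6 ∧ 1 ≤ m)
    omega
  have key : ∀ b, 61 ≤ b → b ≤ 80 → Stg F x S ![60, b, b] 360 e := by
    intro b hb
    induction b, hb using Nat.le_induction with
    | base => intro _; exact base
    | succ b hb ih => intro hb'; exact C6_step hcr hx hb (by omega) (ih (by omega))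
  have h80 := key 80 (by norm_num) le_rfl
  have h3 : Stg F x S ![3, 4, 4] 18 e :=
    C6_lower hcr h80 3 4 18 (by norm_num) (by norm_num) hx (by norm_num)
      (by
        intro i m hs hlt
        change 360 < 60 * i + 80 * m
        omega) rfl
  exact C80_false hcr h3 hx

theorem crit_n3_c6_H [IsAlgClosed F] (hcr : Crit F J 6 e) (hn : ngen F J = 3) : False := by
  haveI : Infinite F := IsAlgClosed.instInfinite
  obtain ⟨A, i1, i2, i3, i4, D, π, hG, G⟩ := first_pic hcr
  have hle := D1_le hcr hn G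
  have hsum := lay_sum hcr hn G
  have htop := hG.top
  haveI := hG.fin
  rcases Nat.lt_or_ge (Module.finrank F (D 1)) 1 with h0 | h0
  · -- the layer `D 1` is zero
    have hD1 : D 1 = ⊥ := Submodule.finrank_eq_zero.1 (by omega)
    have hD2 : D 2 = ⊥ := by
      rw [eq_bot_iff]
      refine hG.gen2 ⊥ ?_
      intro v hv w _
      rw [hD1, Submodule.mem_bot] at hv
      rw [hv, zero_mul]
      exact Submodule.zero_mem _
    have hD : ∀ n, 1 ≤ n → D n = ⊥ := by
      intro n
      induction n using Nat.strong_induction_on with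
      | _ n ih =>
        intro hn1
        rcases Nat.lt_or_ge n 3 with h3 | h3
        · interval_cases n
          · exact hD1
          · exact hD2
        · rw [eq_bot_iff]
          refine hG.gen n h3 ⊥ ?_ ?_
          · intro v hv h _
            rw [hD1, Submodule.mem_bot] at hv
            rw [hv, zero_mul]
            exact Submodule.zero_mem _
          · intro q hq h _
            rw [hD2, Submodule.mem_bot] at hq
            rw [hq, zero_mul]
            exact Submodule.zero_mem _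
    rw [hD 6 (by norm_num), finrank_bot] at htop
    exact absurd htop (by norm_num)
  rcases Nat.lt_or_ge (Module.finrank F (D 1)) 2 with h3 | h3
  · exact C_false hcr hn hG G (by omega)
  rcases Nat.lt_or_ge (Module.finrank F (D 1)) 3 with h4 | h4
  · exact F_false hcr hn hG G (by omega)
  · have := H6_three hG (by omega)
    omega

end JD
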