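import Pool.Agent.H74.JD.WFil

set_option autoImplicit false
set_option linter.unusedSectionVars false

/-!
# JD GPicB: the picture `A` of a stage (helper74)

* `gS_sys`: `nil`: `π 0 (S []) = 0`; `single`, `rev`, `bdd` clear; `mul`: all four words on the right have the weight
  `wt v + wt w =: s` and `S v ∈ Φ (wt v)` etc. (`Filt` + `SSys.mem_filt` or directly), so `π s (4 • (S v * S w)) = 4 • (π _ (S v) * π _ (S w))` by `GPic.mul`
  (`1 ≤ wt a v` as `v ≠ []` and all `a i ≥ 1`).
* `D_eq`: `D s = (wfil s).map (π s)`; `π s` kills `wfil (s+1)`.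
* `compl`: downward induction on `s`: `s = N`: `v` from `Stg.ne`, `w = []`. `s < N`: `D s ≠ ⊥`; by `D_eq` there is `v` with `wt v = s`; take `h ∈ D s` nonzero; by
  `GF.nd` there are `n ≥ 1`, `b ∈ D n` with `b h ≠ 0`, `b h ∈ D (s+n)` (so `s + n ≤ N` by `above`); `D n ≠ ⊥` gives `v'` with `wt v' = n`, induction gives `w'` with
  `wt w' + s + n = N`; `w = v' ++ w'`.
* `gS_top`: `S w ∈ Φ N`, `GPic.inj`.
* `A_gen`: `GF.all` and `D_eq` (`D 0 = ⊥`).
* `A_finrank_le`: `A = ⨆ D s` by `GF.all`; e.g. the linear map `∏_{s ≤ N} D s → A` is onto.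
* `kill`: by `SSys.kill_on` (all letters) all words kill `h`, so all of `D n = span` of words kills `h`, `GF.nd`.
-/

namespace JD

universe u

variable {F : Type u} [Field F] {J : Type u} [NonUnitalNonAssocCommRing J] [Module F J]
  [IsScalarTower F J J] [SMulCommClass F J J]

theorem GPicB_pos {a : Fin 3 → ℕ} (ha : ∀ i, 1 ≤ a i) {v : List (Fin 3)} (hv : v ≠ []) :
    1 ≤ wt a v := by
  cases v with
  | nil => exact absurd rfl hv
  | cons i l =>
    have h1 : wt a (i :: l) = a i + wt a l := by simp [wt]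
    rw [h1]
    have := ha i
    omega

section gpic

variable {x : Fin 3 → J} {S : List (Fin 3) → J} {a : Fin 3 → ℕ} {N : ℕ} {e : J}
  {A : Type u} [NonUnitalNonAssocCommRing A] [Module F A] [IsScalarTower F A A]
  [SMulCommClass F A A] {D : ℕ → Submodule F A} {π : ℕ → J →ₗ[F] A}

theorem GPic.sys (G : GPic F (wfil F S a) N A D π) (h : Stg F x S a N e) :
    SSys F (fun i => π (a i) (x i)) (gS S a π) := by
  have h4w : ∀ v w : List (Fin 3), wt a (v ++ w) = wt a v + wt a w := wt_append a
  have hrw : ∀ v : List (Fin 3), wt a v.reverse = wt a v := fun v => wt_perm a v.reverse_perm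
  refine ⟨?_, ?_, ?_, ?_, 7, ?_⟩
  · change π (wt a []) (S []) = 0
    rw [h.sys.nil, map_zero]
  · intro i
    change π (wt a [i]) (S [i]) = _
    rw [h.sys.single]
    simp [wt]
  · intro w
    change π (wt a w.reverse) (S w.reverse) = π (wt a w) (S w)
    rw [hrw, h.sys.rev]
  · intro v w hv hw
    change (4 : F) • (π (wt a v) (S v) * π (wt a w) (S w)) =
      π (wt a (v ++ w)) (S (v ++ w)) + π (wt a (v ++ w.reverse)) (S (v ++ w.reverse)) +
      π (wt a (v.reverse ++ w)) (S (v.reverse ++ w)) + π (wt a (w ++ v)) (S (w ++ v))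
    rw [← G.mul (wt a v) (wt a w) (GPicB_pos h.pos hv) (GPicB_pos h.pos hw) (S v)
      (mem_wfil le_rfl) (S w) (mem_wfil le_rfl), ← map_smul, h.sys.mul v w hv hw,
      h4w, h4w, h4w, h4w, hrw, hrw, add_comm (wt a w) (wt a v), map_add, map_add, map_add]
  · intro w hw
    change π (wt a w) (S w) = 0
    rw [h.cls w hw, map_zero]

theorem GPic.gS_mem (G : GPic F (wfil F S a) N A D π) (h : Stg F x S a N e)
    (w : List (Fin 3)) (hw : w ≠ []) : gS S a π w ∈ D (wt a w) := by
  rw [← G.map (wt a w) (GPicB_pos h.pos hw)]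
  exact Submodule.mem_map_of_mem (mem_wfil le_rfl)

theorem GPic.D_eq (G : GPic F (wfil F S a) N A D π) (h : Stg F x S a N e) {s : ℕ} (hs : 1 ≤ s) :
    D s = Submodule.span F (gS S a π '' {w | wt a w = s}) := by
  apply le_antisymm
  · rw [← G.map s hs, wfil, Submodule.map_span, Submodule.span_le]
    rintro _ ⟨_, ⟨w, hw, rfl⟩, rfl⟩
    have hw' : s ≤ wt a w := hw
    rcases hw'.eq_or_lt with h1 | h1
    · refine Submodule.subset_span ⟨w, h1.symm, ?_⟩
      change π (wt a w) (S w) = π s (S w)
      rw [← h1]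
    · have h2 : π s (S w) = 0 := G.kill s hs (S w) (mem_wfil h1)
      rw [h2]
      exact Submodule.zero_mem _
  · rw [Submodule.span_le]
    rintro _ ⟨w, hw, rfl⟩
    have hw' : wt a w = s := hw
    have hw0 : w ≠ [] := by
      intro h0
      subst h0
      simp [wt] at hw'
      omega
    have h3 := G.gS_mem h w hw0
    rwa [hw'] at h3

theorem GPic.compl (G : GPic F (wfil F S a) N A D π) (h : Stg F x S a N e) {s : ℕ} (hs : 1 ≤ s)
    (hD : D s ≠ ⊥) : ∃ v w : List (Fin 3), wt a v = s ∧ wt a w + s = N := by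
  have hne : ∀ t, 1 ≤ t → D t ≠ ⊥ → ∃ v, wt a v = t := by
    intro t ht hDt
    by_contra hcon
    push Not at hcon
    apply hDt
    rw [G.D_eq h ht]
    have : {w | wt a w = t} = (∅ : Set (List (Fin 3))) := Set.eq_empty_iff_forall_notMem.2 hcon
    rw [this, Set.image_empty, Submodule.span_empty]
  have key : ∀ n s : ℕ, N - s = n → 1 ≤ s → D s ≠ ⊥ →
      ∃ v w : List (Fin 3), wt a v = s ∧ wt a w + s = N := by
    intro n
    induction n using Nat.strong_induction_on with
    | _ n ih =>
      intro s hsn hs hD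
      have hsN : s ≤ N := by
        by_contra hlt
        push Not at hlt
        apply hD
        rw [Submodule.eq_bot_iff]
        exact fun b hb => G.gf.above s hlt b hb
      rcases hsN.eq_or_lt with h1 | h1
      · obtain ⟨v, hv, -⟩ := h.ne
        refine ⟨v, [], by omega, ?_⟩
        simp [wt, h1]
      · obtain ⟨v, hv⟩ := hne s hs hD
        obtain ⟨g, hg, hg0⟩ := Submodule.exists_mem_ne_zero_of_ne_bot hD
        have h2 : ∃ j, 1 ≤ j ∧ ∃ k ∈ D j, k * g ≠ 0 := by
          by_contra hcon
          push Not at hcon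
          exact hg0 (G.gf.nd s hs h1 g hg fun j hj k hk => hcon j hj k hk)
        obtain ⟨j, hj, k, hk, hkg⟩ := h2
        have hkg' := G.gf.mul_mem j s hj hs k hk g hg
        have hD2 : D (j + s) ≠ ⊥ := by
          intro h0
          rw [h0, Submodule.mem_bot] at hkg'
          exact hkg hkg'
        have hDj : D j ≠ ⊥ := by
          intro h0
          rw [h0, Submodule.mem_bot] at hk
          rw [hk, zero_mul] at hkg
          exact hkg rfl
        obtain ⟨v', hv'⟩ := hne j hj hDj
        obtain ⟨_, w', _, hw'⟩ := ih (N - (j + s)) (by omega) (j + s) rfl (by omega) hD2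
        refine ⟨v, v' ++ w', hv, ?_⟩
        rw [wt_append, hv']
        omega
  exact key (N - s) s rfl hs hD

theorem GPic.gS_top (G : GPic F (wfil F S a) N A D π) (h : Stg F x S a N e)
    (w : List (Fin 3)) (hw : wt a w = N) (h0 : gS S a π w = 0) : S w = 0 := by
  refine G.inj (S w) (mem_wfil hw.ge) ?_
  rw [← hw]
  exact h0

theorem GPic.A_gen (G : GPic F (wfil F S a) N A D π) (h : Stg F x S a N e) :
    Submodule.span F (Set.range (gS S a π)) = ⊤ := by
  rw [eq_top_iff]
  intro b _
  obtain ⟨c, hc, rfl⟩ := G.gf.all b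
  refine Submodule.sum_mem _ fun i _ => ?_
  rcases Nat.eq_zero_or_pos i with h0 | h0
  · have h1 := hc i
    rw [h0, G.gf.zero, Submodule.mem_bot] at h1
    rw [h0, h1]
    exact Submodule.zero_mem _
  · have h1 := hc i
    rw [G.D_eq h h0] at h1
    refine Submodule.span_mono ?_ h1
    rintro _ ⟨w, _, rfl⟩
    exact ⟨w, rfl⟩

theorem GPic.A_finrank_le (G : GPic F (wfil F S a) N A D π) :
    Module.finrank F A ≤ ∑ i ∈ Finset.Icc 1 N, Module.finrank F (D i) := by
  have hfin := G.gf.fin
  have hle : ∀ T : Finset ℕ, Module.finrank F (T.sup D : Submodule F A) ≤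
      ∑ i ∈ T, Module.finrank F (D i) := by
    intro T
    induction T using Finset.induction_on with
    | empty => simp
    | insert i T hi ih =>
      rw [Finset.sup_insert, Finset.sum_insert hi]
      exact (Submodule.finrank_add_le_finrank_add_finrank _ _).trans (by omega)
  have htop : ((Finset.Icc 1 N).sup D : Submodule F A) = ⊤ := by
    rw [eq_top_iff]
    intro b _
    obtain ⟨c, hc, rfl⟩ := G.gf.all b
    refine Submodule.sum_mem _ fun i hi => ?_
    rcases Nat.eq_zero_or_pos i with h0 | h0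
    · have h1 := hc i
      rw [h0, G.gf.zero, Submodule.mem_bot] at h1
      rw [h0, h1]
      exact Submodule.zero_mem _
    · have h1 : i ∈ Finset.Icc 1 N := by
        rw [Finset.mem_Icc]
        rw [Finset.mem_range] at hi
        omega
      exact Finset.le_sup (f := D) h1 (hc i)
  have h1 := hle (Finset.Icc 1 N)
  rwa [htop, finrank_top] at h1

theorem GPic.sum_le (G : GPic F (wfil F S a) N A D π) (T : Finset ℕ) (hT : ∀ s ∈ T, 1 ≤ s) :
    ∑ i ∈ T, Module.finrank F (D i) ≤ Module.finrank F J := by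
  have hbot : ∀ i, N < i → Module.finrank F (D i) = 0 := by
    intro i hi
    have h1 : D i = ⊥ := by
      rw [Submodule.eq_bot_iff]
      exact fun b hb => G.gf.above i hi b hb
    rw [h1, finrank_bot]
  refine le_trans ?_ G.dim
  calc ∑ i ∈ T, Module.finrank F (D i)
      = ∑ i ∈ T.filter (fun i => i ≤ N), Module.finrank F (D i) := by
        rw [Finset.sum_filter]
        refine Finset.sum_congr rfl fun i _ => ?_
        split_ifs with h1
        · rfl
        · exact hbot i (not_le.1 h1)
    _ ≤ ∑ i ∈ Finset.Icc 1 N, Module.finrank F (D i) := by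
        refine Finset.sum_le_sum_of_subset ?_
        intro i hi
        rw [Finset.mem_filter] at hi
        exact Finset.mem_Icc.2 ⟨hT i hi.1, hi.2⟩

theorem GPic.kill_all (G : GPic F (wfil F S a) N A D π) (h : Stg F x S a N e) {s : ℕ}
    (hs : 1 ≤ s) (hsN : s < N) {g : A} (hg : g ∈ D s)
    (h1 : ∀ i, π (a i) (x i) * g = 0)
    (h3 : ∀ i j, (π (a i) (x i) * π (a j) (x j)) * g = 0) : g = 0 := by
  have hk : ∀ w : List (Fin 3), gS S a π w * g = 0 := fun w =>
    SSys.kill_on G.gf.two G.gf.jordan (G.sys h) (fun _ => True) g (fun i _ => h1 i)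
      (fun i j _ _ => h3 i j) w (fun _ _ => trivial)
  refine G.gf.nd s hs hsN g hg ?_
  intro j hj k hkj
  rw [G.D_eq h hj] at hkj
  induction hkj using Submodule.span_induction with
  | mem y hy =>
    obtain ⟨w, _, rfl⟩ := hy
    exact hk w
  | zero => rw [zero_mul]
  | add y z _ _ hy hz => rw [add_mul, hy, hz, add_zero]
  | smul r y _ hy => rw [smul_mul_assoc, hy, smul_zero]

end gpic

end JD
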