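import Pool.Agent.H74.JD.GJ5
import Pool.Agent.H74.JD.GPicB

set_option autoImplicit false
set_option linter.unusedSectionVars false

/-!
# JD C72: one essential letter, the stage `(5, 6, 6)`, `N = 30` (helper74)

`X = π 5 (x 0)`, `X^6 ≠ 0` (i.e. `S 0^6 ≠ 0`), `W = D 6`.
* `C72_supp`: `GPic.compl` gives words `v, w` with `wt v = s`, `wt w + s = 30`; by `wt_cnt` `wt v = 5 i + 6 j`, `wt w = 5 i' + 6 j'`, `5 (i + i') + 6 (j + j') = 30`, so `(i + i', j + j') = (6, 0)` or `(0, 5)` (`omega` after bounding). So `s = 5 i` or `s = 6 j`.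
* `C72_pow`: `gS (0^k) ≠ 0` for `1 ≤ k ≤ 6` because `gS (0^6) ≠ 0` (`GPic.gS_top`) and `gS (0^(k+1)) = X * gS (0^k)` (`SSys.succ`). So `D (5 k) ≠ ⊥`.
* `C72_GJ`: `GJ F A 5 (fun j => D (6 j))`. `mul_mem, above (6 j > 30), two, inf, jordan, fin, top (D 30)` from `GF`. `gen2`, `gen n` (`n ≤ 5`, for `n > 5` trivial): `D (6 n)` is the span of the `gS w` with `wt w = 6 n`; `wt w = 5 i + 6 j = 6 n`: either `i = 0`, all letters in `{1, 2}`, `|w| = n`, or `i = 6`, `n = 5`, `w = 0^6`;
  for the former use `SSys.gen_le` with `L i = (i ≠ 0)`; for `0^6`: `D 30` is one-dimensional, and `D 6 ≠ ⊥` implies (by `GF.nd` repeatedly, or `GPic.compl`-like: a nonzero `h ∈ D 6` has a nonzero product `b h`, `b ∈ D m`; `D (6 + m) ≠ ⊥`, so `m + 6 ∈ {12, 18, 24, 30}` and so on) that some word in the letters `1, 2` of length 5 has `gS w ≠ 0`,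
  so `D 30` is spanned by it. [CLAIM: if all `gS w`, `|w| = 5`, letters in `{1,2}`, vanish then `D (6 j) = ⊥` for `j = 4, 3, 2, 1`: downward: `h ∈ D (6 j)`, `b ∈ D m` (`m ≥ 1`) with `b h ≠ 0`: `b h ∈ D (6 j + m)`; `6 j + m ≤ 30` in the support and `m` in the support: `m = 6 j'` (for `m = 5 i`: `6 j + 5 i` is in the support only if it is 30, and then `j = 5` or `j = 0`), and `b h` is a combination of
  `gS w`, `w` of weight `6 (j + j')` in the letters `1, 2`, which is `0` if `j + j' = 5` and in `D (6 (j + j')) = ⊥` otherwise.] `nd`: for `h ∈ D (6 j)`, `1 ≤ j < 5`, `w h = 0` for `w ∈ D 6`, `q h = 0` for `q ∈ D 12`: `GPic.kill_all`: `X h ∈ D (6 j + 5) = ⊥`, `(X X) h ∈ D (6 j + 10) = ⊥`, `X (x i) ∈ D 11 = ⊥`.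
* `C72_dim`: `D (5 k)`, `k = 1..6`, have dimension `≥ 1`, and `D (6 j)`, `j = 1..4`; total `≤ 11` (`GPic.sum_le`). `D 6` is spanned by `π 6 (x 1), π 6 (x 2)`, so `finrank (D 6) ≤ 2`; if `= 2`: `GJ5_two`: total `≥ 6 + 2 + 4 = 12`.
-/

namespace JD

universe u

variable {F : Type u} [Field F] {J : Type u} [NonUnitalNonAssocCommRing J] [Module F J]
  [IsScalarTower F J J] [SMulCommClass F J J] {x : Fin 3 → J} {S : List (Fin 3) → J} {e : J}
  {A : Type u} [NonUnitalNonAssocCommRing A] [Module F A] [IsScalarTower F A A]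
  [SMulCommClass F A A] {D : ℕ → Submodule F A} {π : ℕ → J →ₗ[F] A}

private theorem C72_wt (w : List (Fin 3)) :
    wt ![5, 6, 6] w = 5 * w.count 0 + 6 * w.count 1 + 6 * w.count 2 ∧
      w.length = w.count 0 + w.count 1 + w.count 2 := by
  have h := wt_cnt ![5, 6, 6] w
  simpa using h

private theorem C72_wt_rep (k : ℕ) : wt ![5, 6, 6] (List.replicate k (0 : Fin 3)) = 5 * k := by
  simp [wt, mul_comm]

theorem C72_supp (h : Stg F x S ![5, 6, 6] 30 e) (G : GPic F (wfil F S ![5, 6, 6]) 30 A D π)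
    {s : ℕ} (hs : 1 ≤ s) (hD : D s ≠ ⊥) :
    s = 5 ∨ s = 10 ∨ s = 15 ∨ s = 20 ∨ s = 25 ∨ s = 30 ∨ s = 6 ∨ s = 12 ∨ s = 18 ∨ s = 24 := by
  obtain ⟨v, w, hv, hw⟩ := G.compl h hs hD
  obtain ⟨h1, -⟩ := C72_wt v
  obtain ⟨h3, -⟩ := C72_wt w
  rw [h1] at hv
  rw [h3] at hw
  generalize hi : v.count 0 = i at hv
  generalize hj : v.count 1 = j at hv
  generalize hk : v.count 2 = k at hv
  generalize w.count 0 = i' at hw
  generalize w.count 1 = j' at hw
  generalize w.count 2 = k' at hw
  obtain ⟨p, hp⟩ : ∃ p, p = j + k := ⟨_, rfl⟩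
  obtain ⟨q, hq⟩ : ∃ q, q = j' + k' := ⟨_, rfl⟩
  have hs' : s = 5 * i + 6 * p := by omega
  have hs2 : 5 * i' + 6 * q + s = 30 := by omega
  have hi6 : i ≤ 6 := by omega
  have hp5 : p ≤ 5 := by omega
  clear hv hw hp
  interval_cases i <;> interval_cases p <;> omega

theorem C72_pow (h : Stg F x S ![5, 6, 6] 30 e) (G : GPic F (wfil F S ![5, 6, 6]) 30 A D π)
    (hx : S (List.replicate 6 0) ≠ 0) (k : ℕ) (hk : 1 ≤ k) (hk' : k ≤ 6) :
    gS S ![5, 6, 6] π (List.replicate k 0) ≠ 0 ∧ 1 ≤ Module.finrank F (D (5 * k)) := by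
  have hfin := G.gf.fin
  have hsys := G.sys h
  have h6 : gS S ![5, 6, 6] π (List.replicate 6 0) ≠ 0 := fun h0 =>
    hx (G.gS_top h _ (C72_wt_rep 6) h0)
  have hstep : ∀ n : ℕ, gS S ![5, 6, 6] π (List.replicate (n + 1) 0) = 0 →
      gS S ![5, 6, 6] π (List.replicate (n + 2) 0) = 0 := by
    intro n hn
    rw [hsys.succ G.gf.two 0 n, hn, mul_zero]
  have hup : ∀ m n : ℕ, gS S ![5, 6, 6] π (List.replicate (n + 1) 0) = 0 →
      gS S ![5, 6, 6] π (List.replicate (n + 1 + m) 0) = 0 := by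
    intro m n hn
    induction m with
    | zero => exact hn
    | succ m ih =>
      have h7 := hstep (n + m) (by rw [show n + m + 1 = n + 1 + m by omega]; exact ih)
      rwa [show n + m + 2 = n + 1 + (m + 1) by omega] at h7
  have hne : gS S ![5, 6, 6] π (List.replicate k 0) ≠ 0 := by
    intro h0
    obtain ⟨n, rfl⟩ : ∃ n, k = n + 1 := ⟨k - 1, by omega⟩
    apply h6
    have := hup (5 - n) n h0
    rwa [show n + 1 + (5 - n) = 6 by omega] at this
  refine ⟨hne, ?_⟩
  rw [Submodule.one_le_finrank_iff]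
  intro hbot
  apply hne
  have hm := G.gS_mem h (List.replicate k 0) (by
    intro h0
    have := congrArg List.length h0
    simp at this
    omega)
  rw [C72_wt_rep, hbot] at hm
  exact (Submodule.mem_bot F).1 hm

/-- words of weight `6 n`, `n ≤ 4`: letters in `{1, 2}`, length `n` -/
private theorem C72_words {n : ℕ} {w : List (Fin 3)} (hw : wt ![5, 6, 6] w = 6 * n)
    (h0 : w.count 0 = 0) : w.length = n ∧ ∀ i ∈ w, i ≠ 0 := by
  obtain ⟨h1, h3⟩ := C72_wt w
  refine ⟨by omega, ?_⟩
  rintro i hi rfl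
  have := List.count_pos_iff.2 hi
  omega

private theorem C72_wt_L {w : List (Fin 3)} (hw : ∀ i ∈ w, i ≠ 0) :
    wt ![5, 6, 6] w = 6 * w.length := by
  obtain ⟨h1, h3⟩ := C72_wt w
  have h0 : w.count 0 = 0 := by
    rw [List.count_eq_zero]
    intro hm
    exact hw 0 hm rfl
  omega

private theorem C72_memL (h : Stg F x S ![5, 6, 6] 30 e)
    (G : GPic F (wfil F S ![5, 6, 6]) 30 A D π) {w : List (Fin 3)} (hw : ∀ i ∈ w, i ≠ 0)
    (hne : w ≠ []) : gS S ![5, 6, 6] π w ∈ D (6 * w.length) := by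
  have := G.gS_mem h w hne
  rwa [C72_wt_L hw] at this

private theorem C72_bot (h : Stg F x S ![5, 6, 6] 30 e)
    (G : GPic F (wfil F S ![5, 6, 6]) 30 A D π) {s : ℕ} (hs : 1 ≤ s)
    (hn : ¬ (s = 5 ∨ s = 10 ∨ s = 15 ∨ s = 20 ∨ s = 25 ∨ s = 30 ∨ s = 6 ∨ s = 12 ∨ s = 18 ∨
      s = 24)) {b : A} (hb : b ∈ D s) : b = 0 := by
  by_contra hb0
  apply hn
  apply C72_supp h G hs
  intro hbot
  rw [hbot] at hb
  exact hb0 ((Submodule.mem_bot F).1 hb)

/-- `D (6 n)`, `n ≤ 4`, is spanned by the words in the letters `1, 2` of length `n` -/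
private theorem C72_span (h : Stg F x S ![5, 6, 6] 30 e)
    (G : GPic F (wfil F S ![5, 6, 6]) 30 A D π) {n : ℕ} (hn : 1 ≤ n) (hn' : n ≤ 4) :
    D (6 * n) = Submodule.span F (gS S ![5, 6, 6] π '' {w | w.length = n ∧ ∀ i ∈ w, i ≠ 0}) := by
  apply le_antisymm
  · rw [G.D_eq h (by omega : 1 ≤ 6 * n)]
    apply Submodule.span_mono
    apply Set.image_mono
    intro w hw
    simp only [Set.mem_ofPred_eq] at hw
    refine C72_words hw ?_
    obtain ⟨h1, -⟩ := C72_wt w
    omega
  · rw [Submodule.span_le]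
    rintro _ ⟨w, ⟨hl, hw⟩, rfl⟩
    have := C72_memL h G hw (by rintro rfl; simp at hl; omega)
    rwa [hl] at this

private theorem C72_mul_words (h : Stg F x S ![5, 6, 6] 30 e)
    (G : GPic F (wfil F S ![5, 6, 6]) 30 A D π)
    (hz : ∀ w : List (Fin 3), w.length = 5 → (∀ i ∈ w, i ≠ 0) → gS S ![5, 6, 6] π w = 0)
    {i j : ℕ} (hi : 1 ≤ i) (hj : 1 ≤ j) (hij : i + j = 5) {b c : A} (hb : b ∈ D (6 * i))
    (hc : c ∈ D (6 * j)) : b * c = 0 := by
  have h2 := G.gf.two
  have h4 : (4 : F) ≠ 0 := by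
    rw [show (4 : F) = 2 * 2 by norm_num]
    exact mul_ne_zero h2 h2
  have hsys := G.sys h
  rw [C72_span h G hi (by omega)] at hb
  rw [C72_span h G hj (by omega)] at hc
  induction hb using Submodule.span_induction with
  | mem b hb =>
    obtain ⟨v, ⟨hvl, hv⟩, rfl⟩ := hb
    induction hc using Submodule.span_induction with
    | mem c hc =>
      obtain ⟨w, ⟨hwl, hw⟩, rfl⟩ := hc
      have hv0 : v ≠ [] := by rintro rfl; simp at hvl; omega
      have hw0 : w ≠ [] := by rintro rfl; simp at hwl; omega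
      have hm := hsys.mul v w hv0 hw0
      have L : ∀ p q : List (Fin 3), p.length + q.length = 5 → (∀ i ∈ p, i ≠ 0) →
          (∀ i ∈ q, i ≠ 0) → gS S ![5, 6, 6] π (p ++ q) = 0 := by
        intro p q hl hp hq
        apply hz
        · rw [List.length_append]
          exact hl
        · intro i hi
          rcases List.mem_append.1 hi with hi | hi
          · exact hp i hi
          · exact hq i hi
      have hvr : ∀ i ∈ v.reverse, i ≠ 0 := fun i hi => hv i (List.mem_reverse.1 hi)
      have hwr : ∀ i ∈ w.reverse, i ≠ 0 := fun i hi => hw i (List.mem_reverse.1 hi)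
      rw [L v w (by omega) hv hw, L v w.reverse (by simp; omega) hv hwr,
        L v.reverse w (by simp; omega) hvr hw, L w v (by omega) hw hv] at hm
      simp only [add_zero] at hm
      exact (smul_eq_zero.1 hm).resolve_left h4
    | zero => exact mul_zero _
    | add c d _ _ h1 h3 => rw [mul_add, h1, h3, add_zero]
    | smul r c _ h1 => rw [mul_smul_comm, h1, smul_zero]
  | zero => exact zero_mul _
  | add c d _ _ h1 h3 => rw [add_mul, h1, h3, add_zero]
  | smul r c _ h1 => rw [smul_mul_assoc, h1, smul_zero]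

private theorem C72_exists (h : Stg F x S ![5, 6, 6] 30 e)
    (G : GPic F (wfil F S ![5, 6, 6]) 30 A D π) (hW : D 6 ≠ ⊥) :
    ∃ w : List (Fin 3), w.length = 5 ∧ (∀ i ∈ w, i ≠ 0) ∧ gS S ![5, 6, 6] π w ≠ 0 := by
  by_contra hcon
  push Not at hcon
  have key : ∀ k j : ℕ, 1 ≤ j → j + k = 4 → D (6 * j) = ⊥ := by
    intro k
    induction k using Nat.strong_induction_on with
    | _ k ih =>
      intro j hj hjk
      rw [eq_bot_iff]
      intro g hg
      rw [Submodule.mem_bot]
      apply G.gf.nd (6 * j) (by omega) (by omega) g hg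
      intro m hm b hb
      by_cases hb0 : b = 0
      · rw [hb0, zero_mul]
      have hmem := G.gf.mul_mem m (6 * j) hm (by omega) b hb g hg
      by_cases hbg : b * g = 0
      · exact hbg
      have s1 := C72_supp h G hm (fun hbot => hb0 (by
        rw [hbot] at hb; exact (Submodule.mem_bot F).1 hb))
      have s2 := C72_supp h G (s := m + 6 * j) (by omega) (fun hbot => hbg (by
        rw [hbot] at hmem; exact (Submodule.mem_bot F).1 hmem))
      obtain ⟨i, hi⟩ : ∃ i, m = 6 * i := by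
        refine ⟨m / 6, ?_⟩
        omega
      subst hi
      by_cases hij : i + j = 5
      · exact C72_mul_words h G hcon (by omega) hj hij hb hg
      · exfalso
        apply hbg
        have h5 : i + j < 5 := by omega
        have := ih (4 - (i + j)) (by omega) (i + j) (by omega) (by omega)
        rw [← mul_add, this] at hmem
        exact (Submodule.mem_bot F).1 hmem
  exact hW (by simpa using key 3 1 le_rfl (by norm_num))

theorem C72_GJ (h : Stg F x S ![5, 6, 6] 30 e) (G : GPic F (wfil F S ![5, 6, 6]) 30 A D π)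
    (hW : D 6 ≠ ⊥) : GJ F A 5 (fun j => D (6 * j)) := by
  have hfin := G.gf.fin
  have hsys := G.sys h
  have hword : ∀ n, 2 ≤ n → ∀ T : Submodule F A,
      (∀ v w : List (Fin 3), v ≠ [] → w ≠ [] → v.length ≤ 2 → v.length + w.length = n →
        (∀ i ∈ v, i ≠ 0) → (∀ i ∈ w, i ≠ 0) →
        gS S ![5, 6, 6] π v * gS S ![5, 6, 6] π w ∈ T) → D (6 * n) ≤ T := by
    intro n hn T hT
    have hg := hsys.gen_le G.gf.two (fun i => i ≠ 0) n hn T hT
    rcases Nat.lt_or_ge n 5 with h5 | h5
    · rw [C72_span h G (by omega) (by omega), Submodule.span_le]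
      rintro _ ⟨w, ⟨hl, hw⟩, rfl⟩
      exact hg w hl hw
    rcases Nat.lt_or_ge 5 n with h6 | h6
    · intro b hb
      rw [G.gf.above (6 * n) (by omega) b hb]
      exact T.zero_mem
    obtain rfl : n = 5 := le_antisymm h6 h5
    obtain ⟨w, hl, hw, hne⟩ := C72_exists h G hW
    have hm := C72_memL h G hw (by rintro rfl; simp at hl)
    rw [hl] at hm
    intro b hb
    have htop : Module.finrank F (D (6 * 5)) = 1 := G.gf.top
    obtain ⟨r, hr⟩ := (finrank_eq_one_iff_of_nonzero' (⟨gS S ![5, 6, 6] π w, hm⟩ : D (6 * 5))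
      (fun h0 => hne (congrArg Subtype.val h0))).1 htop ⟨b, hb⟩
    have hr' : r • gS S ![5, 6, 6] π w = b := congrArg Subtype.val hr
    rw [← hr']
    exact T.smul_mem _ (hg w hl hw)
  have hx0 : ∀ i, π (![5, 6, 6] i) (x i) ∈ D (![5, 6, 6] i) := by
    intro i
    have h1 := G.gS_mem h [i] (by simp)
    rw [hsys.single i] at h1
    simpa using h1
  refine
    { two := G.gf.two
      inf := G.gf.inf
      jordan := G.gf.jordan
      fin := G.gf.fin
      mul_mem := ?_
      above := ?_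
      gen2 := ?_
      gen := ?_
      nd := ?_
      top := G.gf.top }
  · intro i j hi hj a ha b hb
    have := G.gf.mul_mem (6 * i) (6 * j) (by omega) (by omega) a ha b hb
    rwa [← mul_add] at this
  · intro i hi a ha
    exact G.gf.above (6 * i) (by omega) a ha
  · intro T hT
    refine hword 2 le_rfl T fun v w hv hw _ hl hvL hwL => ?_
    have h1 : 0 < v.length := List.length_pos_iff.2 hv
    have h3 : 0 < w.length := List.length_pos_iff.2 hw
    have e1 : v.length = 1 := by omega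
    have e2 : w.length = 1 := by omega
    have m1 := C72_memL h G hvL hv
    have m2 := C72_memL h G hwL hw
    rw [e1] at m1
    rw [e2] at m2
    exact hT _ m1 _ m2
  · intro n hn T hT1 hT2
    refine hword n (by omega) T fun v w hv hw hv2 hl hvL hwL => ?_
    have h1 : 0 < v.length := List.length_pos_iff.2 hv
    have m1 := C72_memL h G hvL hv
    have m2 := C72_memL h G hwL hw
    rcases Nat.lt_or_ge v.length 2 with h3 | h3
    · have e1 : v.length = 1 := by omega
      have e2 : w.length = n - 1 := by omega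
      rw [e1] at m1
      rw [e2] at m2
      exact hT1 _ m1 _ m2
    · have e1 : v.length = 2 := by omega
      have e2 : w.length = n - 2 := by omega
      rw [e1] at m1
      rw [e2] at m2
      exact hT2 _ m1 _ m2
  · intro i hi hi5 g hg hv hq
    have hkill : ∀ (m : ℕ) (b : A), 1 ≤ m → m = 5 ∨ m = 10 → b ∈ D m → b * g = 0 := by
      intro m b hm hm' hb
      refine C72_bot h G (s := m + 6 * i) (by omega) (by omega)
        (G.gf.mul_mem m (6 * i) hm (by omega) b hb g hg)
    have m0 := hx0 0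
    have m1 := hx0 1
    have m2 := hx0 2
    simp only [Matrix.cons_val_zero, Matrix.cons_val_one, Matrix.cons_val] at m0 m1 m2
    have e11 : ∀ b ∈ D 11, b = 0 := fun b hb => C72_bot h G (by norm_num) (by norm_num) hb
    refine G.kill_all h (s := 6 * i) (by omega) (by omega) hg ?_ ?_
    · intro j
      fin_cases j
      · exact hkill 5 _ (by norm_num) (Or.inl rfl) m0
      · exact hv _ m1
      · exact hv _ m2
    · intro j k
      fin_cases j <;> fin_cases k
      · exact hkill 10 _ (by norm_num) (Or.inr rfl)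
          (G.gf.mul_mem 5 5 (by norm_num) (by norm_num) _ m0 _ m0)
      · show (π 5 (x 0) * π 6 (x 1)) * g = 0
        rw [e11 _ (G.gf.mul_mem 5 6 (by norm_num) (by norm_num) _ m0 _ m1), zero_mul]
      · show (π 5 (x 0) * π 6 (x 2)) * g = 0
        rw [e11 _ (G.gf.mul_mem 5 6 (by norm_num) (by norm_num) _ m0 _ m2), zero_mul]
      · show (π 6 (x 1) * π 5 (x 0)) * g = 0
        rw [e11 _ (G.gf.mul_mem 6 5 (by norm_num) (by norm_num) _ m1 _ m0), zero_mul]
      · exact hq _ (G.gf.mul_mem 6 6 (by norm_num) (by norm_num) _ m1 _ m1)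
      · exact hq _ (G.gf.mul_mem 6 6 (by norm_num) (by norm_num) _ m1 _ m2)
      · show (π 6 (x 2) * π 5 (x 0)) * g = 0
        rw [e11 _ (G.gf.mul_mem 6 5 (by norm_num) (by norm_num) _ m2 _ m0), zero_mul]
      · exact hq _ (G.gf.mul_mem 6 6 (by norm_num) (by norm_num) _ m2 _ m1)
      · exact hq _ (G.gf.mul_mem 6 6 (by norm_num) (by norm_num) _ m2 _ m2)

theorem C72_dim (hcr : Crit F J 6 e) (h : Stg F x S ![5, 6, 6] 30 e)
    (G : GPic F (wfil F S ![5, 6, 6]) 30 A D π) (hx : S (List.replicate 6 0) ≠ 0)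
    (hW : D 6 ≠ ⊥) : Module.finrank F (D 6) = 1 := by
  have hfin := G.gf.fin
  have h1 : 1 ≤ Module.finrank F (D 6) := Submodule.one_le_finrank_iff.2 hW
  have h2 : Module.finrank F (D 6) ≤ 2 := by
    classical
    have hsp := C72_span h G (n := 1) le_rfl (by norm_num)
    have hle : D 6 ≤ Submodule.span F
        ((({gS S ![5, 6, 6] π [1], gS S ![5, 6, 6] π [2]} : Finset A)) : Set A) := by
      rw [show (6 : ℕ) = 6 * 1 by norm_num, hsp]
      apply Submodule.span_mono
      rintro _ ⟨w, ⟨hl, hw⟩, rfl⟩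
      match w, hl, hw with
      | [i], _, hw =>
        have hi := hw i (by simp)
        fin_cases i
        · exact absurd rfl hi
        · simp
        · simp
    calc Module.finrank F (D 6) ≤ Module.finrank F (Submodule.span F
        ((({gS S ![5, 6, 6] π [1], gS S ![5, 6, 6] π [2]} : Finset A)) : Set A)) :=
          Submodule.finrank_mono hle
      _ ≤ ({gS S ![5, 6, 6] π [1], gS S ![5, 6, 6] π [2]} : Finset A).card :=
          finrank_span_finset_le_card _
      _ ≤ 2 := Finset.card_le_two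
  by_contra hne
  have h3 : Module.finrank F (D 6) = 2 := by omega
  have h4 : 4 ≤ Module.finrank F (D 12) + Module.finrank F (D 18) + Module.finrank F (D 24) :=
    GJ5_two (C72_GJ h G hW) (by simpa using h3)
  have hs := G.sum_le {5, 10, 15, 20, 25, 30, 6, 12, 18, 24} (by
    intro s hs
    simp at hs
    omega)
  have hd := hcr.dim
  have p1 : 1 ≤ Module.finrank F (D 5) := (C72_pow h G hx 1 (by norm_num) (by norm_num)).2
  have p2 : 1 ≤ Module.finrank F (D 10) := (C72_pow h G hx 2 (by norm_num) (by norm_num)).2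
  have p3 : 1 ≤ Module.finrank F (D 15) := (C72_pow h G hx 3 (by norm_num) (by norm_num)).2
  have p4 : 1 ≤ Module.finrank F (D 20) := (C72_pow h G hx 4 (by norm_num) (by norm_num)).2
  have p5 : 1 ≤ Module.finrank F (D 25) := (C72_pow h G hx 5 (by norm_num) (by norm_num)).2
  have p6 : 1 ≤ Module.finrank F (D 30) := (C72_pow h G hx 6 (by norm_num) (by norm_num)).2
  rw [Finset.sum_insert (by decide), Finset.sum_insert (by decide),
    Finset.sum_insert (by decide), Finset.sum_insert (by decide), Finset.sum_insert (by decide),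
    Finset.sum_insert (by decide), Finset.sum_insert (by decide), Finset.sum_insert (by decide),
    Finset.sum_insert (by decide), Finset.sum_singleton] at hs
  omega

end JD
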