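import Pool.Agent.H74.JD.GPicB

set_option autoImplicit false
set_option linter.unusedSectionVars false

/-!
# JD TransA: comparing two stages on the words in the letters `0, 1` (helper74)

Two stages: `(x, S, a, N)` with picture `A`, where the letter 2 has image `0` in `A`, and `(x', S', a', N')` with picture `A'`, with
`a' 0 = m a 0`, `a' 1 = m a 1`, `N' = m N`, `S' = S` on words in the letters `0, 1` (the weight of the letter 2 is arbitrary).

* `D_eq_pw`: `GPic.D_eq` and `SSys.zero_of_letter` (`GPic.sys`): `gS w = 0` if `2 ∈ w`.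
* `transfer`: downward induction on `s`. For `s > N`: `π s g ∈ D s` is `0` (`above`). `s = N`: `g ∈ pw F S a N = pw F S' a' (m N) ≤ wfil F S' a' N'`, so `g = 0` by
  `G'.inj`. `s < N`: `π s g ∈ D s`; by `GF.nd` it is enough that `b * π s g = 0` for `b ∈ D n`, `n ≥ 1`; `b = π n p` with `p ∈ pw F S a n` (`D_eq_pw`);
  `p * g ∈ pw F S a (n + s)`, `π' (m (n+s)) (p * g) = π' (m n) p * π' (m s) g = 0`, so by induction `0 = π (n+s) (p * g) = b * π s g`.
* `transfer_rank`: the kernel of `π' (m s)` on `pw F S a s` is contained in the kernel of `π s`; rank-nullity; and `(pw ..).map (π' ..) ≤ D' (m s)`.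
* `transfer_inj`: kernels of equal dimension, one contained in the other.
-/

namespace JD

universe u

variable {F : Type u} [Field F] {J : Type u} [NonUnitalNonAssocCommRing J] [Module F J]
  [IsScalarTower F J J] [SMulCommClass F J J] {x x' : Fin 3 → J} {S S' : List (Fin 3) → J}
  {a a' : Fin 3 → ℕ} {N N' m : ℕ} {e : J}
  {A : Type u} [NonUnitalNonAssocCommRing A] [Module F A] [IsScalarTower F A A]
  [SMulCommClass F A A] {D : ℕ → Submodule F A} {π : ℕ → J →ₗ[F] A}
  {A' : Type u} [NonUnitalNonAssocCommRing A'] [Module F A'] [IsScalarTower F A' A']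
  [SMulCommClass F A' A'] {D' : ℕ → Submodule F A'} {π' : ℕ → J →ₗ[F] A'}

/-- the situation of two comparable stages -/
structure Two (F : Type u) [Field F] {J : Type u} [NonUnitalNonAssocCommRing J] [Module F J]
    [IsScalarTower F J J] [SMulCommClass F J J] (x x' : Fin 3 → J) (S S' : List (Fin 3) → J)
    (a a' : Fin 3 → ℕ) (N N' m : ℕ) (e : J)
    (A : Type u) [NonUnitalNonAssocCommRing A] [Module F A] [IsScalarTower F A A]
    [SMulCommClass F A A] (D : ℕ → Submodule F A) (π : ℕ → J →ₗ[F] A)
    (A' : Type u) [NonUnitalNonAssocCommRing A'] [Module F A'] [IsScalarTower F A' A']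
    [SMulCommClass F A' A'] (D' : ℕ → Submodule F A') (π' : ℕ → J →ₗ[F] A') : Prop where
  hm : 1 ≤ m
  st : Stg F x S a N e
  st' : Stg F x' S' a' N' e
  G : GPic F (wfil F S a) N A D π
  G' : GPic F (wfil F S' a') N' A' D' π'
  a0 : a' 0 = m * a 0
  a1 : a' 1 = m * a 1
  hN : N' = m * N
  SS : ∀ w : List (Fin 3), (∀ i ∈ w, i ≠ 2) → S' w = S w
  z0 : π (a 2) (x 2) = 0

theorem D_eq_pw (h : Stg F x S a N e) (G : GPic F (wfil F S a) N A D π)
    (hz : π (a 2) (x 2) = 0) {s : ℕ} (hs : 1 ≤ s) : D s = (pw F S a s).map (π s) := by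
  rw [G.D_eq h hs, pw, Submodule.map_span]
  apply le_antisymm
  · rw [Submodule.span_le]
    rintro _ ⟨w, hw, rfl⟩
    by_cases h2 : (2 : Fin 3) ∈ w
    · rw [(G.sys h).zero_of_letter G.gf.two (i := 2) hz w h2]
      exact Submodule.zero_mem _
    · refine Submodule.subset_span ⟨S w, ⟨w, ⟨?_, hw⟩, rfl⟩, ?_⟩
      · rintro i hi rfl
        exact h2 hi
      · have hw' : wt a w = s := hw
        rw [gS, hw']
  · refine Submodule.span_mono ?_
    rintro _ ⟨_, ⟨w, ⟨_, hw⟩, rfl⟩, rfl⟩
    refine ⟨w, hw, ?_⟩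
    rw [gS, hw]

theorem pw_eq (T : Two F x x' S S' a a' N N' m e A D π A' D' π') (s : ℕ) :
    pw F S' a' (m * s) = pw F S a s := by
  have hwt : ∀ w : List (Fin 3), (∀ i ∈ w, i ≠ 2) → wt a' w = m * wt a w := by
    intro w hw
    have h2 : w.count 2 = 0 := List.count_eq_zero.2 fun h => hw 2 h rfl
    rw [(wt_cnt a' w).1, (wt_cnt a w).1, h2, T.a0, T.a1]
    ring
  have hm := T.hm
  unfold pw
  congr 1
  ext b
  constructor
  · rintro ⟨w, ⟨h1, h3⟩, rfl⟩
    refine ⟨w, ⟨h1, ?_⟩, (T.SS w h1).symm⟩
    rw [hwt w h1] at h3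
    exact Nat.eq_of_mul_eq_mul_left hm h3
  · rintro ⟨w, ⟨h1, h3⟩, rfl⟩
    refine ⟨w, ⟨h1, ?_⟩, T.SS w h1⟩
    rw [hwt w h1, h3]

theorem transfer (T : Two F x x' S S' a a' N N' m e A D π A' D' π') {s : ℕ} (hs : 1 ≤ s)
    {g : J} (hg : g ∈ pw F S a s) (hg' : π' (m * s) g = 0) : π s g = 0 := by
  have hm := T.hm
  have key : ∀ k s : ℕ, 1 ≤ s → N < s + k → ∀ g ∈ pw F S a s, π' (m * s) g = 0 → π s g = 0 := by
    intro k
    induction k with
    | zero =>
      intro s hs hk g hg _
      have h1 := pw_le hg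
      rw [T.st.wfil_bot (by omega), Submodule.mem_bot] at h1
      rw [h1, map_zero]
    | succ k ih =>
      intro s hs hk g hg hg'
      rcases Nat.lt_or_ge N s with hsN | hsN
      · have h1 := pw_le hg
        rw [T.st.wfil_bot hsN, Submodule.mem_bot] at h1
        rw [h1, map_zero]
      · rcases Nat.lt_or_ge s N with hsN' | hsN'
        · have h1 : π s g ∈ D s := by
            rw [← T.G.map s hs]
            exact Submodule.mem_map_of_mem (pw_le hg)
          refine T.G.gf.nd s hs hsN' (π s g) h1 ?_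
          intro j hj b hb
          rw [D_eq_pw T.st T.G T.z0 hj] at hb
          obtain ⟨p, hp, rfl⟩ := hb
          have hpg : p * g ∈ pw F S a (j + s) := pw_mul T.G.gf.two T.st.sys hp hg
          have h3 := T.G.mul j s hj hs p (pw_le hp) g (pw_le hg)
          rw [← h3]
          refine ih (j + s) (by omega) (by omega) _ hpg ?_
          have hp' : p ∈ wfil F S' a' (m * j) := by
            refine pw_le ?_
            rw [pw_eq T]
            exact hp
          have hg2 : g ∈ wfil F S' a' (m * s) := by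
            refine pw_le ?_
            rw [pw_eq T]
            exact hg
          have h4 := T.G'.mul (m * j) (m * s) (Nat.mul_pos hm hj) (Nat.mul_pos hm hs) p hp' g hg2
          rw [mul_add, h4, hg', mul_zero]
        · obtain rfl : s = N := le_antisymm hsN hsN'
          have hg2 : g ∈ wfil F S' a' N' := by
            rw [T.hN]
            refine pw_le ?_
            rw [pw_eq T]
            exact hg
          rw [← T.hN] at hg'
          rw [T.G'.inj g hg2 hg', map_zero]
  exact key (N + 1) s hs (by omega) g hg hg'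

theorem transfer_le (T : Two F x x' S S' a a' N N' m e A D π A' D' π') {s : ℕ} (hs : 1 ≤ s) :
    (pw F S a s).map (π' (m * s)) ≤ D' (m * s) := by
  rw [← T.G'.map (m * s) (Nat.mul_pos T.hm hs), ← pw_eq T]
  exact Submodule.map_mono pw_le

private theorem TransA_rank {V W W' : Type u} [AddCommGroup V] [Module F V] [AddCommGroup W]
    [Module F W] [AddCommGroup W'] [Module F W'] [Module.Finite F V] (P : Submodule F V)
    (f : V →ₗ[F] W) (g : V →ₗ[F] W') (h : ∀ v ∈ P, g v = 0 → f v = 0) :
    Module.finrank F (P.map f) ≤ Module.finrank F (P.map g) ∧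
    (Module.finrank F (P.map g) ≤ Module.finrank F (P.map f) → ∀ v ∈ P, f v = 0 → g v = 0) := by
  have h1 := LinearMap.finrank_range_add_finrank_ker (f.domRestrict P)
  have h3 := LinearMap.finrank_range_add_finrank_ker (g.domRestrict P)
  rw [LinearMap.range_domRestrict] at h1 h3
  have h4 : LinearMap.ker (g.domRestrict P) ≤ LinearMap.ker (f.domRestrict P) := by
    intro v hv
    rw [LinearMap.mem_ker, LinearMap.domRestrict_apply] at hv ⊢
    exact h v v.2 hv
  have h5 := Submodule.finrank_mono h4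
  refine ⟨by omega, fun h6 v hv hfv => ?_⟩
  have h7 : LinearMap.ker (g.domRestrict P) = LinearMap.ker (f.domRestrict P) :=
    Submodule.eq_of_le_of_finrank_le h4 (by omega)
  have h8 : (⟨v, hv⟩ : P) ∈ LinearMap.ker (f.domRestrict P) := by
    rw [LinearMap.mem_ker, LinearMap.domRestrict_apply]
    exact hfv
  rw [← h7, LinearMap.mem_ker, LinearMap.domRestrict_apply] at h8
  exact h8

theorem transfer_rank [Module.Finite F J] (T : Two F x x' S S' a a' N N' m e A D π A' D' π')
    {s : ℕ} (hs : 1 ≤ s) :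
    Module.finrank F (D s) ≤ Module.finrank F ((pw F S a s).map (π' (m * s))) ∧
    Module.finrank F ((pw F S a s).map (π' (m * s))) ≤ Module.finrank F (D' (m * s)) := by
  have hfin := T.G'.gf.fin
  refine ⟨?_, Submodule.finrank_mono (transfer_le T hs)⟩
  rw [D_eq_pw T.st T.G T.z0 hs]
  exact (TransA_rank _ _ _ fun v hv h => transfer T hs hv h).1

theorem transfer_inj [Module.Finite F J] (T : Two F x x' S S' a a' N N' m e A D π A' D' π')
    {s : ℕ} (hs : 1 ≤ s)
    (hd : Module.finrank F ((pw F S a s).map (π' (m * s))) ≤ Module.finrank F (D s))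
    {g : J} (hg : g ∈ pw F S a s) (hg' : π s g = 0) : π' (m * s) g = 0 := by
  rw [D_eq_pw T.st T.G T.z0 hs] at hd
  exact (TransA_rank _ _ _ fun v hv h => transfer T hs hv h).2 hd g hg hg'

end JD
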