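import Pool.Agent.H9.JH.GrFilt
import Pool.Agent.H9.JH.Defs

set_option autoImplicit false
set_option linter.unusedSectionVars false

/-!
# JD Z72: one essential letter, the stages `(300, 360, w)`, `N = 1800`, `361 ≤ w ≤ 480` (helper74)

`Z72_false`. PROOF. All layers not in the list `supp` vanish. `z x ∈ D (w + 300)`, `661 ≤ w + 300 ≤ 780`: in the support only if `w + 300 = 720`, `w = 420`. `z y ∈ D (w + 360)`, `721 ≤ w + 360 ≤ 840`: never in the support, so `z y = 0`.
`z z ∈ D (2 w)`, `722 ≤ 2 w ≤ 960`: only `900`, `w = 450`. `(x x) z ∈ D (w + 600)`, `961 ≤ .. ≤ 1080`: only `1080`, `w = 480`. `(y y) z ∈ D (w + 720)`, `1081 ≤ .. ≤ 1200`: only `1200`, `w = 480`. `x y = 0`, `(x y) z = 0`, `(y z) z = 0`.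
* `w = 420`: `x z = c • y y` (`D 720 = F y y`), all others vanish: `(x x) z = 0`, `(y y) z = 0`, `z z = 0`. `gJ2 y x z` (`x := y, y := x`): `(y y)(x z) + 2 (y x)(y z) = x ((y y) z) + 2 y ((y x) z)`, so `c • (y y)(y y) = 0`; `(y y)(y y) = y (y (y y)) ≠ 0` (`gJ1 y y`), so `c = 0`. Then `FZ`-type `kill w z`: `z = 0`.
  (`(x z) z = c (y y) z = 0`.)
* `w = 450`: `z z = c • x (x x)` (`D 900`), others vanish (`x z = 0`). `gJ2 x z z`: `(x x)(z z) + 2 (x z)(x z) = z ((x x) z) + 2 x ((x z) z)`: `c • (x x)(x (x x)) = 0`. `(x x)(x (x x)) = x ((x x)(x x)) = x (x (x (x x))) ≠ 0` (`gJ1`), so `c = 0`, `z z = 0`, `kill w z`: `z = 0`.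
* `w = 480`: `x z = 0, y z = 0, z z = 0`, `(x x) z = c • y (y y)` (`D 1080`), `(y y) z = d • x (x (x x))` (`D 1200`). `gJ2 x y z`: `(x x)(y z) + 2 (x y)(x z) = y ((x x) z) + 2 x ((x y) z)`: `0 = c • y (y (y y))`, `c = 0`. `gJ2 x z (y y)`: `(x x)(z (y y)) + 0 = z ((x x)(y y)) + 0`, `(x x)(y y) ∈ D 1320 = 0`:
  `d • (x x)(x (x (x x))) = 0`; `(x x)(x (x (x x))) = x ((x x)(x (x x))) = x (x ((x x) (x x))) = x (x (x (x (x x)))) ≠ 0` (`gJ1` repeatedly): `d = 0`. `kill w z`: `z = 0`.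
* other `w`: everything vanishes, `kill w z`.
-/

namespace JD

universe u

/-- a stage `(300, 360, w)` with nonzero third letter -/
structure Z72 (F : Type u) [Field F] (A : Type u) [NonUnitalNonAssocCommRing A] [Module F A]
    [IsScalarTower F A A] [SMulCommClass F A A] (D : ℕ → Submodule F A) (x y z : A)
    (w : ℕ) : Prop where
  gf : GF F A 1800 D
  lo : 361 ≤ w
  hi : w ≤ 480
  xm : x ∈ D 300
  ym : y ∈ D 360
  zm : z ∈ D w
  z0 : z ≠ 0
  x6 : x * (x * (x * (x * (x * x)))) ≠ 0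
  y4 : y * (y * (y * y)) ≠ 0
  xy : x * y = 0
  supp : ∀ s, 1 ≤ s → D s ≠ ⊥ → s = 300 ∨ s = 600 ∨ s = 900 ∨ s = 1200 ∨ s = 1500 ∨ s = 1800 ∨
    s = 360 ∨ s = 720 ∨ s = 1080 ∨ s = 1440 ∨ s = w
  D720 : D 720 ≤ Submodule.span F {y * y}
  D900 : D 900 ≤ Submodule.span F {x * (x * x)}
  D1080 : D 1080 ≤ Submodule.span F {y * (y * y)}
  D1200 : D 1200 ≤ Submodule.span F {x * (x * (x * x))}
  kill : ∀ s, 1 ≤ s → s < 1800 → ∀ h ∈ D s, x * h = 0 → y * h = 0 → z * h = 0 →
    (x * x) * h = 0 → (x * y) * h = 0 → (y * y) * h = 0 → (x * z) * h = 0 → (y * z) * h = 0 →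
    (z * z) * h = 0 → h = 0

theorem Z72_false {F : Type u} [Field F] {A : Type u} [NonUnitalNonAssocCommRing A] [Module F A]
    [IsScalarTower F A A] [SMulCommClass F A A] {D : ℕ → Submodule F A} {x y z : A} {w : ℕ}
    (h : Z72 F A D x y z w) : False := by
  have hlo := h.lo
  have hhi := h.hi
  have h2 := h.gf.two
  have hJ := h.gf.jordan
  have hb : ∀ s, 1 ≤ s → ¬ (s = 300 ∨ s = 600 ∨ s = 900 ∨ s = 1200 ∨ s = 1500 ∨ s = 1800 ∨
      s = 360 ∨ s = 720 ∨ s = 1080 ∨ s = 1440 ∨ s = w) → ∀ a ∈ D s, a = 0 := by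
    intro s hs hn a ha
    by_contra ha0
    apply hn
    apply h.supp s hs
    intro hbot
    rw [hbot, Submodule.mem_bot] at ha
    exact ha0 ha
  have hxx : x * x ∈ D 600 := h.gf.mul_mem 300 300 (by omega) (by omega) x h.xm x h.xm
  have hyy : y * y ∈ D 720 := h.gf.mul_mem 360 360 (by omega) (by omega) y h.ym y h.ym
  have hxzm := h.gf.mul_mem 300 w (by omega) (by omega) x h.xm z h.zm
  have hyzm := h.gf.mul_mem 360 w (by omega) (by omega) y h.ym z h.zm
  have hzzm := h.gf.mul_mem w w (by omega) (by omega) z h.zm z h.zm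
  have hxxzm := h.gf.mul_mem 600 w (by omega) (by omega) _ hxx z h.zm
  have hyyzm := h.gf.mul_mem 720 w (by omega) (by omega) _ hyy z h.zm
  have hyz : y * z = 0 := hb _ (by omega) (by omega) _ hyzm
  -- powers
  have x4 : (x * x) * (x * x) = x * (x * (x * x)) := by
    rw [gJ1 hJ x x, mul_comm (x * x) x]
  have x5 : (x * x) * (x * (x * x)) = x * (x * (x * (x * x))) := by
    rw [gJ1 hJ x (x * x), x4]
  have x6 : (x * x) * (x * (x * (x * x))) = x * (x * (x * (x * (x * x)))) := by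
    rw [gJ1 hJ x (x * (x * x)), x5]
  have y4 : (y * y) * (y * y) = y * (y * (y * y)) := by
    rw [gJ1 hJ y y, mul_comm (y * y) y]
  have x5ne : x * (x * (x * (x * x))) ≠ 0 := by
    intro h0
    apply h.x6
    rw [h0, mul_zero]
  -- the final step
  have hfinal : x * z = 0 → z * z = 0 → (x * x) * z = 0 → (y * y) * z = 0 → False := by
    intro e1 e2 e3 e4
    refine h.z0 (h.kill w (by omega) (by omega) z h.zm e1 hyz e2 e3 ?_ e4 ?_ ?_ ?_)
    · rw [h.xy, zero_mul]
    · rw [e1, zero_mul]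
    · rw [hyz, zero_mul]
    · rw [e2, zero_mul]
  by_cases h420 : w = 420
  · subst h420
    have e2 : z * z = 0 := hb _ (by omega) (by omega) _ hzzm
    have e3 : (x * x) * z = 0 := hb _ (by omega) (by omega) _ hxxzm
    have e4 : (y * y) * z = 0 := hb _ (by omega) (by omega) _ hyyzm
    obtain ⟨c, hc⟩ := Submodule.mem_span_singleton.mp (h.D720 hxzm)
    have e := gJ2 F h2 hJ y x z
    rw [mul_comm y x, h.xy, e4, ← hc, hyz] at e
    simp only [mul_zero, zero_mul, smul_zero, add_zero, mul_smul_comm, y4] at e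
    have hc0 : c = 0 := by
      rcases smul_eq_zero.mp e with h' | h'
      · exact h'
      · exact absurd h' h.y4
    rw [hc0, zero_smul] at hc
    exact hfinal hc.symm e2 e3 e4
  by_cases h450 : w = 450
  · subst h450
    have e1 : x * z = 0 := hb _ (by omega) (by omega) _ hxzm
    have e3 : (x * x) * z = 0 := hb _ (by omega) (by omega) _ hxxzm
    have e4 : (y * y) * z = 0 := hb _ (by omega) (by omega) _ hyyzm
    obtain ⟨c, hc⟩ := Submodule.mem_span_singleton.mp (h.D900 hzzm)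
    have e := gJ2 F h2 hJ x z z
    rw [e1, e3, ← hc] at e
    simp only [mul_zero, zero_mul, smul_zero, add_zero, mul_smul_comm, x5] at e
    have hc0 : c = 0 := by
      rcases smul_eq_zero.mp e with h' | h'
      · exact h'
      · exact absurd h' x5ne
    rw [hc0, zero_smul] at hc
    exact hfinal e1 hc.symm e3 e4
  have e1 : x * z = 0 := hb _ (by omega) (by omega) _ hxzm
  have e2 : z * z = 0 := hb _ (by omega) (by omega) _ hzzm
  by_cases h480 : w = 480
  · subst h480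
    obtain ⟨c, hc⟩ := Submodule.mem_span_singleton.mp (h.D1080 hxxzm)
    obtain ⟨d, hd⟩ := Submodule.mem_span_singleton.mp (h.D1200 hyyzm)
    have e := gJ2 F h2 hJ x y z
    rw [h.xy, hyz, ← hc] at e
    simp only [mul_zero, zero_mul, smul_zero, add_zero, mul_smul_comm] at e
    have hc0 : c = 0 := by
      rcases smul_eq_zero.mp e.symm with h' | h'
      · exact h'
      · exact absurd h' h.y4
    have hxy2 : (x * x) * (y * y) = 0 :=
      hb _ (by omega) (by omega) _ (h.gf.mul_mem 600 720 (by omega) (by omega) _ hxx _ hyy)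
    have f := gJ2 F h2 hJ x z (y * y)
    rw [e1, hxy2, mul_comm z (y * y), ← hd] at f
    simp only [mul_zero, zero_mul, smul_zero, add_zero, mul_smul_comm, x6] at f
    have hd0 : d = 0 := by
      rcases smul_eq_zero.mp f with h' | h'
      · exact h'
      · exact absurd h' h.x6
    rw [hc0, zero_smul] at hc
    rw [hd0, zero_smul] at hd
    exact hfinal e1 e2 hc.symm hd.symm
  have e3 : (x * x) * z = 0 := hb _ (by omega) (by omega) _ hxxzm
  have e4 : (y * y) * z = 0 := hb _ (by omega) (by omega) _ hyyzm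
  exact hfinal e1 e2 e3 e4

end JD
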