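import Pool.Agent.H74.JD.C72
import Pool.Agent.H74.JD.Z72
import Pool.Agent.H74.JD.TransA

set_option autoImplicit false
set_option linter.unusedSectionVars false

/-!
# JD C72I: the structure `Z72` (helper74)

* `Z72_intro`. `A, D, π`: picture of `(5, 6, 6)`, `N = 30`, with `π 6 (x 2) = 0`, `D 6 ≠ ⊥` (so `D 6 = F Y`, `Y = π 6 (x 1)`); `A', D', π'` picture of `(300, 360, w)`, `N = 1800`. `x := π' 300 (x 0)`, `y := π' 360 (x 1)`, `z := π' w (x 2) ≠ 0`. By `transfer_rank` (`m = 60`) `finrank (D' (300 k)) ≥ finrank (D (5 k)) ≥ 1`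
  (`k = 1..6`, `C72_pow`), `finrank (D' (360 j)) ≥ finrank (D (6 j)) ≥ 1` (`j = 1..4`, from `C72_GJ` and `GJ5_one`), `finrank (D' w) ≥ 1`: eleven layers, total `≤ 11` (`GPic.sum_le`, `hcr.dim`): all have dimension 1 and all other layers vanish (`supp`). `x6`: `gS (0^6) ≠ 0` (`GPic.gS_top` for `G'`; the weight of `0^6` is `1800`), `SSys.succ`.
  `y4`: `π' (x1^4) = 0` would give `π (x1^4) = 0` (`transfer`, `S (1^4) ∈ pw`), but `Y (Y (Y Y)) ≠ 0` (`GJ5_one`). `xy`: `D' 660 = ⊥`. `D720` etc.: the layer has dimension 1 and contains the nonzero element. `kill`: `GPic.kill_all`.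
-/

namespace JD

universe u

variable {F : Type u} [Field F] {J : Type u} [NonUnitalNonAssocCommRing J] [Module F J]
  [IsScalarTower F J J] [SMulCommClass F J J] {x : Fin 3 → J} {S : List (Fin 3) → J} {e : J}
  {A : Type u} [NonUnitalNonAssocCommRing A] [Module F A] [IsScalarTower F A A]
  [SMulCommClass F A A] {D : ℕ → Submodule F A} {π : ℕ → J →ₗ[F] A}
  {A' : Type u} [NonUnitalNonAssocCommRing A'] [Module F A'] [IsScalarTower F A' A']
  [SMulCommClass F A' A'] {D' : ℕ → Submodule F A'} {π' : ℕ → J →ₗ[F] A'}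

private theorem C72I_rep (n : ℕ) (i : Fin 3) (a : Fin 3 → ℕ) :
    wt a (List.replicate n i) = n * a i := by
  induction n with
  | zero => simp [wt]
  | succ n ih =>
    have h : wt a (i :: List.replicate n i) = a i + wt a (List.replicate n i) := by simp [wt]
    rw [List.replicate_succ, h, ih]; ring

private theorem C72I_count {w : List (Fin 3)} (h : w.count 0 = 0) (h' : w.count 1 + w.count 2 = 1)
    (hl : w.length = w.count 0 + w.count 1 + w.count 2) : w = [1] ∨ w = [2] := by
  have h1 : w.length = 1 := by omega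
  obtain ⟨i, rfl⟩ := List.length_eq_one_iff.mp h1
  fin_cases i
  · simp at h
  · left; rfl
  · right; rfl

private theorem C72I_one {B : Type u} [NonUnitalNonAssocCommRing B] [Module F B]
    [Module.Finite F B] {E : Submodule F B} (h : E ≠ ⊥) : 1 ≤ Module.finrank F E := by
  rw [Nat.one_le_iff_ne_zero]
  intro h0
  exact h (Submodule.finrank_eq_zero.mp h0)

private theorem C72I_span {B : Type u} [NonUnitalNonAssocCommRing B] [Module F B]
    [Module.Finite F B] {E : Submodule F B} (h : Module.finrank F E ≤ 1) {b : B} (hb : b ∈ E)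
    (h0 : b ≠ 0) : E ≤ Submodule.span F {b} := by
  have h1 : Submodule.span F {b} ≤ E := by
    rw [Submodule.span_singleton_le_iff_mem]; exact hb
  have h2 : Module.finrank F (Submodule.span F {b}) = 1 := finrank_span_singleton h0
  have h3 := Submodule.eq_of_le_of_finrank_le h1 (by omega)
  exact h3.ge

theorem Z72_intro (hcr : Crit F J 6 e) {w : ℕ}
    (T : Two F x x S S ![5, 6, 6] ![300, 360, w] 30 1800 60 e A D π A' D' π')
    (hx : S (List.replicate 6 0) ≠ 0) (hW : D 6 ≠ ⊥) (hw : 361 ≤ w) (hw' : w ≤ 480)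
    (hz : π' w (x 2) ≠ 0) : Z72 F A' D' (π' 300 (x 0)) (π' 360 (x 1)) (π' w (x 2)) w := by
  have hfin : Module.Finite F J := hcr.fin
  have hfA : Module.Finite F A := T.G.gf.fin
  have hfA' : Module.Finite F A' := T.G'.gf.fin
  have h2 : (2 : F) ≠ 0 := hcr.two
  have sysA := T.G.sys T.st
  have sysA' := T.G'.sys T.st'
  -- the letters
  have gm : ∀ i, gS S ![300, 360, w] π' [i] ∈ D' (wt ![300, 360, w] [i]) := fun i =>
    T.G'.gS_mem T.st' [i] (by simp)
  have ge : ∀ i, gS S ![300, 360, w] π' [i] = π' (![300, 360, w] i) (x i) := fun i =>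
    sysA'.single i
  have xm : π' 300 (x 0) ∈ D' 300 := by
    have := gm 0; rw [ge] at this; simpa [wt] using this
  have ym : π' 360 (x 1) ∈ D' 360 := by
    have := gm 1; rw [ge] at this; simpa [wt] using this
  have zm : π' w (x 2) ∈ D' w := by
    have := gm 2; rw [ge] at this; simpa [wt] using this
  have mul := T.G'.gf.mul_mem
  -- powers of `x`
  have px : ∀ n, gS S ![300, 360, w] π' (List.replicate (n + 2) 0) =
      π' 300 (x 0) * gS S ![300, 360, w] π' (List.replicate (n + 1) 0) := fun n =>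
    SSys.succ h2 sysA' 0 n
  have py : ∀ n, gS S ![300, 360, w] π' (List.replicate (n + 2) 1) =
      π' 360 (x 1) * gS S ![300, 360, w] π' (List.replicate (n + 1) 1) := fun n =>
    SSys.succ h2 sysA' 1 n
  have px1 : gS S ![300, 360, w] π' (List.replicate 1 0) = π' 300 (x 0) := ge 0
  have py1 : gS S ![300, 360, w] π' (List.replicate 1 1) = π' 360 (x 1) := ge 1
  have x6 : π' 300 (x 0) * (π' 300 (x 0) * (π' 300 (x 0) * (π' 300 (x 0) *
      (π' 300 (x 0) * π' 300 (x 0))))) ≠ 0 := by
    intro h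
    apply hx
    apply T.G'.gS_top T.st' (List.replicate 6 0)
    · rw [C72I_rep]; rfl
    · rw [px 4, px 3, px 2, px 1, px 0, px1]; exact h
  -- the powers of `Y`
  have PY : ∀ n, gS S ![5, 6, 6] π (List.replicate (n + 2) 1) =
      π 6 (x 1) * gS S ![5, 6, 6] π (List.replicate (n + 1) 1) := fun n =>
    SSys.succ h2 sysA 1 n
  have PY1 : gS S ![5, 6, 6] π (List.replicate 1 1) = π 6 (x 1) := sysA.single 1
  have Ym : π 6 (x 1) ∈ D 6 := by
    have := T.G.gS_mem T.st [1] (by simp)
    rw [sysA.single 1] at this; simpa [wt] using this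
  have z0 : π 6 (x 2) = 0 := T.z0
  have D6 : D 6 ≤ Submodule.span F {π 6 (x 1)} := by
    rw [T.G.D_eq T.st (by norm_num : 1 ≤ 6), Submodule.span_le]
    rintro _ ⟨v, hv, rfl⟩
    obtain ⟨h3, h4⟩ := wt_cnt ![5, 6, 6] v
    have hv' : wt ![5, 6, 6] v = 6 := hv
    have h5 : (![5, 6, 6] : Fin 3 → ℕ) 0 = 5 := rfl
    have h6 : (![5, 6, 6] : Fin 3 → ℕ) 1 = 6 := rfl
    have h7 : (![5, 6, 6] : Fin 3 → ℕ) 2 = 6 := rfl
    rw [h5, h6, h7] at h3
    rcases C72I_count (w := v) (by omega) (by omega) h4 with rfl | rfl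
    · rw [sysA.single 1]; exact Submodule.mem_span_singleton_self _
    · rw [sysA.single 2]
      change π 6 (x 2) ∈ _
      rw [z0]; exact Submodule.zero_mem _
  have hGJ := C72_GJ T.st T.G hW
  have Y5 : π 6 (x 1) * (π 6 (x 1) * (π 6 (x 1) * (π 6 (x 1) * π 6 (x 1)))) ≠ 0 :=
    GJ5_one hGJ (y := π 6 (x 1)) (by simpa using Ym) (by simpa using D6)
  have Y4 : π 6 (x 1) * (π 6 (x 1) * (π 6 (x 1) * π 6 (x 1))) ≠ 0 := fun h => Y5 (by
    rw [h, mul_zero])
  have Y3 : π 6 (x 1) * (π 6 (x 1) * π 6 (x 1)) ≠ 0 := fun h => Y4 (by rw [h, mul_zero])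
  have Y2 : π 6 (x 1) * π 6 (x 1) ≠ 0 := fun h => Y3 (by rw [h, mul_zero])
  have Y1 : π 6 (x 1) ≠ 0 := fun h => Y2 (by rw [h, mul_zero])
  have y4 : π' 360 (x 1) * (π' 360 (x 1) * (π' 360 (x 1) * π' 360 (x 1))) ≠ 0 := by
    intro h
    apply Y4
    have h3 : π 24 (S (List.replicate 4 1)) = 0 := by
      apply transfer T (s := 24) (by norm_num)
      · refine Submodule.subset_span ⟨List.replicate 4 1, ⟨?_, ?_⟩, rfl⟩
        · intro i hi
          rw [List.mem_replicate] at hi
          rw [hi.2]; decide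
        · rw [C72I_rep]; rfl
      · have h4 : gS S ![300, 360, w] π' (List.replicate 4 1) = 0 := by
          rw [py 2, py 1, py 0, py1]; exact h
        rw [gS, C72I_rep] at h4
        exact h4
    have h5 : gS S ![5, 6, 6] π (List.replicate 4 1) = 0 := by
      rw [gS, C72I_rep]; exact h3
    rw [PY 2, PY 1, PY 0, PY1] at h5
    exact h5
  have Mul := T.G.gf.mul_mem
  have Y2m : π 6 (x 1) * π 6 (x 1) ∈ D 12 := Mul 6 6 (by norm_num) (by norm_num) _ Ym _ Ym
  have Y3m : π 6 (x 1) * (π 6 (x 1) * π 6 (x 1)) ∈ D 18 :=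
    Mul 6 12 (by norm_num) (by norm_num) _ Ym _ Y2m
  have Y4m : π 6 (x 1) * (π 6 (x 1) * (π 6 (x 1) * π 6 (x 1))) ∈ D 24 :=
    Mul 6 18 (by norm_num) (by norm_num) _ Ym _ Y3m
  have ne : ∀ {s : ℕ} {b : A}, b ∈ D s → b ≠ 0 → 1 ≤ Module.finrank F (D s) := by
    intro s b hb h0
    apply C72I_one
    intro h
    rw [h, Submodule.mem_bot] at hb
    exact h0 hb
  have tr : ∀ s, 1 ≤ s → 1 ≤ Module.finrank F (D s) → 1 ≤ Module.finrank F (D' (60 * s)) := by
    intro s hs h
    obtain ⟨h3, h4⟩ := transfer_rank T hs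
    omega
  have hp := fun k hk hk' => (C72_pow T.st T.G hx k hk hk').2
  have d300 : 1 ≤ Module.finrank F (D' 300) := tr 5 (by norm_num) (hp 1 (by norm_num) (by norm_num))
  have d600 : 1 ≤ Module.finrank F (D' 600) :=
    tr 10 (by norm_num) (hp 2 (by norm_num) (by norm_num))
  have d900 : 1 ≤ Module.finrank F (D' 900) :=
    tr 15 (by norm_num) (hp 3 (by norm_num) (by norm_num))
  have d1200 : 1 ≤ Module.finrank F (D' 1200) :=
    tr 20 (by norm_num) (hp 4 (by norm_num) (by norm_num))
  have d1500 : 1 ≤ Module.finrank F (D' 1500) :=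
    tr 25 (by norm_num) (hp 5 (by norm_num) (by norm_num))
  have d1800 : 1 ≤ Module.finrank F (D' 1800) :=
    tr 30 (by norm_num) (hp 6 (by norm_num) (by norm_num))
  have d360 : 1 ≤ Module.finrank F (D' 360) := tr 6 (by norm_num) (ne Ym Y1)
  have d720 : 1 ≤ Module.finrank F (D' 720) := tr 12 (by norm_num) (ne Y2m Y2)
  have d1080 : 1 ≤ Module.finrank F (D' 1080) := tr 18 (by norm_num) (ne Y3m Y3)
  have d1440 : 1 ≤ Module.finrank F (D' 1440) := tr 24 (by norm_num) (ne Y4m Y4)
  have dw : 1 ≤ Module.finrank F (D' w) := by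
    apply C72I_one
    intro h
    rw [h, Submodule.mem_bot] at zm
    exact hz zm
  have hdim := hcr.dim
  -- the sum over the eleven layers
  have sum11 : Module.finrank F (D' 300) + (Module.finrank F (D' 600) + (Module.finrank F (D' 900) +
      (Module.finrank F (D' 1200) + (Module.finrank F (D' 1500) + (Module.finrank F (D' 1800) +
      (Module.finrank F (D' 360) + (Module.finrank F (D' 720) + (Module.finrank F (D' 1080) +
      (Module.finrank F (D' 1440) + Module.finrank F (D' w)))))))))) ≤ 11 := by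
    refine le_trans (le_of_eq ?_) (le_trans (T.G'.sum_le
      {300, 600, 900, 1200, 1500, 1800, 360, 720, 1080, 1440, w} ?_) hdim)
    · rw [Finset.sum_insert, Finset.sum_insert, Finset.sum_insert, Finset.sum_insert,
        Finset.sum_insert, Finset.sum_insert, Finset.sum_insert, Finset.sum_insert,
        Finset.sum_insert, Finset.sum_insert, Finset.sum_singleton]
      all_goals
        simp only [Finset.mem_insert, Finset.mem_singleton]
        omega
    · intro s hs
      simp only [Finset.mem_insert, Finset.mem_singleton] at hs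
      omega
  have supp : ∀ s, 1 ≤ s → D' s ≠ ⊥ → s = 300 ∨ s = 600 ∨ s = 900 ∨ s = 1200 ∨ s = 1500 ∨
      s = 1800 ∨ s = 360 ∨ s = 720 ∨ s = 1080 ∨ s = 1440 ∨ s = w := by
    intro s hs hD
    by_contra hcon
    push Not at hcon
    have h3 : 1 ≤ Module.finrank F (D' s) := C72I_one hD
    have sum12 : Module.finrank F (D' s) + (Module.finrank F (D' 300) +
      (Module.finrank F (D' 600) + (Module.finrank F (D' 900) +
      (Module.finrank F (D' 1200) + (Module.finrank F (D' 1500) + (Module.finrank F (D' 1800) +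
      (Module.finrank F (D' 360) + (Module.finrank F (D' 720) + (Module.finrank F (D' 1080) +
      (Module.finrank F (D' 1440) + Module.finrank F (D' w))))))))))) ≤ 11 := by
      refine le_trans (le_of_eq ?_) (le_trans (T.G'.sum_le
        {s, 300, 600, 900, 1200, 1500, 1800, 360, 720, 1080, 1440, w} ?_) hdim)
      · rw [Finset.sum_insert, Finset.sum_insert, Finset.sum_insert, Finset.sum_insert,
          Finset.sum_insert, Finset.sum_insert, Finset.sum_insert, Finset.sum_insert,
          Finset.sum_insert, Finset.sum_insert, Finset.sum_insert, Finset.sum_singleton]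
        all_goals
          simp only [Finset.mem_insert, Finset.mem_singleton]
          omega
      · intro s' hs'
        simp only [Finset.mem_insert, Finset.mem_singleton] at hs'
        omega
    omega
  have x2 : π' 300 (x 0) * π' 300 (x 0) ∈ D' 600 := mul 300 300 (by norm_num) (by norm_num) _ xm _ xm
  have x3 : π' 300 (x 0) * (π' 300 (x 0) * π' 300 (x 0)) ∈ D' 900 :=
    mul 300 600 (by norm_num) (by norm_num) _ xm _ x2
  have x4 : π' 300 (x 0) * (π' 300 (x 0) * (π' 300 (x 0) * π' 300 (x 0))) ∈ D' 1200 :=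
    mul 300 900 (by norm_num) (by norm_num) _ xm _ x3
  have y2 : π' 360 (x 1) * π' 360 (x 1) ∈ D' 720 := mul 360 360 (by norm_num) (by norm_num) _ ym _ ym
  have y3 : π' 360 (x 1) * (π' 360 (x 1) * π' 360 (x 1)) ∈ D' 1080 :=
    mul 360 720 (by norm_num) (by norm_num) _ ym _ y2
  have x50 : π' 300 (x 0) * (π' 300 (x 0) * (π' 300 (x 0) * (π' 300 (x 0) * π' 300 (x 0)))) ≠ 0 :=
    fun h => x6 (by rw [h, mul_zero])
  have x40 : π' 300 (x 0) * (π' 300 (x 0) * (π' 300 (x 0) * π' 300 (x 0))) ≠ 0 :=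
    fun h => x50 (by rw [h, mul_zero])
  have x30 : π' 300 (x 0) * (π' 300 (x 0) * π' 300 (x 0)) ≠ 0 :=
    fun h => x40 (by rw [h, mul_zero])
  have y30 : π' 360 (x 1) * (π' 360 (x 1) * π' 360 (x 1)) ≠ 0 :=
    fun h => y4 (by rw [h, mul_zero])
  have y20 : π' 360 (x 1) * π' 360 (x 1) ≠ 0 := fun h => y30 (by rw [h, mul_zero])
  have xy : π' 300 (x 0) * π' 360 (x 1) = 0 := by
    have h3 : π' 300 (x 0) * π' 360 (x 1) ∈ D' 660 :=
      mul 300 360 (by norm_num) (by norm_num) _ xm _ ym
    have h4 : D' 660 = ⊥ := by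
      by_contra h
      have := supp 660 (by norm_num) h
      omega
    rw [h4, Submodule.mem_bot] at h3
    exact h3
  refine ⟨T.G'.gf, hw, hw', xm, ym, zm, hz, x6, y4, xy, supp, C72I_span (by omega) y2 y20,
    C72I_span (by omega) x3 x30, C72I_span (by omega) y3 y30, C72I_span (by omega) x4 x40, ?_⟩
  intro s hs hs' h hh e1 e2 e3 e4 e5 e6 e7 e8 e9
  apply T.G'.kill_all T.st' hs hs' hh
  · intro i
    fin_cases i
    · exact e1
    · exact e2
    · exact e3
  · intro i j
    fin_cases i <;> fin_cases j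
    · exact e4
    · exact e5
    · exact e7
    · change (π' 360 (x 1) * π' 300 (x 0)) * h = 0
      rw [mul_comm (π' 360 (x 1))]; exact e5
    · exact e6
    · exact e8
    · change (π' w (x 2) * π' 300 (x 0)) * h = 0
      rw [mul_comm (π' w (x 2))]; exact e7
    · change (π' w (x 2) * π' 360 (x 1)) * h = 0
      rw [mul_comm (π' w (x 2))]; exact e8
    · exact e9

end JD
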