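import Pool.Agent.H74.JD.S75
import Pool.Agent.H9.JH.Defs

set_option autoImplicit false
set_option linter.unusedSectionVars false

/-!
# JD S75B: the case `D 19 = 0` for the stage `(4, 5, 5)` (helper74)

`w, w' ∈ W = D 5`, `q, p, s ∈ D 10`. Facts (P), (C), (B), nd9, nd10, nd14, nd15 of `S75.lean`. `D 5 ≠ 0`. Write `f1, e2, f2, e3` for the dimensions of `D 9, D 10, D 14, D 15`.
(i) `e2 ≥ 1`: if `D 10 = 0` then `D 14 = 0` (nd14), `D 15 = 0` (g15), `D 9 = 0` (nd9: `w t ∈ D 14`), and `D 5 = 0` by `kill` (`x w ∈ D 9`, `w w' ∈ D 10`, `(x x) w ∈ D 13`). Contradiction.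
(ii) Suppose `e2 = 1`: `D 10 = F s`, `w w' = b(w,w') s`; `gJ1 w h`: `b(w,w) (s (w h) - w (s h)) = 0`, density (`b ≠ 0` on `W` because `D 10` is spanned by squares; use `mem_of_dense` or `pvan'`): `s (w h) = w (s h)` for all `w ∈ W` and all `h` (COMM).
  (ii-a) `s s ≠ 0`. Suppose `s s = 0`. `w (s w') = s (w w') = b(w,w') s s = 0`, so `s w' = 0` (nd15). (B) with `p = s`: `s (w' (x w)) = x ((w w') s) - x (w' (w s)) = 0`, so `w' (x w) = 0` (nd14), `x w = 0` (nd9). (C): `s (x s) = x (s s) = 0` so `x s = 0` (nd14). `s = 0` by nd10. Contradiction.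
  (ii-b) `w ↦ s w` is injective on `W`: let `s w0 = 0`. `b(w,w0) s s = s (w w0) = w (s w0) = 0`: `w w0 = 0` for all `w`. (B) (`w := w0`): `s (w' (x w0)) = 0 - x (w' (w0 s)) = 0`: `w' (x w0) = 0`, `x w0 = 0`. (B) (`w' := w0`): `s (w0 (x w)) = x ((w w0) s) - x (w0 (w s)) = 0` (`w0 (s w) = s (w0 w) = 0`), so `w0 (x w) = 0`. `kill`: `w0 = 0`.
  So `e3 ≥ finrank (D 5)`, and `f2 ≥ 1` (`s (x s) = x (s s) ≠ 0` by `x20`, so `x s ≠ 0`).
`S75_two` (`finrank (D 5) = 2`, `D 19 = 0` implies `4 ≤ f1 + e2 + f2 + e3`): `e2 = 1`: `1 + 2 + 1`. `e2 ≥ 2`: CASE all `x p = 0` (`p ∈ D 10`): `x (q p) = q (x p) = 0`, `q p = 0` (`x20`). (B): `p (w' (x w)) = - x (w' (w p))`. `f2 ≥ 1`: if `D 14 = 0`, then `w t = 0`, `D 9 = 0`, `x (w' (w p)) = 0`, `w' (w p) = 0` (`x20`), `w p = 0` (nd15), `p = 0` (nd10), contradiction.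
`e3 ≥ 1`: if `D 15 = 0` then `w p = 0`, `p = 0` by nd10, contradiction. Sum `≥ 2 + 1 + 1`. CASE some `x p ≠ 0`: `f2 ≥ 1`. `f2 ≥ 2`: sum `≥ 4`. `f2 = 1`: the map `p ↦ x p`, `D 10 → D 14`, has a kernel: `q0 ≠ 0`, `x q0 = 0`; `x (p q0) = p (x q0) = 0`, `p q0 = 0`; if `D 15 = 0` then `w q0 = 0`, `q0 = 0` by nd10, contradiction. So `e3 ≥ 1`, sum `≥ 2 + 1 + 1`.
`S75_one` (`D 5 = F y`, `D 19 = 0`): `D 10 = F y y` so `e2 = 1`, `s = y y` (`b(y,y) = 1`), `s s ≠ 0`, `s y ≠ 0`. `D 15 = F y s`. `gJ1 y y`: `s s = (y y)(y y) = y ((y y) y) = y (y s)`. (B) with `w = w' = y`, `p = s`: `s (y (x y)) = x (s s) - x (y (y s)) = 0`, so `y (x y) = 0`, `x y = 0`, `D 9 = 0` (g9). `D 14 ≤ F x s` (g14). `s (x s) = x (s s) ≠ 0` (`x20`).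
-/

namespace JD

universe u

variable {F : Type u} [Field F] {A : Type u} [NonUnitalNonAssocCommRing A] [Module F A]
  [IsScalarTower F A A] [SMulCommClass F A A] {D : ℕ → Submodule F A} {x : A}

private theorem S75B_inj [Module.Finite F A] (a : A) (i j : ℕ) (hm : ∀ v ∈ D i, a * v ∈ D j)
    (hi : ∀ v ∈ D i, a * v = 0 → v = 0) :
    Module.finrank F (D i) ≤ Module.finrank F (D j) := by
  let f : D i →ₗ[F] D j := (LinearMap.mulLeft F a).restrict (fun v hv => by
    rw [LinearMap.mulLeft_apply]; exact hm v hv)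
  refine LinearMap.finrank_le_finrank_of_injective (f := f) ?_
  rw [injective_iff_map_eq_zero]
  rintro ⟨v, hv⟩ h0
  have h1 : a * v = 0 := by
    have := congrArg Subtype.val h0
    simpa [f] using this
  ext
  exact hi v hv h1

private theorem S75B_m55 (h : S75 F A D x) {a b : A} (ha : a ∈ D 5) (hb : b ∈ D 5) :
    a * b ∈ D 10 := h.gf.mul_mem 5 5 (by norm_num) (by norm_num) a ha b hb

private theorem S75B_m45 (h : S75 F A D x) {b : A} (hb : b ∈ D 5) :
    x * b ∈ D 9 := h.gf.mul_mem 4 5 (by norm_num) (by norm_num) x h.xm b hb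

private theorem S75B_m59 (h : S75 F A D x) {a b : A} (ha : a ∈ D 5) (hb : b ∈ D 9) :
    a * b ∈ D 14 := h.gf.mul_mem 5 9 (by norm_num) (by norm_num) a ha b hb

private theorem S75B_m510 (h : S75 F A D x) {a b : A} (ha : a ∈ D 5) (hb : b ∈ D 10) :
    a * b ∈ D 15 := h.gf.mul_mem 5 10 (by norm_num) (by norm_num) a ha b hb

private theorem S75B_m410 (h : S75 F A D x) {b : A} (hb : b ∈ D 10) :
    x * b ∈ D 14 := h.gf.mul_mem 4 10 (by norm_num) (by norm_num) x h.xm b hb

private theorem S75B_m1010 (h : S75 F A D x) {a b : A} (ha : a ∈ D 10) (hb : b ∈ D 10) :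
    a * b ∈ D 20 := h.gf.mul_mem 10 10 (by norm_num) (by norm_num) a ha b hb

private theorem S75B_m515 (h : S75 F A D x) {a b : A} (ha : a ∈ D 5) (hb : b ∈ D 15) :
    a * b ∈ D 20 := h.gf.mul_mem 5 15 (by norm_num) (by norm_num) a ha b hb

private theorem S75B_m13 (h : S75 F A D x) {b : A} (hb : b ∈ D 5) : (x * x) * b = 0 := by
  have h1 : x * x ∈ D 8 := h.gf.mul_mem 4 4 (by norm_num) (by norm_num) x h.xm x h.xm
  have h2 : (x * x) * b ∈ D 13 := h.gf.mul_mem 8 5 (by norm_num) (by norm_num) _ h1 b hb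
  have h3 : D 13 = ⊥ := by
    by_contra h4
    have := h.supp 13 (by norm_num) h4
    omega
  rw [h3] at h2
  exact (Submodule.mem_bot F).mp h2

private theorem S75B_d10 (h : S75 F A D x) (h19 : D 19 = ⊥) (h5 : D 5 ≠ ⊥) : D 10 ≠ ⊥ := by
  intro h10
  have z10 : ∀ q ∈ D 10, q = 0 := fun q hq => by
    rw [h10] at hq; exact (Submodule.mem_bot F).mp hq
  have z14 : ∀ g ∈ D 14, g = 0 := fun g hg => S75_nd14 h h19 g hg fun q hq => by
    rw [z10 q hq, zero_mul]
  have z9 : ∀ t ∈ D 9, t = 0 := fun t ht => S75_nd9 h h19 t ht fun w hw =>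
    z14 _ (S75B_m59 h hw ht)
  apply h5
  rw [Submodule.eq_bot_iff]
  intro v hv
  refine h.kill 5 (by norm_num) (by norm_num) v hv (z9 _ (S75B_m45 h hv))
    (fun w hw => z10 _ (S75B_m55 h hw hv)) (S75B_m13 h hv) (fun w hw => ?_) (fun w hw w' hw' => ?_)
  · rw [z9 _ (S75B_m45 h hw), zero_mul]
  · rw [z10 _ (S75B_m55 h hw hw'), zero_mul]

/-- COMM -/
private theorem S75B_comm (h : S75 F A D x) {s : A} (hs : D 10 ≤ Submodule.span F {s})
    (h10 : D 10 ≠ ⊥) (w : A) (hw : w ∈ D 5) (k : A) : s * (w * k) = w * (s * k) := by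
  have key : ∀ v ∈ D 5, v * v ≠ 0 → s * (v * k) = v * (s * k) := by
    intro v hv hv0
    obtain ⟨r, hr⟩ := Submodule.mem_span_singleton.mp (hs (S75B_m55 h hv hv))
    have hr0 : r ≠ 0 := by
      rintro rfl
      rw [zero_smul] at hr
      exact hv0 hr.symm
    have h1 := gJ1 h.gf.jordan v k
    rw [← hr, smul_mul_assoc, smul_mul_assoc, mul_smul_comm] at h1
    exact smul_right_injective A hr0 h1
  obtain ⟨w0, hw0, hw1⟩ : ∃ w0 ∈ D 5, w0 * w0 ≠ 0 := by
    by_contra hcon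
    push Not at hcon
    apply h10
    rw [eq_bot_iff]
    refine h.g10 ⊥ fun a ha b hb => ?_
    have h1 := hcon _ ((D 5).add_mem ha hb)
    rw [add_mul, mul_add, mul_add, hcon a ha, hcon b hb, mul_comm b a, zero_add, add_zero,
      ← two_smul F] at h1
    rw [Submodule.mem_bot]
    exact (smul_eq_zero.mp h1).resolve_left h.gf.two
  have k0 := key w0 hw0 hw1
  by_cases hww : w * w = 0
  · by_cases h1 : (w + w0) * (w + w0) = 0
    · have h2 : (w - w0) * (w - w0) ≠ 0 := by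
        intro h2
        rw [add_mul, mul_add, mul_add, hww, mul_comm w0 w] at h1
        rw [sub_mul, mul_sub, mul_sub, hww, mul_comm w0 w] at h2
        have h3 : (2 : F) • (w0 * w0) = 0 := by
          rw [two_smul]
          linear_combination (norm := abel) h1 + h2
        exact hw1 ((smul_eq_zero.mp h3).resolve_left h.gf.two)
      have h3 := key (w - w0) ((D 5).sub_mem hw hw0) h2
      rw [sub_mul, mul_sub, sub_mul, k0] at h3
      exact sub_left_injective h3
    · have h3 := key (w + w0) ((D 5).add_mem hw hw0) h1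
      rw [add_mul, mul_add, add_mul, k0] at h3
      exact add_right_cancel h3
  · exact key w hw hww

/-- (ii-a) and (ii-b) -/
private theorem S75B_core (h : S75 F A D x) (h19 : D 19 = ⊥) {s : A} (hs1 : s ∈ D 10)
    (hs : D 10 ≤ Submodule.span F {s}) (h10 : D 10 ≠ ⊥) :
    s * s ≠ 0 ∧ (∀ w ∈ D 5, s * w = 0 → w = 0) ∧ s * (x * s) ≠ 0 := by
  have comm := S75B_comm h hs h10
  have co : ∀ q ∈ D 10, ∃ r : F, q = r • s := by
    intro q hq
    obtain ⟨r, hr⟩ := Submodule.mem_span_singleton.mp (hs hq)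
    exact ⟨r, hr.symm⟩
  have n14 : ∀ g ∈ D 14, s * g = 0 → g = 0 := by
    intro g hg h0
    refine S75_nd14 h h19 g hg fun q hq => ?_
    obtain ⟨r, rfl⟩ := co q hq
    rw [smul_mul_assoc, h0, smul_zero]
  have hs0 : s ≠ 0 := by
    rintro rfl
    apply h10
    rw [Submodule.eq_bot_iff]
    intro q hq
    obtain ⟨r, rfl⟩ := co q hq
    rw [smul_zero]
  have iia : s * s ≠ 0 := by
    intro hss
    have z1 : ∀ w ∈ D 5, s * w = 0 := by
      intro w' hw'
      refine S75_nd15 h h19 _ ?_ fun w hw => ?_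
      · rw [mul_comm]
        exact S75B_m510 h hw' hs1
      · rw [← comm w hw w']
        obtain ⟨r, hr⟩ := co _ (S75B_m55 h hw hw')
        rw [hr, mul_smul_comm, hss, smul_zero]
    have z2 : ∀ w ∈ D 5, x * w = 0 := by
      intro w hw
      refine S75_nd9 h h19 _ (S75B_m45 h hw) fun w' hw' => ?_
      apply n14 _ (S75B_m59 h hw' (S75B_m45 h hw))
      have hB := S75_B h h19 w w' s hw hw' hs1
      obtain ⟨r, hr⟩ := co _ (S75B_m55 h hw hw')
      rw [hr, smul_mul_assoc, hss, mul_comm w s, z1 w hw, mul_zero, mul_zero, add_zero, smul_zero,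
        mul_zero] at hB
      exact hB
    have z3 : x * s = 0 := by
      apply n14 _ (S75B_m410 h hs1)
      rw [S75_C h h19 s s hs1 hs1, hss, mul_zero]
    apply hs0
    refine S75_nd10 h h19 s hs1 z3 (fun w hw => ?_) (fun q hq => ?_)
    · rw [mul_comm, z1 w hw]
    · obtain ⟨r, rfl⟩ := co q hq
      rw [smul_mul_assoc, hss, smul_zero]
  refine ⟨iia, ?_, ?_⟩
  · intro w0 hw0 h0
    have z0 : ∀ w ∈ D 5, w * w0 = 0 := by
      intro w hw
      obtain ⟨r, hr⟩ := co _ (S75B_m55 h hw hw0)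
      have h1 := comm w hw w0
      rw [h0, mul_zero, hr, mul_smul_comm] at h1
      rw [hr, (smul_eq_zero.mp h1).resolve_right iia, zero_smul]
    have z1 : x * w0 = 0 := by
      refine S75_nd9 h h19 _ (S75B_m45 h hw0) fun w' hw' => ?_
      apply n14 _ (S75B_m59 h hw' (S75B_m45 h hw0))
      have hB := S75_B h h19 w0 w' s hw0 hw' hs1
      rw [mul_comm w0 w', z0 w' hw', mul_comm w0 s, h0, mul_zero, mul_zero, add_zero, zero_mul,
        mul_zero] at hB
      exact hB
    have z2 : ∀ w ∈ D 5, w0 * (x * w) = 0 := by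
      intro w hw
      apply n14 _ (S75B_m59 h hw0 (S75B_m45 h hw))
      have hB := S75_B h h19 w w0 s hw hw0 hs1
      rw [z0 w hw, zero_mul, mul_zero, mul_comm w s, ← comm w0 hw0 w, mul_comm w0 w, z0 w hw,
        mul_zero, mul_zero, add_zero] at hB
      exact hB
    refine h.kill 5 (by norm_num) (by norm_num) w0 hw0 z1 z0 (S75B_m13 h hw0) (fun w hw => ?_)
      (fun w hw w' hw' => ?_)
    · rw [mul_comm]
      exact z2 w hw
    · obtain ⟨r, hr⟩ := co _ (S75B_m55 h hw hw')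
      rw [hr, smul_mul_assoc, h0, smul_zero]
  · rw [S75_C h h19 s s hs1 hs1]
    intro h0
    exact iia (h.x20 _ (S75B_m1010 h hs1 hs1) h0)

theorem S75_two (h : S75 F A D x) (h19 : D 19 = ⊥) (h5 : Module.finrank F (D 5) = 2) :
    4 ≤ Module.finrank F (D 9) + Module.finrank F (D 10) + Module.finrank F (D 14) +
      Module.finrank F (D 15) := by
  have := h.gf.fin
  have h5' : D 5 ≠ ⊥ := by
    intro h0
    rw [h0, finrank_bot] at h5
    omega
  have h10 := S75B_d10 h h19 h5'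
  have e2 : 1 ≤ Module.finrank F (D 10) := Submodule.one_le_finrank_iff.mpr h10
  rcases Nat.eq_or_lt_of_le e2 with he | he
  · -- `e2 = 1`
    obtain ⟨⟨s, hs1⟩, hs0, hs⟩ := finrank_eq_one_iff'.mp he.symm
    have hs' : D 10 ≤ Submodule.span F {s} := by
      intro q hq
      obtain ⟨r, hr⟩ := hs ⟨q, hq⟩
      exact Submodule.mem_span_singleton.mpr ⟨r, congrArg Subtype.val hr⟩
    obtain ⟨h1, h2, h3⟩ := S75B_core h h19 hs1 hs' h10
    have e3 : Module.finrank F (D 5) ≤ Module.finrank F (D 15) := by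
      refine S75B_inj s 5 15 (fun v hv => ?_) h2
      rw [mul_comm]
      exact S75B_m510 h hv hs1
    have f2 : 1 ≤ Module.finrank F (D 14) := by
      refine Submodule.one_le_finrank_iff.mpr fun h0 => h3 ?_
      have h4 := S75B_m410 h hs1
      rw [h0, Submodule.mem_bot] at h4
      rw [h4, mul_zero]
    omega
  · -- `e2 ≥ 2`
    have z20 : ∀ q ∈ D 10, ∀ p ∈ D 10, x * p = 0 → q * p = 0 := by
      intro q hq p hp h0
      refine h.x20 _ (S75B_m1010 h hq hp) ?_
      rw [← S75_C h h19 q p hq hp, h0, mul_zero]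
    have e3 : ∀ q ∈ D 10, q ≠ 0 → x * q = 0 → 1 ≤ Module.finrank F (D 15) := by
      intro q hq hq0 h0
      refine Submodule.one_le_finrank_iff.mpr fun h15 => hq0 ?_
      refine S75_nd10 h h19 q hq h0 (fun w hw => ?_) fun p hp => z20 p hp q hq h0
      have h4 := S75B_m510 h hw hq
      rw [h15, Submodule.mem_bot] at h4
      exact h4
    by_cases hx : ∀ p ∈ D 10, x * p = 0
    · obtain ⟨q, hq, hq0⟩ := (Submodule.ne_bot_iff _).mp h10
      have h15 := e3 q hq hq0 (hx q hq)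
      have f2 : 1 ≤ Module.finrank F (D 14) := by
        refine Submodule.one_le_finrank_iff.mpr fun h14 => hq0 ?_
        have z9 : ∀ t ∈ D 9, t = 0 := fun t ht => S75_nd9 h h19 t ht fun w hw => by
          have h4 := S75B_m59 h hw ht
          rw [h14, Submodule.mem_bot] at h4
          exact h4
        refine S75_nd10 h h19 q hq (hx q hq) (fun w hw => ?_)
          fun p hp => z20 p hp q hq (hx q hq)
        refine S75_nd15 h h19 _ (S75B_m510 h hw hq) fun w' hw' => ?_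
        refine h.x20 _ (S75B_m515 h hw' (S75B_m510 h hw hq)) ?_
        have hB := S75_B h h19 w w' q hw hw' hq
        rw [z9 _ (S75B_m45 h hw), mul_zero, mul_zero, zero_add,
          z20 _ (S75B_m55 h hw hw') q hq (hx q hq), mul_zero] at hB
        exact hB
      omega
    · push Not at hx
      obtain ⟨p, hp, hp0⟩ := hx
      have f2 : 1 ≤ Module.finrank F (D 14) := by
        refine Submodule.one_le_finrank_iff.mpr fun h14 => hp0 ?_
        have h4 := S75B_m410 h hp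
        rw [h14, Submodule.mem_bot] at h4
        exact h4
      by_cases f2' : 2 ≤ Module.finrank F (D 14)
      · omega
      · obtain ⟨q, hq, hxq, hq0⟩ : ∃ q ∈ D 10, x * q = 0 ∧ q ≠ 0 := by
          by_contra hcon
          push Not at hcon
          have := S75B_inj (F := F) (D := D) x 10 14 (fun v hv => S75B_m410 h hv) hcon
          omega
        have h15 := e3 q hq hq0 hxq
        omega

theorem S75_one (h : S75 F A D x) (h19 : D 19 = ⊥) {y : A} (hy : y ∈ D 5) (hy0 : y ≠ 0)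
    (h5 : D 5 ≤ Submodule.span F {y}) :
    x * y = 0 ∧ D 9 = ⊥ ∧ D 10 ≤ Submodule.span F {y * y} ∧
    D 14 ≤ Submodule.span F {x * (y * y)} ∧ D 15 ≤ Submodule.span F {y * (y * y)} ∧
    y * (y * y) ≠ 0 ∧ (y * y) * (x * (y * y)) ≠ 0 := by
  have hy5 : D 5 ≠ ⊥ := fun h0 => by
    rw [h0, Submodule.mem_bot] at hy
    exact hy0 hy
  have h10 := S75B_d10 h h19 hy5
  have co5 : ∀ w ∈ D 5, ∃ r : F, w = r • y := by
    intro w hw
    obtain ⟨r, hr⟩ := Submodule.mem_span_singleton.mp (h5 hw)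
    exact ⟨r, hr.symm⟩
  have hs : D 10 ≤ Submodule.span F {y * y} := by
    refine h.g10 _ fun w hw w' hw' => ?_
    obtain ⟨r, rfl⟩ := co5 w hw
    obtain ⟨r', rfl⟩ := co5 w' hw'
    rw [smul_mul_smul_comm]
    exact Submodule.smul_mem _ _ (Submodule.mem_span_singleton_self _)
  have co10 : ∀ q ∈ D 10, ∃ r : F, q = r • (y * y) := by
    intro q hq
    obtain ⟨r, hr⟩ := Submodule.mem_span_singleton.mp (hs hq)
    exact ⟨r, hr.symm⟩
  have hyy := S75B_m55 h hy hy
  obtain ⟨h1, h2, h3⟩ := S75B_core h h19 hyy hs h10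
  have z1 : x * y = 0 := by
    refine S75_nd9 h h19 _ (S75B_m45 h hy) fun w hw => ?_
    obtain ⟨r, rfl⟩ := co5 w hw
    rw [smul_mul_assoc]
    have z2 : y * (x * y) = 0 := by
      refine S75_nd14 h h19 _ (S75B_m59 h hy (S75B_m45 h hy)) fun q hq => ?_
      obtain ⟨r', rfl⟩ := co10 q hq
      rw [smul_mul_assoc]
      have hB := S75_B h h19 y y (y * y) hy hy hyy
      have h4 := gJ1 h.gf.jordan y y
      rw [h4, mul_comm (y * y) y] at hB
      have h5 : (y * y) * (y * (x * y)) = 0 := by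
        linear_combination (norm := abel) hB
      rw [h5, smul_zero]
    rw [z2, smul_zero]
  have z9 : D 9 = ⊥ := by
    rw [eq_bot_iff]
    refine h.g9 ⊥ fun w hw => ?_
    obtain ⟨r, rfl⟩ := co5 w hw
    rw [mul_smul_comm, z1, smul_zero]
    exact Submodule.zero_mem _
  refine ⟨z1, z9, hs, ?_, ?_, ?_, h3⟩
  · refine h.g14 _ (fun q hq => ?_) fun w hw t ht => ?_
    · obtain ⟨r, rfl⟩ := co10 q hq
      rw [mul_smul_comm]
      exact Submodule.smul_mem _ _ (Submodule.mem_span_singleton_self _)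
    · rw [z9, Submodule.mem_bot] at ht
      rw [ht, mul_zero]
      exact Submodule.zero_mem _
  · refine h.g15 _ fun w hw q hq => ?_
    obtain ⟨r, rfl⟩ := co5 w hw
    obtain ⟨r', rfl⟩ := co10 q hq
    rw [smul_mul_smul_comm]
    exact Submodule.smul_mem _ _ (Submodule.mem_span_singleton_self _)
  · intro h0
    rw [mul_comm] at h0
    exact hy0 (h2 y hy h0)

end JD
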