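import Pool.Agent.H74.JD.S75A
import Pool.Agent.H74.JD.S75B
import Pool.Agent.H74.JD.GPicB

set_option autoImplicit false
set_option linter.unusedSectionVars false

/-!
# JD C75: one essential letter, the stage `(4, 5, 5)`, `N = 24` (helper74)

`X = π 4 (x 0)`, `S 0^6 ≠ 0`.
* `C75_supp` (the field `supp`): `GPic.compl`, `wt_cnt`: `s = 4 i + 5 j`, `24 - s = 4 i' + 5 j'`, so `(i + i', j + j') ∈ {(6, 0), (1, 4)}` (`4 a + 5 b = 24`), and `s` is in the list.
* `C75_S75`. `gf := G.gf`. `g9`, ...: `D s` is the span of the `gS w` with `wt w = s` (`GPic.D_eq`); by `wt_cnt` the numbers of letters are determined: `9`: one 0 and one of `1, 2`; `10`: two of `1, 2`; `14`: one 0, two of `1, 2`; `15`: three of `1, 2`; `19`: one 0 and three of `1, 2`. `SSys.gen_le` is stated for letter sets only, so use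
  `alt_mem'` (file `SMem.lean`) with `P w = (wt ![4,5,5] w = s)` (permutation invariant, `wt_perm`): for `|v| ≤ 2`, `|v| + |w| = n`, `wt v + wt w = s` the product `4 • (gS v * gS w)` is in `T`: `v = [0]`: `X * D (s - 4)`; `v = [i]`, `i = 1, 2`: `D 5 * D (s - 5)`; `|v| = 2`: `gS v ∈ D 9` or `D 10` (or the length `n = 2`); use
  `mul_comm` where necessary (for `n = 3`, `|v| = 2` is the case `|w| = 1`). `x20`: `p ∈ D 20` with `X p = 0`: `GF.nd`: `b ∈ D n`, `n ≥ 1`, `b p ∈ D (20 + n)` so `n ≤ 4`; `D n = ⊥` for `n ≤ 3`, `D 4 = F X` (weight 4: only the word `[0]`). `kill`: `GPic.kill_all`; `π 5 (x 1), π 5 (x 2) ∈ D 5`.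
* `C75_pow`: as `C72_pow`.
* `C75_dim`: total `∑ finrank (D s) ≤ 11` (`GPic.sum_le`, `hcr.dim`), `finrank (D (4 k)) ≥ 1` (`C75_pow`), `finrank (D 5) ≤ 2` (spanned by two elements). If `finrank (D 5) = 2`: `D 19 ≠ ⊥`: `6 + 2 + 1 + 3 = 12` (`S75_A`); `D 19 = ⊥`: `6 + 2 + 4 = 12` (`S75_two`). So `finrank (D 5) = 1`.
-/

namespace JD

universe u

variable {F : Type u} [Field F] {J : Type u} [NonUnitalNonAssocCommRing J] [Module F J]
  [IsScalarTower F J J] [SMulCommClass F J J] {x : Fin 3 → J} {S : List (Fin 3) → J} {e : J}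
  {A : Type u} [NonUnitalNonAssocCommRing A] [Module F A] [IsScalarTower F A A]
  [SMulCommClass F A A] {D : ℕ → Submodule F A} {π : ℕ → J →ₗ[F] A}

private theorem C75_cnt (w : List (Fin 3)) :
    wt ![4, 5, 5] w = 4 * w.count 0 + 5 * w.count 1 + 5 * w.count 2 ∧
      w.length = w.count 0 + w.count 1 + w.count 2 := by
  have := wt_cnt ![4, 5, 5] w
  simpa using this

theorem C75_supp (h : Stg F x S ![4, 5, 5] 24 e) (G : GPic F (wfil F S ![4, 5, 5]) 24 A D π)
    {s : ℕ} (hs : 1 ≤ s) (hD : D s ≠ ⊥) :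
    s = 4 ∨ s = 8 ∨ s = 12 ∨ s = 16 ∨ s = 20 ∨ s = 24 ∨ s = 5 ∨
    s = 9 ∨ s = 10 ∨ s = 14 ∨ s = 15 ∨ s = 19 := by
  obtain ⟨v, w, hv, hw⟩ := G.compl h hs hD
  have h1 := (C75_cnt v).1
  have h2 := (C75_cnt w).1
  generalize v.count 0 = i at h1
  generalize v.count 1 = j at h1
  generalize v.count 2 = k at h1
  generalize w.count 0 = i' at h2
  generalize w.count 1 = j' at h2
  generalize w.count 2 = k' at h2
  have h3 : i + i' = 6 ∧ j + k + (j' + k') = 0 ∨ i + i' = 1 ∧ j + k + (j' + k') = 4 := by omega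
  have h4 : s = 4 * i + 5 * (j + k) := by omega
  rcases h3 with ⟨h3, h5⟩ | ⟨h3, h5⟩
  · have : j + k = 0 := by omega
    have : i ≤ 6 := by omega
    omega
  · have : j + k ≤ 4 := by omega
    have : i ≤ 1 := by omega
    interval_cases i <;> omega

private theorem C75_gen (h : Stg F x S ![4, 5, 5] 24 e)
    (G : GPic F (wfil F S ![4, 5, 5]) 24 A D π) {s : ℕ} (hs : 1 ≤ s) (T : Submodule F A)
    (hn : ∀ w : List (Fin 3), wt ![4, 5, 5] w = s → 2 ≤ w.length)
    (hT : ∀ v w : List (Fin 3), v ≠ [] → w ≠ [] → wt ![4, 5, 5] v + wt ![4, 5, 5] w = s →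
      gS S ![4, 5, 5] π v * gS S ![4, 5, 5] π w ∈ T) : D s ≤ T := by
  rw [G.D_eq h hs, Submodule.span_le]
  rintro _ ⟨w, hw, rfl⟩
  have hsys := G.sys h
  have h2 := G.gf.two
  refine alt_mem' h2 T w.length (hn w hw) (fun w => wt ![4, 5, 5] w = s) ?_
    (gS S ![4, 5, 5] π) hsys.rev ?_ w rfl hw
  · intro v w hvw hv
    rw [← wt_perm _ hvw]
    exact hv
  · intro v w hv hw' _ _ hP
    rw [← hsys.mul v w hv hw']
    refine T.smul_mem _ (hT v w hv hw' ?_)
    rw [← wt_append]
    exact hP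

private theorem C75_w4 (v : List (Fin 3)) (hv : wt ![4, 5, 5] v = 4) : v = [0] := by
  obtain ⟨h1, h2⟩ := C75_cnt v
  have h3 : v.length = 1 := by omega
  obtain ⟨i, rfl⟩ := List.length_eq_one_iff.1 h3
  fin_cases i
  · rfl
  · simp [wt] at hv
  · simp [wt] at hv

private theorem C75_w5 (v : List (Fin 3)) (hv : wt ![4, 5, 5] v = 5) : v = [1] ∨ v = [2] := by
  obtain ⟨h1, h2⟩ := C75_cnt v
  have h3 : v.length = 1 := by omega
  obtain ⟨i, rfl⟩ := List.length_eq_one_iff.1 h3
  fin_cases i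
  · simp [wt] at hv
  · left; rfl
  · right; rfl

private theorem C75_pos (v : List (Fin 3)) (hv : v ≠ []) : 4 ≤ wt ![4, 5, 5] v := by
  obtain ⟨h1, h2⟩ := C75_cnt v
  have h3 : 1 ≤ v.length := List.length_pos_iff.2 hv
  omega

private theorem C75_X (h : Stg F x S ![4, 5, 5] 24 e)
    (G : GPic F (wfil F S ![4, 5, 5]) 24 A D π) : gS S ![4, 5, 5] π [0] = π 4 (x 0) :=
  (G.sys h).single 0

private theorem C75_Y (h : Stg F x S ![4, 5, 5] 24 e)
    (G : GPic F (wfil F S ![4, 5, 5]) 24 A D π) (i : Fin 3) (hi : i ≠ 0) :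
    π (![4, 5, 5] i) (x i) ∈ D 5 := by
  have h1 := G.gS_mem h [i] (by simp)
  rw [(G.sys h).single i] at h1
  have h2 : wt ![4, 5, 5] [i] = 5 := by
    fin_cases i
    · exact absurd rfl hi
    · rfl
    · rfl
  rwa [h2] at h1

theorem C75_S75 (h : Stg F x S ![4, 5, 5] 24 e) (G : GPic F (wfil F S ![4, 5, 5]) 24 A D π) :
    S75 F A D (π 4 (x 0)) := by
  have hX := C75_X h G
  have hm : ∀ w : List (Fin 3), w ≠ [] → ∀ s, wt ![4, 5, 5] w = s →
      gS S ![4, 5, 5] π w ∈ D s := by
    intro w hw s hs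
    rw [← hs]
    exact G.gS_mem h w hw
  -- all the pairs of weights
  have key : ∀ v w : List (Fin 3), v ≠ [] → w ≠ [] → ∀ s, wt ![4, 5, 5] v + wt ![4, 5, 5] w = s →
      (s = 9 → wt ![4, 5, 5] v = 4 ∧ wt ![4, 5, 5] w = 5 ∨
        wt ![4, 5, 5] v = 5 ∧ wt ![4, 5, 5] w = 4) ∧
      (s = 10 → wt ![4, 5, 5] v = 5 ∧ wt ![4, 5, 5] w = 5) ∧
      (s = 14 → wt ![4, 5, 5] v = 4 ∧ wt ![4, 5, 5] w = 10 ∨
        wt ![4, 5, 5] v = 10 ∧ wt ![4, 5, 5] w = 4 ∨
        wt ![4, 5, 5] v = 5 ∧ wt ![4, 5, 5] w = 9 ∨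
        wt ![4, 5, 5] v = 9 ∧ wt ![4, 5, 5] w = 5) ∧
      (s = 15 → wt ![4, 5, 5] v = 5 ∧ wt ![4, 5, 5] w = 10 ∨
        wt ![4, 5, 5] v = 10 ∧ wt ![4, 5, 5] w = 5) ∧
      (s = 19 → wt ![4, 5, 5] v = 4 ∧ wt ![4, 5, 5] w = 15 ∨
        wt ![4, 5, 5] v = 15 ∧ wt ![4, 5, 5] w = 4 ∨
        wt ![4, 5, 5] v = 5 ∧ wt ![4, 5, 5] w = 14 ∨
        wt ![4, 5, 5] v = 14 ∧ wt ![4, 5, 5] w = 5 ∨
        wt ![4, 5, 5] v = 9 ∧ wt ![4, 5, 5] w = 10 ∨
        wt ![4, 5, 5] v = 10 ∧ wt ![4, 5, 5] w = 9) := by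
    intro v w hv hw s hs
    have p1 := C75_pos v hv
    have p2 := C75_pos w hw
    have h1 := (C75_cnt v).1
    have h2 := (C75_cnt w).1
    have h1' : wt ![4, 5, 5] v = 4 * v.count 0 + 5 * (v.count 1 + v.count 2) := by omega
    have h2' : wt ![4, 5, 5] w = 4 * w.count 0 + 5 * (w.count 1 + w.count 2) := by omega
    clear h1 h2
    generalize v.count 0 = i at h1'
    generalize v.count 1 + v.count 2 = j at h1'
    generalize w.count 0 = i' at h2'
    generalize w.count 1 + w.count 2 = j' at h2'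
    generalize wt ![4, 5, 5] v = m at *
    generalize wt ![4, 5, 5] w = n at *
    refine ⟨fun hs' => ?_, fun hs' => ?_, fun hs' => ?_, fun hs' => ?_, fun hs' => ?_⟩
    · have hi : i + i' = 1 := by omega
      have hj : j + j' = 1 := by omega
      have hi' : i ≤ 1 := by omega
      have hj' : j ≤ 1 := by omega
      interval_cases i <;> interval_cases j <;> omega
    · have hi : i + i' = 0 := by omega
      have hj : j + j' = 2 := by omega
      have hj' : j ≤ 2 := by omega
      interval_cases j <;> omega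
    · have hi : i + i' = 1 := by omega
      have hj : j + j' = 2 := by omega
      have hi' : i ≤ 1 := by omega
      have hj' : j ≤ 2 := by omega
      interval_cases i <;> interval_cases j <;> omega
    · have hi : i + i' = 0 := by omega
      have hj : j + j' = 3 := by omega
      have hj' : j ≤ 3 := by omega
      interval_cases j <;> omega
    · have hi : i + i' = 1 := by omega
      have hj : j + j' = 3 := by omega
      have hi' : i ≤ 1 := by omega
      have hj' : j ≤ 3 := by omega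
      interval_cases i <;> interval_cases j <;> omega
  have h2l : ∀ w : List (Fin 3), 9 ≤ wt ![4, 5, 5] w → 2 ≤ w.length := by
    intro w hw
    obtain ⟨h1, h2⟩ := C75_cnt w
    omega
  refine ⟨G.gf, ?_, fun s hs hD => C75_supp h G hs hD, ?_, ?_, ?_, ?_, ?_, ?_, ?_⟩
  · rw [← hX]
    exact hm _ (by simp) _ rfl
  · intro T hT
    refine C75_gen h G (by norm_num) T (fun w hw => h2l w (by omega)) fun v w hv hw hs => ?_
    rcases (key v w hv hw 9 hs).1 rfl with ⟨h1, h3⟩ | ⟨h1, h3⟩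
    · rw [C75_w4 v h1, hX]
      exact hT _ (hm w hw 5 h3)
    · rw [C75_w4 w h3, hX, mul_comm]
      exact hT _ (hm v hv 5 h1)
  · intro T hT
    refine C75_gen h G (by norm_num) T (fun w hw => h2l w (by omega)) fun v w hv hw hs => ?_
    obtain ⟨h1, h3⟩ := (key v w hv hw 10 hs).2.1 rfl
    exact hT _ (hm v hv 5 h1) _ (hm w hw 5 h3)
  · intro T hT hT'
    refine C75_gen h G (by norm_num) T (fun w hw => h2l w (by omega)) fun v w hv hw hs => ?_
    rcases (key v w hv hw 14 hs).2.2.1 rfl with ⟨h1, h3⟩ | ⟨h1, h3⟩ | ⟨h1, h3⟩ | ⟨h1, h3⟩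
    · rw [C75_w4 v h1, hX]
      exact hT _ (hm w hw 10 h3)
    · rw [C75_w4 w h3, hX, mul_comm]
      exact hT _ (hm v hv 10 h1)
    · exact hT' _ (hm v hv 5 h1) _ (hm w hw 9 h3)
    · rw [mul_comm]
      exact hT' _ (hm w hw 5 h3) _ (hm v hv 9 h1)
  · intro T hT
    refine C75_gen h G (by norm_num) T (fun w hw => h2l w (by omega)) fun v w hv hw hs => ?_
    rcases (key v w hv hw 15 hs).2.2.2.1 rfl with ⟨h1, h3⟩ | ⟨h1, h3⟩
    · exact hT _ (hm v hv 5 h1) _ (hm w hw 10 h3)
    · rw [mul_comm]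
      exact hT _ (hm w hw 5 h3) _ (hm v hv 10 h1)
  · intro T hT hT' hT''
    refine C75_gen h G (by norm_num) T (fun w hw => h2l w (by omega)) fun v w hv hw hs => ?_
    rcases (key v w hv hw 19 hs).2.2.2.2 rfl with ⟨h1, h3⟩ | ⟨h1, h3⟩ | ⟨h1, h3⟩ | ⟨h1, h3⟩ |
      ⟨h1, h3⟩ | ⟨h1, h3⟩
    · rw [C75_w4 v h1, hX]
      exact hT _ (hm w hw 15 h3)
    · rw [C75_w4 w h3, hX, mul_comm]
      exact hT _ (hm v hv 15 h1)
    · exact hT' _ (hm v hv 5 h1) _ (hm w hw 14 h3)
    · rw [mul_comm]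
      exact hT' _ (hm w hw 5 h3) _ (hm v hv 14 h1)
    · exact hT'' _ (hm v hv 9 h1) _ (hm w hw 10 h3)
    · rw [mul_comm]
      exact hT'' _ (hm w hw 9 h3) _ (hm v hv 10 h1)
  · intro p hp h0
    refine G.gf.nd 20 (by norm_num) (by norm_num) p hp fun j hj k hk => ?_
    rcases Nat.lt_or_ge 4 j with h4 | h4
    · exact G.gf.above (j + 20) (by omega) _ (G.gf.mul_mem j 20 hj (by norm_num) k hk p hp)
    · by_cases hD : D j = ⊥
      · rw [hD, Submodule.mem_bot] at hk
        rw [hk, zero_mul]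
      · have h5 := C75_supp h G hj hD
        have h6 : j = 4 := by omega
        subst h6
        rw [G.D_eq h (by norm_num)] at hk
        induction hk using Submodule.span_induction with
        | mem y hy =>
          obtain ⟨w, hw, rfl⟩ := hy
          rw [C75_w4 w hw, hX]
          exact h0
        | zero => rw [zero_mul]
        | add y z _ _ hy hz => rw [add_mul, hy, hz, add_zero]
        | smul t y _ hy => rw [smul_mul_assoc, hy, smul_zero]
  · intro s hs hs' p hp h1 h3 h4 h5 h6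
    have hY := C75_Y h G
    refine G.kill_all h hs hs' hp (fun i => ?_) (fun i j => ?_)
    · by_cases hi : i = 0
      · subst hi
        exact h1
      · exact h3 _ (hY i hi)
    · by_cases hi : i = 0
      · subst hi
        by_cases hj : j = 0
        · subst hj
          exact h4
        · exact h5 _ (hY j hj)
      · by_cases hj : j = 0
        · subst hj
          rw [mul_comm (π (![4, 5, 5] i) (x i))]
          exact h5 _ (hY i hi)
        · exact h6 _ (hY i hi) _ (hY j hj)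

private theorem C75_rep (k : ℕ) : wt ![4, 5, 5] (List.replicate k 0) = 4 * k := by
  simp [wt, mul_comm]

theorem C75_pow (h : Stg F x S ![4, 5, 5] 24 e) (G : GPic F (wfil F S ![4, 5, 5]) 24 A D π)
    (hx : S (List.replicate 6 0) ≠ 0) (k : ℕ) (hk : 1 ≤ k) (hk' : k ≤ 6) :
    gS S ![4, 5, 5] π (List.replicate k 0) ≠ 0 ∧ 1 ≤ Module.finrank F (D (4 * k)) := by
  have hsys := G.sys h
  have h2 := G.gf.two
  have key : ∀ m k : ℕ, 1 ≤ k → k + m = 6 →
      gS S ![4, 5, 5] π (List.replicate k 0) ≠ 0 := by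
    intro m
    induction m with
    | zero =>
      intro k _ hk h0
      obtain rfl : k = 6 := by omega
      exact hx (G.gS_top h _ (by rw [C75_rep]) h0)
    | succ m ih =>
      intro k hk1 hk h0
      obtain ⟨n, rfl⟩ : ∃ n, k = n + 1 := ⟨k - 1, by omega⟩
      refine ih (n + 2) (by omega) (by omega) ?_
      rw [hsys.succ h2 0 n, h0, mul_zero]
  have h0 := key (6 - k) k hk (by omega)
  refine ⟨h0, ?_⟩
  have hfin := G.gf.fin
  have hmem := G.gS_mem h (List.replicate k 0) (by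
    intro h1
    have := congrArg List.length h1
    simp at this
    omega)
  rw [C75_rep] at hmem
  rw [Nat.one_le_iff_ne_zero]
  intro h3
  have h4 : D (4 * k) = ⊥ := Submodule.finrank_eq_zero.1 h3
  rw [h4, Submodule.mem_bot] at hmem
  exact h0 hmem

theorem C75_dim (hcr : Crit F J 6 e) (h : Stg F x S ![4, 5, 5] 24 e)
    (G : GPic F (wfil F S ![4, 5, 5]) 24 A D π) (hx : S (List.replicate 6 0) ≠ 0)
    (hW : D 5 ≠ ⊥) : Module.finrank F (D 5) = 1 := by
  have hfin := G.gf.fin
  have h1 : 1 ≤ Module.finrank F (D 5) := by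
    rw [Nat.one_le_iff_ne_zero]
    intro h3
    exact hW (Submodule.finrank_eq_zero.1 h3)
  have h2 : Module.finrank F (D 5) ≤ 2 := by
    have h3 : D 5 ≤ Submodule.span F ({gS S ![4, 5, 5] π [1], gS S ![4, 5, 5] π [2]} : Set A) := by
      rw [G.D_eq h (by norm_num), Submodule.span_le]
      rintro _ ⟨w, hw, rfl⟩
      rcases C75_w5 w hw with rfl | rfl
      · exact Submodule.subset_span (by simp)
      · exact Submodule.subset_span (by simp)
    refine (Submodule.finrank_mono h3).trans ?_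
    classical
    have h4 := finrank_span_finset_le_card (R := F)
      ({gS S ![4, 5, 5] π [1], gS S ![4, 5, 5] π [2]} : Finset A)
    rw [Finset.coe_insert, Finset.coe_singleton] at h4
    exact h4.trans Finset.card_le_two
  by_contra hne
  have h5 : Module.finrank F (D 5) = 2 := by omega
  have hS := C75_S75 h G
  have hsum := G.sum_le ({4, 8, 12, 16, 20, 24, 5, 9, 10, 14, 15, 19} : Finset ℕ) (by decide)
  have hdim := hcr.dim
  have p1 : 1 ≤ Module.finrank F (D 4) := (C75_pow h G hx 1 (by norm_num) (by norm_num)).2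
  have p2 : 1 ≤ Module.finrank F (D 8) := (C75_pow h G hx 2 (by norm_num) (by norm_num)).2
  have p3 : 1 ≤ Module.finrank F (D 12) := (C75_pow h G hx 3 (by norm_num) (by norm_num)).2
  have p4 : 1 ≤ Module.finrank F (D 16) := (C75_pow h G hx 4 (by norm_num) (by norm_num)).2
  have p5 : 1 ≤ Module.finrank F (D 20) := (C75_pow h G hx 5 (by norm_num) (by norm_num)).2
  have p6 : 1 ≤ Module.finrank F (D 24) := (C75_pow h G hx 6 (by norm_num) (by norm_num)).2
  have e : ∑ i ∈ ({4, 8, 12, 16, 20, 24, 5, 9, 10, 14, 15, 19} : Finset ℕ),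
      Module.finrank F (D i) = Module.finrank F (D 4) + (Module.finrank F (D 8) +
      (Module.finrank F (D 12) + (Module.finrank F (D 16) + (Module.finrank F (D 20) +
      (Module.finrank F (D 24) + (Module.finrank F (D 5) + (Module.finrank F (D 9) +
      (Module.finrank F (D 10) + (Module.finrank F (D 14) + (Module.finrank F (D 15) +
      Module.finrank F (D 19))))))))))) := by
    rw [Finset.sum_insert (by decide), Finset.sum_insert (by decide),
      Finset.sum_insert (by decide), Finset.sum_insert (by decide),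
      Finset.sum_insert (by decide), Finset.sum_insert (by decide),
      Finset.sum_insert (by decide), Finset.sum_insert (by decide),
      Finset.sum_insert (by decide), Finset.sum_insert (by decide),
      Finset.sum_insert (by decide), Finset.sum_singleton]
  rw [e] at hsum
  by_cases h19 : D 19 = ⊥
  · have := S75_two hS h19 h5
    omega
  · have := S75_A hS h19
    have h20 : 1 ≤ Module.finrank F (D 19) := by
      rw [Nat.one_le_iff_ne_zero]
      intro h3
      exact h19 (Submodule.finrank_eq_zero.1 h3)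
    omega

end JD
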