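import Pool.Agent.H9.JH.GrFilt
import Pool.Agent.H9.JH.Defs

set_option autoImplicit false
set_option linter.unusedSectionVars false

/-!
# JD Z75: one essential letter, the stages `(240, 300, w)`, `N = 1440`, `301 ≤ w ≤ 360` (helper74)

PROOF. `x y ∈ D 540 = 0`. `x z ∈ D (w+240)` (541..600), `y z ∈ D (w+300)` (601..660) so `y z = 0`, `z z ∈ D (2w)` (602..720), `(x x) z ∈ D (w+480)` (781..840), `(y y) z ∈ D (w+600)` (901..960). If `w < 360` all of these degrees are outside the support, all products vanish and `kill w z` gives `z = 0`, contradiction.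
`w = 360`: `x z = c1 • y y`, `z z = c2 • x (x x)`, `(x x) z = c3 • x (y y)`, `(y y) z = c4 • x (x (x x))`, `z (x (y y)) = c5 • x (x (x (x x)))` (`D 1200`). Put `κ = (y y)(x (y y)) ≠ 0`, `x6 = x (x (x (x (x x)))) ≠ 0`. `D 1080 = 0`: `x (x (y y)) = 0`, `(x x)(y y) = 0`.
* `gJ3 x (y y) z x`: `(x (y y))(z x) + ((y y) z)(x x) + (z x)((y y) x) = z ((x (y y)) x) + x (((y y) z) x) + (y y)((z x) x)`: `2 c1 κ + c4 x6 = 0 + c4 x6 + c1 κ` (`(x (x (x x)))(x x) = x6` by `gJ1`), so `c1 = 0`, `x z = 0`.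
* `gJ2 x z (y y)`: `(x x)(z (y y)) + 2 (x z)(x (y y)) = z ((x x)(y y)) + 2 x ((x z)(y y))`: `c4 x6 = 0`, `c4 = 0`.
* the derivation `δ(b) = x (z b) - z (x b)` (`gder`): `δ(y) = 0`, so `δ(y y) = 0`: `x (z (y y)) = z (x (y y))`, so `c5 x^5 = 0`, `z (x (y y)) = 0`.
* `gJ2 x z z`: `(x x)(z z) = z ((x x) z) = c3 z (x (y y)) = 0`: `c2 (x x)(x (x x)) = 0`, `(x x)(x (x x)) = x (x (x (x x))) ≠ 0`: `c2 = 0`.
* `δ(x) = x (z x) - z (x x) = - c3 x (y y)`; `δ(x (y y)) = δ(x)(y y) + x δ(y y) = - c3 κ`, and `δ(x (y y)) = x (z (x (y y))) - z (x (x (y y))) = 0`: `c3 = 0`.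
So all products of `z` vanish, `kill 360 z`: `z = 0`, contradiction.
-/

namespace JD

universe u

/-- a stage `(240, 300, w)` with nonzero third letter -/
structure Z75 (F : Type u) [Field F] (A : Type u) [NonUnitalNonAssocCommRing A] [Module F A]
    [IsScalarTower F A A] [SMulCommClass F A A] (D : ℕ → Submodule F A) (x y z : A)
    (w : ℕ) : Prop where
  gf : GF F A 1440 D
  lo : 301 ≤ w
  hi : w ≤ 360
  xm : x ∈ D 240
  ym : y ∈ D 300
  zm : z ∈ D w
  z0 : z ≠ 0
  x6 : x * (x * (x * (x * (x * x)))) ≠ 0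
  k : (y * y) * (x * (y * y)) ≠ 0
  supp : ∀ s, 1 ≤ s → D s ≠ ⊥ → s = 240 ∨ s = 480 ∨ s = 720 ∨ s = 960 ∨ s = 1200 ∨ s = 1440 ∨
    s = 300 ∨ s = 600 ∨ s = 900 ∨ s = 840 ∨ s = w
  D600 : D 600 ≤ Submodule.span F {y * y}
  D720 : D 720 ≤ Submodule.span F {x * (x * x)}
  D840 : D 840 ≤ Submodule.span F {x * (y * y)}
  D960 : D 960 ≤ Submodule.span F {x * (x * (x * x))}
  D1200 : D 1200 ≤ Submodule.span F {x * (x * (x * (x * x)))}
  kill : ∀ s, 1 ≤ s → s < 1440 → ∀ h ∈ D s, x * h = 0 → y * h = 0 → z * h = 0 →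
    (x * x) * h = 0 → (x * y) * h = 0 → (y * y) * h = 0 → (x * z) * h = 0 → (y * z) * h = 0 →
    (z * z) * h = 0 → h = 0

/-- outside of the support -/
private theorem Z75_van {F : Type u} [Field F] {A : Type u} [NonUnitalNonAssocCommRing A]
    [Module F A] [IsScalarTower F A A] [SMulCommClass F A A] {D : ℕ → Submodule F A} {x y z : A}
    {w : ℕ} (h : Z75 F A D x y z w) {s : ℕ} (hs : 1 ≤ s)
    (hn : ¬ (s = 240 ∨ s = 480 ∨ s = 720 ∨ s = 960 ∨ s = 1200 ∨ s = 1440 ∨
      s = 300 ∨ s = 600 ∨ s = 900 ∨ s = 840 ∨ s = w)) {a : A} (ha : a ∈ D s) : a = 0 := by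
  by_contra hne
  apply hn
  refine h.supp s hs ?_
  intro hb
  rw [hb] at ha
  exact hne ((Submodule.mem_bot F).mp ha)

/-- all products of `z` vanish: contradiction -/
private theorem Z75_end {F : Type u} [Field F] {A : Type u} [NonUnitalNonAssocCommRing A]
    [Module F A] [IsScalarTower F A A] [SMulCommClass F A A] {D : ℕ → Submodule F A} {x y z : A}
    {w : ℕ} (h : Z75 F A D x y z w) (h1 : x * z = 0) (h2 : y * z = 0) (h3 : z * z = 0)
    (h4 : (x * x) * z = 0) (h5 : (y * y) * z = 0) : False := by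
  have hlo := h.lo
  have hhi := h.hi
  have hxy : x * y = 0 :=
    Z75_van h (s := 540) (by omega) (by omega) (h.gf.mul_mem 240 300 (by omega) (by omega) x h.xm y h.ym)
  refine h.z0 (h.kill w (by omega) (by omega) z h.zm h1 h2 h3 h4 ?_ h5 ?_ ?_ ?_)
  · rw [hxy, zero_mul]
  · rw [h1, zero_mul]
  · rw [h2, zero_mul]
  · rw [h3, zero_mul]

/-- a nonzero multiple -/
private theorem Z75_smul {F : Type u} [Field F] {A : Type u} [AddCommGroup A] [Module F A]
    {c : F} {a : A} (h : c • a = 0) (ha : a ≠ 0) : c = 0 := by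
  rcases smul_eq_zero.mp h with h | h
  · exact h
  · exact absurd h ha

theorem Z75_false {F : Type u} [Field F] {A : Type u} [NonUnitalNonAssocCommRing A] [Module F A]
    [IsScalarTower F A A] [SMulCommClass F A A] {D : ℕ → Submodule F A} {x y z : A} {w : ℕ}
    (h : Z75 F A D x y z w) : False := by
  have hlo := h.lo
  have hhi := h.hi
  have hJ := h.gf.jordan
  have h2 := h.gf.two
  have hx := h.xm
  have hy := h.ym
  have hz := h.zm
  have mm := h.gf.mul_mem
  have hxy : x * y = 0 :=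
    Z75_van h (s := 540) (by omega) (by omega) (mm 240 300 (by omega) (by omega) x hx y hy)
  have hxx : x * x ∈ D 480 := mm 240 240 (by omega) (by omega) x hx x hx
  have hyy : y * y ∈ D 600 := mm 300 300 (by omega) (by omega) y hy y hy
  have hxz : x * z ∈ D (240 + w) := mm 240 w (by omega) (by omega) x hx z hz
  have hyz : y * z = 0 := Z75_van h (s := 300 + w) (by omega) (by omega)
    (mm 300 w (by omega) (by omega) y hy z hz)
  have hzz : z * z ∈ D (w + w) := mm w w (by omega) (by omega) z hz z hz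
  have hxxz : (x * x) * z ∈ D (480 + w) := mm 480 w (by omega) (by omega) _ hxx z hz
  have hyyz : (y * y) * z ∈ D (600 + w) := mm 600 w (by omega) (by omega) _ hyy z hz
  rcases Nat.lt_or_ge w 360 with hw | hw
  · exact Z75_end h (Z75_van h (by omega) (by omega) hxz) hyz
      (Z75_van h (by omega) (by omega) hzz) (Z75_van h (by omega) (by omega) hxxz)
      (Z75_van h (by omega) (by omega) hyyz)
  have hw' : w = 360 := by omega
  subst hw'
  obtain ⟨c1, e1⟩ := Submodule.mem_span_singleton.mp (h.D600 hxz)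
  obtain ⟨c2, e2⟩ := Submodule.mem_span_singleton.mp (h.D720 hzz)
  obtain ⟨c3, e3⟩ := Submodule.mem_span_singleton.mp (h.D840 hxxz)
  obtain ⟨c4, e4⟩ := Submodule.mem_span_singleton.mp (h.D960 hyyz)
  have k0 := h.k
  have x60 := h.x6
  have v1 : x * (x * (y * y)) = 0 :=
    Z75_van h (s := 1080) (by omega) (by omega)
      (mm 240 840 (by omega) (by omega) x hx _ (mm 240 600 (by omega) (by omega) x hx _ hyy))
  have v2 : (x * x) * (y * y) = 0 :=
    Z75_van h (s := 1080) (by omega) (by omega) (mm 480 600 (by omega) (by omega) _ hxx _ hyy)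
  have p2 : (x * x) * (x * x) = x * (x * (x * x)) := by
    rw [gJ1 hJ x x, mul_comm (x * x) x]
  have p3 : (x * x) * (x * (x * x)) = x * (x * (x * (x * x))) := by
    rw [gJ1 hJ x (x * x), p2]
  have p4 : (x * x) * (x * (x * (x * x))) = x * (x * (x * (x * (x * x)))) := by
    rw [gJ1 hJ x (x * (x * x)), p3]
  have x50 : x * (x * (x * (x * x))) ≠ 0 := by
    intro h0
    exact x60 (by rw [h0, mul_zero])
  -- `c1 = 0`
  have hc1 : c1 = 0 := by
    have i1 := gJ3 F h2 hJ x (y * y) z x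
    rw [mul_comm z x, ← e1, ← e4, mul_comm (x * (y * y)) x, v1, mul_comm (y * y) x] at i1
    rw [mul_zero, mul_smul_comm, smul_mul_assoc, smul_mul_assoc, smul_mul_assoc, smul_mul_assoc,
      mul_comm (x * (x * (x * x))) (x * x), p4, mul_comm (x * (x * (x * x))) x,
      mul_comm (x * (y * y)) (y * y), mul_smul_comm, mul_smul_comm, mul_comm (y * y) x] at i1
    refine Z75_smul (a := (y * y) * (x * (y * y))) ?_ k0
    linear_combination (norm := module) i1
  subst hc1
  have xz0 : x * z = 0 := by rw [← e1, zero_smul]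
  -- `c4 = 0`
  have hc4 : c4 = 0 := by
    have i1 := gJ2 F h2 hJ x z (y * y)
    rw [mul_comm z (y * y), ← e4, xz0, v2, mul_smul_comm, p4] at i1
    simp only [mul_zero, zero_mul, smul_zero, add_zero] at i1
    exact Z75_smul i1 x60
  subst hc4
  have yyz0 : (y * y) * z = 0 := by rw [← e4, zero_smul]
  -- `z (x (y y)) = 0`
  have zxyy : z * (x * (y * y)) = 0 := by
    have i1 := gder F h2 hJ x z y y
    rw [mul_comm z (y * y), yyz0, mul_comm z y, hyz, hxy] at i1
    simp only [mul_zero, zero_mul, sub_zero, add_zero, zero_sub, neg_eq_zero] at i1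
    exact i1
  -- `c2 = 0`
  have hc2 : c2 = 0 := by
    have i1 := gJ2 F h2 hJ x z z
    rw [← e2, ← e3, xz0, mul_smul_comm, mul_smul_comm, zxyy, p3] at i1
    simp only [mul_zero, zero_mul, smul_zero, add_zero] at i1
    exact Z75_smul i1 x50
  subst hc2
  -- `c3 = 0`
  have hc3 : c3 = 0 := by
    have i1 := gder F h2 hJ x z x (y * y)
    rw [v1, zxyy, mul_comm z (y * y), yyz0, mul_comm z x, xz0, mul_comm z (x * x), ← e3] at i1
    simp only [mul_zero, zero_sub, sub_self, add_zero, neg_mul, smul_mul_assoc] at i1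
    rw [mul_comm (x * (y * y)) (y * y)] at i1
    exact Z75_smul (neg_eq_zero.mp i1.symm) k0
  subst hc3
  exact Z75_end h xz0 hyz (by rw [← e2, zero_smul]) (by rw [← e3, zero_smul]) yyz0

end JD
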