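import Pool.Agent.H74.JD.C75
import Pool.Agent.H74.JD.Z75
import Pool.Agent.H74.JD.TransA

set_option autoImplicit false
set_option linter.unusedSectionVars false

/-!
# JD C75I: the structure `Z75` (helper74)

* `Z75_intro`. `A, D, π`: picture of `(4, 5, 5)`, `N = 24`, with `π 5 (x 2) = 0`, `D 5 ≠ ⊥` (so `D 5 = F Y`, `Y = π 5 (x 1)`); `A', D', π'` picture of `(240, 300, w)`, `N = 1440`. `x := π' 240 (x 0)`, `y := π' 300 (x 1)`, `z := π' w (x 2) ≠ 0`. By `transfer_rank` (`m = 60`) `finrank (D' (60 s)) ≥ finrank (D s)` for all `s ≥ 1`, and `finrank (D' w) ≥ 1`, `w` is not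
  `60 s` with `D s ≠ ⊥` (`301 ≤ w ≤ 360`). If `D 19 ≠ ⊥`: the sum is `≥ 6 + 1 + 1 + 3 + 1 = 12` (`C75_pow`, `S75_A`), contradiction to `GPic.sum_le`, `hcr.dim`. So `D 19 = ⊥` and `S75_one`: the layers `4, 8, ..., 24, 5, 10, 14, 15` are nonzero: with `w` eleven layers, so all of `D' (60 s)`, `s` in this list, and `D' w` have dimension 1 and
  all other layers of `A'` vanish (`supp`). `x6`: `gS (0^6) ≠ 0` in `A'` (`GPic.gS_top`), `SSys.succ`. `k`: `(x1 x1)(x0 (x1 x1)) ∈ pw F S ![4,5,5] 24` has nonzero image in `A`, so nonzero image in `A'` (`transfer`). `D600` etc.: dimension 1 and a nonzero element (`y y ≠ 0` etc. follow from `k` and `x6`). `kill`: `GPic.kill_all`.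
-/

namespace JD

universe u

variable {F : Type u} [Field F] {J : Type u} [NonUnitalNonAssocCommRing J] [Module F J]
  [IsScalarTower F J J] [SMulCommClass F J J] {x : Fin 3 → J} {S : List (Fin 3) → J} {e : J}
  {A : Type u} [NonUnitalNonAssocCommRing A] [Module F A] [IsScalarTower F A A]
  [SMulCommClass F A A] {D : ℕ → Submodule F A} {π : ℕ → J →ₗ[F] A}
  {A' : Type u} [NonUnitalNonAssocCommRing A'] [Module F A'] [IsScalarTower F A' A']
  [SMulCommClass F A' A'] {D' : ℕ → Submodule F A'} {π' : ℕ → J →ₗ[F] A'}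

private theorem C75I_line {B : Type u} [AddCommGroup B] [Module F B] [Module.Finite F B]
    (V : Submodule F B) (h1 : Module.finrank F V ≤ 1) {v : B} (hv : v ∈ V) (hv0 : v ≠ 0) :
    V ≤ Submodule.span F {v} := by
  have hle : Submodule.span F {v} ≤ V := by
    rw [Submodule.span_singleton_le_iff_mem]
    exact hv
  have h2 : Module.finrank F (Submodule.span F {v}) = 1 := finrank_span_singleton hv0
  exact (Submodule.eq_of_le_of_finrank_le hle (by rw [h2]; exact h1)).ge

private theorem C75I_one {B : Type u} [AddCommGroup B] [Module F B] [Module.Finite F B]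
    (V : Submodule F B) {v : B} (hv : v ∈ V) (hv0 : v ≠ 0) : 1 ≤ Module.finrank F V := by
  rw [Submodule.one_le_finrank_iff]
  intro h
  rw [h, Submodule.mem_bot] at hv
  exact hv0 hv

private theorem C75I_letter {a : Fin 3 → ℕ} {N : ℕ} (h : Stg F x S a N e) (i : Fin 3) :
    x i ∈ wfil F S a (a i) := by
  have h1 : S [i] ∈ wfil F S a (a i) := mem_wfil (by simp)
  rwa [h.sys.single] at h1

private theorem C75I_pletter {a : Fin 3 → ℕ} {N : ℕ} (h : Stg F x S a N e) (i : Fin 3)
    (hi : i ≠ 2) : x i ∈ pw F S a (a i) := by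
  have h1 : S [i] ∈ pw F S a (a i) := by
    refine Submodule.subset_span ⟨[i], ⟨?_, by simp⟩, rfl⟩
    intro j hj
    rw [List.mem_singleton] at hj
    rw [hj]
    exact hi
  rwa [h.sys.single] at h1

private theorem C75I_mem {a : Fin 3 → ℕ} {N : ℕ} (h : Stg F x S a N e)
    (G : GPic F (wfil F S a) N A D π) (i : Fin 3) : π (a i) (x i) ∈ D (a i) := by
  rw [← G.map (a i) (h.pos i)]
  exact Submodule.mem_map_of_mem (C75I_letter h i)

private theorem C75I_kk (h2 : (2 : F) ≠ 0) {a : Fin 3 → ℕ} {N : ℕ} (h : Stg F x S a N e)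
    (G : GPic F (wfil F S a) N A D π) (p q n : ℕ) (hp : a 0 = p) (hq : a 1 = q)
    (hn : (q + q) + (p + (q + q)) = n) :
    π n ((x 1 * x 1) * (x 0 * (x 1 * x 1))) =
      (π q (x 1) * π q (x 1)) * (π p (x 0) * (π q (x 1) * π q (x 1))) := by
  subst hp hq hn
  have p0 := h.pos 0
  have p1 := h.pos 1
  have m0 := C75I_letter h 0
  have m1 := C75I_letter h 1
  have m11 := wfil_mul h2 h.sys m1 m1
  have m011 := wfil_mul h2 h.sys m0 m11
  rw [G.mul _ _ (by omega) (by omega) _ m11 _ m011, G.mul _ _ p1 p1 _ m1 _ m1,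
    G.mul _ _ p0 (by omega) _ m0 _ m11, G.mul _ _ p1 p1 _ m1 _ m1]

private theorem C75I_five {w : ℕ}
    (T : Two F x x S S ![4, 5, 5] ![240, 300, w] 24 1440 60 e A D π A' D' π') :
    D 5 ≤ Submodule.span F {π 5 (x 1)} := by
  have h1 := D_eq_pw T.st T.G T.z0 (s := 5) (by norm_num)
  rw [h1, Submodule.map_le_iff_le_comap]
  unfold pw
  rw [Submodule.span_le]
  rintro _ ⟨v, ⟨hv1, hv2⟩, rfl⟩
  have hc := wt_cnt ![4, 5, 5] v
  have h0 : v.count 2 = 0 := List.count_eq_zero.2 fun h => hv1 2 h rfl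
  have hc1 : 5 = 4 * v.count 0 + 5 * v.count 1 + 5 * v.count 2 := by
    have h3 := hc.1
    rw [hv2] at h3
    simpa using h3
  have hl : v.length = 1 := by
    rw [hc.2]
    omega
  obtain ⟨i, rfl⟩ := List.length_eq_one_iff.1 hl
  have hi2 : i ≠ 2 := hv1 i (by simp)
  have hi : i = 1 := by
    fin_cases i
    · simp at hv2
    · rfl
    · exact absurd rfl hi2
  subst hi
  rw [T.st.sys.single]
  exact Submodule.mem_span_singleton_self _

theorem Z75_intro (hcr : Crit F J 6 e) {w : ℕ}
    (T : Two F x x S S ![4, 5, 5] ![240, 300, w] 24 1440 60 e A D π A' D' π')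
    (hx : S (List.replicate 6 0) ≠ 0) (hW : D 5 ≠ ⊥) (hw : 301 ≤ w) (hw' : w ≤ 360)
    (hz : π' w (x 2) ≠ 0) : Z75 F A' D' (π' 240 (x 0)) (π' 300 (x 1)) (π' w (x 2)) w := by
  have hfJ : Module.Finite F J := hcr.fin
  have h2 := hcr.two
  have hfA : Module.Finite F A := T.G.gf.fin
  have hfA' : Module.Finite F A' := T.G'.gf.fin
  have h75 := C75_S75 T.st T.G
  have hY5 := C75I_five T
  have hYm : π 5 (x 1) ∈ D 5 := C75I_mem T.st T.G 1
  have hY0 : π 5 (x 1) ≠ 0 := by
    intro h
    rw [h, Submodule.span_singleton_eq_bot.2 rfl] at hY5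
    exact hW (le_bot_iff.1 hY5)
  have hsum : ∀ U : Finset ℕ, (∀ s ∈ U, 1 ≤ s) → ∑ s ∈ U, Module.finrank F (D' s) ≤ 11 :=
    fun U hU => (T.G'.sum_le U hU).trans hcr.dim
  have htr : ∀ s, 1 ≤ s → Module.finrank F (D s) ≤ Module.finrank F (D' (60 * s)) :=
    fun s hs => (transfer_rank T hs).1.trans (transfer_rank T hs).2
  have hpow : ∀ k, 1 ≤ k → k ≤ 6 → 1 ≤ Module.finrank F (D' (240 * k)) := by
    intro k hk hk'
    have h3 := (C75_pow T.st T.G hx k hk hk').2.trans (htr (4 * k) (by omega))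
    rwa [show 60 * (4 * k) = 240 * k by ring] at h3
  have e240 : 1 ≤ Module.finrank F (D' 240) := hpow 1 (by norm_num) (by norm_num)
  have e480 : 1 ≤ Module.finrank F (D' 480) := hpow 2 (by norm_num) (by norm_num)
  have e720 : 1 ≤ Module.finrank F (D' 720) := hpow 3 (by norm_num) (by norm_num)
  have e960 : 1 ≤ Module.finrank F (D' 960) := hpow 4 (by norm_num) (by norm_num)
  have e1200 : 1 ≤ Module.finrank F (D' 1200) := hpow 5 (by norm_num) (by norm_num)
  have e1440 : 1 ≤ Module.finrank F (D' 1440) := hpow 6 (by norm_num) (by norm_num)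
  have e300 : 1 ≤ Module.finrank F (D' 300) :=
    (C75I_one (D 5) hYm hY0).trans (htr 5 (by norm_num))
  have hzm : π' w (x 2) ∈ D' w := C75I_mem T.st' T.G' 2
  have ew : 1 ≤ Module.finrank F (D' w) := C75I_one (D' w) hzm hz
  -- the layer 19
  have h19 : D 19 = ⊥ := by
    by_contra h19
    have h3 := S75_A h75 h19
    have h4 : 1 ≤ Module.finrank F (D 19) := Submodule.one_le_finrank_iff.2 h19
    have t9 : Module.finrank F (D 9) ≤ Module.finrank F (D' 540) := htr 9 (by norm_num)
    have t10 : Module.finrank F (D 10) ≤ Module.finrank F (D' 600) := htr 10 (by norm_num)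
    have t14 : Module.finrank F (D 14) ≤ Module.finrank F (D' 840) := htr 14 (by norm_num)
    have t15 : Module.finrank F (D 15) ≤ Module.finrank F (D' 900) := htr 15 (by norm_num)
    have t19 : Module.finrank F (D 19) ≤ Module.finrank F (D' 1140) := htr 19 (by norm_num)
    have hwn : w ∉ ({240, 480, 720, 960, 1200, 1440, 300, 540, 600, 840, 900, 1140} :
        Finset ℕ) := by
      simp only [Finset.mem_insert, Finset.mem_singleton]
      omega
    have h5 := hsum (insert w {240, 480, 720, 960, 1200, 1440, 300, 540, 600, 840, 900, 1140})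
      (by
        intro s hs
        simp only [Finset.mem_insert, Finset.mem_singleton] at hs
        omega)
    rw [Finset.sum_insert hwn, Finset.sum_insert (by decide), Finset.sum_insert (by decide),
      Finset.sum_insert (by decide), Finset.sum_insert (by decide), Finset.sum_insert (by decide),
      Finset.sum_insert (by decide), Finset.sum_insert (by decide), Finset.sum_insert (by decide),
      Finset.sum_insert (by decide), Finset.sum_insert (by decide), Finset.sum_insert (by decide),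
      Finset.sum_singleton] at h5
    omega
  obtain ⟨-, -, -, -, -, hy3, hkA⟩ := S75_one h75 h19 hYm hY0 hY5
  have mul_m := T.G.gf.mul_mem
  have hXm : π 4 (x 0) ∈ D 4 := C75I_mem T.st T.G 0
  have hYYm : π 5 (x 1) * π 5 (x 1) ∈ D 10 := mul_m 5 5 (by norm_num) (by norm_num) _ hYm _ hYm
  have hYY0 : π 5 (x 1) * π 5 (x 1) ≠ 0 := by
    intro h
    rw [h, mul_zero] at hy3
    exact hy3 rfl
  have hXYYm : π 4 (x 0) * (π 5 (x 1) * π 5 (x 1)) ∈ D 14 :=
    mul_m 4 10 (by norm_num) (by norm_num) _ hXm _ hYYm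
  have hXYY0 : π 4 (x 0) * (π 5 (x 1) * π 5 (x 1)) ≠ 0 := by
    intro h
    rw [h, mul_zero] at hkA
    exact hkA rfl
  have hY3m : π 5 (x 1) * (π 5 (x 1) * π 5 (x 1)) ∈ D 15 :=
    mul_m 5 10 (by norm_num) (by norm_num) _ hYm _ hYYm
  have e600 : 1 ≤ Module.finrank F (D' 600) :=
    (C75I_one (D 10) hYYm hYY0).trans (htr 10 (by norm_num))
  have e840 : 1 ≤ Module.finrank F (D' 840) :=
    (C75I_one (D 14) hXYYm hXYY0).trans (htr 14 (by norm_num))
  have e900 : 1 ≤ Module.finrank F (D' 900) :=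
    (C75I_one (D 15) hY3m hy3).trans (htr 15 (by norm_num))
  -- the eleven layers
  obtain ⟨U, hU⟩ : ∃ U : Finset ℕ, U = insert w
      ({240, 480, 720, 960, 1200, 1440, 300, 600, 900, 840} : Finset ℕ) := ⟨_, rfl⟩
  have hwn : w ∉ ({240, 480, 720, 960, 1200, 1440, 300, 600, 900, 840} : Finset ℕ) := by
    simp only [Finset.mem_insert, Finset.mem_singleton]
    omega
  have hUc : U.card = 11 := by
    rw [hU, Finset.card_insert_of_notMem hwn]
    rfl
  have hUm : ∀ s, s ∈ U ↔ s = w ∨ s = 240 ∨ s = 480 ∨ s = 720 ∨ s = 960 ∨ s = 1200 ∨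
      s = 1440 ∨ s = 300 ∨ s = 600 ∨ s = 900 ∨ s = 840 := by
    intro s
    rw [hU]
    simp only [Finset.mem_insert, Finset.mem_singleton]
  have hU1 : ∀ s ∈ U, 1 ≤ s := by
    intro s hs
    rw [hUm] at hs
    omega
  have hUf : ∀ s ∈ U, 1 ≤ Module.finrank F (D' s) := by
    intro s hs
    rw [hUm] at hs
    rcases hs with rfl | rfl | rfl | rfl | rfl | rfl | rfl | rfl | rfl | rfl | rfl <;> assumption
  have hcard : ∀ V : Finset ℕ, V ⊆ U → V.card ≤ ∑ s ∈ V, Module.finrank F (D' s) := by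
    intro V hV
    calc V.card = ∑ _s ∈ V, 1 := by simp
      _ ≤ _ := Finset.sum_le_sum fun s hs => hUf s (hV hs)
  have hle1 : ∀ s ∈ U, Module.finrank F (D' s) ≤ 1 := by
    intro s hs
    have h3 := hsum U hU1
    rw [← Finset.add_sum_erase U _ hs] at h3
    have h4 := hcard (U.erase s) (Finset.erase_subset _ _)
    rw [Finset.card_erase_of_mem hs, hUc] at h4
    omega
  have hbot : ∀ s, 1 ≤ s → s ∉ U → D' s = ⊥ := by
    intro s hs hsU
    by_contra hb
    have h3 := hsum (insert s U) (by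
      intro t ht
      rcases Finset.mem_insert.1 ht with rfl | ht
      · exact hs
      · exact hU1 t ht)
    rw [Finset.sum_insert hsU] at h3
    have h4 := hcard U (Finset.Subset.refl _)
    rw [hUc] at h4
    have h5 : 1 ≤ Module.finrank F (D' s) := Submodule.one_le_finrank_iff.2 hb
    omega
  -- the letters of the new picture
  have mul_m' := T.G'.gf.mul_mem
  have hxm : π' 240 (x 0) ∈ D' 240 := C75I_mem T.st' T.G' 0
  have hym : π' 300 (x 1) ∈ D' 300 := C75I_mem T.st' T.G' 1
  have hx6 : π' 240 (x 0) * (π' 240 (x 0) * (π' 240 (x 0) * (π' 240 (x 0) *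
      (π' 240 (x 0) * π' 240 (x 0))))) ≠ 0 := by
    have hs := T.G'.sys T.st'
    have h3 : gS S ![240, 300, w] π' (List.replicate 6 0) ≠ 0 := by
      intro h
      exact hx (T.G'.gS_top T.st' (List.replicate 6 0) (by simp [List.replicate]) h)
    have hsu := fun n => hs.succ h2 0 n
    have h4 : gS S ![240, 300, w] π' (List.replicate 1 0) = π' 240 (x 0) := hs.single 0
    rw [hsu 4, hsu 3, hsu 2, hsu 1, hsu 0, zero_add, h4] at h3
    exact h3
  have hk : (π' 300 (x 1) * π' 300 (x 1)) *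
      (π' 240 (x 0) * (π' 300 (x 1) * π' 300 (x 1))) ≠ 0 := by
    intro h
    apply hkA
    have m0 := C75I_pletter T.st 0 (by decide)
    have m1 := C75I_pletter T.st 1 (by decide)
    have m11 := pw_mul h2 T.st.sys m1 m1
    have mg := pw_mul h2 T.st.sys m11 (pw_mul h2 T.st.sys m0 m11)
    have mg' : (x 1 * x 1) * (x 0 * (x 1 * x 1)) ∈ pw F S ![4, 5, 5] 24 := mg
    have h3 := C75I_kk h2 T.st' T.G' 240 300 (60 * 24) rfl rfl (by norm_num)
    rw [h] at h3
    have h5 := transfer T (s := 24) (by norm_num) mg' h3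
    rw [← h5]
    exact (C75I_kk h2 T.st T.G 4 5 24 rfl rfl (by norm_num)).symm
  have hyym : π' 300 (x 1) * π' 300 (x 1) ∈ D' 600 :=
    mul_m' 300 300 (by norm_num) (by norm_num) _ hym _ hym
  have hyy0 : π' 300 (x 1) * π' 300 (x 1) ≠ 0 := by
    intro h
    rw [h, zero_mul] at hk
    exact hk rfl
  have hxyym : π' 240 (x 0) * (π' 300 (x 1) * π' 300 (x 1)) ∈ D' 840 :=
    mul_m' 240 600 (by norm_num) (by norm_num) _ hxm _ hyym
  have hxyy0 : π' 240 (x 0) * (π' 300 (x 1) * π' 300 (x 1)) ≠ 0 := by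
    intro h
    rw [h, mul_zero] at hk
    exact hk rfl
  have hx2m : π' 240 (x 0) * π' 240 (x 0) ∈ D' 480 :=
    mul_m' 240 240 (by norm_num) (by norm_num) _ hxm _ hxm
  have hx3m : π' 240 (x 0) * (π' 240 (x 0) * π' 240 (x 0)) ∈ D' 720 :=
    mul_m' 240 480 (by norm_num) (by norm_num) _ hxm _ hx2m
  have hx4m : π' 240 (x 0) * (π' 240 (x 0) * (π' 240 (x 0) * π' 240 (x 0))) ∈ D' 960 :=
    mul_m' 240 720 (by norm_num) (by norm_num) _ hxm _ hx3m
  have hx5m : π' 240 (x 0) * (π' 240 (x 0) * (π' 240 (x 0) * (π' 240 (x 0) *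
      π' 240 (x 0)))) ∈ D' 1200 :=
    mul_m' 240 960 (by norm_num) (by norm_num) _ hxm _ hx4m
  have hx50 : π' 240 (x 0) * (π' 240 (x 0) * (π' 240 (x 0) * (π' 240 (x 0) *
      π' 240 (x 0)))) ≠ 0 := by
    intro h
    rw [h, mul_zero] at hx6
    exact hx6 rfl
  have hx40 : π' 240 (x 0) * (π' 240 (x 0) * (π' 240 (x 0) * π' 240 (x 0))) ≠ 0 := by
    intro h
    rw [h, mul_zero] at hx50
    exact hx50 rfl
  have hx30 : π' 240 (x 0) * (π' 240 (x 0) * π' 240 (x 0)) ≠ 0 := by
    intro h
    rw [h, mul_zero] at hx40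
    exact hx40 rfl
  exact
    { gf := T.G'.gf
      lo := hw
      hi := hw'
      xm := hxm
      ym := hym
      zm := hzm
      z0 := hz
      x6 := hx6
      k := hk
      supp := by
        intro s hs hD
        by_contra hcon
        apply hD
        apply hbot s hs
        rw [hUm]
        intro h
        apply hcon
        tauto
      D600 := C75I_line _ (hle1 600 (by rw [hUm]; tauto)) hyym hyy0
      D720 := C75I_line _ (hle1 720 (by rw [hUm]; tauto)) hx3m hx30
      D840 := C75I_line _ (hle1 840 (by rw [hUm]; tauto)) hxyym hxyy0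
      D960 := C75I_line _ (hle1 960 (by rw [hUm]; tauto)) hx4m hx40
      D1200 := C75I_line _ (hle1 1200 (by rw [hUm]; tauto)) hx5m hx50
      kill := by
        intro s hs hs' g hg g0 g1 g2 g00 g01 g11 g02 g12 g22
        refine T.G'.kill_all T.st' hs hs' hg ?_ ?_
        · intro i
          fin_cases i
          · exact g0
          · exact g1
          · exact g2
        · intro i j
          fin_cases i <;> fin_cases j
          · exact g00
          · exact g01
          · exact g02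
          · exact (congrArg (· * g) (mul_comm _ _)).trans g01
          · exact g11
          · exact g12
          · exact (congrArg (· * g) (mul_comm _ _)).trans g02
          · exact (congrArg (· * g) (mul_comm _ _)).trans g12
          · exact g22 }

end JD
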