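import Pool.Agent.H74.JD.QuadA

set_option autoImplicit false
set_option linter.unusedSectionVars false

/-!
# JD C80A: one essential letter, the stage `(3, 4, 4)`, `N = 18`: relation and new stage (helper74)

`C80_false`. PROOF. `a = ![3, 4, 4]`. `exists_GPic` for `h`: `A, D, π`; `π 6 (x 0 * x 0) ≠ 0` (`gS (0^6) ≠ 0` by `GPic.gS_top`, `SSys.succ`). `P : EPic` (`crit_EPic`), `EPic.quad`: `r = ∑ c i j • X i X j + G`, `G ∈ ge 1 3`, `c` symmetric. Apply `ρ` (`P.rho_r`, `ρ (X i X j) = x i * x j`): `x 0 * x 0` has weight 6, `x 0 * x i` (`i = 1, 2`)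
weight 7, the others and `ρ G ∈ wfil a 9` weight `≥ 8`. So `c 0 0 • (x 0 * x 0) ∈ wfil a 7`, `π 6` gives `c 0 0 = 0`; and (REL) `2 c 0 1 • (x 0 * x 1) + 2 c 0 2 • (x 0 * x 2) ∈ wfil a 8`.
`e = ρ (r * word [0,1,2])` (`rho_r_word`, `det3 = 1`) `= c 0 1 • (S [0,1,0,1,2] + S [1,0,0,1,2]) + c 0 2 • (S [0,2,0,1,2] + S [2,0,0,1,2])` + elements of `wfil a (8 + 11) = ⊥` (SUM). As `e ≠ 0`, one of the four words `v` has `S v ≠ 0`; its weight for `a' = ![60, 81, 81]` is `2 * 60 + 3 * 81 = 363`.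
`h' : Stg F x S ![60, 81, 81] 363 e`: `Stg.raise_cnt` with `L = (fun _ => False)`: `363 < 60 i + 81 j + 81 k`, `i + j + k ≤ 6` implies `18 < 3 i + 4 j + 4 k`. [`60 i + 80 m = 20 (3 i + 4 m)`, `m = j + k ≤ 6`: if `3 i + 4 m ≤ 17` then `60 i + 81 m ≤ 340 + 6`; if `3 i + 4 m = 18` then `m ≤ 3`: `60 i + 81 m ≤ 363`.]
`exists_GPic` for `h'`: `A', D', π'`. `wfil F S a 8 ≤ wfil F S a' 142` (`3 i + 4 m ≥ 8` implies `60 i + 81 m ≥ 160`), so by (REL) `X' * (c 0 1 • Y' + c 0 2 • Z') = 0` in `A'` (`X' = π' 60 (x 0)`, `Y' = π' 81 (x 1)`, `Z' = π' 81 (x 2)`; `π' 141` kills `wfil F S a' 142`).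
(1) `A'` is special by `hcr.min`: `Module.Finite`, `IsJordan` (`gf`), `finrank A' ≤ finrank J` (`GPic.A_finrank_le`, `GPic.dim`), `jpow F A' 6 = ⊥`: `wfil_one_eq_jpow` for `gS S a' π'` (`GPic.sys`, `GPic.A_gen`): the span of the `gS w` with `|w| ≥ 6`; `gS w = 0` for those: if `wt a' w > 363` then `S w = 0`; otherwise
  `w = 0^6` (`wt_cnt`), weight 360, and `S (0^6) ∈ F e = wfil F S a' 363 ≤ wfil F S a' 361` (weight 18 for `a`: `h.top`), killed by `π' 360` (`GPic.kill`). `IsNilpotentAlg`: `jpow F A' 6 = ⊥`.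
(2) Let `f : A' → B` be injective with `f (b b') = (f b f b' + f b' f b)/2`; `g : A' → Unitization F B` as in `crit_hFu` (file `CritPic.lean`). `CritPic_zero g h2 hgm (G'.sys h') ...`: `2 g (gS w) = word w + word w.reverse` for `w ≠ []` (words in `X = g X', Y = g Y', Z = g Z'`). `Q := c 0 1 (X Y + Y X) + c 0 2 (X Z + Z X) = 2 g (X' (c 0 1 Y' + c 0 2 Z')) = 0`. (SUM) and `π' 363`:
  `2 g (π' 363 e) = Q X Y Z + Z Y X Q = 0`, so `π' 363 e = 0`, so `e = 0` (`GPic.inj`), contradiction.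
-/

namespace JD

universe u

variable {F : Type u} [Field F] {J : Type u} [NonUnitalNonAssocCommRing J] [Module F J]
  [IsScalarTower F J J] [SMulCommClass F J J] {x : Fin 3 → J} {S : List (Fin 3) → J} {e : J}

private theorem C80A_wt (w : List (Fin 3)) :
    wt ![3, 4, 4] w = 3 * w.count 0 + 4 * w.count 1 + 4 * w.count 2 := by
  have := (wt_cnt ![3, 4, 4] w).1
  simpa using this

/-- the quadratic relation -/
theorem C80_rel [Infinite F] (hcr : Crit F J 6 e) (h : Stg F x S ![3, 4, 4] 18 e)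
    (hx : S (List.replicate 6 0) ≠ 0) :
    ∃ c1 c2 : F, c1 • (x 0 * x 1) + c2 • (x 0 * x 2) ∈ wfil F S ![3, 4, 4] 8 ∧
      e = c1 • (S [0, 1, 0, 1, 2] + S [1, 0, 0, 1, 2]) +
        c2 • (S [0, 2, 0, 1, 2] + S [2, 0, 0, 1, 2]) := by
  have h2 := hcr.two
  have hfin := hcr.fin
  obtain ⟨A, i1, i2, i3, i4, D, π, G⟩ := exists_GPic h2 hcr.jordan h
  obtain ⟨E, iE, aE, ⟨P⟩⟩ := crit_EPic hcr x S h.sys h.gen
  obtain ⟨c, hsym, hq⟩ := P.quad hcr h
  have hF := filt_wfil (a := ![3, 4, 4]) h2 h.sys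
  have hR : P.r - ∑ i, ∑ j, c i j • (P.X i * P.X j) ∈ P.ge ![3, 4, 4] 9 := by
    refine P.ge_le_ge ?_ hq
    intro w hw
    rw [wt_one] at hw
    have := (wt_cnt ![3, 4, 4] w).2
    rw [C80A_wt]
    omega
  set R := P.r - ∑ i, ∑ j, c i j • (P.X i * P.X j) with hRdef
  have hr : P.r = R + ∑ i, ∑ j, c i j • (P.X i * P.X j) := by rw [hRdef]; abel
  have hXX : ∀ i j : Fin 3, P.ρ (P.X i * P.X j) = x i * x j := by
    intro i j
    have := P.ρ_word [i, j]
    rw [word_cons, word_cons, word_nil, mul_one, h.sys.pair h2] at this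
    exact this
  have hρR := P.rho_ge h2 h.sys hF hR
  have h0 : P.ρ R + ∑ i, ∑ j, c i j • (x i * x j) = 0 := by
    have := P.rho_r
    rw [hr, map_add, map_sum] at this
    simp only [map_sum, map_smul, hXX] at this
    exact this
  -- weights of the products
  have hw8 : ∀ i j : Fin 3, i ≠ 0 → j ≠ 0 → x i * x j ∈ wfil F S ![3, 4, 4] 8 := by
    intro i j hi hj
    rw [← h.sys.pair h2]
    have : ∀ i j : Fin 3, i ≠ 0 → j ≠ 0 → 8 ≤ wt ![3, 4, 4] [i, j] := by decide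
    exact mem_wfil (this i j hi hj)
  have hw7 : ∀ j : Fin 3, j ≠ 0 → x 0 * x j ∈ wfil F S ![3, 4, 4] 7 := by
    intro j hj
    rw [← h.sys.pair h2]
    have : ∀ j : Fin 3, j ≠ 0 → 7 ≤ wt ![3, 4, 4] [0, j] := by decide
    exact mem_wfil (this j hj)
  have hR8 : P.ρ R ∈ wfil F S ![3, 4, 4] 8 := wfil_anti (by norm_num) hρR
  simp only [Fin.sum_univ_three] at h0
  rw [hsym 1 0, hsym 2 0, mul_comm (x 1) (x 0), mul_comm (x 2) (x 0)] at h0
  -- `c 0 0 = 0`
  have e1 : c 0 0 • (x 0 * x 0) ∈ wfil F S ![3, 4, 4] 7 := by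
    have e2 : c 0 0 • (x 0 * x 0) = -(P.ρ R) - c 0 1 • (x 0 * x 1) - c 0 2 • (x 0 * x 2)
        - c 0 1 • (x 0 * x 1) - c 1 1 • (x 1 * x 1) - c 1 2 • (x 1 * x 2)
        - c 0 2 • (x 0 * x 2) - c 2 1 • (x 2 * x 1) - c 2 2 • (x 2 * x 2) := by
      linear_combination (norm := module) h0
    rw [e2]
    have a8 : ∀ {y : J}, y ∈ wfil F S ![3, 4, 4] 8 → y ∈ wfil F S ![3, 4, 4] 7 :=
      fun hy => wfil_anti (by norm_num) hy
    refine Submodule.sub_mem _ (Submodule.sub_mem _ (Submodule.sub_mem _ (Submodule.sub_mem _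
      (Submodule.sub_mem _ (Submodule.sub_mem _ (Submodule.sub_mem _ (Submodule.sub_mem _
      (Submodule.neg_mem _ (a8 hR8)) ?_) ?_) ?_) ?_) ?_) ?_) ?_) ?_
    · exact Submodule.smul_mem _ _ (hw7 1 (by decide))
    · exact Submodule.smul_mem _ _ (hw7 2 (by decide))
    · exact Submodule.smul_mem _ _ (hw7 1 (by decide))
    · exact Submodule.smul_mem _ _ (a8 (hw8 1 1 (by decide) (by decide)))
    · exact Submodule.smul_mem _ _ (a8 (hw8 1 2 (by decide) (by decide)))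
    · exact Submodule.smul_mem _ _ (hw7 2 (by decide))
    · exact Submodule.smul_mem _ _ (a8 (hw8 2 1 (by decide) (by decide)))
    · exact Submodule.smul_mem _ _ (a8 (hw8 2 2 (by decide) (by decide)))
  have hX2 : π 6 (x 0 * x 0) ≠ 0 := by
    intro hcon
    apply hx
    have hsys := G.sys h
    have e3 : gS S ![3, 4, 4] π (List.replicate 2 0) = 0 := by
      have : gS S ![3, 4, 4] π (List.replicate 2 0) = π 6 (S [0, 0]) := rfl
      rw [this, h.sys.pair h2, hcon]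
    have e4 : ∀ n, gS S ![3, 4, 4] π (List.replicate (n + 2) 0) = 0 := by
      intro n
      induction n with
      | zero => exact e3
      | succ n ih =>
        have := hsys.succ h2 0 (n + 1)
        rw [this, ih, mul_zero]
    refine G.gS_top h _ ?_ (e4 4)
    rw [C80A_wt]
    simp [List.count_replicate]
  have hc00 : c 0 0 = 0 := by
    have := G.kill 6 (by norm_num) _ e1
    rw [map_smul] at this
    exact (smul_eq_zero.1 this).resolve_right hX2
  rw [hc00, zero_smul, zero_add] at h0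
  refine ⟨c 0 1, c 0 2, ?_, ?_⟩
  · -- the relation
    have e2 : (2 : F) • (c 0 1 • (x 0 * x 1) + c 0 2 • (x 0 * x 2)) =
        -(P.ρ R) - c 1 1 • (x 1 * x 1) - c 1 2 • (x 1 * x 2)
         - c 2 1 • (x 2 * x 1) - c 2 2 • (x 2 * x 2) := by
      linear_combination (norm := module) h0
    have e3 : (2 : F) • (c 0 1 • (x 0 * x 1) + c 0 2 • (x 0 * x 2)) ∈ wfil F S ![3, 4, 4] 8 := by
      rw [e2]
      refine Submodule.sub_mem _ (Submodule.sub_mem _ (Submodule.sub_mem _ (Submodule.sub_mem _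
        (Submodule.neg_mem _ hR8) ?_) ?_) ?_) ?_
      · exact Submodule.smul_mem _ _ (hw8 1 1 (by decide) (by decide))
      · exact Submodule.smul_mem _ _ (hw8 1 2 (by decide) (by decide))
      · exact Submodule.smul_mem _ _ (hw8 2 1 (by decide) (by decide))
      · exact Submodule.smul_mem _ _ (hw8 2 2 (by decide) (by decide))
    have e4 := Submodule.smul_mem _ (2 : F)⁻¹ e3
    rwa [smul_smul, inv_mul_cancel₀ h2, one_smul] at e4
  · -- the value of `e`
    have e2 := P.rho_r_word [0, 1, 2]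
    have e3 : det3 F [0, 1, 2] = 1 := by simp [det3]
    rw [e3, one_smul, hr, add_mul, map_add] at e2
    have e4 : P.ρ (R * word P.X [0, 1, 2]) = 0 := by
      have e5 := P.rho_ge h2 h.sys hF (P.mul_mem_ge ![3, 4, 4] hR
        (P.word_mem_ge ![3, 4, 4] (s := 11) (w := [0, 1, 2]) (by simp [wt])))
      rw [h.wfil_bot (by norm_num), Submodule.mem_bot] at e5
      exact e5
    have hXXX : ∀ i j : Fin 3, P.ρ (P.X i * P.X j * word P.X [0, 1, 2]) =
        S [i, j, 0, 1, 2] := by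
      intro i j
      rw [← P.ρ_word [i, j, 0, 1, 2], word_cons P.X i, word_cons P.X j, mul_assoc]
    have hvan : ∀ i j : Fin 3, i ≠ 0 → j ≠ 0 → S [i, j, 0, 1, 2] = 0 := by
      intro i j hi hj
      have : ∀ i j : Fin 3, i ≠ 0 → j ≠ 0 → 18 < wt ![3, 4, 4] [i, j, 0, 1, 2] := by decide
      exact h.van _ (this i j hi hj)
    rw [e4, zero_add] at e2
    simp only [Finset.sum_mul, map_sum, smul_mul_assoc, map_smul, hXXX] at e2
    simp only [Fin.sum_univ_three] at e2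
    rw [hc00, hvan 1 1 (by decide) (by decide), hvan 1 2 (by decide) (by decide),
      hvan 2 1 (by decide) (by decide), hvan 2 2 (by decide) (by decide), hsym 1 0, hsym 2 0] at e2
    rw [← e2]
    module

/-- the new stage -/
theorem C80_stg (hcr : Crit F J 6 e) (h : Stg F x S ![3, 4, 4] 18 e) {c1 c2 : F}
    (hs : e = c1 • (S [0, 1, 0, 1, 2] + S [1, 0, 0, 1, 2]) +
        c2 • (S [0, 2, 0, 1, 2] + S [2, 0, 0, 1, 2])) :
    Stg F x S ![60, 81, 81] 363 e := by
  refine h.raise_cnt hcr (fun _ => False) (fun _ hi => hi.elim) _ _ ?_ ?_ ?_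
  · intro i
    fin_cases i <;> simp
  · intro i j k hijk hlt
    left
    simp at hlt ⊢
    omega
  · by_contra hcon
    push Not at hcon
    apply h.e0
    rw [hs, hcon [0, 1, 0, 1, 2] (by simp [wt]), hcon [1, 0, 0, 1, 2] (by simp [wt]),
      hcon [0, 2, 0, 1, 2] (by simp [wt]), hcon [2, 0, 0, 1, 2] (by simp [wt])]
    simp

end JD
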