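import Pool.Agent.H74.JD.FQ

set_option autoImplicit false
set_option linter.unusedSectionVars false

/-!
# JD FCaseA1: case `z V = 0`, `z E 2 = 0` (helper74)

`v, v' ∈ V = E 1`, `p = z z`. `FZ.Ekill` (for `h = z`): `b z = 0` for all `b ∈ E k`, `k ≥ 1`.
`rel1`: `p (v h) = v (p h)`: `gJ2` with `x := z, y := v`: `(z z)(v h) + 2 (z v)(z h) = v ((z z) h) + 2 z ((z v) h)`.
`rel3`: `b p = 0` for `b ∈ E 2`: `gJ3 v v' z z`: `(v v')(z z) + (v' z)(v z) + (z v)(v' z) = z ((v v') z) + v ((v' z) z) + v' ((z v) z)`.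
`p_ne`: if `p = 0` then `FZ.kill w z` gives `z = 0` (`(z z) z = p z = 0`).

`caseA1a` (`w ≠ 90`). `60 ∤ 2w`, `2w ≠ w`, `p ∈ D (2w)`, `p ≠ 0`. COUNT (`FZ.dims`, `T = {w, 2w}`, `T = {w, 2w, d}`): `t = 9` and `D d = ⊥` for `d ≥ 1`, `60 ∤ d`, `d ≠ w, 2w`; `D d = 0` for `d > 360`.
`v p ∈ D (2w+60) = 0`; `b p = 0` for `b ∈ E 2`. `c := z p ∈ D (3w)`. `gJ4 z z z h`: `((z z) z) h = 3 (z z)(z h) - 2 z (z (z h))`, so `c h = 0` if `z h = 0`, in particular `c v = 0`, `c b = 0` for `b ∈ E 2`. CLAIM `c = 0`. If `60 ∤ 3w`: `c ∈ D (3w) = 0` (`3w ≠ w, 2w`). If `60 ∣ 3w`: `w = 80` or `w = 100`;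
`z c ∈ D (4w) = 0` (`320` or `400`), `(z z) c ∈ D (5w) = 0`, so `FZ.kill (3w) c` gives `c = 0`. Now `p p = (z z)(z z) = z ((z z) z) = 0` (`gJ1 z z`), and `FZ.kill (2w) p` (`2w < 360`): `p = 0`, contradiction.

-/

namespace JD

universe u

variable {F : Type u} [Field F] {A : Type u} [NonUnitalNonAssocCommRing A] [Module F A]
  [IsScalarTower F A A] [SMulCommClass F A A] {D E : ℕ → Submodule F A} {x y z : A} {w t : ℕ}

theorem FZ.rel1 (h : FZ F A D E x y z w t) (hx : x * z = 0) (hy : y * z = 0) (v : A)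
    (hv : v ∈ E 1) (g : A) : (z * z) * (v * g) = v * ((z * z) * g) := by
  have hvz : v * z = 0 := by
    rw [h.E1, Submodule.mem_span_pair] at hv
    obtain ⟨a, b, rfl⟩ := hv
    rw [add_mul, smul_mul_assoc, smul_mul_assoc, hx, hy, smul_zero, smul_zero, add_zero]
  have hzv : z * v = 0 := by rw [mul_comm, hvz]
  have h2 := gJ2 F h.gf.two h.gf.jordan z v g
  rw [hzv, zero_mul, zero_mul, mul_zero, smul_zero, add_zero, add_zero] at h2
  exact h2

private theorem FCaseA1_aux (h : FZ F A D E x y z w t) {v v' : A} (hv : v * z = 0)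
    (hv' : v' * z = 0) (hvv : (v * v') * z = 0) : (v * v') * (z * z) = 0 := by
  have h3 := gJ3 F h.gf.two h.gf.jordan v v' z z
  rw [mul_comm z v, hv, hv', mul_comm z ((v * v') * z), hvv] at h3
  simpa using h3

theorem FZ.rel3 (h : FZ F A D E x y z w t) (hx : x * z = 0) (hy : y * z = 0)
    (h1 : (x * x) * z = 0) (h2 : (x * y) * z = 0) (h3 : (y * y) * z = 0) (b : A)
    (hb : b ∈ E 2) : b * (z * z) = 0 := by
  rw [h.E2] at hb
  have e1 := FCaseA1_aux h hx hx h1
  have e2 := FCaseA1_aux h hx hy h2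
  have e3 := FCaseA1_aux h hy hy h3
  induction hb using Submodule.span_induction with
  | mem b hb =>
    rcases hb with rfl | rfl | rfl
    · exact e1
    · exact e2
    · exact e3
  | zero => exact zero_mul _
  | add a b _ _ ha hb => rw [add_mul, ha, hb, add_zero]
  | smul r a _ ha => rw [smul_mul_assoc, ha, smul_zero]

/-- `z z = 0` is impossible -/
theorem FCaseA1_p_ne (h : FZ F A D E x y z w t) (hx : x * z = 0) (hy : y * z = 0)
    (h1 : (x * x) * z = 0) (h2 : (x * y) * z = 0) (h3 : (y * y) * z = 0) : z * z ≠ 0 := by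
  intro hp
  have hlo := h.lo
  have hhi := h.hi
  refine h.z0 (h.kill w (by omega) (by omega) z h.zm hx hy hp h1 h2 h3 ?_ ?_ ?_)
  · rw [hx, zero_mul]
  · rw [hy, zero_mul]
  · rw [hp, zero_mul]

/-- counting: a nonzero element gives a positive dimension -/
theorem FCaseA1_pos (h : FZ F A D E x y z w t) {s : ℕ} {a : A} (ha : a ∈ D s) (h0 : a ≠ 0) :
    1 ≤ Module.finrank F (D s) := by
  have := h.gf.fin
  rw [Nat.one_le_iff_ne_zero]
  intro hf
  have hb : D s = ⊥ := Submodule.finrank_eq_zero.mp hf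
  rw [hb, Submodule.mem_bot] at ha
  exact h0 ha

theorem FCaseA1_low (h : FZ F A D E x y z w t) (T : Finset ℕ)
    (hT : ∀ s ∈ T, 1 ≤ s ∧ ¬ 60 ∣ s) :
    t + ∑ s ∈ T, Module.finrank F (D s) ≤ 11 := by
  obtain ⟨hd, hE⟩ := h.dims T hT
  have hl := h.Elow
  have : ∑ k ∈ Finset.Icc 1 6, Module.finrank F (E k) ≤
      ∑ k ∈ Finset.Icc 1 6, Module.finrank F (D (60 * k)) :=
    Finset.sum_le_sum fun k hk => hE k (Finset.mem_Icc.mp hk).1
  omega

/-- the other layers vanish -/
theorem FCaseA1_bot (h : FZ F A D E x y z w t) (hp : z * z ≠ 0) (hw : w ≠ 90) {d : ℕ}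
    (hd : 1 ≤ d) (hd60 : ¬ 60 ∣ d) (h1 : d ≠ w) (h2 : d ≠ 2 * w) {a : A} (ha : a ∈ D d) :
    a = 0 := by
  by_contra h0
  have hlo := h.lo
  have hhi := h.hi
  have hpm : z * z ∈ D (2 * w) := by
    have := h.gf.mul_mem w w (by omega) (by omega) z h.zm z h.zm
    rwa [← two_mul] at this
  have f1 := FCaseA1_pos h h.zm h.z0
  have f2 := FCaseA1_pos h hpm hp
  have f3 := FCaseA1_pos h ha h0
  have hne : w ≠ 2 * w := by omega
  have hT := FCaseA1_low h {w, 2 * w, d} (by
    intro s hs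
    simp only [Finset.mem_insert, Finset.mem_singleton] at hs
    rcases hs with rfl | rfl | rfl
    · exact ⟨by omega, by omega⟩
    · exact ⟨by omega, by omega⟩
    · exact ⟨hd, hd60⟩)
  rw [Finset.sum_insert (by
      simp only [Finset.mem_insert, Finset.mem_singleton, not_or]
      exact ⟨hne, fun h => h1 h.symm⟩),
    Finset.sum_insert (by
      simp only [Finset.mem_singleton]
      exact fun h => h2 h.symm), Finset.sum_singleton] at hT
  have := h.t9
  omega

/-- `((z z) z) g = 0` if `z g = 0` -/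
theorem FCaseA1_c (h : FZ F A D E x y z w t) {g : A} (hg : g * z = 0) :
    g * (z * (z * z)) = 0 := by
  have h4 := gJ4 F h.gf.two h.gf.jordan z z z g
  rw [mul_comm z g, hg] at h4
  rw [mul_comm, mul_comm z (z * z), h4]
  simp

theorem FZ.caseA1a (h : FZ F A D E x y z w t) (hx : x * z = 0) (hy : y * z = 0)
    (h1 : (x * x) * z = 0) (h2 : (x * y) * z = 0) (h3 : (y * y) * z = 0) (hw : w ≠ 90) :
    False := by
  have hlo := h.lo
  have hhi := h.hi
  have hp := FCaseA1_p_ne h hx hy h1 h2 h3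
  have hpm : z * z ∈ D (2 * w) := by
    have := h.gf.mul_mem w w (by omega) (by omega) z h.zm z h.zm
    rwa [← two_mul] at this
  have hxp : x * (z * z) = 0 :=
    FCaseA1_bot h hp hw (d := 60 + 2 * w) (by omega) (by omega) (by omega) (by omega)
      (h.gf.mul_mem 60 (2 * w) (by omega) (by omega) x h.xm _ hpm)
  have hyp : y * (z * z) = 0 :=
    FCaseA1_bot h hp hw (d := 60 + 2 * w) (by omega) (by omega) (by omega) (by omega)
      (h.gf.mul_mem 60 (2 * w) (by omega) (by omega) y h.ym _ hpm)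
  have e1 := FCaseA1_aux h hx hx h1
  have e2 := FCaseA1_aux h hx hy h2
  have e3 := FCaseA1_aux h hy hy h3
  have hcm : z * (z * z) ∈ D (w + 2 * w) :=
    h.gf.mul_mem w (2 * w) (by omega) (by omega) z h.zm _ hpm
  have hc : z * (z * z) = 0 := by
    by_cases h60 : 60 ∣ w + 2 * w
    · have hw' : w = 80 ∨ w = 100 := by omega
      have hzc : z * (z * (z * z)) = 0 := by
        have hm := h.gf.mul_mem w (w + 2 * w) (by omega) (by omega) z h.zm _ hcm
        rcases hw' with rfl | rfl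
        · exact FCaseA1_bot h hp (by omega) (by omega) (by omega) (by omega) (by omega) hm
        · exact h.gf.above _ (by omega) _ hm
      have hpc : (z * z) * (z * (z * z)) = 0 := by
        have hm := h.gf.mul_mem (2 * w) (w + 2 * w) (by omega) (by omega) _ hpm _ hcm
        exact h.gf.above _ (by omega) _ hm
      refine h.kill (w + 2 * w) (by omega) (by omega) _ hcm (FCaseA1_c h hx) (FCaseA1_c h hy)
        hzc (FCaseA1_c h h1) (FCaseA1_c h h2) (FCaseA1_c h h3) ?_ ?_ hpc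
      · rw [hx, zero_mul]
      · rw [hy, zero_mul]
    · exact FCaseA1_bot h hp hw (by omega) h60 (by omega) (by omega) hcm
  have hpp : (z * z) * (z * z) = 0 := by
    have := gJ1 h.gf.jordan z z
    rw [this, mul_comm (z * z) z, hc, mul_zero]
  refine hp (h.kill (2 * w) (by omega) (by omega) _ hpm hxp hyp hc e1 e2 e3 ?_ ?_ hpp)
  · rw [hx, zero_mul]
  · rw [hy, zero_mul]

end JD
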