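import Pool.Agent.H74.JD.FDefs

set_option autoImplicit false
set_option linter.unusedSectionVars false

/-!
# JD FQP: the second alternative of `H6_two` (helper74)

* `PS_p_zero` (second alternative). Let `x, y` be the dual vectors (`hP.dual`): `l x = 1, m x = 0, l y = 0, m y = 1`. `p ∈ E 3`, `p (v h) = v (p h)` for `v ∈ E 1` and all `h`, `q p = 0` for `q ∈ E 2`. CLAIM `p = 0`. PROOF.
  `v (p v') = p (v v') = 0`: so `v * (v' * p) = 0` for `v, v' ∈ E 1` (i). Put `g v q = q * (v * p) ∈ E 6`. `gJ1 v p`: `(v v)(v p) = v ((v v) p) = 0`, i.e. `g v (v v) = 0`. With `v = a x + b y`, `v v = a • (a • s1 + b • s2)` (`hP.sq`):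
  `a³ g x s1 + a² b (g y s1 + g x s2) + a b² g y s2 = 0` for all `a, b` (`pvan'` or `a = 1` and two values of `b`; the field is infinite): `g x s1 = 0`, `g y s2 = 0`, `g x s2 = - g y s1`. (E 1 = span {x, y} as `finrank = 2` and `x, y` are independent.)
  CASE `g y s1 = 0`: then `g v q = 0` for all `v ∈ E 1`, `q ∈ E 2`, so `v p = 0` by `hG.nd 4` (with (i)), and `p = 0` by `hG.nd 3`.
  CASE `g y s1 ≠ 0`: `x p, y p` are independent (`a x p + b y p = 0`: multiply by `s1`: `b g y s1 = 0`; by `s2`: `a g x s2 = 0`), so they span `E 4` (`finrank = 2`), and `v * h = 0` for `v ∈ E 1`, `h ∈ E 4` by (i) (ii).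
  `Δ (v v) = 2 v Δ v = 0` (`hP.der`, `Δ v ∈ E 4` by `hP.deg`, (ii)). `v = x`: `Δ s1 = 0`; `v = x + y`: `v v = s1 + s2`: `Δ s2 = 0`. For `v ∈ E 1`: `s_i * (v * s_j) = v * (s_i * s_j) = 0` by `hP.d1`, `hP.d2` (`Δ s_j = 0`) and (ii). So `s_i * h = 0` for `h ∈ E 3`
  (`hG.gen 3` with `T = ker`), so `E 5 = 0` by `hG.gen 5` (`v * E 4 = 0`, `E 2 * E 3 = 0`). But `finrank (E 5) = 1`. Contradiction.
-/

namespace JD

universe u

variable {F : Type u} [Field F] {A : Type u} [NonUnitalNonAssocCommRing A] [Module F A]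
  [IsScalarTower F A A] [SMulCommClass F A A] {D E : ℕ → Submodule F A}

private theorem FQP_span2 [Module.Finite F A] {T : Submodule F A} (h : Module.finrank F T = 2)
    {u v : A} (hu : u ∈ T) (hv : v ∈ T) (hli : ∀ a b : F, a • u + b • v = 0 → a = 0 ∧ b = 0) :
    ∀ g ∈ T, ∃ a b : F, g = a • u + b • v := by
  intro g hg
  have h1 : LinearIndependent F (![⟨u, hu⟩, ⟨v, hv⟩] : Fin 2 → T) := by
    rw [LinearIndependent.pair_iff]
    intro a b hab
    apply hli a b
    have := congrArg Subtype.val hab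
    simpa using this
  have h3 := h1.span_eq_top_of_card_eq_finrank' (by simp [h])
  have h4 : (⟨g, hg⟩ : T) ∈ Submodule.span F (Set.range (![⟨u, hu⟩, ⟨v, hv⟩] : Fin 2 → T)) := by
    rw [h3]; trivial
  rw [Matrix.range_cons, Matrix.range_cons, Matrix.range_empty, Set.union_empty,
    Set.singleton_union, Submodule.mem_span_pair] at h4
  obtain ⟨a, b, hab⟩ := h4
  refine ⟨a, b, ?_⟩
  have := congrArg Subtype.val hab
  simpa using this.symm

theorem PS_p_zero (hG : GJ F A 6 E) (h1 : Module.finrank F (E 1) = 2)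
    (h4 : Module.finrank F (E 4) = 2) (h5 : Module.finrank F (E 5) = 1)
    {s1 s2 : A} {l m : A →ₗ[F] F} {Δ : A →ₗ[F] A} (hP : PS E s1 s2 l l m Δ) {p : A}
    (hp : p ∈ E 3) (hc : ∀ v ∈ E 1, ∀ h : A, p * (v * h) = v * (p * h))
    (hq : ∀ q ∈ E 2, q * p = 0) : p = 0 := by
  have hfin := hG.fin
  obtain ⟨x, hx, y, hy, hlx, hmx, hly, hmy⟩ := hP.dual
  have hE1 : ∀ v ∈ E 1, ∃ a b : F, v = a • x + b • y := by
    apply FQP_span2 h1 hx hy
    intro a b hab
    have e1 := congrArg l hab
    have e2 := congrArg m hab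
    simp only [map_add, map_smul, hlx, hmx, hly, hmy, smul_eq_mul, mul_one, mul_zero, add_zero,
      zero_add, map_zero] at e1 e2
    exact ⟨e1, e2⟩
  have hi : ∀ v ∈ E 1, ∀ v' ∈ E 1, v * (v' * p) = 0 := by
    intro v hv v' hv'
    rw [mul_comm v' p, ← hc v hv v', mul_comm p (v * v')]
    exact hq _ (hG.mul_mem 1 1 le_rfl le_rfl v hv v' hv')
  have hJ : ∀ v ∈ E 1, (v * v) * (v * p) = 0 := by
    intro v hv
    rw [gJ1 hG.jordan v p, hq _ (hG.mul_mem 1 1 le_rfl le_rfl v hv v hv), mul_zero]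
  have e1 : s1 * (x * p) = 0 := by
    have := hJ x hx
    rw [hP.sq x hx, hlx, hmx] at this
    simpa using this
  have hxy : x + y ∈ E 1 := (E 1).add_mem hx hy
  have hxy' : x - y ∈ E 1 := (E 1).sub_mem hx hy
  have sxy : (x + y) * (x + y) = s1 + s2 := by
    rw [hP.sq _ hxy]
    simp [hlx, hmx, hly, hmy]
  have sxy' : (x - y) * (x - y) = s1 - s2 := by
    rw [hP.sq _ hxy']
    simp [hlx, hmx, hly, hmy, sub_eq_add_neg]
  have e3 : s1 * (y * p) + s2 * (x * p) + s2 * (y * p) = 0 := by
    have := hJ _ hxy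
    rw [sxy, add_mul, add_mul, mul_add, mul_add, e1] at this
    linear_combination (norm := abel) this
  have e4 : - (s1 * (y * p)) - s2 * (x * p) + s2 * (y * p) = 0 := by
    have := hJ _ hxy'
    rw [sxy', sub_mul, sub_mul, mul_sub, mul_sub, e1] at this
    linear_combination (norm := abel) this
  have e5 : s2 * (y * p) = 0 := by
    have h6 : (2 : F) • (s2 * (y * p)) = 0 := by
      rw [two_smul]
      linear_combination (norm := abel) e3 + e4
    rcases smul_eq_zero.1 h6 with h7 | h7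
    · exact absurd h7 hG.two
    · exact h7
  have e6 : s1 * (y * p) = - (s2 * (x * p)) := by
    rw [e5, add_zero] at e3
    exact eq_neg_of_add_eq_zero_left e3
  have hpv : ∀ v ∈ E 1, v * p ∈ E 4 := by
    intro v hv
    have := hG.mul_mem 1 3 le_rfl (by norm_num) v hv p hp
    exact this
  by_cases hz : s1 * (y * p) = 0
  · have e7 : s2 * (x * p) = 0 := by
      rw [hz] at e6
      exact neg_eq_zero.1 e6.symm
    have hv0 : ∀ v ∈ E 1, v * p = 0 := by
      intro v hv
      apply hG.nd 4 (by norm_num) (by norm_num) _ (hpv v hv)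
      · intro v' hv'
        exact hi v' hv' v hv
      · intro q hq'
        obtain ⟨a, b, rfl⟩ := hP.span q hq'
        obtain ⟨c, d, rfl⟩ := hE1 v hv
        simp only [add_mul, mul_add, smul_mul_assoc, mul_smul_comm, e1, hz, e5, e7, smul_zero,
          add_zero]
    exact hG.nd 3 (by norm_num) (by norm_num) p hp hv0 hq
  · exfalso
    have e7 : s2 * (x * p) ≠ 0 := by
      intro h6
      apply hz
      rw [e6, h6, neg_zero]
    have hE4 : ∀ g ∈ E 4, ∃ a b : F, g = a • (x * p) + b • (y * p) := by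
      apply FQP_span2 h4 (hpv x hx) (hpv y hy)
      intro a b hab
      have f1 := congrArg (fun t => s1 * t) hab
      have f2 := congrArg (fun t => s2 * t) hab
      simp only [mul_add, mul_smul_comm, e1, e5, smul_zero, zero_add, add_zero, mul_zero] at f1 f2
      refine ⟨?_, ?_⟩
      · rcases smul_eq_zero.1 f2 with h6 | h6
        · exact h6
        · exact absurd h6 e7
      · rcases smul_eq_zero.1 f1 with h6 | h6
        · exact h6
        · exact absurd h6 hz
    have hii : ∀ v ∈ E 1, ∀ g ∈ E 4, v * g = 0 := by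
      intro v hv g hg
      obtain ⟨a, b, rfl⟩ := hE4 g hg
      rw [mul_add, mul_smul_comm, mul_smul_comm, hi v hv x hx, hi v hv y hy, smul_zero, smul_zero,
        add_zero]
    have hΔ : ∀ v ∈ E 1, Δ (v * v) = 0 := by
      intro v hv
      have h6 : v * Δ v = 0 := hii v hv _ (hP.deg 1 le_rfl v hv)
      rw [hP.der, mul_comm (Δ v) v, h6, add_zero]
    have d1 : Δ s1 = 0 := by
      have h6 := hΔ x hx
      rw [hP.sq x hx, hlx, hmx] at h6
      simpa using h6
    have d2 : Δ s2 = 0 := by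
      have h6 := hΔ _ hxy
      rw [sxy, map_add, d1, zero_add] at h6
      exact h6
    have s22 : ∀ q ∈ E 2, ∀ q' ∈ E 2, q * q' ∈ E 4 := by
      intro q hq1 q' hq2
      exact hG.mul_mem 2 2 (by norm_num) (by norm_num) q hq1 q' hq2
    have k1 : ∀ v ∈ E 1, ∀ q ∈ E 2, s1 * (v * q) = 0 := by
      intro v hv q hq1
      have h6 := hP.d1 v hv q
      have h7 : Δ q = 0 := by
        obtain ⟨a, b, rfl⟩ := hP.span q hq1
        rw [map_add, map_smul, map_smul, d1, d2, smul_zero, smul_zero, add_zero]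
      rw [h7, smul_zero, hii v hv _ (s22 _ hP.s1_mem _ hq1), sub_zero] at h6
      exact h6
    have k2 : ∀ v ∈ E 1, ∀ q ∈ E 2, s2 * (v * q) = 0 := by
      intro v hv q hq1
      have h6 := hP.d2 v hv q
      have h7 : Δ q = 0 := by
        obtain ⟨a, b, rfl⟩ := hP.span q hq1
        rw [map_add, map_smul, map_smul, d1, d2, smul_zero, smul_zero, add_zero]
      rw [h7, smul_zero, hii v hv _ (s22 _ hP.s2_mem _ hq1), sub_zero, neg_zero] at h6
      exact h6
    have k3 : E 3 ≤ LinearMap.ker (LinearMap.mulLeft F s1) ⊓ LinearMap.ker (LinearMap.mulLeft F s2) := by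
      apply hG.gen 3 le_rfl
      · intro v hv q hq1
        rw [Submodule.mem_inf, LinearMap.mem_ker, LinearMap.mem_ker, LinearMap.mulLeft_apply,
          LinearMap.mulLeft_apply]
        exact ⟨k1 v hv q hq1, k2 v hv q hq1⟩
      · intro q hq1 v hv
        rw [Submodule.mem_inf, LinearMap.mem_ker, LinearMap.mem_ker, LinearMap.mulLeft_apply,
          LinearMap.mulLeft_apply, mul_comm q v]
        exact ⟨k1 v hv q hq1, k2 v hv q hq1⟩
    have k5 : E 5 ≤ ⊥ := by
      apply hG.gen 5 (by norm_num)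
      · intro v hv g hg
        rw [Submodule.mem_bot]
        exact hii v hv g hg
      · intro q hq1 g hg
        rw [Submodule.mem_bot]
        have h6 := k3 hg
        rw [Submodule.mem_inf, LinearMap.mem_ker, LinearMap.mem_ker, LinearMap.mulLeft_apply,
          LinearMap.mulLeft_apply] at h6
        obtain ⟨a, b, rfl⟩ := hP.span q hq1
        rw [add_mul, smul_mul_assoc, smul_mul_assoc, h6.1, h6.2, smul_zero, smul_zero, add_zero]
    rw [le_bot_iff.mp k5, finrank_bot] at h5
    norm_num at h5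

end JD
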