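import Pool.Agent.H74.JD.FCaseA1
import Pool.Agent.H74.JD.FQP

set_option autoImplicit false
set_option linter.unusedSectionVars false

/-!
# JD FCaseA1b: case `z V = 0`, `z E 2 = 0`, `w = 90` (helper74)

`v, v' ∈ V = E 1`, `p = z z`. `FZ.Ekill` (for `h = z`): `b z = 0` for all `b ∈ E k`, `k ≥ 1`. `p = 0` would give `z = 0` (`FZ.kill w z`, `(z z) z = p z`).
`caseA1b` (`w = 90`, `p ∉ E 3`). `p ∈ D 180`. COUNT: `finrank (D 180) ≥ finrank (E 3) + 1`, `finrank (D 90) ≥ 1` so `t = 9`, `∑ finrank (E k) = 9`, `D (60 k) = E k` for `k ≠ 3`, `D d = ⊥` for `d ≥ 1`, `60 ∤ d`, `d ≠ 90`. `FZ.GJ_FQ`: `q, β`. `v p ∈ D 240 = E 4`: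
`v p = ζ(v) • q q`. `rel1` with `h = v'`: `p (v v') = v (p v')`: `β(v,v') • p q = ζ(v') • v (q q)`, and `p q = 0` by `rel3`; so `ζ(v') = 0` (take `v ≠ 0`, `inj5`). So `v p = 0`, `b p = 0` for `b ∈ E 2`, `z p ∈ D 270 = 0`, `p p = z ((z z) z) = z (p z) = 0` (`gJ1 z z`). `FZ.kill 180 p`: `p = 0 ∈ E 3`, contradiction.

`caseA1c` (`w = 90`, `p ∈ E 3`). `E` is a `GJ`: `mul_mem := Emul`; `above`: `E k ≤ D (60 k) = 0` for `k > 6`; `gen2` from `E2, E1`; `gen := Egen`; `top := E6d`; `nd`: `h ∈ E k`, `1 ≤ k < 6`, `v h = 0`, `b h = 0` for `b ∈ E 2`: `z h = h z = 0` (first line), `(z z) h = p h = 0` by `FZ.Ekill h` (`p ∈ E 3`),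
`(x z) h = 0`: `FZ.kill (60 k) h`. `H6_two`: `∑_(k=2..5) finrank (E k) ≤ 7`: COUNT with `T = {90}`. First alternative: `FQ_exists`, `p = v0 q`, `0 = q p = q (v0 q) = v0 (q q)` (`comm`), `v0 = 0`, `p = 0`, contradiction to `p_ne`. Second alternative: `PS_p_zero`.
-/

namespace JD

universe u

variable {F : Type u} [Field F] {A : Type u} [NonUnitalNonAssocCommRing A] [Module F A]
  [IsScalarTower F A A] [SMulCommClass F A A] {D E : ℕ → Submodule F A} {x y z : A} {w t : ℕ}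

private theorem FCaseA1b_Icc (f : ℕ → ℕ) :
    ∑ k ∈ Finset.Icc 1 6, f k = f 1 + f 2 + f 3 + f 4 + f 5 + f 6 := by
  have : Finset.Icc 1 6 = ({1, 2, 3, 4, 5, 6} : Finset ℕ) := by decide
  rw [this]
  simp [Finset.sum_insert]
  ring

private theorem FCaseA1b_EV (h : FZ F A D E x y z w t) :
    x ∈ E 1 ∧ y ∈ E 1 ∧ x * x ∈ E 2 ∧ x * y ∈ E 2 ∧ y * y ∈ E 2 := by
  refine ⟨?_, ?_, ?_, ?_, ?_⟩
  · rw [h.E1]; exact Submodule.subset_span (by simp)
  · rw [h.E1]; exact Submodule.subset_span (by simp)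
  · rw [h.E2]; exact Submodule.subset_span (by simp)
  · rw [h.E2]; exact Submodule.subset_span (by simp)
  · rw [h.E2]; exact Submodule.subset_span (by simp)

theorem FZ.caseA1b (h : FZ F A D E x y z w t) (hx : x * z = 0) (hy : y * z = 0)
    (h1 : (x * x) * z = 0) (h2 : (x * y) * z = 0) (h3 : (y * y) * z = 0) (hw : w = 90)
    (hp : z * z ∉ E 3) : False := by
  subst hw
  have hfin := h.gf.fin
  obtain ⟨hxE, hyE, hxx, hxy, hyy⟩ := FCaseA1b_EV h
  have hpm : z * z ∈ D 180 := h.gf.mul_mem 90 90 (by omega) (by omega) z h.zm z h.zm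
  have hzp : z * (z * z) ∈ D 270 := h.gf.mul_mem 90 180 (by omega) (by omega) z h.zm _ hpm
  -- counting
  have hlt : Module.finrank F (E 3) < Module.finrank F (D (60 * 3)) := by
    apply Submodule.finrank_lt_finrank_of_lt
    refine lt_of_le_of_ne (h.Ele 3 (by omega)) ?_
    intro heq
    apply hp
    rw [heq]
    exact hpm
  have f90 := FCaseA1_pos h h.zm h.z0
  obtain ⟨hd, hE⟩ := h.dims {90, 270} (by
    intro s hs
    simp only [Finset.mem_insert, Finset.mem_singleton] at hs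
    rcases hs with rfl | rfl
    · exact ⟨by omega, by omega⟩
    · exact ⟨by omega, by omega⟩)
  have hl := h.Elow
  have ht9 := h.t9
  have g1 := hE 1 (by omega)
  have g2 := hE 2 (by omega)
  have g4 := hE 4 (by omega)
  have g5 := hE 5 (by omega)
  have g6 := hE 6 (by omega)
  rw [FCaseA1b_Icc, Finset.sum_pair (by omega)] at hd
  rw [FCaseA1b_Icc] at hl
  have ht : t = 9 := by omega
  have hS : ∑ k ∈ Finset.Icc 1 6, Module.finrank F (E k) ≤ 9 := by
    rw [FCaseA1b_Icc]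
    omega
  have hD4 : E 4 = D (60 * 4) := by
    apply Submodule.eq_of_le_of_finrank_eq (h.Ele 4 (by omega))
    omega
  have hD270 : D 270 = ⊥ := Submodule.finrank_eq_zero.mp (by omega)
  obtain ⟨hG, q, β, hQ⟩ := h.GJ_FQ ht hS
  have hqp : q * (z * z) = 0 := h.rel3 hx hy h1 h2 h3 q hQ.qm
  -- `v p = 0`
  obtain ⟨v0, hv0, hv0'⟩ : ∃ v ∈ E 1, v ≠ 0 := by
    apply Submodule.exists_mem_ne_zero_of_ne_bot
    intro hb
    have := h.E1d
    rw [hb, finrank_bot] at this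
    omega
  have hvp : ∀ v ∈ E 1, v * (z * z) = 0 := by
    intro v hv
    have hm : v * (z * z) ∈ E 4 := by
      rw [hD4]
      have hv' : v ∈ D 60 := h.Ele 1 (by omega) hv
      exact h.gf.mul_mem 60 180 (by omega) (by omega) v hv' _ hpm
    obtain ⟨r, hr⟩ := hQ.E4 _ hm
    have e := h.rel1 hx hy v0 hv0 v
    rw [hQ.mulV v0 hv0 v hv, mul_smul_comm, mul_comm (z * z) q, hqp, smul_zero,
      mul_comm (z * z) v, hr, mul_smul_comm] at e
    by_cases hr0 : r = 0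
    · rw [hr, hr0, zero_smul]
    · have : v0 * (q * q) = 0 := by
        rcases smul_eq_zero.mp e.symm with h' | h'
        · exact absurd h' hr0
        · exact h'
      exact absurd (hQ.inj5 v0 hv0 this) hv0'
  have hzp0 : z * (z * z) = 0 := by
    rw [hD270, Submodule.mem_bot] at hzp
    exact hzp
  have hpp : (z * z) * (z * z) = 0 := by
    have := gJ1 h.gf.jordan z z
    rw [this, mul_comm (z * z) z, hzp0, mul_zero]
  apply hp
  have : z * z = 0 := by
    refine h.kill 180 (by omega) (by omega) _ hpm (hvp x hxE) (hvp y hyE) hzp0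
      (h.rel3 hx hy h1 h2 h3 _ hxx) (h.rel3 hx hy h1 h2 h3 _ hxy)
      (h.rel3 hx hy h1 h2 h3 _ hyy) ?_ ?_ hpp
    · rw [hx, zero_mul]
    · rw [hy, zero_mul]
  rw [this]
  exact Submodule.zero_mem _

/-- `E` is a `GJ` -/
theorem FCaseA1b_GJ (h : FZ F A D E x y z w t) (hx : x * z = 0) (hy : y * z = 0)
    (h1 : (x * x) * z = 0) (h2 : (x * y) * z = 0) (h3 : (y * y) * z = 0)
    (hp : z * z ∈ E 3) : GJ F A 6 E := by
  obtain ⟨hxE, hyE, hxx, hxy, hyy⟩ := FCaseA1b_EV h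
  refine ⟨h.gf.two, h.gf.inf, h.gf.jordan, h.gf.fin, h.Emul, ?_, ?_, h.Egen, ?_, h.E6d⟩
  · intro i hi a ha
    exact h.gf.above (60 * i) (by omega) a (h.Ele i (by omega) ha)
  · intro T hT
    rw [h.E2, Submodule.span_le]
    rintro b (rfl | rfl | rfl)
    · exact hT x hxE x hxE
    · exact hT x hxE y hyE
    · exact hT y hyE y hyE
  · intro i hi hi6 g hg hv hq
    have hEz := h.Ekill z hx hy h1 h2 h3
    have hEg := h.Ekill g (hv x hxE) (hv y hyE) (hq _ hxx) (hq _ hxy) (hq _ hyy)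
    refine h.kill (60 * i) (by omega) (by omega) g (h.Ele i hi hg) (hv x hxE) (hv y hyE) ?_
      (hq _ hxx) (hq _ hxy) (hq _ hyy) ?_ ?_ (hEg 3 (by omega) _ hp)
    · rw [mul_comm]
      exact hEz i hi g hg
    · rw [hx, zero_mul]
    · rw [hy, zero_mul]

theorem FZ.caseA1c (h : FZ F A D E x y z w t) (hx : x * z = 0) (hy : y * z = 0)
    (h1 : (x * x) * z = 0) (h2 : (x * y) * z = 0) (h3 : (y * y) * z = 0) (hw : w = 90)
    (hp : z * z ∈ E 3) : False := by
  subst hw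
  have hfin := h.gf.fin
  have hpne := FCaseA1_p_ne h hx hy h1 h2 h3
  have hG := FCaseA1b_GJ h hx hy h1 h2 h3 hp
  have f90 := FCaseA1_pos h h.zm h.z0
  obtain ⟨hd, hE⟩ := h.dims {90} (by
    intro s hs
    simp only [Finset.mem_singleton] at hs
    subst hs
    exact ⟨by omega, by omega⟩)
  have g1 := hE 1 (by omega)
  have g2 := hE 2 (by omega)
  have g3 := hE 3 (by omega)
  have g4 := hE 4 (by omega)
  have g5 := hE 5 (by omega)
  have g6 := hE 6 (by omega)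
  rw [FCaseA1b_Icc, Finset.sum_singleton] at hd
  have e1 := h.E1d
  have e6 := h.E6d
  rcases H6_two hG e1 (by omega) with ⟨k2, k3, k4, k5, hc, hn⟩ | ⟨k2, k3, k4, k5, s1, s2, l, m, Δ, hP⟩
  · obtain ⟨q, β, hQ⟩ := FQ_exists hG e1 k2 k3 k4 k5 hc hn
    obtain ⟨v0, hv0, hv⟩ := hQ.E3 _ hp
    have hqp := h.rel3 hx hy h1 h2 h3 q hQ.qm
    rw [hv, ← hQ.comm v0 hv0 q] at hqp
    have := hQ.inj5 v0 hv0 hqp
    rw [this, zero_mul] at hv
    exact hpne hv
  · exact hpne (PS_p_zero hG e1 k4 k5 hP hp (fun v hv g => h.rel1 hx hy v hv g)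
      (fun q hq => h.rel3 hx hy h1 h2 h3 q hq))

end JD
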