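import Pool.Agent.H74.JD.FQ

set_option autoImplicit false
set_option linter.unusedSectionVars false

/-!
# JD FCaseA2: case `z V = 0`, `z E 2 ≠ 0` (helper74)

`v, v' ∈ V = E 1`; `60 ∤ w`, `60 ∤ w + 120`, and `60 ∣ 2 w` iff `w = 90`. `z v = 0` for `v ∈ V`. `D (w+120) ≠ 0`, `D w ≠ 0`.
COUNT (`FZ.dims` with `T = {w, w + 120}` and `T = {w, w + 120, d}`): `t = 9`, `∑ finrank (E k) = 9`, `D (60 k) = E k` (`k = 1..6`), `finrank (D w) = finrank (D (w+120)) = 1`, `D d = ⊥` for all other `d ≥ 1` not divisible by 60; `D d = 0` for `d > 360`.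
`FZ.GJ_FQ` gives `q, β`; `E 2 = F q`, so `τ := z q ≠ 0`. `v τ ∈ D (w+180) = 0`, `q τ ∈ D (w+240) = 0`.
* `w ≠ 90`: `z z ∈ D (2w) = 0` (`2w ≠ w`, `2w ≠ w + 120`), `z τ ∈ D (2w+120) = 0`. `FZ.kill (w+120) τ`: `τ = 0`, contradiction.
* `w = 90`: `z z ∈ D 180 = E 3`: `z z = v0 q`. `z τ ∈ D 300 = E 5`: `z τ = z0 (q q)`, `z0 ∈ V`. `(z z) τ ∈ D 390 = 0`. Derivation `δ_v(h) = z (v h) - v (z h)` (`gder`): `δ_v(v') = β(v,v') • τ`; `δ_v(z) = - v (v0 q) = - β(v,v0) • q q`;
  `0 = δ_v(z v') = δ_v(z) v' + z δ_v(v') = - β(v,v0) • v' (q q) + β(v,v') • z0 (q q)`, so by `inj5`: `β(v,v') z0 = β(v,v0) v'` for all `v, v' ∈ V`. If `z0 ≠ 0`: take `v' ∈ V` independent of `z0` (`dim V = 2`): `β(v,v') = 0` for all `v`, so `v' = 0` by `nd` (symmetry), contradiction. So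
  `z0 = 0`, `z τ = 0`, and `FZ.kill 210 τ` gives `τ = 0`, contradiction.
-/

namespace JD

universe u

variable {F : Type u} [Field F] {A : Type u} [NonUnitalNonAssocCommRing A] [Module F A]
  [IsScalarTower F A A] [SMulCommClass F A A] {D E : ℕ → Submodule F A} {x y z : A} {w t : ℕ}

private theorem FCaseA2_Icc (f : ℕ → ℕ) :
    ∑ k ∈ Finset.Icc 1 6, f k = f 1 + f 2 + f 3 + f 4 + f 5 + f 6 := by
  have : Finset.Icc 1 6 = ({1, 2, 3, 4, 5, 6} : Finset ℕ) := by decide
  rw [this]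
  simp [Finset.sum_insert]
  ring

private theorem FCaseA2_pos (h : FZ F A D E x y z w t) {s : ℕ} {a : A} (ha : a ∈ D s)
    (h0 : a ≠ 0) : 1 ≤ Module.finrank F (D s) := by
  have := h.gf.fin
  rw [Nat.one_le_iff_ne_zero]
  intro hf
  have hb : D s = ⊥ := Submodule.finrank_eq_zero.mp hf
  rw [hb, Submodule.mem_bot] at ha
  exact h0 ha

private theorem FCaseA2_EV (h : FZ F A D E x y z w t) :
    x ∈ E 1 ∧ y ∈ E 1 ∧ x * x ∈ E 2 ∧ x * y ∈ E 2 ∧ y * y ∈ E 2 := by
  refine ⟨?_, ?_, ?_, ?_, ?_⟩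
  · rw [h.E1]; exact Submodule.subset_span (by simp)
  · rw [h.E1]; exact Submodule.subset_span (by simp)
  · rw [h.E2]; exact Submodule.subset_span (by simp)
  · rw [h.E2]; exact Submodule.subset_span (by simp)
  · rw [h.E2]; exact Submodule.subset_span (by simp)

private theorem FCaseA2_ind (h : FZ F A D E x y z w t) {a b : F} (hab : a • x + b • y = 0) :
    a = 0 ∧ b = 0 := by
  have hfin := h.gf.fin
  have hd := h.E1d
  rw [h.E1] at hd
  have hr : Set.range ![x, y] = {x, y} := by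
    ext u
    simp only [Matrix.range_cons, Matrix.range_empty, Set.union_empty, Set.mem_union,
      Set.mem_singleton_iff, Set.mem_insert_iff]
  have hli : LinearIndependent F ![x, y] := by
    rw [linearIndependent_iff_card_eq_finrank_span, hr]
    simpa [Set.finrank] using hd.symm
  rw [LinearIndependent.pair_iff] at hli
  exact hli a b hab

private theorem FCaseA2_count (h : FZ F A D E x y z w t) {m : ℕ} (hm : 1 ≤ m) (hm60 : ¬ 60 ∣ m)
    (hmw : m ≠ w) {s : A} (hs : s ∈ D m) (hs0 : s ≠ 0) :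
    t = 9 ∧ ∑ k ∈ Finset.Icc 1 6, Module.finrank F (E k) ≤ 9 ∧
      (∀ k, 1 ≤ k → k ≤ 6 → E k = D (60 * k)) ∧ Module.finrank F (D m) = 1 ∧
      ∀ d, 1 ≤ d → ¬ 60 ∣ d → d ≠ w → d ≠ m → ∀ a ∈ D d, a = 0 := by
  have hfin := h.gf.fin
  have hlo := h.lo
  have hhi := h.hi
  have f1 := FCaseA2_pos h h.zm h.z0
  have f2 := FCaseA2_pos h hs hs0
  obtain ⟨hd, hE⟩ := h.dims {w, m} (by
    intro s hs
    simp only [Finset.mem_insert, Finset.mem_singleton] at hs
    rcases hs with rfl | rfl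
    · exact ⟨by omega, by omega⟩
    · exact ⟨hm, hm60⟩)
  have hl := h.Elow
  have ht9 := h.t9
  have g1 := hE 1 (by omega)
  have g2 := hE 2 (by omega)
  have g3 := hE 3 (by omega)
  have g4 := hE 4 (by omega)
  have g5 := hE 5 (by omega)
  have g6 := hE 6 (by omega)
  rw [FCaseA2_Icc, Finset.sum_pair (fun h => hmw h.symm)] at hd
  rw [FCaseA2_Icc] at hl ⊢
  refine ⟨by omega, by omega, ?_, by omega, ?_⟩
  · intro k hk1 hk6
    refine Submodule.eq_of_le_of_finrank_eq (h.Ele k hk1) ?_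
    interval_cases k <;> omega
  · intro d hd1 hd60 hdw hdm a ha
    by_contra ha0
    have f3 := FCaseA2_pos h ha ha0
    obtain ⟨hd', -⟩ := h.dims {w, m, d} (by
      intro s hs
      simp only [Finset.mem_insert, Finset.mem_singleton] at hs
      rcases hs with rfl | rfl | rfl
      · exact ⟨by omega, by omega⟩
      · exact ⟨hm, hm60⟩
      · exact ⟨hd1, hd60⟩)
    rw [FCaseA2_Icc, Finset.sum_insert (by
      simp only [Finset.mem_insert, Finset.mem_singleton, not_or]
      exact ⟨fun h => hmw h.symm, fun h => hdw h.symm⟩), Finset.sum_pair (fun h => hdm h.symm)] at hd'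
    omega

theorem FZ.caseA2 (h : FZ F A D E x y z w t) (hx : x * z = 0) (hy : y * z = 0)
    (hz : (x * x) * z ≠ 0 ∨ (x * y) * z ≠ 0 ∨ (y * y) * z ≠ 0) : False := by
  have hfin := h.gf.fin
  have hlo := h.lo
  have hhi := h.hi
  have h2 := h.gf.two
  have hJ := h.gf.jordan
  obtain ⟨hxE, hyE, hxx, hxy, hyy⟩ := FCaseA2_EV h
  have hE1D : ∀ v ∈ E 1, v ∈ D 60 := fun v hv => h.Ele 1 (by omega) hv
  have hE2D : ∀ b ∈ E 2, b ∈ D 120 := fun b hb => h.Ele 2 (by omega) hb
  have hzv : ∀ v ∈ E 1, z * v = 0 := by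
    intro v hv
    rw [h.E1, Submodule.mem_span_pair] at hv
    obtain ⟨a, b, rfl⟩ := hv
    rw [mul_comm, add_mul, smul_mul_assoc, smul_mul_assoc, hx, hy, smul_zero, smul_zero, add_zero]
  obtain ⟨b0, hb0, hb0z⟩ : ∃ b ∈ E 2, b * z ≠ 0 := by
    rcases hz with hz | hz | hz
    · exact ⟨_, hxx, hz⟩
    · exact ⟨_, hxy, hz⟩
    · exact ⟨_, hyy, hz⟩
  obtain ⟨ht, hS, hDE, hone, hbot⟩ := FCaseA2_count h (m := 120 + w) (by omega) (by omega)
    (by omega) (h.gf.mul_mem 120 w (by omega) (by omega) b0 (hE2D b0 hb0) z h.zm) hb0z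
  obtain ⟨hG, q, β, hQ⟩ := h.GJ_FQ ht hS
  have hτ0 : z * q ≠ 0 := by
    intro h0
    obtain ⟨r, hr⟩ := hQ.E2 b0 hb0
    apply hb0z
    rw [hr, smul_mul_assoc, mul_comm q z, h0, smul_zero]
  have hτm : z * q ∈ D (120 + w) := by
    rw [mul_comm]
    exact h.gf.mul_mem 120 w (by omega) (by omega) q (hE2D q hQ.qm) z h.zm
  have hvτ : ∀ v ∈ E 1, v * (z * q) = 0 := fun v hv =>
    hbot (60 + (120 + w)) (by omega) (by omega) (by omega) (by omega) _
      (h.gf.mul_mem 60 (120 + w) (by omega) (by omega) v (hE1D v hv) _ hτm)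
  have hbτ : ∀ b ∈ E 2, b * (z * q) = 0 := fun b hb =>
    hbot (120 + (120 + w)) (by omega) (by omega) (by omega) (by omega) _
      (h.gf.mul_mem 120 (120 + w) (by omega) (by omega) b (hE2D b hb) _ hτm)
  have hzzm := h.gf.mul_mem w w (by omega) (by omega) z h.zm z h.zm
  have hzτm := h.gf.mul_mem w (120 + w) (by omega) (by omega) z h.zm _ hτm
  have hfinal : z * (z * q) = 0 → (z * z) * (z * q) = 0 → False := by
    intro h1 h3
    refine hτ0 (h.kill (120 + w) (by omega) (by omega) _ hτm (hvτ x hxE) (hvτ y hyE) h1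
      (hbτ _ hxx) (hbτ _ hxy) (hbτ _ hyy) ?_ ?_ h3)
    · rw [hx, zero_mul]
    · rw [hy, zero_mul]
  by_cases hw : w = 90
  · subst hw
    have hzzE : z * z ∈ E 3 := by
      rw [hDE 3 (by omega) (by omega)]
      exact hzzm
    have hzτE : z * (z * q) ∈ E 5 := by
      rw [hDE 5 (by omega) (by omega)]
      exact hzτm
    obtain ⟨v0, hv0, hzz⟩ := hQ.E3 _ hzzE
    obtain ⟨z0, hz0, hzτ⟩ := hQ.E5 _ hzτE
    have hzzτ : (z * z) * (z * q) = 0 :=
      h.gf.above _ (by omega) _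
        (h.gf.mul_mem (90 + 90) (120 + 90) (by omega) (by omega) _ hzzm _ hτm)
    have hrel : ∀ v ∈ E 1, ∀ v' ∈ E 1, β v v' • z0 = β v v0 • v' := by
      intro v hv v' hv'
      have e := gder F h2 hJ z v z v'
      have e3 : v * (z * z) = β v v0 • (q * q) := by
        rw [hzz, mul_comm v0 q, hQ.comm v hv v0, hQ.mulV v hv v0 hv0, mul_smul_comm]
      rw [mul_comm v z, hzv v hv, hzv v' hv', e3, hQ.mulV v hv v' hv', mul_smul_comm] at e
      simp only [mul_zero, sub_self, zero_sub, sub_zero, neg_mul, smul_mul_assoc, mul_smul_comm,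
        hzτ] at e
      have h3 : β v v' • z0 - β v v0 • v' = 0 := by
        apply hQ.inj5
        · exact Submodule.sub_mem _ (Submodule.smul_mem _ _ hz0) (Submodule.smul_mem _ _ hv')
        · rw [sub_mul, smul_mul_assoc, smul_mul_assoc, mul_comm v' (q * q), e]
          abel
      exact sub_eq_zero.mp h3
    have hx0 : x ≠ 0 := by
      rintro rfl
      have := (FCaseA2_ind h (a := 1) (b := 0) (by simp)).1
      exact one_ne_zero this
    have hz00 : z0 = 0 := by
      by_contra hne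
      have hb0 : ∀ v ∈ E 1, β v v0 = 0 := by
        intro v hv
        by_contra hb
        have r1 := hrel v hv x hxE
        have r2 := hrel v hv y hyE
        have r3 : (β v y * β v v0) • x + (-(β v x * β v v0)) • y = 0 := by
          rw [neg_smul, mul_smul, mul_smul, ← r1, ← r2, smul_smul, smul_smul, mul_comm (β v y)]
          abel
        obtain ⟨r4, r5⟩ := FCaseA2_ind h r3
        rw [neg_eq_zero] at r5
        have r6 : β v x = 0 := by
          rcases mul_eq_zero.mp r5 with h' | h'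
          · exact h'
          · exact absurd h' hb
        rw [r6, zero_smul] at r1
        rcases smul_eq_zero.mp r1.symm with h' | h'
        · exact hb h'
        · exact hx0 h'
      apply hx0
      apply hQ.nd x hxE
      intro v' hv'
      have r := hrel x hxE v' hv'
      rw [hb0 x hxE, zero_smul] at r
      rcases smul_eq_zero.mp r with h' | h'
      · exact h'
      · exact absurd h' hne
    refine hfinal ?_ hzzτ
    rw [hzτ, hz00, zero_mul]
  · have hzz : z * z = 0 := hbot (w + w) (by omega) (by omega) (by omega) (by omega) _ hzzm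
    have hzτ : z * (z * q) = 0 :=
      hbot (w + (120 + w)) (by omega) (by omega) (by omega) (by omega) _ hzτm
    refine hfinal hzτ ?_
    rw [hzz, zero_mul]

end JD
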