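import Pool.Agent.H74.JD.FQ

set_option autoImplicit false
set_option linter.unusedSectionVars false

/-!
# JD FCaseB: case `z V ≠ 0` (helper74)

`v, v' ∈ V = E 1`; `60 ∤ w`, `60 ∤ w + 60`, and `60 ∣ 2 w` iff `w = 90`. `D_(w+60) ≠ 0` (it contains `x z` and `y z`), `D_w ≠ 0`.
COUNT (`FZ.dims` with `T = {w, w + 60}`): `∑ finrank (D (60 k)) + finrank (D w) + finrank (D (w+60)) ≤ 11`, `∑ finrank (E k) ≥ t ≥ 9`: so `t = 9`, `∑ finrank (E k) = 9`, `D (60 k) = E k` (`k = 1..6`),
`finrank (D w) = finrank (D (w+60)) = 1`, and (`T = {w, w + 60, d}`) `D d = ⊥` for all other `d ≥ 1` not divisible by 60; `D d = 0` for `d > 360`. `FZ.GJ_FQ` gives `q, β`. Let `s ∈ D (w+60)` be a basis: `z v = ζ(v) • s`, `ζ` linear (`exists_coord`), `ζ ≠ 0` on `V`.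
`v s ∈ D (w+120) = 0`, `q z ∈ D (w+120) = 0`, `q s ∈ D (w+180) = 0`; so `h s = 0` for `h ∈ E 1, E 2`.
* `w ≠ 90`: `z z ∈ D (2w) = 0` (`2w ≠ w + 60`), `z s ∈ D (2w+60) = 0`, `s s ∈ D (2w+120) = 0`. `FZ.kill (w+60) s`: `s = 0`, contradiction.
* `w = 90`: `z z ∈ D 180 = E 3`: `z z = v0 q`; `z s ∈ D 240 = E 4`: `z s = c • q q`. Derivation `δ_v(h) = z (v h) - v (z h)` (`gder`).
  `δ_v(v') = β(v,v') • z q - ζ(v') • v s = 0`. `δ_v(z) = z (v z) - v (z z) = ζ(v) • z s - v (v0 q) = (ζ(v) c - β(v,v0)) • q q` (`v (v0 q) = v (q v0) = q (v v0) = β(v,v0) q q`). `δ_v(s) = z (v s) - v (z s) = - c • v (q q)`.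
  `δ_v(z v') = ζ(v') δ_v(s) = - c ζ(v') • v (q q)` and `= δ_v(z) v' + z δ_v(v') = (ζ(v) c - β(v,v0)) • v' (q q)`. By `inj5` (linear combination of `v, v'` in `V`): `(ζ(v) c - β(v,v0)) v' + c ζ(v') v = 0` for all `v, v' ∈ V`.
  Take `v' ≠ 0` in `V` with `ζ(v') = 0` (`dim V = 2`): `ζ(v) c = β(v,v0)` for all `v`. Then `c ζ(v') v = 0`: `c = 0`. So `β(v,v0) = 0` for all `v`, `v0 = 0` (`nd`; `β` is symmetric on `V` as `v v' = v' v`, `q ≠ 0` by `inj3`). So `z z = 0`, `z s = 0`.
  `gJ3 z z v v`: `(z z)(v v) + 2 (z v)(z v) = v ((z z) v) + 2 z ((z v) v)`, so `2 ζ(v)² s s = 2 ζ(v) z (s v) = 0`: `s s = 0`. `FZ.kill 150 s`: `s = 0`, contradiction.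
-/

namespace JD

universe u

variable {F : Type u} [Field F] {A : Type u} [NonUnitalNonAssocCommRing A] [Module F A]
  [IsScalarTower F A A] [SMulCommClass F A A] {D E : ℕ → Submodule F A} {x y z : A} {w t : ℕ}

private theorem FCaseB_Icc (f : ℕ → ℕ) :
    ∑ k ∈ Finset.Icc 1 6, f k = f 1 + f 2 + f 3 + f 4 + f 5 + f 6 := by
  have : Finset.Icc 1 6 = ({1, 2, 3, 4, 5, 6} : Finset ℕ) := by decide
  rw [this]
  simp [Finset.sum_insert]
  ring

private theorem FCaseB_pos (h : FZ F A D E x y z w t) {s : ℕ} {a : A} (ha : a ∈ D s)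
    (h0 : a ≠ 0) : 1 ≤ Module.finrank F (D s) := by
  have := h.gf.fin
  rw [Nat.one_le_iff_ne_zero]
  intro hf
  have hb : D s = ⊥ := Submodule.finrank_eq_zero.mp hf
  rw [hb, Submodule.mem_bot] at ha
  exact h0 ha

private theorem FCaseB_EV (h : FZ F A D E x y z w t) :
    x ∈ E 1 ∧ y ∈ E 1 ∧ x * x ∈ E 2 ∧ x * y ∈ E 2 ∧ y * y ∈ E 2 := by
  refine ⟨?_, ?_, ?_, ?_, ?_⟩
  · rw [h.E1]; exact Submodule.subset_span (by simp)
  · rw [h.E1]; exact Submodule.subset_span (by simp)
  · rw [h.E2]; exact Submodule.subset_span (by simp)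
  · rw [h.E2]; exact Submodule.subset_span (by simp)
  · rw [h.E2]; exact Submodule.subset_span (by simp)

private theorem FCaseB_ind (h : FZ F A D E x y z w t) {a b : F} (hab : a • x + b • y = 0) :
    a = 0 ∧ b = 0 := by
  have hfin := h.gf.fin
  have hd := h.E1d
  rw [h.E1] at hd
  have hr : Set.range ![x, y] = {x, y} := by
    ext u
    simp only [Matrix.range_cons, Matrix.range_empty, Set.union_empty, Set.mem_union,
      Set.mem_singleton_iff, Set.mem_insert_iff]
  have hli : LinearIndependent F ![x, y] := by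
    rw [linearIndependent_iff_card_eq_finrank_span, hr]
    simpa [Set.finrank] using hd.symm
  rw [LinearIndependent.pair_iff] at hli
  exact hli a b hab

private theorem FCaseB_count (h : FZ F A D E x y z w t) {m : ℕ} (hm : 1 ≤ m) (hm60 : ¬ 60 ∣ m)
    (hmw : m ≠ w) {s : A} (hs : s ∈ D m) (hs0 : s ≠ 0) :
    t = 9 ∧ ∑ k ∈ Finset.Icc 1 6, Module.finrank F (E k) ≤ 9 ∧
      (∀ k, 1 ≤ k → k ≤ 6 → E k = D (60 * k)) ∧ Module.finrank F (D m) = 1 ∧
      ∀ d, 1 ≤ d → ¬ 60 ∣ d → d ≠ w → d ≠ m → ∀ a ∈ D d, a = 0 := by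
  have hfin := h.gf.fin
  have hlo := h.lo
  have hhi := h.hi
  have f1 := FCaseB_pos h h.zm h.z0
  have f2 := FCaseB_pos h hs hs0
  obtain ⟨hd, hE⟩ := h.dims {w, m} (by
    intro s hs
    simp only [Finset.mem_insert, Finset.mem_singleton] at hs
    rcases hs with rfl | rfl
    · exact ⟨by omega, by omega⟩
    · exact ⟨hm, hm60⟩)
  have hl := h.Elow
  have ht9 := h.t9
  have g1 := hE 1 (by omega)
  have g2 := hE 2 (by omega)
  have g3 := hE 3 (by omega)
  have g4 := hE 4 (by omega)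
  have g5 := hE 5 (by omega)
  have g6 := hE 6 (by omega)
  rw [FCaseB_Icc, Finset.sum_pair (fun h => hmw h.symm)] at hd
  rw [FCaseB_Icc] at hl ⊢
  refine ⟨by omega, by omega, ?_, by omega, ?_⟩
  · intro k hk1 hk6
    refine Submodule.eq_of_le_of_finrank_eq (h.Ele k hk1) ?_
    interval_cases k <;> omega
  · intro d hd1 hd60 hdw hdm a ha
    by_contra ha0
    have f3 := FCaseB_pos h ha ha0
    obtain ⟨hd', -⟩ := h.dims {w, m, d} (by
      intro s hs
      simp only [Finset.mem_insert, Finset.mem_singleton] at hs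
      rcases hs with rfl | rfl | rfl
      · exact ⟨by omega, by omega⟩
      · exact ⟨hm, hm60⟩
      · exact ⟨hd1, hd60⟩)
    rw [FCaseB_Icc, Finset.sum_insert (by
      simp only [Finset.mem_insert, Finset.mem_singleton, not_or]
      exact ⟨fun h => hmw h.symm, fun h => hdw h.symm⟩), Finset.sum_pair (fun h => hdm h.symm)] at hd'
    omega

theorem FZ.caseB (h : FZ F A D E x y z w t) (hz : x * z ≠ 0 ∨ y * z ≠ 0) : False := by
  have hfin := h.gf.fin
  have hlo := h.lo
  have hhi := h.hi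
  have h2 := h.gf.two
  have hJ := h.gf.jordan
  obtain ⟨hxE, hyE, hxx, hxy, hyy⟩ := FCaseB_EV h
  -- a nonzero element of `D (w + 60)`
  obtain ⟨s', hs', hs0'⟩ : ∃ s ∈ D (60 + w), s ≠ 0 := by
    rcases hz with hz | hz
    · exact ⟨x * z, h.gf.mul_mem 60 w (by omega) (by omega) x h.xm z h.zm, hz⟩
    · exact ⟨y * z, h.gf.mul_mem 60 w (by omega) (by omega) y h.ym z h.zm, hz⟩
  obtain ⟨ht, hS, hDE, hone, hbot⟩ := FCaseB_count h (m := 60 + w) (by omega) (by omega)
    (by omega) hs' hs0'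
  obtain ⟨hG, q, β, hQ⟩ := h.GJ_FQ ht hS
  obtain ⟨s, hs, hs0, φ, -, hφ⟩ := exists_coord hone
  have hE1D : ∀ v ∈ E 1, v ∈ D 60 := fun v hv => h.Ele 1 (by omega) hv
  have hE2D : ∀ b ∈ E 2, b ∈ D 120 := fun b hb => h.Ele 2 (by omega) hb
  have hzv : ∀ v ∈ E 1, z * v = φ (z * v) • s := by
    intro v hv
    apply hφ
    rw [mul_comm]
    exact h.gf.mul_mem 60 w (by omega) (by omega) v (hE1D v hv) z h.zm
  have hvs : ∀ v ∈ E 1, v * s = 0 := fun v hv =>
    hbot (60 + (60 + w)) (by omega) (by omega) (by omega) (by omega) _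
      (h.gf.mul_mem 60 (60 + w) (by omega) (by omega) v (hE1D v hv) s hs)
  have hbs : ∀ b ∈ E 2, b * s = 0 := fun b hb =>
    hbot (120 + (60 + w)) (by omega) (by omega) (by omega) (by omega) _
      (h.gf.mul_mem 120 (60 + w) (by omega) (by omega) b (hE2D b hb) s hs)
  have hbz : ∀ b ∈ E 2, b * z = 0 := fun b hb =>
    hbot (120 + w) (by omega) (by omega) (by omega) (by omega) _
      (h.gf.mul_mem 120 w (by omega) (by omega) b (hE2D b hb) z h.zm)
  have hzzm := h.gf.mul_mem w w (by omega) (by omega) z h.zm z h.zm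
  have hzsm := h.gf.mul_mem w (60 + w) (by omega) (by omega) z h.zm s hs
  have hfinal : z * z = 0 → z * s = 0 → s * s = 0 → False := by
    intro h1 h2 h3
    refine hs0 (h.kill (60 + w) (by omega) (by omega) s hs (hvs x hxE) (hvs y hyE) h2
      (hbs _ hxx) (hbs _ hxy) (hbs _ hyy) ?_ ?_ ?_)
    · rw [mul_comm x z, hzv x hxE, smul_mul_assoc, h3, smul_zero]
    · rw [mul_comm y z, hzv y hyE, smul_mul_assoc, h3, smul_zero]
    · rw [h1, zero_mul]
  by_cases hw : w = 90
  · subst hw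
    have hzzE : z * z ∈ E 3 := by
      rw [hDE 3 (by omega) (by omega)]
      exact hzzm
    have hzsE : z * s ∈ E 4 := by
      rw [hDE 4 (by omega) (by omega)]
      exact hzsm
    obtain ⟨v0, hv0, hzz⟩ := hQ.E3 _ hzzE
    obtain ⟨c, hzs⟩ := hQ.E4 _ hzsE
    have hqz : z * q = 0 := by rw [mul_comm]; exact hbz q hQ.qm
    -- the relation
    have hrel : ∀ v ∈ E 1, ∀ v' ∈ E 1,
        (φ (z * v) * c - β v v0) • v' + (c * φ (z * v')) • v = 0 := by
      intro v hv v' hv'
      have e := gder F h2 hJ z v z v'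
      have e1 : z * (v * v') = 0 := by rw [hQ.mulV v hv v' hv', mul_smul_comm, hqz, smul_zero]
      have e2 : v * (z * v') = 0 := by rw [hzv v' hv', mul_smul_comm, hvs v hv, smul_zero]
      have e3 : v * (z * z) = β v v0 • (q * q) := by
        rw [hzz, mul_comm v0 q, hQ.comm v hv v0, hQ.mulV v hv v0 hv0, mul_smul_comm]
      have e4 : z * (v * z) = (φ (z * v) * c) • (q * q) := by
        rw [mul_comm v z]
        conv_lhs => rw [hzv v hv]
        rw [mul_smul_comm, hzs, smul_smul]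
      have e5 : z * (z * v') = (φ (z * v') * c) • (q * q) := by
        conv_lhs => rw [hzv v' hv']
        rw [mul_smul_comm, hzs, smul_smul]
      rw [e2, e1, e3, e4, e5] at e
      apply hQ.inj5
      · exact Submodule.add_mem _ (Submodule.smul_mem _ _ hv') (Submodule.smul_mem _ _ hv)
      · rw [add_mul, smul_mul_assoc, smul_mul_assoc]
        rw [mul_zero, sub_self, mul_zero, add_zero, mul_smul_comm, ← sub_smul, smul_mul_assoc,
          mul_comm (q * q) v', zero_sub] at e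
        rw [← e, mul_comm c]
        simp
    -- `v' ≠ 0` with `ζ v' = 0`
    have hc1 : ∀ v ∈ E 1, φ (z * v) * c - β v v0 = 0 := by
      intro v hv
      have hv'm : φ (z * y) • x + (-φ (z * x)) • y ∈ E 1 :=
        Submodule.add_mem _ (Submodule.smul_mem _ _ hxE) (Submodule.smul_mem _ _ hyE)
      have hv'0 : φ (z * y) • x + (-φ (z * x)) • y ≠ 0 := by
        intro h0
        obtain ⟨h3, h4⟩ := FCaseB_ind h h0
        rw [neg_eq_zero] at h4
        rcases hz with hz | hz
        · apply hz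
          rw [mul_comm, hzv x hxE, h4, zero_smul]
        · apply hz
          rw [mul_comm, hzv y hyE, h3, zero_smul]
      have hr := hrel v hv _ hv'm
      have hζ : φ (z * (φ (z * y) • x + (-φ (z * x)) • y)) = 0 := by
        rw [mul_add, mul_smul_comm, mul_smul_comm, map_add, map_smul, map_smul, smul_eq_mul,
          smul_eq_mul]
        ring
      rw [hζ, mul_zero, zero_smul, add_zero] at hr
      rcases smul_eq_zero.mp hr with h' | h'
      · exact h'
      · exact absurd h' hv'0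
    -- a vector with `ζ v ≠ 0`
    obtain ⟨v1, hv1, hζ1⟩ : ∃ v ∈ E 1, φ (z * v) ≠ 0 := by
      rcases hz with hz | hz
      · refine ⟨x, hxE, fun h0 => hz ?_⟩
        rw [mul_comm, hzv x hxE, h0, zero_smul]
      · refine ⟨y, hyE, fun h0 => hz ?_⟩
        rw [mul_comm, hzv y hyE, h0, zero_smul]
    have hv10 : v1 ≠ 0 := by
      rintro rfl
      apply hζ1
      rw [mul_zero, map_zero]
    have hc : c = 0 := by
      have hr := hrel v1 hv1 v1 hv1
      rw [hc1 v1 hv1, zero_smul, zero_add] at hr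
      rcases smul_eq_zero.mp hr with h' | h'
      · rcases mul_eq_zero.mp h' with h'' | h''
        · exact h''
        · exact absurd h'' hζ1
      · exact absurd h' hv10
    have hq0 : q ≠ 0 := by
      intro h0
      apply hv10
      apply hQ.inj3 v1 hv1
      rw [h0, mul_zero]
    have hv00 : v0 = 0 := by
      apply hQ.nd v0 hv0
      intro v' hv'
      have h3 := hc1 v' hv'
      rw [hc, mul_zero, zero_sub, neg_eq_zero] at h3
      have h4 := hQ.mulV v0 hv0 v' hv'
      rw [mul_comm, hQ.mulV v' hv' v0 hv0, h3, zero_smul] at h4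
      rcases smul_eq_zero.mp h4.symm with h' | h'
      · exact h'
      · exact absurd h' hq0
    have hzz0 : z * z = 0 := by rw [hzz, hv00, zero_mul]
    have hzs0 : z * s = 0 := by rw [hzs, hc, zero_smul]
    refine hfinal hzz0 hzs0 ?_
    have e := gJ3 F h2 hJ z z v1 v1
    rw [mul_comm v1 z, hzz0, hzv v1 hv1] at e
    simp only [zero_mul, mul_zero, zero_add, smul_mul_assoc, mul_smul_comm, mul_comm s v1,
      hvs v1 hv1, smul_zero, add_zero] at e
    rw [smul_smul, ← two_smul F, smul_smul] at e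
    rcases smul_eq_zero.mp e with h' | h'
    · exact absurd h' (mul_ne_zero h2 (mul_ne_zero hζ1 hζ1))
    · exact h'
  · have hzz : z * z = 0 := hbot (w + w) (by omega) (by omega) (by omega) (by omega) _ hzzm
    have hzs : z * s = 0 :=
      hbot (w + (60 + w)) (by omega) (by omega) (by omega) (by omega) _ hzsm
    have hss : s * s = 0 :=
      hbot ((60 + w) + (60 + w)) (by omega) (by omega) (by omega) (by omega) _
        (h.gf.mul_mem (60 + w) (60 + w) (by omega) (by omega) s hs s hs)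
    exact hfinal hzz hzs hss

end JD
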