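import Pool.Agent.H9.JH.H6
import Pool.Agent.H9.JH.GrFilt

set_option autoImplicit false
set_option linter.unusedSectionVars false

/-!
# JD FDefs: two essential letters, the situation at a stage `(60, 60, w)` (helper74)

`FZ F A D E x y z w t`: `A` is the graded cocyclic quotient for the weights `(60, 60, w)`, `61 ≤ w ≤ 119`, top weight `360`; `E k` is the part of weight
`60 k` generated by `x, y`; `z ≠ 0` is the image of the third letter; total dimension at most 11; `t ≥ 9` is a lower bound for `∑ dim E k`; if `∑ dim E k ≤ t`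
then `E` is a `GJ`.

`FQ F A E q β`: the structure of `E` when `dim E 2 = 1` (first alternative of `H6_two`).
-/

namespace JD

universe u

/-- a stage `(60, 60, w)` with nonzero third letter -/
structure FZ (F : Type u) [Field F] (A : Type u) [NonUnitalNonAssocCommRing A] [Module F A]
    [IsScalarTower F A A] [SMulCommClass F A A] (D E : ℕ → Submodule F A) (x y z : A)
    (w t : ℕ) : Prop where
  gf : GF F A 360 D
  lo : 61 ≤ w
  hi : w ≤ 119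
  xm : x ∈ D 60
  ym : y ∈ D 60
  zm : z ∈ D w
  z0 : z ≠ 0
  E1 : E 1 = Submodule.span F {x, y}
  E1d : Module.finrank F (E 1) = 2
  E2 : E 2 = Submodule.span F {x * x, x * y, y * y}
  E6d : Module.finrank F (E 6) = 1
  Emul : ∀ i j, 1 ≤ i → 1 ≤ j → ∀ a ∈ E i, ∀ b ∈ E j, a * b ∈ E (i + j)
  Ele : ∀ k, 1 ≤ k → E k ≤ D (60 * k)
  Egen : ∀ n, 3 ≤ n → ∀ T : Submodule F A, (∀ v ∈ E 1, ∀ h ∈ E (n - 1), v * h ∈ T) →
    (∀ q ∈ E 2, ∀ h ∈ E (n - 2), q * h ∈ T) → E n ≤ T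
  /-- an element killed by `E 1` and `E 2` is killed by all `E k` -/
  Ekill : ∀ h : A, x * h = 0 → y * h = 0 → (x * x) * h = 0 → (x * y) * h = 0 →
    (y * y) * h = 0 → ∀ k, 1 ≤ k → ∀ b ∈ E k, b * h = 0
  kill : ∀ s, 1 ≤ s → s < 360 → ∀ h ∈ D s, x * h = 0 → y * h = 0 → z * h = 0 →
    (x * x) * h = 0 → (x * y) * h = 0 → (y * y) * h = 0 → (x * z) * h = 0 → (y * z) * h = 0 →
    (z * z) * h = 0 → h = 0
  dim : ∀ T : Finset ℕ, (∀ s ∈ T, 1 ≤ s) → ∑ s ∈ T, Module.finrank F (D s) ≤ 11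
  t9 : 9 ≤ t
  Elow : t ≤ ∑ k ∈ Finset.Icc 1 6, Module.finrank F (E k)
  Egj : ∑ k ∈ Finset.Icc 1 6, Module.finrank F (E k) ≤ t → GJ F A 6 E

/-- the structure of `E` when `dim E 2 = 1` -/
structure FQ (F : Type u) [Field F] (A : Type u) [NonUnitalNonAssocCommRing A] [Module F A]
    [IsScalarTower F A A] [SMulCommClass F A A] (E : ℕ → Submodule F A) (q : A)
    (β : A →ₗ[F] A →ₗ[F] F) : Prop where
  two : (2 : F) ≠ 0
  jordan : IsJordan A
  E1d : Module.finrank F (E 1) = 2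
  qm : q ∈ E 2
  mulV : ∀ v ∈ E 1, ∀ v' ∈ E 1, v * v' = β v v' • q
  comm : ∀ v ∈ E 1, ∀ b : A, v * (q * b) = q * (v * b)
  E2 : ∀ h ∈ E 2, ∃ r : F, h = r • q
  E3 : ∀ h ∈ E 3, ∃ v ∈ E 1, h = v * q
  E4 : ∀ h ∈ E 4, ∃ r : F, h = r • (q * q)
  E5 : ∀ h ∈ E 5, ∃ v ∈ E 1, h = v * (q * q)
  inj3 : ∀ v ∈ E 1, v * q = 0 → v = 0
  inj5 : ∀ v ∈ E 1, v * (q * q) = 0 → v = 0
  nd : ∀ v ∈ E 1, (∀ v' ∈ E 1, β v v' = 0) → v = 0

end JD
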