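import Pool.Agent.H74.JD.TransA

set_option autoImplicit false
set_option linter.unusedSectionVars false

/-!
# JD Trans: the part of `A'` generated by the letters `0, 1` (helper74)

* `FB`: `E k = (pw F S (fun _ => 1) k).map (π' (60 k))`. `mul_mem`: `pw_mul` and `G'.mul`. `above`: words of length `> 6` vanish (weight `> 360`). `gen2`, `gen`: every `gS` of a word in `0, 1` of length `n ≥ 2`
  is in `T` by `SSys.gen_le` (for `G'.sys h'`, `L i = (i ≠ 2)`; note that `gS S a' π' w ∈ E |w|` for such `w`, of weight `60 |w|`). `nd`: `g ∈ pw k` with `v * π' g = 0`, `q * π' g = 0` for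
  `v ∈ E 1, q ∈ E 2`: by `transfer` `π 1 p * π k g = π (k+1) (p g) = 0` for `p ∈ pw 1` etc., so `π k g = 0` by `GJ.nd` of `A` (`D_eq_pw`), so `π' (60 k) g = 0` by `transfer_inj`.
  `top`: `E 6` has the dimension of `D 6` (`transfer_rank` and `hd`). `two, inf, jordan, fin` from `G'.gf`.
-/

namespace JD

universe u

variable {F : Type u} [Field F] {J : Type u} [NonUnitalNonAssocCommRing J] [Module F J]
  [IsScalarTower F J J] [SMulCommClass F J J] {x x' : Fin 3 → J} {S S' : List (Fin 3) → J}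
  {a a' : Fin 3 → ℕ} {N N' m : ℕ} {e : J}
  {A : Type u} [NonUnitalNonAssocCommRing A] [Module F A] [IsScalarTower F A A]
  [SMulCommClass F A A] {D : ℕ → Submodule F A} {π : ℕ → J →ₗ[F] A}
  {A' : Type u} [NonUnitalNonAssocCommRing A'] [Module F A'] [IsScalarTower F A' A']
  [SMulCommClass F A' A'] {D' : ℕ → Submodule F A'} {π' : ℕ → J →ₗ[F] A'}

private theorem Trans_one (w : List (Fin 3)) : wt (fun _ => 1) w = w.length := by
  simp [wt]

private theorem Trans_wt (T : Two F x x' S S' (fun _ => 1) a' 6 N' m e A D π A' D' π')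
    (w : List (Fin 3)) (hw : ∀ i ∈ w, i ≠ 2) : wt a' w = m * w.length := by
  have h0 : w.count 2 = 0 := List.count_eq_zero.mpr fun h => hw 2 h rfl
  obtain ⟨h1, h2⟩ := wt_cnt a' w
  have a0 : a' 0 = m := by simpa using T.a0
  have a1 : a' 1 = m := by simpa using T.a1
  rw [h1, h2, h0, a0, a1]
  ring

private theorem Trans_gS (T : Two F x x' S S' (fun _ => 1) a' 6 N' m e A D π A' D' π')
    (w : List (Fin 3)) (hw : ∀ i ∈ w, i ≠ 2) {n : ℕ} (hn : w.length = n) :
    gS S' a' π' w ∈ (pw F S (fun _ => 1) n).map (π' (m * n)) := by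
  unfold gS
  rw [Trans_wt T w hw, T.SS w hw, hn]
  refine Submodule.mem_map_of_mem (Submodule.subset_span ⟨w, ⟨hw, ?_⟩, rfl⟩)
  rw [Trans_one, hn]

private theorem Trans_le (T : Two F x x' S S' (fun _ => 1) a' 6 N' m e A D π A' D' π')
    (n : ℕ) (P : Submodule F A')
    (h : ∀ w : List (Fin 3), (∀ i ∈ w, i ≠ 2) → w.length = n → gS S' a' π' w ∈ P) :
    (pw F S (fun _ => 1) n).map (π' (m * n)) ≤ P := by
  rw [pw, Submodule.map_span, Submodule.span_le]
  rintro _ ⟨_, ⟨w, ⟨hw, hl⟩, rfl⟩, rfl⟩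
  rw [Trans_one] at hl
  have := h w hw hl
  unfold gS at this
  rwa [Trans_wt T w hw, T.SS w hw, hl] at this

private theorem Trans_mem' (T : Two F x x' S S' (fun _ => 1) a' 6 N' m e A D π A' D' π')
    {n : ℕ} {p : J} (hp : p ∈ pw F S (fun _ => 1) n) : p ∈ wfil F S' a' (m * n) := by
  rw [← pw_eq T n] at hp
  exact pw_le hp

private theorem Trans_mul (T : Two F x x' S S' (fun _ => 1) a' 6 N' m e A D π A' D' π')
    {i j : ℕ} (hi : 1 ≤ i) (hj : 1 ≤ j) {p q : J} (hp : p ∈ pw F S (fun _ => 1) i)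
    (hq : q ∈ pw F S (fun _ => 1) j) :
    π' (m * (i + j)) (p * q) = π' (m * i) p * π' (m * j) q := by
  rw [mul_add]
  have := T.hm
  exact T.G'.mul (m * i) (m * j) (by nlinarith) (by nlinarith) p (Trans_mem' T hp) q
    (Trans_mem' T hq)

private theorem Trans_kill (T : Two F x x' S S' (fun _ => 1) a' 6 N' m e A D π A' D' π')
    {i j : ℕ} (hi : 1 ≤ i) (hj : 1 ≤ j) {g : J} (hg : g ∈ pw F S (fun _ => 1) j)
    (h : ∀ v ∈ (pw F S (fun _ => 1) i).map (π' (m * i)), v * π' (m * j) g = 0) :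
    ∀ v ∈ D i, v * π j g = 0 := by
  intro v hv
  have hv' : v ∈ (pw F S (fun _ => 1) i).map (π i) := by
    have := D_eq_pw T.st T.G T.z0 hi
    rw [← this]
    exact hv
  obtain ⟨p, hp, rfl⟩ := hv'
  have h1 := T.G.mul i j hi hj p (pw_le hp) g (pw_le hg)
  rw [← h1]
  refine transfer T (s := i + j) (by omega) (pw_mul T.G.gf.two T.st.sys hp hg) ?_
  rw [Trans_mul T hi hj hp hg]
  exact h _ (Submodule.mem_map_of_mem hp)

/-- the part of `A'` generated by the letters `0, 1` is a `GJ` if its layers are not too large -/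
theorem FB [Module.Finite F J]
    (T : Two F x x' S S' (fun _ => 1) a' 6 N' m e A D π A' D' π') (hG : GJ F A 6 D)
    (hd : ∀ k, 1 ≤ k → k ≤ 6 →
      Module.finrank F ((pw F S (fun _ => 1) k).map (π' (m * k))) ≤ Module.finrank F (D k)) :
    GJ F A' 6 (fun k => (pw F S (fun _ => 1) k).map (π' (m * k))) := by
  refine ⟨T.G'.gf.two, T.G'.gf.inf, T.G'.gf.jordan, T.G'.gf.fin, ?_, ?_, ?_, ?_, ?_, ?_⟩
  · rintro i j hi hj _ ⟨p, hp, rfl⟩ _ ⟨q, hq, rfl⟩
    rw [← Trans_mul T hi hj hp hq]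
    exact Submodule.mem_map_of_mem (pw_mul T.G.gf.two T.st.sys hp hq)
  · rintro i hi _ ⟨p, hp, rfl⟩
    have : pw F S (fun _ => 1) i ≤ ⊥ := by
      rw [← T.st.wfil_bot hi]
      exact pw_le
    have h0 : p = 0 := by simpa using this hp
    rw [h0, map_zero]
  · intro P hP
    refine Trans_le T 2 P fun w hw hl => ?_
    refine SSys.gen_le T.G.gf.two (T.G'.sys T.st') (fun i => i ≠ 2) 2 le_rfl P ?_ w hl hw
    intro v u hv hu hvl hvu hv2 hu2
    have h1 : 1 ≤ v.length := List.length_pos_iff.mpr hv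
    have h2 : 1 ≤ u.length := List.length_pos_iff.mpr hu
    exact hP _ (Trans_gS T v hv2 (by omega)) _ (Trans_gS T u hu2 (by omega))
  · intro n hn P hP1 hP2
    refine Trans_le T n P fun w hw hl => ?_
    refine SSys.gen_le T.G.gf.two (T.G'.sys T.st') (fun i => i ≠ 2) n (by omega) P ?_ w hl hw
    intro v u hv hu hvl hvu hv2 hu2
    have h1 : 1 ≤ v.length := List.length_pos_iff.mpr hv
    rcases (by omega : v.length = 1 ∨ v.length = 2) with h | h
    · exact hP1 _ (Trans_gS T v hv2 h) _ (Trans_gS T u hu2 (by omega))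
    · exact hP2 _ (Trans_gS T v hv2 h) _ (Trans_gS T u hu2 (by omega))
  · rintro i hi hi6 _ ⟨g, hg, rfl⟩ h1 h2
    refine transfer_inj T hi (hd i hi hi6.le) hg ?_
    refine hG.nd i hi hi6 _ ?_ (Trans_kill T le_rfl hi hg h1) (Trans_kill T (by norm_num) hi hg h2)
    have := D_eq_pw T.st T.G T.z0 hi
    rw [this]
    exact Submodule.mem_map_of_mem hg
  · have h1 := hd 6 (by norm_num) le_rfl
    have h2 := (transfer_rank T (s := 6) (by norm_num)).1
    rw [hG.top] at h1 h2
    exact le_antisymm h1 h2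

end JD
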