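import Pool.Agent.H74.JD.FQ
import Pool.Agent.H74.JD.Trans
import Pool.Agent.H74.JD.Raise

set_option autoImplicit false
set_option linter.unusedSectionVars false

/-!
# JD FIntro: the structure `FZ` at a stage `(60, 60, w)` (helper74)

`A, D, π` is the picture of the powers filtration (`GJ`), `A', D', π'` the picture of the stage `(60, 60, w)`, top weight 360. `E k = (pw F S (fun _ => 1) k).map (π' (60 k))`.
FIELDS: `gf := T.G'.gf`. `xm, ym, zm`: `x i ∈ wfil (a' i)` and `GPic.map` (or `GPic.gS_mem` for `[i]`). `E1`: the words of length 1 in `0, 1`; `E2`: the words of length 2 in `0, 1`, `S [i, j] = x i * x j` (`SSys.pair`), `π' 120 (x i * x j) = π' 60 (x i) * π' 60 (x j)` (`T.G'.mul`).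
`E1d`: `≤ 2` (span of two elements), `≥ finrank (D 1) = 2` (`transfer_rank`). `E6d`: `E 6 ≤ D' 360` (dimension 1, `GF.top`), `≥ finrank (D 6) = 1`. `Emul`: `pw_mul`, `T.G'.mul`. `Ele`: `transfer_le`. `Egen`: `E n` = span of `gS S a' π' w`, `w` a word in `0, 1`, `|w| = n` (weight `60 n`); `SSys.gen_le` for `T.G'.sys T.st'`, `L i = (i ≠ 2)`.
`Ekill`: `SSys.kill_on` with `L i = (i ≠ 2)`. `kill`: `GPic.kill_all` (all products of two letters, `mul_comm`). `dim`: `GPic.sum_le` and `hcr.dim`. `Elow`: `transfer_rank`. `Egj`: with `transfer_rank` all `finrank (E k) = finrank (D k)` (sums), then `FB`.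
-/

namespace JD

universe u

variable {F : Type u} [Field F] {J : Type u} [NonUnitalNonAssocCommRing J] [Module F J]
  [IsScalarTower F J J] [SMulCommClass F J J] {x : Fin 3 → J} {S : List (Fin 3) → J} {e : J}
  {A : Type u} [NonUnitalNonAssocCommRing A] [Module F A] [IsScalarTower F A A]
  [SMulCommClass F A A] {D : ℕ → Submodule F A} {π : ℕ → J →ₗ[F] A}
  {A' : Type u} [NonUnitalNonAssocCommRing A'] [Module F A'] [IsScalarTower F A' A']
  [SMulCommClass F A' A'] {D' : ℕ → Submodule F A'} {π' : ℕ → J →ₗ[F] A'}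

private theorem FIntro_wt (w : ℕ) : ∀ u : List (Fin 3), (∀ i ∈ u, i ≠ 2) →
    wt ![60, 60, w] u = 60 * wt (fun _ => 1) u := by
  intro u
  induction u with
  | nil => intro _; simp [wt]
  | cons i u ih =>
    intro h
    have h1 := ih fun j hj => h j (List.mem_cons_of_mem _ hj)
    have h3 : i ≠ 2 := h i List.mem_cons_self
    have e1 : wt ![60, 60, w] (i :: u) = ![60, 60, w] i + wt ![60, 60, w] u := by simp [wt]
    have e2 : wt (fun _ : Fin 3 => 1) (i :: u) = 1 + wt (fun _ => 1) u := by simp [wt]
    have e3 : ![60, 60, w] i = 60 := by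
      fin_cases i
      · rfl
      · rfl
      · exact absurd rfl h3
    rw [e1, e2, e3, h1]
    ring

private theorem FIntro_fin {i : Fin 3} (h : i ≠ 2) : i = 0 ∨ i = 1 := by
  fin_cases i
  · exact Or.inl rfl
  · exact Or.inr rfl
  · exact absurd rfl h

private theorem FIntro_gS {w : ℕ} (u : List (Fin 3)) (hu : ∀ i ∈ u, i ≠ 2) {k : ℕ}
    (hk : wt (fun _ => 1) u = k) : gS S ![60, 60, w] π' u = π' (60 * k) (S u) := by
  unfold gS
  rw [FIntro_wt w u hu, hk]

private theorem FIntro_gS_mem {w : ℕ} (u : List (Fin 3)) (hu : ∀ i ∈ u, i ≠ 2) {k : ℕ}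
    (hk : wt (fun _ => 1) u = k) :
    gS S ![60, 60, w] π' u ∈ (pw F S (fun _ => 1) k).map (π' (60 * k)) := by
  rw [FIntro_gS u hu hk]
  exact Submodule.mem_map_of_mem (Submodule.subset_span ⟨u, ⟨hu, hk⟩, rfl⟩)

/-- a submodule that contains the images of the words contains `E k` -/
private theorem FIntro_le {w k : ℕ} (T : Submodule F A')
    (h : ∀ u : List (Fin 3), (∀ i ∈ u, i ≠ 2) → wt (fun _ => 1) u = k →
      gS S ![60, 60, w] π' u ∈ T) : (pw F S (fun _ => 1) k).map (π' (60 * k)) ≤ T := by
  rw [Submodule.map_le_iff_le_comap]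
  unfold pw
  rw [Submodule.span_le]
  rintro _ ⟨u, ⟨hu, hk⟩, rfl⟩
  have := h u hu hk
  rw [FIntro_gS u hu hk] at this
  exact this

theorem FZ_intro (hcr : Crit F J 6 e) {w : ℕ}
    (T : Two F x x S S (fun _ => 1) ![60, 60, w] 6 360 60 e A D π A' D' π') (hG : GJ F A 6 D)
    (h1 : Module.finrank F (D 1) = 2)
    (ht : 9 ≤ ∑ k ∈ Finset.Icc 1 6, Module.finrank F (D k)) (hw : 61 ≤ w) (hw' : w ≤ 119)
    (hz : π' w (x 2) ≠ 0) :
    FZ F A' D' (fun k => (pw F S (fun _ => 1) k).map (π' (60 * k))) (π' 60 (x 0)) (π' 60 (x 1))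
      (π' w (x 2)) w (∑ k ∈ Finset.Icc 1 6, Module.finrank F (D k)) := by
  have h2 : (2 : F) ≠ 0 := hcr.two
  have hfin : Module.Finite F J := hcr.fin
  have hS : SSys F x S := T.st.sys
  have hgS := T.G'.sys T.st'
  have hfinA : Module.Finite F A' := T.G'.gf.fin
  have hl0 : ∀ i ∈ [(0 : Fin 3)], i ≠ 2 := by decide
  have hl1 : ∀ i ∈ [(1 : Fin 3)], i ≠ 2 := by decide
  have s0 : gS S ![60, 60, w] π' [0] = π' 60 (x 0) := hgS.single 0
  have s1 : gS S ![60, 60, w] π' [1] = π' 60 (x 1) := hgS.single 1
  have m0 : π' 60 (x 0) ∈ (pw F S (fun _ => 1) 1).map (π' (60 * 1)) := by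
    rw [← s0]; exact FIntro_gS_mem [0] hl0 (by simp [wt])
  have m1 : π' 60 (x 1) ∈ (pw F S (fun _ => 1) 1).map (π' (60 * 1)) := by
    rw [← s1]; exact FIntro_gS_mem [1] hl1 (by simp [wt])
  have hpair : ∀ i j : Fin 3, gS S ![60, 60, w] π' [i, j] =
      π' (![60, 60, w] i) (x i) * π' (![60, 60, w] j) (x j) := fun i j => hgS.pair h2 i j
  have hE1 : (pw F S (fun _ => 1) 1).map (π' (60 * 1)) =
      Submodule.span F {π' 60 (x 0), π' 60 (x 1)} := by
    apply le_antisymm
    · refine FIntro_le (w := w) _ fun u hu hk => ?_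
      match u, hu, hk with
      | [], _, hk => simp [wt] at hk
      | [i], hu, _ =>
        rcases FIntro_fin (hu i (by simp)) with rfl | rfl
        · rw [s0]; exact Submodule.subset_span (by simp)
        · rw [s1]; exact Submodule.subset_span (by simp)
      | i :: j :: u, _, hk => simp [wt] at hk
    · rw [Submodule.span_le]
      rintro _ (rfl | rfl)
      · exact m0
      · exact m1
  have hE2 : (pw F S (fun _ => 1) 2).map (π' (60 * 2)) =
      Submodule.span F {π' 60 (x 0) * π' 60 (x 0), π' 60 (x 0) * π' 60 (x 1),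
        π' 60 (x 1) * π' 60 (x 1)} := by
    apply le_antisymm
    · refine FIntro_le (w := w) _ fun u hu hk => ?_
      match u, hu, hk with
      | [], _, hk => simp [wt] at hk
      | [i], _, hk => simp [wt] at hk
      | [i, j], hu, _ =>
        rw [hpair i j]
        rcases FIntro_fin (hu i (by simp)) with rfl | rfl <;>
          rcases FIntro_fin (hu j (by simp)) with rfl | rfl
        · exact Submodule.subset_span (by left; rfl)
        · exact Submodule.subset_span (by right; left; rfl)
        · have e5 : π' (![60, 60, w] 1) (x 1) * π' (![60, 60, w] 0) (x 0) =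
              π' 60 (x 0) * π' 60 (x 1) := mul_comm (π' 60 (x 1)) (π' 60 (x 0))
          rw [e5]; exact Submodule.subset_span (by right; left; rfl)
        · exact Submodule.subset_span (by right; right; rfl)
      | i :: j :: l :: u, _, hk =>
        exfalso
        simp only [wt, List.map_cons, List.sum_cons] at hk
        omega
    · rw [Submodule.span_le]
      rintro _ (rfl | rfl | rfl)
      · have := FIntro_gS_mem (F := F) (S := S) (π' := π') (w := w) [0, 0] (by decide) (k := 2)
          (by simp [wt])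
        rw [hpair 0 0] at this
        exact this
      · have := FIntro_gS_mem (F := F) (S := S) (π' := π') (w := w) [0, 1] (by decide) (k := 2)
          (by simp [wt])
        rw [hpair 0 1] at this
        exact this
      · have := FIntro_gS_mem (F := F) (S := S) (π' := π') (w := w) [1, 1] (by decide) (k := 2)
          (by simp [wt])
        rw [hpair 1 1] at this
        exact this
  have hpw : ∀ k, pw F S (fun _ => 1) k ≤ wfil F S ![60, 60, w] (60 * k) := by
    intro k
    rw [← pw_eq T k]
    exact pw_le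
  have hx : ∀ i, π' (![60, 60, w] i) (x i) ∈ D' (![60, 60, w] i) := by
    intro i
    rw [← T.G'.map _ (T.st'.pos i), ← hS.single i]
    refine Submodule.mem_map_of_mem (mem_wfil ?_)
    simp [wt]
  refine ⟨T.G'.gf, hw, hw', hx 0, hx 1, hx 2, hz, hE1, ?_, hE2, ?_, ?_, ?_, ?_, ?_, ?_, ?_, ht,
    ?_, ?_⟩
  · -- E1d
    apply le_antisymm
    · show Module.finrank F ((pw F S (fun _ => 1) 1).map (π' (60 * 1))) ≤ 2
      rw [hE1]
      classical
      have h3 := finrank_span_finset_le_card (R := F) ({π' 60 (x 0), π' 60 (x 1)} : Finset A')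
      rw [Finset.coe_insert, Finset.coe_singleton] at h3
      exact h3.trans Finset.card_le_two
    · rw [← h1]
      exact (transfer_rank T le_rfl).1
  · -- E6d
    have h3 := transfer_rank T (s := 6) (by norm_num)
    have h4 : Module.finrank F (D' (60 * 6)) = 1 := T.G'.gf.top
    have h5 := hG.top
    show Module.finrank F ((pw F S (fun _ => 1) 6).map (π' (60 * 6))) = 1
    omega
  · -- Emul
    rintro i j hi hj _ ⟨p, hp, rfl⟩ _ ⟨q, hq, rfl⟩
    have h3 := T.G'.mul (60 * i) (60 * j) (by omega) (by omega) p (hpw i hp) q (hpw j hq)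
    rw [← h3, ← Nat.mul_add]
    exact Submodule.mem_map_of_mem (pw_mul h2 hS hp hq)
  · -- Ele
    intro k hk
    exact transfer_le T hk
  · -- Egen
    intro n hn T0 hT1 hT2
    refine FIntro_le (w := w) _ fun u hu hk => ?_
    rw [wt_one] at hk
    refine hgS.gen_le h2 (fun i => i ≠ 2) n (by omega) T0 ?_ u hk hu
    intro v v' hv hv' hl hs hvL hvL'
    have hv1 : 1 ≤ v.length := List.length_pos_of_ne_nil hv
    rcases Nat.lt_or_ge v.length 2 with h3 | h3
    · have h4 : v.length = 1 := by omega
      refine hT1 _ (FIntro_gS_mem v hvL (by rw [wt_one]; exact h4)) _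
        (FIntro_gS_mem v' hvL' (by rw [wt_one]; omega))
    · have h4 : v.length = 2 := by omega
      refine hT2 _ (FIntro_gS_mem v hvL (by rw [wt_one]; exact h4)) _
        (FIntro_gS_mem v' hvL' (by rw [wt_one]; omega))
  · -- Ekill
    intro h ha hb haa hab hbb k hk b hbk
    have hall : ∀ u : List (Fin 3), (∀ i ∈ u, i ≠ 2) → gS S ![60, 60, w] π' u * h = 0 := by
      intro u hu
      refine hgS.kill_on h2 T.G'.gf.jordan (fun i => i ≠ 2) h ?_ ?_ u hu
      · intro i hi
        rcases FIntro_fin hi with rfl | rfl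
        · exact ha
        · exact hb
      · intro i j hi hj
        rcases FIntro_fin hi with rfl | rfl <;> rcases FIntro_fin hj with rfl | rfl
        · exact haa
        · exact hab
        · rw [mul_comm (π' (![60, 60, w] 1) (x 1))]; exact hab
        · exact hbb
    let K : Submodule F A' :=
      { carrier := {b | b * h = 0}
        zero_mem' := zero_mul h
        add_mem' := by
          intro p q hp hq
          show (p + q) * h = 0
          rw [add_mul, show p * h = 0 from hp, show q * h = 0 from hq, add_zero]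
        smul_mem' := by
          intro r p hp
          show (r • p) * h = 0
          rw [smul_mul_assoc, show p * h = 0 from hp, smul_zero] }
    have hK : (pw F S (fun _ => 1) k).map (π' (60 * k)) ≤ K :=
      FIntro_le (w := w) _ fun u hu _ => hall u hu
    exact hK hbk
  · -- kill
    intro s hs hs' h hh ha hb hc haa hab hbb hac hbc hcc
    refine T.G'.kill_all T.st' hs hs' hh ?_ ?_
    · intro i
      fin_cases i
      · exact ha
      · exact hb
      · exact hc
    · intro i j
      fin_cases i <;> fin_cases j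
      · exact haa
      · exact hab
      · exact hac
      · exact (congrArg (· * h) (mul_comm (π' 60 (x 1)) (π' 60 (x 0)))).trans hab
      · exact hbb
      · exact hbc
      · exact (congrArg (· * h) (mul_comm (π' w (x 2)) (π' 60 (x 0)))).trans hac
      · exact (congrArg (· * h) (mul_comm (π' w (x 2)) (π' 60 (x 1)))).trans hbc
      · exact hcc
  · -- dim
    intro T0 hT0
    exact (T.G'.sum_le T0 hT0).trans hcr.dim
  · -- Elow
    refine Finset.sum_le_sum fun k hk => ?_
    rw [Finset.mem_Icc] at hk
    exact (transfer_rank T hk.1).1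
  · -- Egj
    intro hle
    have hge : ∀ k ∈ Finset.Icc 1 6, Module.finrank F (D k) ≤
        Module.finrank F ((pw F S (fun _ => 1) k).map (π' (60 * k))) := by
      intro k hk
      rw [Finset.mem_Icc] at hk
      exact (transfer_rank T hk.1).1
    have heq := (Finset.sum_eq_sum_iff_of_le hge).mp (le_antisymm (Finset.sum_le_sum hge) hle)
    refine FB T hG fun k hk1 hk6 => ?_
    exact (heq k (Finset.mem_Icc.mpr ⟨hk1, hk6⟩)).ge

end JD
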