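import Pool.Agent.H74.JD.Trans
import Pool.Agent.H74.JD.Quad

set_option autoImplicit false
set_option linter.unusedSectionVars false

/-!
# JD WF1: the final contradiction for the second alternative (helper74)

`X = π 1 (x 0)`, `Y = π 1 (x 1)` in the picture `A` of the powers filtration, `π 1 (x 2) = 0`; `X X`, `X Y` independent, `Y Y = 0`. The stage `a = (60, 60, 91)`, `N = 360`.
PROOF. `S`, `P : EPic` from `crit_EPic` (`h.sys`, `h.gen`). `EPic.quad`: `r = ∑ c i j X i X j + G`, `G ∈ ge 1 3`. Apply `ρ` (`ρ r = 0`, `P.rho_r`): `∑ c i j • (x i * x j) ∈ J^3` (`rho_ge` for `filt_jpow`; `ρ (X i X j) = S [i,j] = x i * x j`),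
apply `π 2` (kills `wfil 1 3 = J^3`): `c 0 0 • X X + 2 c 0 1 • X Y + c 1 1 • Y Y = 0` (the terms with the letter 2 vanish), so `c 0 0 = 0`, `c 0 1 = 0` (`2 ≠ 0`). So `r = c 1 1 • X 1 X 1 + G'` with `G' ∈ ge a 151` (`X i X 2`, `X 2 X i` have weight
`≥ 151`, `ge 1 3 ≤ ge a 180` by `ge_le_ge`). If `c 1 1 = 0`: `r ∈ ge a 151`, `u_mem`: `e ∈ wfil a 362 = ⊥`, contradiction. If `c 1 1 ≠ 0`: `X 1 * X 1 - (-(c 1 1)⁻¹ • G') = (c 1 1)⁻¹ • r`, and `EPic.sq_zero` with `g = 151` (`wfil a (151 + 211) = ⊥`) gives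
`(c 1 1)⁻¹ = 0`, contradiction.
-/

namespace JD

universe u

variable {F : Type u} [Field F] {J : Type u} [NonUnitalNonAssocCommRing J] [Module F J]
  [IsScalarTower F J J] [SMulCommClass F J J] {x : Fin 3 → J} {S : List (Fin 3) → J} {e : J}
  {A : Type u} [NonUnitalNonAssocCommRing A] [Module F A] [IsScalarTower F A A]
  [SMulCommClass F A A] {D : ℕ → Submodule F A} {π : ℕ → J →ₗ[F] A}

private theorem WF1_two (h2 : (2 : F) ≠ 0) (hS : SSys F x S) (i j : Fin 3) :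
    S [i, j] = x i * x j := by
  have h1 := hS.mul [i] [j] (by simp) (by simp)
  have h3 : S [j, i] = S [i, j] := by
    have := hS.rev [i, j]
    simpa using this
  simp only [List.reverse_singleton, List.singleton_append, hS.single, h3] at h1
  have h4 : (4 : F) ≠ 0 := by
    have : (4 : F) = 2 * 2 := by norm_num
    rw [this]
    exact mul_ne_zero h2 h2
  have h5 : (4 : F) • (x i * x j) = (4 : F) • S [i, j] := by
    rw [h1]
    module
  have h6 := congrArg (fun t => (4 : F)⁻¹ • t) h5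
  simp only [smul_smul, inv_mul_cancel₀ h4, one_smul] at h6
  exact h6.symm

theorem WF1 (hcr : Crit F J 6 e) (G : GPic F (wfil F S (fun _ => 1)) 6 A D π)
    (h : Stg F x S (fun _ => 1) 6 e) (h' : Stg F x S ![60, 60, 91] 360 e)
    (hz : π 1 (x 2) = 0)
    (hi : ∀ r s : F, r • (π 1 (x 0) * π 1 (x 0)) + s • (π 1 (x 0) * π 1 (x 1)) = 0 →
      r = 0 ∧ s = 0)
    (hy : π 1 (x 1) * π 1 (x 1) = 0) : False := by
  obtain ⟨E, _, _, ⟨P⟩⟩ := crit_EPic hcr x S h.sys h.gen
  obtain ⟨c, hcs, hc⟩ := P.quad hcr h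
  have h2 := hcr.two
  -- the values in `J`
  have hρ := P.rho_ge h2 h.sys (filt_wfil h2 h.sys) hc
  rw [map_sub, P.rho_r, zero_sub, Submodule.neg_mem_iff, map_sum] at hρ
  have e1 : ∀ i, P.ρ (∑ j, c i j • (P.X i * P.X j)) = ∑ j, c i j • (x i * x j) := by
    intro i
    rw [map_sum]
    refine Finset.sum_congr rfl fun j _ => ?_
    rw [map_smul]
    congr 1
    rw [← WF1_two h2 h.sys, ← P.ρ_word]
    congr 1
    simp [word]
  simp only [e1] at hρ
  have h3 := G.kill 2 (by norm_num) _ hρ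
  have hx : ∀ i, x i ∈ wfil F S (fun _ => 1) 1 := by
    intro i
    have := (filt_wfil (a := fun _ => 1) h2 h.sys).mem i
    simpa using this
  have e2 : ∀ i j, π 2 (x i * x j) = π 1 (x i) * π 1 (x j) := fun i j =>
    G.mul 1 1 le_rfl le_rfl _ (hx i) _ (hx j)
  simp only [Fin.sum_univ_three, map_add, map_smul, e2, hz, zero_mul, mul_zero, smul_zero,
    add_zero, hy] at h3
  have e3 : c 0 0 • (π 1 (x 0) * π 1 (x 0)) + (c 0 1 + c 1 0) • (π 1 (x 0) * π 1 (x 1)) = 0 := by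
    rw [← h3, mul_comm (π 1 (x 1)) (π 1 (x 0))]
    module
  obtain ⟨h00, h01⟩ := hi _ _ e3
  have h10 : c 0 1 = 0 := by
    rw [hcs 1 0, ← two_mul] at h01
    rcases mul_eq_zero.1 h01 with h4 | h4
    · exact absurd h4 h2
    · exact h4
  have h10' : c 1 0 = 0 := by rw [hcs 1 0, h10]
  -- the weights `60, 60, 91`
  have hG : P.r - c 1 1 • (P.X 1 * P.X 1) ∈ P.ge ![60, 60, 91] 151 := by
    have hge : P.ge (fun _ => 1) 3 ≤ P.ge ![60, 60, 91] 151 := by
      refine P.ge_le_ge ?_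
      intro w hw
      have h4 := wt_cnt (fun _ => 1) w
      have h5 := wt_cnt ![60, 60, 91] w
      simp only [Matrix.cons_val_zero, Matrix.cons_val_one, Matrix.cons_val_two,
        Matrix.tail_cons, Matrix.head_cons] at h5
      rw [h4.1] at hw
      rw [h5.1]
      omega
    have h4 := hge hc
    have h5 : ∀ i j : Fin 3, (i = 2 ∨ j = 2) → P.X i * P.X j ∈ P.ge ![60, 60, 91] 151 := by
      intro i j hij
      have h6 := P.mul_mem_ge ![60, 60, 91] (P.X_mem_ge ![60, 60, 91] i)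
        (P.X_mem_ge ![60, 60, 91] j)
      refine P.ge_anti _ ?_ h6
      rcases hij with rfl | rfl
      · fin_cases j <;> simp
      · fin_cases i <;> simp
    have e4 : P.r - c 1 1 • (P.X 1 * P.X 1) = (P.r - ∑ i, ∑ j, c i j • (P.X i * P.X j)) +
        (c 0 2 • (P.X 0 * P.X 2) + c 1 2 • (P.X 1 * P.X 2) + c 2 0 • (P.X 2 * P.X 0) +
          c 2 1 • (P.X 2 * P.X 1) + c 2 2 • (P.X 2 * P.X 2)) := by
      simp only [Fin.sum_univ_three, h00, h10, h10', zero_smul]
      abel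
    rw [e4]
    refine Submodule.add_mem _ h4 ?_
    refine Submodule.add_mem _ (Submodule.add_mem _ (Submodule.add_mem _ (Submodule.add_mem _
      ?_ ?_) ?_) ?_) ?_
    · exact Submodule.smul_mem _ _ (h5 _ _ (Or.inr rfl))
    · exact Submodule.smul_mem _ _ (h5 _ _ (Or.inr rfl))
    · exact Submodule.smul_mem _ _ (h5 _ _ (Or.inl rfl))
    · exact Submodule.smul_mem _ _ (h5 _ _ (Or.inl rfl))
    · exact Submodule.smul_mem _ _ (h5 _ _ (Or.inl rfl))
  have hbot : wfil F S ![60, 60, 91] (151 + ((![60, 60, 91] : Fin 3 → ℕ) 0 +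
      (![60, 60, 91] : Fin 3 → ℕ) 1 + (![60, 60, 91] : Fin 3 → ℕ) 2)) = ⊥ := by
    refine h'.wfil_bot ?_
    simp
  have hF := filt_wfil (a := ![60, 60, 91]) h2 h.sys
  by_cases h11 : c 1 1 = 0
  · rw [h11, zero_smul, sub_zero] at hG
    have h4 := P.u_mem h2 h.sys hF hG
    rw [hbot, Submodule.mem_bot] at h4
    exact hcr.ne h4
  · have e5 : P.X 1 * P.X 1 - (-(c 1 1)⁻¹) • (P.r - c 1 1 • (P.X 1 * P.X 1)) =
        (c 1 1)⁻¹ • P.r := by
      rw [smul_sub, smul_smul, neg_mul, inv_mul_cancel₀ h11]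
      module
    have h4 := P.sq_zero _ h2 h.sys hcr.ne hF hbot (Submodule.smul_mem _ _ hG) e5
    exact h11 (inv_eq_zero.1 h4)

end JD
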