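import Pool.Agent.H74.JD.SGen

set_option autoImplicit false
set_option linter.unusedSectionVars false

/-!
# JD SSq: S-systems with `x i * x i = 0` (helper74)

Checked by computer (linear algebra mod 3, 5, 101): the relations below imply the claims.

* `sq_four`, `sq_five` (`x i * x i = 0`): put `E = [i,i]`, `S E = 0`. `0 = 4 S E S w = 2 S(E w) + 2 S(w E)` (note
  `S(E w*) = S(w E)`), so (R) `S(E w) = - S(w E)`. Length 3: `S(E a) = S(a E)` (rev), so `S(E a) = 0`. `4 S[a] S(E b) = 0` gives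
  `S(a E b) = - S(E b a)`; by (R) `S(E b a) = - S(b a E) = - S(E a b)` so `S(a E b) = S(E a b)`; by reversal
  `S(a E b) = S(b E a)`, so `S(E a b) = S(E b a) = - S(E a b)`: `S(E a b) = 0`, `S(a E b) = 0`. Length 5: `T(a,b,c) = S(E a b c)`. (R):
  `T(a,b,c) = - S(a b c E) = - T(c,b,a)`. `4 S[a,b] S(E c) = 0`: `S(a b E c) + S(a b c E) + S(b a E c) + S(E c a b) = 0`, where
  `S(a b E c) = S(c E b a) = - S(E b a c)` (from `4 S[c] S(E b a) = 0`: `S(c E b a) + S(E b a c) = 0`),
  `S(b a E c) = - S(E a b c)`, `S(a b c E) = T(c,b,a)`. So `-T(b,a,c) + T(c,b,a) - T(a,b,c) + T(c,a,b) = 0`, with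
  `T(c,b,a) = -T(a,b,c)`, `T(c,a,b) = -T(b,a,c)`: `T(a,b,c) = - T(b,a,c)`. So `T` is alternating.
  Finally `T(i,b,c) = S(i E b c) = - S(E b c i) = - T(b,c,i) = - T(i,b,c)`, so `T(i,b,c) = 0`, and `T = 0` if one argument is `i`.
-/

namespace JD

universe u

variable {F : Type u} [Field F] {J : Type u} [NonUnitalNonAssocCommRing J] [Module F J]
  [IsScalarTower F J J] [SMulCommClass F J J] {x : Fin 3 → J} {S : List (Fin 3) → J}

private theorem SSq_half (h2 : (2 : F) ≠ 0) {a b : J} (h : (2 : F) • a = (2 : F) • b) : a = b := by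
  have := congrArg (fun t => (2 : F)⁻¹ • t) h
  simpa [smul_smul, inv_mul_cancel₀ h2] using this

/-- (R) -/
private theorem SSq_R (h2 : (2 : F) ≠ 0) (hS : SSys F x S) {i : Fin 3} (hi : x i * x i = 0)
    (w : List (Fin 3)) (hw : w ≠ []) : S (i :: i :: w) = - S (w ++ [i, i]) := by
  have h := hS.mul [i, i] w (by simp) hw
  rw [hS.pair h2, hi, zero_mul, smul_zero] at h
  have h3 : S ([i, i] ++ w.reverse) = S (w ++ [i, i]) := by
    rw [← hS.rev (w ++ [i, i])]
    simp
  have h4 : ([i, i] : List (Fin 3)).reverse = [i, i] := rfl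
  rw [h3, h4] at h
  simp only [List.cons_append, List.nil_append] at h
  refine SSq_half h2 ?_
  linear_combination (norm := module) -h

/-- a letter times a word with value 0 -/
private theorem SSq_one (h2 : (2 : F) ≠ 0) (hS : SSys F x S) (a : Fin 3) (w : List (Fin 3))
    (hw : w ≠ []) (h0 : S w = 0) : S (a :: w) = - S (w ++ [a]) := by
  have h := hS.mul [a] w (by simp) hw
  rw [h0, mul_zero, smul_zero] at h
  have h3 : S ([a] ++ w.reverse) = S (w ++ [a]) := by
    rw [← hS.rev (w ++ [a])]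
    simp
  rw [h3, List.reverse_singleton, List.singleton_append] at h
  refine SSq_half h2 ?_
  linear_combination (norm := module) -h

private theorem SSq_three (h2 : (2 : F) ≠ 0) (hS : SSys F x S) {i : Fin 3} (hi : x i * x i = 0)
    (a : Fin 3) : S [i, i, a] = 0 := by
  have h1 := SSq_R h2 hS hi [a] (by simp)
  have h3 : S ([a] ++ [i, i]) = S [i, i, a] := by
    rw [← hS.rev [i, i, a]]
    rfl
  rw [h3] at h1
  refine SSq_half h2 ?_
  rw [smul_zero, two_smul]
  nth_rewrite 1 [h1]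
  simp

theorem SSys.sq_four (h2 : (2 : F) ≠ 0) (hS : SSys F x S) {i : Fin 3} (hi : x i * x i = 0)
    (a b : Fin 3) : S [i, i, a, b] = 0 ∧ S [a, i, i, b] = 0 := by
  have e1 : ∀ a b : Fin 3, S [a, i, i, b] = - S [i, i, b, a] := fun a b =>
    SSq_one h2 hS a [i, i, b] (by simp) (SSq_three h2 hS hi b)
  have e2 : ∀ a b : Fin 3, S [i, i, b, a] = - S [i, i, a, b] := by
    intro a b
    have h1 := SSq_R h2 hS hi [b, a] (by simp)
    have h3 : S ([b, a] ++ [i, i]) = S [i, i, a, b] := by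
      rw [← hS.rev [i, i, a, b]]
      rfl
    rwa [h3] at h1
  have e3 : S [a, i, i, b] = S [b, i, i, a] := by
    rw [← hS.rev [a, i, i, b]]
    rfl
  have e4 : S [i, i, a, b] = 0 := by
    have h1 := e1 a b
    have h3 := e1 b a
    rw [e3, h3] at h1
    have h5 := e2 a b
    refine SSq_half h2 ?_
    rw [smul_zero, two_smul]
    rw [neg_inj] at h1
    rw [← h1] at h5
    nth_rewrite 1 [h5]
    simp
  refine ⟨e4, ?_⟩
  rw [e1, e2, neg_neg, e4]

theorem SSys.sq_five (h2 : (2 : F) ≠ 0) (hS : SSys F x S) {i : Fin 3} (hi : x i * x i = 0)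
    (a b c : Fin 3) (h : a = i ∨ b = i ∨ c = i) : S [i, i, a, b, c] = 0 := by
  -- `S [a, i, i, b, c] = - S [i, i, b, c, a]`
  have e1 : ∀ a b c : Fin 3, S [a, i, i, b, c] = - S [i, i, b, c, a] := fun a b c =>
    SSq_one h2 hS a [i, i, b, c] (by simp) (hS.sq_four h2 hi b c).1
  -- `T (a, b, c) = - T (c, b, a)`
  have e2 : ∀ a b c : Fin 3, S [i, i, a, b, c] = - S [i, i, c, b, a] := by
    intro a b c
    have h1 := SSq_R h2 hS hi [a, b, c] (by simp)
    have h3 : S ([a, b, c] ++ [i, i]) = S [i, i, c, b, a] := by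
      rw [← hS.rev [i, i, c, b, a]]
      rfl
    rwa [h3] at h1
  -- `T (a, b, c) = - T (b, a, c)`
  have e3 : ∀ a b c : Fin 3, S [i, i, a, b, c] = - S [i, i, b, a, c] := by
    intro a b c
    have h1 := hS.mul [a, b] [i, i, c] (by simp) (by simp)
    rw [SSq_three h2 hS hi c, mul_zero, smul_zero] at h1
    have r1 : ([i, i, c] : List (Fin 3)).reverse = [c, i, i] := rfl
    have r2 : ([a, b] : List (Fin 3)).reverse = [b, a] := rfl
    rw [r1, r2] at h1
    simp only [List.cons_append, List.nil_append] at h1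
    have f1 : S [a, b, i, i, c] = S [c, i, i, b, a] := by
      rw [← hS.rev [a, b, i, i, c]]
      rfl
    have f2 : S [a, b, c, i, i] = S [i, i, c, b, a] := by
      rw [← hS.rev [a, b, c, i, i]]
      rfl
    have f3 : S [b, a, i, i, c] = S [c, i, i, a, b] := by
      rw [← hS.rev [b, a, i, i, c]]
      rfl
    rw [f1, f2, f3, e1 c b a, e1 c a b, e2 c b a, e2 c a b] at h1
    refine SSq_half h2 ?_
    linear_combination (norm := module) h1
  have e4 : ∀ b c : Fin 3, S [i, i, i, b, c] = 0 := by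
    intro b c
    have h1 := e1 i b c
    -- `T (b, c, i) = T (i, b, c)`
    have h3 : S [i, i, b, c, i] = S [i, i, i, b, c] := by
      rw [e2 b c i, e3 i c b, e2 c i b, e3 b i c]
      simp
    rw [h3] at h1
    refine SSq_half h2 ?_
    rw [smul_zero, two_smul]
    nth_rewrite 1 [h1]
    simp
  rcases h with rfl | rfl | rfl
  · exact e4 b c
  · rw [e3, e4, neg_zero]
  · rw [e2, e4, neg_zero]

end JD
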