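import Pool.Agent.H74.JD.Trans
import Pool.Agent.H74.JD.Quad
import Pool.Agent.H74.JD.SSq
import Pool.Agent.H74.JD.Raise

set_option autoImplicit false
set_option linter.unusedSectionVars false

/-!
# JD WF2: the final contradiction for the first alternative (helper74)

`X = π 1 (x 0)`, `Y = π 1 (x 1)` in the picture `A` of the powers filtration, `π 1 (x 2) = 0`, `X X = Y Y = 0`, `X Y ≠ 0`, `dim D 2 = 1`. The stage `a' = (60, 60, 120)`, `N = 360`, with picture `A', D', π'`;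
`E k = (pw F S (fun _ => 1) k).map (π' (60 k))`, `z = π' 120 (x 2)`. `T : Two F x x S S (fun _ => 1) ![60, 60, 120] 6 360 60 e A D π A' D' π'`.

* `WF2a` (`z ∈ E 2`). `z = π' 120 g`, `g ∈ pw F S (fun _ => 1) 2 = pw F S ![60,60,120] 120` (`pw_eq`), `g ∈ J^2` (`pw_le`, `wfil_one_eq_jpow`). `Stg.sub` for `T.st'`: `x' = ![x 0, x 1, x 2 - g]`, `S'`, the filtration is the same, so
  `T.G'` is also a picture for `S'`; `π' 120 (x' 2) = 0`. `GPic.zero_top`, `Stg.raise_cnt` to `![60, 60, 121]`, 360, `L = (· = 2)` (`360 < 60 i + 60 j + 121 k`, `i + j + k ≤ 6` implies `360 ≤ 60 i + 60 j + 120 k` and `1 ≤ k`; or `360 < ...`); `ne`: a word in the letters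
  `0, 1` of length 6 with `S ≠ 0` (`T.st.ne`, `GPic.zero_top` for `T.G`). `final0` with `μ = 60`: `360 < 120 + 241`.
* `WF2b` (`finrank (E 2) ≤ 1`). `π' 120 (x 0 * x 0) = 0`: `transfer_inj` with `s = 2` (`π 2 (x 0 * x 0) = X X = 0`; `finrank (D 2) = 1`), same for `x 1 * x 1`. `π' 120 (x 0 * x 1) ≠ 0` by `transfer`. `P : EPic` (`crit_EPic`), `EPic.quad`: `r = ∑ c i j X i X j + G`, `G ∈ ge 1 3 ≤ ge a' 180`; `ρ r = 0`:
  `c 0 0 x0x0 + 2 c 0 1 x0x1 + c 1 1 x1x1 ∈ wfil a' 180 ≤ wfil a' 121` (the products with the letter 2 have weight `≥ 180`), apply `π' 120`: `c 0 1 = 0`. By `rho_r_word [0,1,2]` (`det3 = 1`): `e = ρ (r * word [0,1,2]) = c 0 0 • S [0,0,0,1,2] + c 1 1 • S [1,1,0,1,2]` + elements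
  of `wfil a' (180 + 240) = ⊥`. In `A'` (`SSys` by `T.G'.sys`): `SSys.sq_five` for `i = 0`, `(a,b,c) = (0,1,2)` and `i = 1`, `(0,1,2)`: both `gS` vanish, so both `S` vanish (`GPic.gS_top`, weight 360). So `e = 0`, contradiction.
-/

namespace JD

universe u

variable {F : Type u} [Field F] {J : Type u} [NonUnitalNonAssocCommRing J] [Module F J]
  [IsScalarTower F J J] [SMulCommClass F J J] {x : Fin 3 → J} {S : List (Fin 3) → J} {e : J}
  {A : Type u} [NonUnitalNonAssocCommRing A] [Module F A] [IsScalarTower F A A]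
  [SMulCommClass F A A] {D : ℕ → Submodule F A} {π : ℕ → J →ₗ[F] A}
  {A' : Type u} [NonUnitalNonAssocCommRing A'] [Module F A'] [IsScalarTower F A' A']
  [SMulCommClass F A' A'] {D' : ℕ → Submodule F A'} {π' : ℕ → J →ₗ[F] A'}

private theorem WF2_wt1 (w : List (Fin 3)) : wt (fun _ => 1 : Fin 3 → ℕ) w = w.length := by
  induction w with
  | nil => rfl
  | cons i w ih => simp only [wt, List.map_cons, List.sum_cons, List.length_cons] at ih ⊢; omega

private theorem WF2_wtc (c : ℕ) (w : List (Fin 3)) :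
    wt ![60, 60, c] w = 60 * w.count 0 + 60 * w.count 1 + c * w.count 2 ∧
      w.length = w.count 0 + w.count 1 + w.count 2 := by
  have := wt_cnt ![60, 60, c] w
  simpa using this

theorem WF2a (hcr : Crit F J 6 e)
    (T : Two F x x S S (fun _ => 1) ![60, 60, 120] 6 360 60 e A D π A' D' π')
    (hz : π' 120 (x 2) ∈ (pw F S (fun _ => 1) 2).map (π' 120)) : False := by
  have h2 := hcr.two
  obtain ⟨g, hg, hgz⟩ := hz
  have hg' : g ∈ pw F S ![60, 60, 120] (![60, 60, 120] 2) := by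
    have e1 := pw_eq T 2
    have e2 : (60 * 2 : ℕ) = ![60, 60, 120] 2 := by simp
    rw [← e2, e1]
    exact hg
  have hg2 : g ∈ jpow F J 2 := by
    have e1 := pw_le hg
    rwa [wfil_one_eq_jpow h2 T.st.sys T.st.gen] at e1
  obtain ⟨S', hst, hw, hSS⟩ := Stg.sub hcr T.st' g hg' hg2
  have G2 : GPic F (wfil F S' ![60, 60, 120]) 360 A' D' π' := by
    rw [hw]; exact T.G'
  have hz2 : π' (![60, 60, 120] 2) (![x 0, x 1, x 2 - g] 2) = 0 := by
    simp only [Matrix.cons_val, map_sub]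
    rw [hgz, sub_self]
  have hzero := GPic.zero_top h2 hst G2 hz2
  have hzero1 := GPic.zero_top h2 T.st T.G T.z0
  obtain ⟨w, hw6, hwS⟩ := T.st.ne
  rw [WF2_wt1] at hw6
  have hw2 : (2 : Fin 3) ∉ w := by
    intro h
    exact hwS (hzero1 w (by rw [WF2_wt1]; exact hw6) h)
  have hst2 : Stg F ![x 0, x 1, x 2 - g] S' ![60, 60, 121] 360 e := by
    refine Stg.raise_cnt hcr hst (fun i => i = 2) ?_ ![60, 60, 121] 360 ?_ ?_ ?_
    · intro i hi w hw hiw
      exact hzero w hw (hi ▸ hiw)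
    · intro i
      fin_cases i <;> simp
    · intro i j k hijk hlt
      have hlt' : 360 < 60 * i + 60 * j + 121 * k := hlt
      have key : 360 < 60 * i + 60 * j + 120 * k ∨ (60 * i + 60 * j + 120 * k = 360 ∧ 1 ≤ k) := by
        omega
      rcases key with h | h
      · exact Or.inl h
      · exact Or.inr ⟨h.1, Or.inr (Or.inr ⟨rfl, h.2⟩)⟩
    · refine ⟨w, ?_, ?_⟩
      · have e1 := WF2_wtc 121 w
        have e2 := List.count_eq_zero_of_not_mem hw2
        rw [e1.1]
        omega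
      · rw [hSS w (fun i hi h => hw2 (h ▸ hi))]
        exact hwS
  refine final0 hcr hst2 60 ?_ ?_
  · intro i
    fin_cases i <;> simp
  · simp

theorem WF2b (hcr : Crit F J 6 e)
    (T : Two F x x S S (fun _ => 1) ![60, 60, 120] 6 360 60 e A D π A' D' π')
    (h2 : Module.finrank F (D 2) = 1)
    (hX : π 1 (x 0) * π 1 (x 0) = 0) (hY : π 1 (x 1) * π 1 (x 1) = 0)
    (hXY : π 1 (x 0) * π 1 (x 1) ≠ 0)
    (hE : Module.finrank F ((pw F S (fun _ => 1) 2).map (π' 120)) ≤ 1) : False := by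
  have hF2 := hcr.two
  have hfin := hcr.fin
  have hw1 : wfil F S (fun _ => 1) 1 = ⊤ :=
    wfil_one (fun _ => le_refl 1) T.st.sys T.st.gen
  have hm2 : ∀ p q : J, π 2 (p * q) = π 1 p * π 1 q := by
    intro p q
    exact T.G.mul 1 1 (le_refl 1) (le_refl 1) p (by rw [hw1]; trivial) q (by rw [hw1]; trivial)
  have hpw : ∀ i j : Fin 3, i ≠ 2 → j ≠ 2 → x i * x j ∈ pw F S (fun _ => 1) 2 := by
    intro i j hi hj
    rw [← SSys.pair hF2 T.st.sys i j]
    refine Submodule.subset_span ⟨[i, j], ⟨?_, ?_⟩, rfl⟩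
    · intro k hk
      simp only [List.mem_cons, List.not_mem_nil, or_false] at hk
      rcases hk with h | h
      · rw [h]; exact hi
      · rw [h]; exact hj
    · rw [WF2_wt1]; rfl
  have hd : Module.finrank F ((pw F S (fun _ => 1) 2).map (π' (60 * 2))) ≤
      Module.finrank F (D 2) := by
    rw [h2]
    exact hE
  have hXX : π' 120 (x 0 * x 0) = 0 :=
    transfer_inj T (s := 2) (by norm_num) hd (hpw 0 0 (by decide) (by decide))
      (by rw [hm2]; exact hX)
  have hYY : π' 120 (x 1 * x 1) = 0 :=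
    transfer_inj T (s := 2) (by norm_num) hd (hpw 1 1 (by decide) (by decide))
      (by rw [hm2]; exact hY)
  have hXY' : π' 120 (x 0 * x 1) ≠ 0 := by
    intro h
    have := transfer T (s := 2) (by norm_num) (hpw 0 1 (by decide) (by decide)) h
    rw [hm2] at this
    exact hXY this
  obtain ⟨E, i1, i2, ⟨P⟩⟩ := crit_EPic hcr x S T.st.sys T.st.gen
  obtain ⟨c, hc, hq⟩ := P.quad hcr T.st
  set G := P.r - ∑ i, ∑ j, c i j • (P.X i * P.X j) with hG
  have hG1 : G ∈ P.ge ![60, 60, 120] 180 := by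
    refine P.ge_le_ge ?_ hq
    intro w hw
    rw [WF2_wt1] at hw
    have e1 := WF2_wtc 120 w
    rw [e1.1]
    omega
  have hfilt := filt_wfil (a := ![60, 60, 120]) hF2 T.st'.sys
  have hrG : P.r = G + ∑ i, ∑ j, c i j • (P.X i * P.X j) := by
    rw [hG]; abel
  have hρX : ∀ i j : Fin 3, P.ρ (P.X i * P.X j) = x i * x j := by
    intro i j
    have e1 := P.ρ_word [i, j]
    rw [word_cons, word_cons, word_nil, mul_one] at e1
    rw [e1, SSys.pair hF2 T.st.sys]
  have hρ0 : P.ρ G + ∑ i, ∑ j, c i j • (x i * x j) = 0 := by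
    have e1 := P.rho_r
    rw [hrG] at e1
    simp only [map_add, map_sum, map_smul, hρX] at e1
    exact e1
  have hρG : P.ρ G ∈ wfil F S ![60, 60, 120] 121 :=
    hfilt.anti _ _ (by norm_num) (P.rho_ge hF2 T.st'.sys hfilt hG1)
  have hw' : ∀ i j : Fin 3, (i = 2 ∨ j = 2) → x i * x j ∈ wfil F S ![60, 60, 120] 121 := by
    intro i j hij
    rw [← SSys.pair hF2 T.st.sys i j]
    refine mem_wfil ?_
    fin_cases i <;> fin_cases j <;> simp [wt] at hij ⊢
  have hkill : ∀ b ∈ wfil F S ![60, 60, 120] 121, π' 120 b = 0 := by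
    intro b hb
    exact T.G'.kill 120 (by norm_num) b hb
  have hc01 : c 0 1 = 0 := by
    have e1 := congrArg (π' 120) hρ0
    simp only [map_add, map_smul, Fin.sum_univ_three, map_zero] at e1
    rw [hkill _ hρG, hkill _ (hw' 0 2 (by simp)), hkill _ (hw' 1 2 (by simp)),
      hkill _ (hw' 2 0 (by simp)), hkill _ (hw' 2 1 (by simp)), hkill _ (hw' 2 2 (by simp)),
      hXX, hYY, mul_comm (x 1) (x 0), hc 1 0] at e1
    simp only [smul_zero, add_zero, zero_add] at e1
    rw [← two_smul F, smul_smul, smul_eq_zero] at e1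
    rcases e1 with e1 | e1
    · exact (mul_eq_zero.mp e1).resolve_left hF2
    · exact absurd e1 hXY'
  have hvan : ∀ w : List (Fin 3), 360 < wt ![60, 60, 120] w → S w = 0 := T.st'.van
  have hw5 : ∀ i j : Fin 3, P.ρ (P.X i * P.X j * word P.X [0, 1, 2]) = S [i, j, 0, 1, 2] := by
    intro i j
    rw [← P.ρ_word]
    congr 1
    rw [word_cons P.X i, word_cons P.X j, mul_assoc]
  have hρG5 : P.ρ (G * word P.X [0, 1, 2]) = 0 := by
    have e1 : G * word P.X [0, 1, 2] ∈ P.ge ![60, 60, 120] (180 + 240) :=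
      P.mul_mem_ge _ hG1 (P.word_mem_ge _ (by simp [wt]))
    have e2 := P.rho_ge hF2 T.st'.sys hfilt e1
    rw [T.st'.wfil_bot (by norm_num), Submodule.mem_bot] at e2
    exact e2
  have hsysA := T.G'.sys T.st'
  have hw60 : ∀ i : Fin 3, x i ∈ wfil F S ![60, 60, 120] (![60, 60, 120] i) := hfilt.mem
  have hX0 : (fun i => π' (![60, 60, 120] i) (x i)) 0 * (fun i => π' (![60, 60, 120] i) (x i)) 0 =
      0 := by
    have e1 := T.G'.mul 60 60 (by norm_num) (by norm_num) (x 0) (hw60 0) (x 0) (hw60 0)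
    simp only [Matrix.cons_val]
    rw [← e1]
    exact hXX
  have hY0 : (fun i => π' (![60, 60, 120] i) (x i)) 1 * (fun i => π' (![60, 60, 120] i) (x i)) 1 =
      0 := by
    have e1 := T.G'.mul 60 60 (by norm_num) (by norm_num) (x 1) (hw60 1) (x 1) (hw60 1)
    simp only [Matrix.cons_val]
    rw [← e1]
    exact hYY
  have hs0 : S [0, 0, 0, 1, 2] = 0 := by
    refine T.G'.gS_top T.st' _ (by simp [wt]) ?_
    exact SSys.sq_five hF2 hsysA hX0 0 1 2 (Or.inl rfl)
  have hs1 : S [1, 1, 0, 1, 2] = 0 := by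
    refine T.G'.gS_top T.st' _ (by simp [wt]) ?_
    exact SSys.sq_five hF2 hsysA hY0 0 1 2 (Or.inr (Or.inl rfl))
  apply hcr.ne
  have e1 := P.rho_r_word [0, 1, 2]
  have h3 : det3 F [0, 1, 2] = 1 := by simp [det3]
  rw [h3, one_smul] at e1
  rw [← e1, hrG]
  have hS2 : ∀ i j : Fin 3, (i = 2 ∨ j = 2) → S [i, j, 0, 1, 2] = 0 := by
    intro i j hij
    refine hvan _ ?_
    fin_cases i <;> fin_cases j <;> simp [wt] at hij ⊢
  simp only [add_mul, smul_mul_assoc, map_add, map_smul, hρG5, hw5,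
    Fin.sum_univ_three, hs0, hs1, hS2 0 2 (by simp), hS2 1 2 (by simp), hS2 2 0 (by simp),
    hS2 2 1 (by simp), hS2 2 2 (by simp), hc 1 0, hc01, smul_zero, zero_smul, add_zero,
    zero_mul, map_zero]

end JD
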