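import Pool.Agent.H74.JD.FDefs

set_option autoImplicit false
set_option linter.unusedSectionVars false

/-!
# JD FQ: the first alternative of `H6_two`; counting dimensions (helper74)

* `FQ_exists`. PROOF. `E 2 = F q` (`exists_coord`: `q ∈ E 2`, `q ≠ 0`, `φ : A → F` with `φ q = 1`, `h = φ h • q` for `h ∈ E 2`). `β v v' = φ (v * v')`
  (`LinearMap.mul F A` composed with `φ`), `v v' ∈ E 2`. `comm` is the hypothesis. `E3`: `E 3 ≤ {v * q}` (`hG.gen 3`: `v * h`, `h = r • q`; `q' * h = r • q * h = h * ..`). The set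
  `{v * q | v ∈ E 1}` is the submodule `(E 1).map (mul · q)`. `E4`: `hG.gen 4`: `v * (v' * q) = v * (q * v') = q * (v * v') = β v v' • (q * q)` by `comm`, `q' * h ∈ F q * F q`. `E5`: `hG.gen 5`: `v * (r • q * q)`,
  `q * (v * q) = v * (q * q)` (`comm` with `b = q`). `inj3`: `v ↦ v * q` is onto from `E 1` (dimension 2) to `E 3` (dimension 2), so injective. `inj5`: same with `E 5`.
  `nd`: `β v v' = 0` for all `v'` means `v v' = 0` for all `v'`.
* `FZ.dims`: `T ∪ {60, 120, ..., 360}` in `FZ.dim` (disjoint as no element of `T` is divisible by 60), and `finrank (E k) ≤ finrank (D (60 k))`.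
* `FZ.GJ_FQ`: `∑ finrank (E k) ≤ t = 9`: `Egj` gives `GJ`; `H6_two` (sum over `k = 2..5` is `9 - 2 - 1 = 6 ≤ 7`); the second alternative has sum `2 + 2 + 2 + 2 + 1 + 1 = 10`, so the first holds, `FQ_exists`.
-/

namespace JD

universe u

variable {F : Type u} [Field F] {A : Type u} [NonUnitalNonAssocCommRing A] [Module F A]
  [IsScalarTower F A A] [SMulCommClass F A A] {D E : ℕ → Submodule F A} {x y z : A} {w t : ℕ}

private theorem FQ_inj [Module.Finite F A] {V W : Submodule F A} (f : A →ₗ[F] A)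
    (hle : W ≤ V.map f) (hd : Module.finrank F V = Module.finrank F W) :
    ∀ v ∈ V, f v = 0 → v = 0 := by
  intro v hv h0
  have h1 := LinearMap.finrank_range_add_finrank_ker (f.domRestrict V)
  have h2 : LinearMap.range (f.domRestrict V) = V.map f := by
    rw [LinearMap.range_domRestrict]
  have h3 : Module.finrank F W ≤ Module.finrank F (V.map f) := Submodule.finrank_mono hle
  rw [h2] at h1
  have h4 : Module.finrank F (LinearMap.ker (f.domRestrict V)) = 0 := by omega
  have h5 : LinearMap.ker (f.domRestrict V) = ⊥ := Submodule.finrank_eq_zero.mp h4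
  have h6 : (⟨v, hv⟩ : V) ∈ LinearMap.ker (f.domRestrict V) := by
    rw [LinearMap.mem_ker]
    exact h0
  rw [h5, Submodule.mem_bot] at h6
  exact congrArg Subtype.val h6

theorem FQ_exists (hG : GJ F A 6 E) (h1 : Module.finrank F (E 1) = 2)
    (h2 : Module.finrank F (E 2) = 1) (h3 : Module.finrank F (E 3) = 2)
    (h4 : Module.finrank F (E 4) = 1) (h5 : Module.finrank F (E 5) = 2)
    (hc : ∀ v ∈ E 1, ∀ q ∈ E 2, ∀ b : A, v * (q * b) = q * (v * b))
    (hn : ∀ v ∈ E 1, (∀ w ∈ E 1, v * w = 0) → v = 0) :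
    ∃ (q : A) (β : A →ₗ[F] A →ₗ[F] F), FQ F A E q β := by
  have hfin := hG.fin
  obtain ⟨q, hq, hq0, φ, hφq, hφ⟩ := exists_coord h2
  have hmul : ∀ v ∈ E 1, ∀ v' ∈ E 1, v * v' = φ (v * v') • q := fun v hv v' hv' =>
    hφ _ (hG.mul_mem 1 1 le_rfl le_rfl v hv v' hv')
  have hle3 : E 3 ≤ (E 1).map ((LinearMap.mul F A).flip q) := by
    refine hG.gen 3 le_rfl _ ?_ ?_
    · intro v hv h hh
      refine ⟨φ h • v, (E 1).smul_mem _ hv, ?_⟩
      have e := hφ h hh
      change (φ h • v) * q = v * h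
      rw [smul_mul_assoc, ← mul_smul_comm, ← e]
    · intro q' hq' h hh
      refine ⟨φ q' • h, (E 1).smul_mem _ hh, ?_⟩
      have e := hφ q' hq'
      change (φ q' • h) * q = q' * h
      rw [smul_mul_assoc, ← mul_smul_comm, ← e, mul_comm]
  have hE3 : ∀ h ∈ E 3, ∃ v ∈ E 1, h = v * q := by
    intro h hh
    obtain ⟨v, hv, e⟩ := hle3 hh
    exact ⟨v, hv, e.symm⟩
  have hle4 : E 4 ≤ Submodule.span F {q * q} := by
    refine hG.gen 4 (by norm_num) _ ?_ ?_
    · intro v hv h hh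
      obtain ⟨v', hv', e⟩ := hE3 h hh
      rw [Submodule.mem_span_singleton]
      refine ⟨φ (v * v'), ?_⟩
      rw [e, mul_comm v' q, hc v hv q hq v', hmul v hv v' hv']
      rw [mul_smul_comm, map_smul, hφq, smul_eq_mul, mul_one]
    · intro q' hq' h hh
      rw [Submodule.mem_span_singleton]
      refine ⟨φ q' * φ h, ?_⟩
      have e1 := hφ q' hq'
      have e2 := hφ h hh
      have e3 : q' * h = (φ q' • q) * (φ h • q) := by rw [← e1, ← e2]
      rw [e3, smul_mul_assoc, mul_smul_comm, smul_smul]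
  have hE4 : ∀ h ∈ E 4, ∃ r : F, h = r • (q * q) := by
    intro h hh
    obtain ⟨r, e⟩ := Submodule.mem_span_singleton.mp (hle4 hh)
    exact ⟨r, e.symm⟩
  have hle5 : E 5 ≤ (E 1).map ((LinearMap.mul F A).flip (q * q)) := by
    refine hG.gen 5 (by norm_num) _ ?_ ?_
    · intro v hv h hh
      obtain ⟨r, e⟩ := hE4 h hh
      refine ⟨r • v, (E 1).smul_mem _ hv, ?_⟩
      change (r • v) * (q * q) = v * h
      rw [e, smul_mul_assoc, mul_smul_comm]
    · intro q' hq' h hh
      obtain ⟨v, hv, e⟩ := hE3 h hh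
      refine ⟨φ q' • v, (E 1).smul_mem _ hv, ?_⟩
      have e1 := hφ q' hq'
      change (φ q' • v) * (q * q) = q' * h
      have e3 : q' * h = φ q' • (q * h) := by
        rw [← smul_mul_assoc, ← e1]
      rw [e3, e, smul_mul_assoc, hc v hv q hq q]
  refine ⟨q, (LinearMap.mul F A).compr₂ φ, ?_⟩
  refine
    { two := hG.two
      jordan := hG.jordan
      E1d := h1
      qm := hq
      mulV := hmul
      comm := fun v hv b => hc v hv q hq b
      E2 := fun h hh => ⟨φ h, hφ h hh⟩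
      E3 := hE3
      E4 := hE4
      E5 := ?_
      inj3 := ?_
      inj5 := ?_
      nd := ?_ }
  · intro h hh
    obtain ⟨v, hv, e⟩ := hle5 hh
    exact ⟨v, hv, e.symm⟩
  · intro v hv h0
    exact FQ_inj _ hle3 (h1.trans h3.symm) v hv h0
  · intro v hv h0
    exact FQ_inj _ hle5 (h1.trans h5.symm) v hv h0
  · intro v hv h0
    refine hn v hv fun w hw => ?_
    have e : φ (v * w) = 0 := h0 w hw
    rw [hmul v hv w hw, e, zero_smul]

theorem FZ.dims (h : FZ F A D E x y z w t) (T : Finset ℕ) (hT : ∀ s ∈ T, 1 ≤ s ∧ ¬ 60 ∣ s) :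
    (∑ k ∈ Finset.Icc 1 6, Module.finrank F (D (60 * k))) +
      ∑ s ∈ T, Module.finrank F (D s) ≤ 11 ∧
    ∀ k, 1 ≤ k → Module.finrank F (E k) ≤ Module.finrank F (D (60 * k)) := by
  have hfin := h.gf.fin
  refine ⟨?_, fun k hk => Submodule.finrank_mono (h.Ele k hk)⟩
  have h1 : ∑ k ∈ Finset.Icc 1 6, Module.finrank F (D (60 * k)) =
      ∑ s ∈ (Finset.Icc 1 6).image (fun k => 60 * k), Module.finrank F (D s) := by
    rw [Finset.sum_image]
    intro a _ b _ hab
    have hab' : 60 * a = 60 * b := hab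
    omega
  have hdis : Disjoint ((Finset.Icc 1 6).image (fun k => 60 * k)) T := by
    rw [Finset.disjoint_left]
    intro s hs hsT
    obtain ⟨k, -, rfl⟩ := Finset.mem_image.mp hs
    exact (hT _ hsT).2 (Dvd.intro k rfl)
  rw [h1, ← Finset.sum_union hdis]
  refine h.dim _ ?_
  intro s hs
  rcases Finset.mem_union.mp hs with hs | hs
  · obtain ⟨k, hk, rfl⟩ := Finset.mem_image.mp hs
    have := (Finset.mem_Icc.mp hk).1
    omega
  · exact (hT s hs).1

theorem FZ.GJ_FQ (h : FZ F A D E x y z w t) (ht : t = 9)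
    (hE : ∑ k ∈ Finset.Icc 1 6, Module.finrank F (E k) ≤ 9) :
    GJ F A 6 E ∧ ∃ (q : A) (β : A →ₗ[F] A →ₗ[F] F), FQ F A E q β := by
  have hG : GJ F A 6 E := h.Egj (by rw [ht]; exact hE)
  refine ⟨hG, ?_⟩
  have hsum : ∑ k ∈ Finset.Icc 1 6, Module.finrank F (E k) =
      Module.finrank F (E 1) + Module.finrank F (E 2) + Module.finrank F (E 3) +
        Module.finrank F (E 4) + Module.finrank F (E 5) + Module.finrank F (E 6) := by
    have hI : Finset.Icc 1 6 = ({1, 2, 3, 4, 5, 6} : Finset ℕ) := by decide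
    rw [hI]
    simp [Finset.sum_insert, add_assoc]
  have e1 := h.E1d
  have e6 := h.E6d
  rw [hsum] at hE
  rcases H6_two hG e1 (by omega) with ⟨a2, a3, a4, a5, hc, hn⟩ | ⟨a2, a3, a4, a5, -⟩
  · exact FQ_exists hG e1 a2 a3 a4 a5 hc hn
  · omega

end JD
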