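import Pool.Agent.H74.JD.Trans
import Pool.Agent.H74.JD.FQ

set_option autoImplicit false
set_option linter.unusedSectionVars false

/-!
# JD WF2c: the stage `(60, 60, 120)`, first alternative, two-dimensional `E 2` (helper74)

`X = π 1 (x 0)`, `Y = π 1 (x 1)` in the picture `A` of the powers filtration, `π 1 (x 2) = 0`, `X X = Y Y = 0`, `X Y ≠ 0`, `dim D 2 = 1`. The stage `a' = (60, 60, 120)`, `N = 360`, with picture `A', D', π'`;
`E k = (pw F S (fun _ => 1) k).map (π' (60 k))`, `z = π' 120 (x 2)`. `T : Two F x x S S (fun _ => 1) ![60, 60, 120] 6 360 60 e A D π A' D' π'`.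

* `WF2c` (`z ∉ E 2`, `2 ≤ finrank (E 2)`). COUNT: `finrank (D' 120) ≥ finrank (E 2) + 1 ≥ 3`, `finrank (D' (60 k)) ≥ finrank (E k) ≥ finrank (D k)` (`transfer_rank`); `∑_k finrank (D' (60 k)) ≤ 11` (`GPic.sum_le`, `hcr.dim`), `2 + 3 + 2 + 1 + 2 + 1 = 11`: so `D' (60 k) = E k` and `finrank (E k) = finrank (D k)`
  for `k ≠ 2`. CLAIM `π' 120 (x 0 * x 0) = 0`. Let `s` be this element; `π 2 (x 0 * x 0) = 0`. For `b ∈ E k`, `k ≥ 1`: `b s = 0`: `b = π' (60 k) p`, `p ∈ pw k`, `p * (x 0 * x 0) ∈ pw (k+2)`, `π (k+2) (p * (x0 x0)) = π k p * 0 = 0`, `transfer_inj` (`k + 2 ≥ 3`; for `k + 2 > 6` words vanish). `z s ∈ D' 240 = E 4`.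
  `gJ1` (in `A'`, `X' = π' 60 (x 0)`): `(X' X')(X' z) = X' ((X' X') z)`: left side `s (X' z) = 0` as `X' z ∈ D' 180 = E 3`. `E 4 = F π' 240 g4`, where `g4 = (x0 x1)(x0 x1) ∈ pw 4` (`finrank (E 4) = 1`; `π 4 g4 = (XY)(XY) ≠ 0` since `X Y = β(X,Y) q`, `q q ≠ 0`), so `s z = c • π' 240 g4`, and `X' (s z) = c • π' 300 (x0 * g4)`, where
  `π 5 (x0 * g4) = X ((XY)(XY)) ≠ 0` (`FQ.inj5`, `X ≠ 0`), so `π' 300 (x0 g4) ≠ 0` (`transfer`), `c = 0`. So `z s = 0`; `(X' z) s = (Y' z) s = 0` (`∈ E 3 * s`), `(z z) s = 0` (`z z ∈ D' 240 = E 4`). `GPic.kill_all`: `s = 0`. Same for `x 1 * x 1`. So `E 2 = F π' 120 (x0 x1)` has dimension `≤ 1`, contradiction.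
-/

namespace JD

universe u

variable {F : Type u} [Field F] {J : Type u} [NonUnitalNonAssocCommRing J] [Module F J]
  [IsScalarTower F J J] [SMulCommClass F J J] {x : Fin 3 → J} {S : List (Fin 3) → J} {e : J}
  {A : Type u} [NonUnitalNonAssocCommRing A] [Module F A] [IsScalarTower F A A]
  [SMulCommClass F A A] {D : ℕ → Submodule F A} {π : ℕ → J →ₗ[F] A}
  {A' : Type u} [NonUnitalNonAssocCommRing A'] [Module F A'] [IsScalarTower F A' A']
  [SMulCommClass F A' A'] {D' : ℕ → Submodule F A'} {π' : ℕ → J →ₗ[F] A'}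

private theorem WF2c_mem (T : Two F x x S S (fun _ => 1) ![60, 60, 120] 6 360 60 e A D π A' D' π')
    (i : Fin 3) (hi : i ≠ 2) : x i ∈ pw F S (fun _ => 1) 1 := by
  refine Submodule.subset_span ⟨[i], ⟨?_, by simp [wt]⟩, T.st.sys.single i⟩
  intro j hj
  rw [List.mem_singleton] at hj
  rw [hj]; exact hi

private theorem WF2c_mul' (T : Two F x x S S (fun _ => 1) ![60, 60, 120] 6 360 60 e A D π A' D' π')
    {k l : ℕ} (hk : 1 ≤ k) (hl : 1 ≤ l) {p r : J} (hp : p ∈ pw F S (fun _ => 1) k)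
    (hr : r ∈ pw F S (fun _ => 1) l) :
    π' (60 * (k + l)) (p * r) = π' (60 * k) p * π' (60 * l) r := by
  rw [← pw_eq T k] at hp
  rw [← pw_eq T l] at hr
  rw [mul_add]
  exact T.G'.mul (60 * k) (60 * l) (by omega) (by omega) p (pw_le hp) r (pw_le hr)

private theorem WF2c_mul (T : Two F x x S S (fun _ => 1) ![60, 60, 120] 6 360 60 e A D π A' D' π')
    {k l : ℕ} (hk : 1 ≤ k) (hl : 1 ≤ l) {p r : J} (hp : p ∈ pw F S (fun _ => 1) k)
    (hr : r ∈ pw F S (fun _ => 1) l) :
    π (k + l) (p * r) = π k p * π l r :=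
  T.G.mul k l hk hl p (pw_le hp) r (pw_le hr)

private theorem WF2c_z (T : Two F x x S S (fun _ => 1) ![60, 60, 120] 6 360 60 e A D π A' D' π') :
    π' 120 (x 2) ∈ D' 120 := by
  rw [← T.G'.map 120 (by omega)]
  refine Submodule.mem_map_of_mem ?_
  rw [← T.st.sys.single 2]
  exact mem_wfil (by simp [wt])

private theorem WF2c_m (T : Two F x x S S (fun _ => 1) ![60, 60, 120] 6 360 60 e A D π A' D' π')
    (i : Fin 3) (hi : i ≠ 2) : π' 60 (x i) ∈ D' 60 :=
  transfer_le T (s := 1) (by omega) (Submodule.mem_map_of_mem (WF2c_mem T i hi))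

private theorem WF2c_sq (hcr : Crit F J 6 e)
    (T : Two F x x S S (fun _ => 1) ![60, 60, 120] 6 360 60 e A D π A' D' π')
    (h4 : Module.finrank F (D 4) = 1)
    {q : A} {β : A →ₗ[F] A →ₗ[F] F} (hQ : FQ F A D q β)
    (i j : Fin 3) (hi : i ≠ 2) (hj : j ≠ 2)
    (hX : π 1 (x i) * π 1 (x i) = 0) (hXY : π 1 (x i) * π 1 (x j) ≠ 0)
    (hE3 : D' 180 = (pw F S (fun _ => 1) 3).map (π' (60 * 3)))
    (hE4 : D' 240 = (pw F S (fun _ => 1) 4).map (π' (60 * 4)))
    (hd : ∀ k, 3 ≤ k → k ≤ 6 → Module.finrank F ((pw F S (fun _ => 1) k).map (π' (60 * k))) ≤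
      Module.finrank F (D k)) :
    π' 120 (x i * x i) = 0 := by
  have hfJ : Module.Finite F J := hcr.fin
  have hfA : Module.Finite F A' := T.G'.gf.fin
  have h2 : (2 : F) ≠ 0 := hcr.two
  have hxi := WF2c_mem T i hi
  have hxj := WF2c_mem T j hj
  have hii : x i * x i ∈ pw F S (fun _ => 1) 2 :=
    pw_mul (s := 1) (t := 1) h2 T.st.sys hxi hxi
  have hijm : x i * x j ∈ pw F S (fun _ => 1) 2 :=
    pw_mul (s := 1) (t := 1) h2 T.st.sys hxi hxj
  have hs' : π' 120 (x i * x i) = π' 60 (x i) * π' 60 (x i) :=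
    WF2c_mul' T (k := 1) (l := 1) (by omega) (by omega) hxi hxi
  have hs0 : π 2 (x i * x i) = 0 := by
    have := WF2c_mul T (k := 1) (l := 1) (by omega) (by omega) hxi hxi
    rw [hX] at this
    exact this
  have hsD : π' 120 (x i * x i) ∈ D' 120 :=
    transfer_le T (s := 2) (by omega) (Submodule.mem_map_of_mem hii)
  -- (M1)
  have M1 : ∀ k, 1 ≤ k → ∀ b ∈ (pw F S (fun _ => 1) k).map (π' (60 * k)),
      b * π' 120 (x i * x i) = 0 := by
    rintro k hk b ⟨p, hp, rfl⟩
    have e1 : π' (60 * (k + 2)) (p * (x i * x i)) = π' (60 * k) p * π' 120 (x i * x i) :=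
      WF2c_mul' T hk (l := 2) (by omega) hp hii
    have hm : p * (x i * x i) ∈ pw F S (fun _ => 1) (k + 2) :=
      pw_mul (s := k) (t := 2) h2 T.st.sys hp hii
    change π' (60 * k) p * π' 120 (x i * x i) = 0
    rw [← e1]
    by_cases h6 : k + 2 ≤ 6
    · refine transfer_inj T (s := k + 2) (by omega) (hd (k + 2) (by omega) h6) hm ?_
      rw [WF2c_mul T hk (by omega) hp hii, hs0, mul_zero]
    · exact T.G'.gf.above (60 * (k + 2)) (by omega) _
        (transfer_le T (s := k + 2) (by omega) (Submodule.mem_map_of_mem hm))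
  -- (M2)
  have hX1 : π 1 (x i) ∈ D 1 := by
    rw [← T.G.map 1 le_rfl]; exact Submodule.mem_map_of_mem (pw_le hxi)
  have hY1 : π 1 (x j) ∈ D 1 := by
    rw [← T.G.map 1 le_rfl]; exact Submodule.mem_map_of_mem (pw_le hxj)
  have hX0 : π 1 (x i) ≠ 0 := fun h => hXY (by rw [h, zero_mul])
  have hXYq := hQ.mulV _ hX1 _ hY1
  have hβ : β (π 1 (x i)) (π 1 (x j)) ≠ 0 := fun h => hXY (by rw [hXYq, h, zero_smul])
  set b := β (π 1 (x i)) (π 1 (x j)) with hb
  have hg4 : (x i * x j) * (x i * x j) ∈ pw F S (fun _ => 1) 4 :=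
    pw_mul (s := 2) (t := 2) h2 T.st.sys hijm hijm
  have hπ2 : π 2 (x i * x j) = b • q := by
    have := WF2c_mul T (k := 1) (l := 1) (by omega) (by omega) hxi hxj
    rw [hXYq] at this
    exact this
  have hπ4 : π 4 ((x i * x j) * (x i * x j)) = (b * b) • (q * q) := by
    have := WF2c_mul T (k := 2) (l := 2) (by omega) (by omega) hijm hijm
    rw [hπ2, smul_mul_smul_comm] at this
    exact this
  have hqq5 : π 1 (x i) * (q * q) ≠ 0 := fun h => hX0 (hQ.inj5 _ hX1 h)
  have hqq : q * q ≠ 0 := fun h => hqq5 (by rw [h, mul_zero])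
  have hg5 : x i * ((x i * x j) * (x i * x j)) ∈ pw F S (fun _ => 1) 5 :=
    pw_mul (s := 1) (t := 4) h2 T.st.sys hxi hg4
  have hπ5 : π 5 (x i * ((x i * x j) * (x i * x j))) ≠ 0 := by
    have := WF2c_mul T (k := 1) (l := 4) (by omega) (by omega) hxi hg4
    rw [hπ4, mul_smul_comm] at this
    change π (1 + 4) _ ≠ 0
    rw [this]
    exact smul_ne_zero (mul_ne_zero hβ hβ) hqq5
  have hG5 : π' 300 (x i * ((x i * x j) * (x i * x j))) ≠ 0 := fun h =>
    hπ5 (transfer T (s := 5) (by omega) hg5 h)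
  have hG5' : π' 300 (x i * ((x i * x j) * (x i * x j))) =
      π' 60 (x i) * π' 240 ((x i * x j) * (x i * x j)) :=
    WF2c_mul' T (k := 1) (l := 4) (by omega) (by omega) hxi hg4
  have hG4 : π' 240 ((x i * x j) * (x i * x j)) ≠ 0 := fun h => hG5 (by rw [hG5', h, mul_zero])
  have hG4m : π' 240 ((x i * x j) * (x i * x j)) ∈
      (pw F S (fun _ => 1) 4).map (π' (60 * 4)) := Submodule.mem_map_of_mem hg4
  have hE4d : Module.finrank F ((pw F S (fun _ => 1) 4).map (π' (60 * 4))) = 1 := by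
    have a1 := hd 4 (by omega) (by omega)
    rw [h4] at a1
    have a2 := (transfer_rank T (s := 4) (by omega)).1
    omega
  obtain ⟨g, hg, hg0, φ, hφg, hφ⟩ := exists_coord hE4d
  have hGg := hφ _ hG4m
  have hGφ : φ (π' 240 ((x i * x j) * (x i * x j))) ≠ 0 := fun h => hG4 (by
    rw [hGg, h, zero_smul])
  have hz := WF2c_z T
  have hzs : π' 120 (x 2) * π' 120 (x i * x i) = 0 := by
    have hm : π' 120 (x 2) * π' 120 (x i * x i) ∈
        (pw F S (fun _ => 1) 4).map (π' (60 * 4)) := by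
      rw [← hE4]
      exact T.G'.gf.mul_mem 120 120 (by omega) (by omega) _ hz _ hsD
    have hφz := hφ _ hm
    obtain ⟨c, hc⟩ : ∃ c : F, π' 120 (x 2) * π' 120 (x i * x i) =
        c • π' 240 ((x i * x j) * (x i * x j)) := by
      refine ⟨φ (π' 120 (x 2) * π' 120 (x i * x i)) *
        (φ (π' 240 ((x i * x j) * (x i * x j))))⁻¹, ?_⟩
      have hGg' : g = (φ (π' 240 ((x i * x j) * (x i * x j))))⁻¹ •
          π' 240 ((x i * x j) * (x i * x j)) := by
        rw [eq_inv_smul_iff₀ hGφ]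
        exact hGg.symm
      rw [mul_smul, ← hGg']
      exact hφz
    have hJ1 := gJ1 T.G'.gf.jordan (π' 60 (x i)) (π' 120 (x 2))
    have hXz : π' 60 (x i) * π' 120 (x 2) ∈ (pw F S (fun _ => 1) 3).map (π' (60 * 3)) := by
      rw [← hE3]
      exact T.G'.gf.mul_mem 60 120 (by omega) (by omega) _ (WF2c_m T i hi) _ hz
    rw [← hs', mul_comm (π' 120 (x i * x i)) (π' 60 (x i) * π' 120 (x 2)),
      M1 3 (by omega) _ hXz, mul_comm (π' 120 (x i * x i)) (π' 120 (x 2)), hc,
      mul_smul_comm, ← hG5'] at hJ1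
    rcases smul_eq_zero.mp hJ1.symm with h | h
    · rw [hc, h, zero_smul]
    · exact absurd h hG5
  -- (M4)
  refine T.G'.kill_all T.st' (s := 120) (by omega) (by omega) hsD ?_ ?_
  · intro l
    by_cases hl : l = 2
    · subst hl
      exact hzs
    · have hl' : (![60, 60, 120] : Fin 3 → ℕ) l = 60 := by
        fin_cases l
        · rfl
        · rfl
        · exact absurd rfl hl
      rw [hl']
      exact M1 1 (by omega) _ (Submodule.mem_map_of_mem (WF2c_mem T l hl))
  · intro l l'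
    by_cases hl : l = 2
    · subst hl
      by_cases hl2 : l' = 2
      · subst hl2
        refine M1 4 (by omega) _ ?_
        rw [← hE4]
        exact T.G'.gf.mul_mem 120 120 (by omega) (by omega) _ hz _ hz
      · have hl' : (![60, 60, 120] : Fin 3 → ℕ) l' = 60 := by
          fin_cases l'
          · rfl
          · rfl
          · exact absurd rfl hl2
        rw [hl']
        refine M1 3 (by omega) _ ?_
        rw [← hE3]
        exact T.G'.gf.mul_mem 120 60 (by omega) (by omega) _ hz _ (WF2c_m T l' hl2)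
    · have hl' : (![60, 60, 120] : Fin 3 → ℕ) l = 60 := by
        fin_cases l
        · rfl
        · rfl
        · exact absurd rfl hl
      rw [hl']
      by_cases hl2 : l' = 2
      · subst hl2
        refine M1 3 (by omega) _ ?_
        rw [← hE3]
        exact T.G'.gf.mul_mem 60 120 (by omega) (by omega) _ (WF2c_m T l hl) _ hz
      · have hl'' : (![60, 60, 120] : Fin 3 → ℕ) l' = 60 := by
          fin_cases l'
          · rfl
          · rfl
          · exact absurd rfl hl2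
        rw [hl'']
        refine M1 2 (by omega) _ ?_
        rw [← WF2c_mul' T (k := 1) (l := 1) (by omega) (by omega) (WF2c_mem T l hl)
          (WF2c_mem T l' hl2)]
        exact Submodule.mem_map_of_mem
          (pw_mul (s := 1) (t := 1) h2 T.st.sys (WF2c_mem T l hl) (WF2c_mem T l' hl2))

theorem WF2c (hcr : Crit F J 6 e)
    (T : Two F x x S S (fun _ => 1) ![60, 60, 120] 6 360 60 e A D π A' D' π')
    (h1 : Module.finrank F (D 1) = 2) (h2 : Module.finrank F (D 2) = 1)
    (h3 : Module.finrank F (D 3) = 2) (h4 : Module.finrank F (D 4) = 1)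
    (h5 : Module.finrank F (D 5) = 2) (h6 : Module.finrank F (D 6) = 1)
    {q : A} {β : A →ₗ[F] A →ₗ[F] F} (hQ : FQ F A D q β)
    (hX : π 1 (x 0) * π 1 (x 0) = 0) (hY : π 1 (x 1) * π 1 (x 1) = 0)
    (hXY : π 1 (x 0) * π 1 (x 1) ≠ 0)
    (hz : π' 120 (x 2) ∉ (pw F S (fun _ => 1) 2).map (π' 120))
    (hE : 2 ≤ Module.finrank F ((pw F S (fun _ => 1) 2).map (π' 120))) : False := by
  have hfJ : Module.Finite F J := hcr.fin
  have hfA : Module.Finite F A' := T.G'.gf.fin
  have h2' : (2 : F) ≠ 0 := hcr.two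
  have r1 := transfer_rank T (s := 1) (by omega)
  have r2 := transfer_rank T (s := 2) (by omega)
  have r3 := transfer_rank T (s := 3) (by omega)
  have r4 := transfer_rank T (s := 4) (by omega)
  have r5 := transfer_rank T (s := 5) (by omega)
  have r6 := transfer_rank T (s := 6) (by omega)
  rw [h1] at r1
  rw [h3] at r3
  rw [h4] at r4
  rw [h5] at r5
  rw [h6] at r6
  have hlt : Module.finrank F ((pw F S (fun _ => 1) 2).map (π' 120)) <
      Module.finrank F (D' 120) := by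
    apply Submodule.finrank_lt_finrank_of_lt
    refine lt_of_le_of_ne (transfer_le T (s := 2) (by omega)) ?_
    intro h
    exact hz (by rw [h]; exact WF2c_z T)
  have hsum := T.G'.sum_le {60, 120, 180, 240, 300, 360} (by
    intro s hs
    simp only [Finset.mem_insert, Finset.mem_singleton] at hs
    omega)
  rw [Finset.sum_insert (by decide), Finset.sum_insert (by decide), Finset.sum_insert (by decide),
    Finset.sum_insert (by decide), Finset.sum_insert (by decide), Finset.sum_singleton] at hsum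
  have hdim := hcr.dim
  change 2 ≤ _ ∧ _ ≤ Module.finrank F (D' 60) at r1
  change 2 ≤ _ ∧ _ ≤ Module.finrank F (D' 180) at r3
  change 1 ≤ _ ∧ _ ≤ Module.finrank F (D' 240) at r4
  change 2 ≤ _ ∧ _ ≤ Module.finrank F (D' 300) at r5
  change 1 ≤ _ ∧ _ ≤ Module.finrank F (D' 360) at r6
  have hE3 : D' 180 = (pw F S (fun _ => 1) 3).map (π' (60 * 3)) :=
    (Submodule.eq_of_le_of_finrank_le (transfer_le T (s := 3) (by omega)) (by
      change Module.finrank F (D' 180) ≤ _
      omega)).symm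
  have hE4 : D' 240 = (pw F S (fun _ => 1) 4).map (π' (60 * 4)) :=
    (Submodule.eq_of_le_of_finrank_le (transfer_le T (s := 4) (by omega)) (by
      change Module.finrank F (D' 240) ≤ _
      omega)).symm
  have hd : ∀ k, 3 ≤ k → k ≤ 6 → Module.finrank F ((pw F S (fun _ => 1) k).map (π' (60 * k))) ≤
      Module.finrank F (D k) := by
    intro k hk1 hk2
    obtain rfl | rfl | rfl | rfl : k = 3 ∨ k = 4 ∨ k = 5 ∨ k = 6 := by omega
    · omega
    · omega
    · omega
    · omega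
  have c0 : π' 120 (x 0 * x 0) = 0 := WF2c_sq hcr T h4 hQ 0 1 (by decide) (by decide)
    hX hXY hE3 hE4 hd
  have c1 : π' 120 (x 1 * x 1) = 0 := WF2c_sq hcr T h4 hQ 1 0 (by decide) (by decide)
    hY (by rw [mul_comm]; exact hXY) hE3 hE4 hd
  have hle : (pw F S (fun _ => 1) 2).map (π' 120) ≤ Submodule.span F {π' 120 (x 0 * x 1)} := by
    rw [Submodule.map_le_iff_le_comap, pw, Submodule.span_le]
    rintro _ ⟨w, ⟨hw, hl⟩, rfl⟩
    rw [wt_one] at hl
    obtain ⟨i, j, rfl⟩ := List.length_eq_two.mp hl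
    have hi := hw i (by simp)
    have hj := hw j (by simp)
    change π' 120 (S [i, j]) ∈ Submodule.span F {π' 120 (x 0 * x 1)}
    rw [T.st.sys.pair h2']
    have key : ∀ i : Fin 3, i ≠ 2 → i = 0 ∨ i = 1 := by decide
    have hi' := key i hi
    have hj' := key j hj
    rcases hi' with rfl | rfl <;> rcases hj' with rfl | rfl
    · rw [c0]; exact Submodule.zero_mem _
    · exact Submodule.mem_span_singleton_self _
    · rw [mul_comm]; exact Submodule.mem_span_singleton_self _
    · rw [c1]; exact Submodule.zero_mem _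
  have := Submodule.finrank_mono hle
  have h1' := finrank_span_le_card (R := F) ({π' 120 (x 0 * x 1)} : Set A')
  simp only [Set.toFinset_singleton, Finset.card_singleton] at h1'
  omega

end JD
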