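import Pool.Agent.H74.JD.FSweep
import Pool.Agent.H74.JD.WF1
import Pool.Agent.H74.JD.WF2
import Pool.Agent.H74.JD.WF2c
import Pool.Agent.H74.JD.Adapt

set_option autoImplicit false
set_option linter.unusedSectionVars false

/-!
# JD FMain: class 6, three generators, two essential letters (helper74)

PROOF of `F_false`. COUNT: `∑_(k=2..6) finrank (D k) ≤ finrank (J^2) = finrank J - 3 ≤ 8` (`GPic.lay` for `k = 2..6`, `jpow 7 = ⊥`; `ngen = 3` is `finrank (J ⧸ J^2)`), `finrank (D 6) = 1`, so `H6_two` applies (sum over `k = 2..5` at most 7).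
FIRST ALTERNATIVE. `FQ_exists` gives `q, β`. `isotropic`: there are `v0, v1 ∈ D 1` with `β v0 v0 = β v1 v1 = 0`, `β v0 v1 ≠ 0` (`F` algebraically closed, `β` symmetric nondegenerate on the plane `D 1`: take a basis `a, b`; if `β a a = 0` put `v0 = a`; else `v0 = b + t a` with `t` a root of the quadratic polynomial
`β(b + t a, b + t a)`; there is `c ∈ D 1` with `β v0 c ≠ 0`, and `v1 = c - (β c c / (2 β v0 c)) v0`). `v0, v1` are independent. `exists_adapted2` gives `x`, `exists_Stg_of_basis` gives `S`, the first stage. Rewrite `G` with `wfil F S (fun _ => 1) = jpow F J`.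
`F_sweep` with `W = 120`: `Stg F x S ![60,60,120] 360 e`; `exists_GPic`; `Two`. If `π' 120 (x 2) ∈ E 2`: `WF2a`. Otherwise `WF2b` or `WF2c`.
SECOND ALTERNATIVE. `hP : PS D s1 s2 l l m Δ`, dual vectors `v0, v1` (`l v0 = 1, m v0 = 0, l v1 = 0, m v1 = 1`): `v0 v0 = s1`, `2 v0 v1 = s2` (`PS.polar`), `v1 v1 = 0`. `exists_adapted2`, `exists_Stg_of_basis`, `F_sweep` with `W = 91`, `WF1`. The sum of the dimensions is `≥ 9` in both cases.
-/

namespace JD

universe u

variable {F : Type u} [Field F] {J : Type u} [NonUnitalNonAssocCommRing J] [Module F J]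
  [IsScalarTower F J J] [SMulCommClass F J J] {e : J}
  {A : Type u} [NonUnitalNonAssocCommRing A] [Module F A] [IsScalarTower F A A]
  [SMulCommClass F A A] {D : ℕ → Submodule F A} {π : ℕ → J →ₗ[F] A}

/-- an isotropic basis -/
theorem isotropic [IsAlgClosed F] {q : A} {β : A →ₗ[F] A →ₗ[F] F} (hQ : FQ F A D q β) :
    ∃ v0 ∈ D 1, ∃ v1 ∈ D 1, β v0 v0 = 0 ∧ β v1 v1 = 0 ∧ β v0 v1 ≠ 0 ∧
      ∀ r s : F, r • v0 + s • v1 = 0 → r = 0 ∧ s = 0 := by
  have h2 := hQ.two
  -- a basis of `D 1`
  have : Module.Finite F (D 1) := Module.finite_of_finrank_pos (by rw [hQ.E1d]; norm_num)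
  let B := Module.finBasisOfFinrankEq F (D 1) hQ.E1d
  have hBli := B.linearIndependent
  have hB : ∀ r s : F, r • (B 0 : A) + s • (B 1 : A) = 0 → r = 0 ∧ s = 0 := by
    intro r s h
    have h' : r • B 0 + s • B 1 = 0 := Subtype.ext (by simpa using h)
    have := LinearIndependent.pair_iff.mp (by
      have := hBli
      have h3 : (![B 0, B 1] : Fin 2 → D 1) = B := by
        ext i
        fin_cases i <;> rfl
      rw [← h3] at this
      exact this) r s h'
    exact this
  have ha : (B 0 : A) ∈ D 1 := (B 0).2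
  have hb : (B 1 : A) ∈ D 1 := (B 1).2
  have ha0 : (B 0 : A) ≠ 0 := by
    intro h
    have := hB 1 0 (by rw [h]; simp)
    exact one_ne_zero this.1
  have hq0 : q ≠ 0 := by
    intro h
    exact ha0 (hQ.inj3 _ ha (by rw [h, mul_zero]))
  have hsymm : ∀ v ∈ D 1, ∀ w ∈ D 1, β v w = β w v := by
    intro v hv w hw
    have e1 := hQ.mulV v hv w hw
    have e2 := hQ.mulV w hw v hv
    rw [mul_comm v w, e2] at e1
    by_contra hne
    have h3 : (β w v - β v w) • q = 0 := by rw [sub_smul, e1, sub_self]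
    rcases smul_eq_zero.mp h3 with h | h
    · exact hne (sub_eq_zero.mp h).symm
    · exact hq0 h
  -- an isotropic vector
  have hiso : ∃ v0 ∈ D 1, v0 ≠ 0 ∧ β v0 v0 = 0 := by
    by_cases haa : β (B 0 : A) (B 0 : A) = 0
    · exact ⟨_, ha, ha0, haa⟩
    · have hdeg : ∃ t : F, β (B 0 : A) (B 0 : A) * (t * t) + (2 * β (B 0 : A) (B 1 : A)) * t +
          β (B 1 : A) (B 1 : A) = 0 := by
        obtain ⟨z, hz⟩ := IsAlgClosed.exists_pow_nat_eq
          (β (B 0 : A) (B 1 : A) ^ 2 - β (B 0 : A) (B 0 : A) * β (B 1 : A) (B 1 : A))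
          (n := 2) (by norm_num)
        refine ⟨(z - β (B 0 : A) (B 1 : A)) / β (B 0 : A) (B 0 : A), ?_⟩
        field_simp
        linear_combination hz
      obtain ⟨t, ht⟩ := hdeg
      refine ⟨(B 1 : A) + t • (B 0 : A), (D 1).add_mem hb ((D 1).smul_mem _ ha), ?_, ?_⟩
      · intro h
        have := hB t 1 (by rw [one_smul, add_comm, h])
        exact one_ne_zero this.2
      · simp only [map_add, map_smul, LinearMap.add_apply, LinearMap.smul_apply, smul_eq_mul]
        rw [hsymm _ hb _ ha]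
        linear_combination ht
  obtain ⟨v0, hv0, hv00, hb0⟩ := hiso
  have hc : ∃ c ∈ D 1, β v0 c ≠ 0 := by
    by_contra hno
    push Not at hno
    exact hv00 (hQ.nd v0 hv0 hno)
  obtain ⟨c, hc, hbc⟩ := hc
  have hv1 : c - (β c c / (2 * β v0 c)) • v0 ∈ D 1 :=
    (D 1).sub_mem hc ((D 1).smul_mem _ hv0)
  have h01 : β v0 (c - (β c c / (2 * β v0 c)) • v0) = β v0 c := by
    rw [map_sub, map_smul, hb0, smul_zero, sub_zero]
  have h11 : β (c - (β c c / (2 * β v0 c)) • v0) (c - (β c c / (2 * β v0 c)) • v0) = 0 := by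
    simp only [map_sub, map_smul, LinearMap.sub_apply, LinearMap.smul_apply, smul_eq_mul, hb0]
    rw [hsymm c hc v0 hv0]
    field_simp
    ring
  refine ⟨v0, hv0, c - (β c c / (2 * β v0 c)) • v0, hv1, hb0, h11, by rw [h01]; exact hbc, ?_⟩
  intro r s h
  have e1 := congrArg (β v0) h
  rw [map_add, map_smul, map_smul, hb0, h01, map_zero, smul_zero, zero_add, smul_eq_mul] at e1
  have hs : s = 0 := by
    rcases mul_eq_zero.mp e1 with h' | h'
    · exact h'
    · exact absurd h' hbc
  refine ⟨?_, hs⟩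
  rw [hs, zero_smul, add_zero] at h
  rcases smul_eq_zero.mp h with h' | h'
  · exact h'
  · exact absurd h' hv00

/-- the layers from 2 on -/
theorem lay_sum (hcr : Crit F J 6 e) (hn : ngen F J = 3) (G : GPic F (jpow F J) 6 A D π) :
    Module.finrank F (D 2) + Module.finrank F (D 3) + Module.finrank F (D 4) +
      Module.finrank F (D 5) + Module.finrank F (D 6) ≤ 8 := by
  have := hcr.fin
  have l2 : Module.finrank F (D 2) + Module.finrank F (jpow F J 3) ≤
    Module.finrank F (jpow F J 2) := G.lay 2 (by norm_num)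
  have l3 : Module.finrank F (D 3) + Module.finrank F (jpow F J 4) ≤
    Module.finrank F (jpow F J 3) := G.lay 3 (by norm_num)
  have l4 : Module.finrank F (D 4) + Module.finrank F (jpow F J 5) ≤
    Module.finrank F (jpow F J 4) := G.lay 4 (by norm_num)
  have l5 : Module.finrank F (D 5) + Module.finrank F (jpow F J 6) ≤
    Module.finrank F (jpow F J 5) := G.lay 5 (by norm_num)
  have l6 : Module.finrank F (D 6) + Module.finrank F (jpow F J 7) ≤
    Module.finrank F (jpow F J 6) := G.lay 6 (by norm_num)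
  have hq := Submodule.finrank_quotient_add_finrank (jpow F J 2)
  have hn' : Module.finrank F (J ⧸ jpow F J 2) = 3 := hn
  have hd := hcr.dim
  omega

theorem F_false [IsAlgClosed F] (hcr : Crit F J 6 e) (hn : ngen F J = 3) (hG : GJ F A 6 D)
    (G : GPic F (jpow F J) 6 A D π) (h1 : Module.finrank F (D 1) = 2) : False := by
  have := hcr.fin
  have : Infinite F := IsAlgClosed.instInfinite
  have hsum := lay_sum hcr hn G
  have h6 := hG.top
  have hcase := H6_two hG h1 (by omega)
  have hsumI : ∀ f : ℕ → ℕ, ∑ k ∈ Finset.Icc 1 6, f k = f 1 + f 2 + f 3 + f 4 + f 5 + f 6 := by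
    intro f
    simp [Finset.sum_Icc_succ_top]
  rcases hcase with ⟨h2, h3, h4, h5, hc, hnd⟩ | ⟨h2, h3, h4, h5, s1, s2, l, m, Δ, hP⟩
  · -- first alternative
    obtain ⟨q, β, hQ⟩ := FQ_exists hG h1 h2 h3 h4 h5 hc hnd
    obtain ⟨v0, hv0, v1, hv1, b0, b1, b01, hli⟩ := isotropic hQ
    obtain ⟨x, hx, x0, x1, x2⟩ := exists_adapted2 hcr hn G h1 v0 v1 hv0 hv1 hli
    obtain ⟨S, hS, hw⟩ := exists_Stg_of_basis hcr hn x hx
    rw [← hw] at G
    have ht : 9 ≤ ∑ k ∈ Finset.Icc 1 6, Module.finrank F (D k) := by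
      rw [hsumI]
      omega
    have h' := F_sweep hcr hG G hS x2 h1 ht 120 (by norm_num) le_rfl
    obtain ⟨A', i1, i2, i3, i4, D', π', G'⟩ := exists_GPic hcr.two hcr.jordan h'
    have T : Two F x x S S (fun _ => 1) ![60, 60, 120] 6 360 60 e A D π A' D' π' :=
      { hm := by norm_num
        st := hS
        st' := h'
        G := G
        G' := G'
        a0 := by simp
        a1 := by simp
        hN := by norm_num
        SS := fun w _ => rfl
        z0 := x2 }
    have hq0 : q ≠ 0 := by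
      intro h
      have := hQ.mulV v0 hv0 v1 hv1
      have hv : v0 = 0 := hQ.inj3 v0 hv0 (by rw [h, mul_zero])
      rw [hv, map_zero, LinearMap.zero_apply] at b01
      exact b01 rfl
    have hX : π 1 (x 0) * π 1 (x 0) = 0 := by
      rw [x0, hQ.mulV v0 hv0 v0 hv0, b0, zero_smul]
    have hY : π 1 (x 1) * π 1 (x 1) = 0 := by
      rw [x1, hQ.mulV v1 hv1 v1 hv1, b1, zero_smul]
    have hXY : π 1 (x 0) * π 1 (x 1) ≠ 0 := by
      rw [x0, x1, hQ.mulV v0 hv0 v1 hv1]
      exact smul_ne_zero b01 hq0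
    by_cases hz : π' 120 (x 2) ∈ (pw F S (fun _ => 1) 2).map (π' 120)
    · exact WF2a hcr T hz
    · by_cases hE : Module.finrank F ((pw F S (fun _ => 1) 2).map (π' 120)) ≤ 1
      · exact WF2b hcr T h2 hX hY hXY hE
      · exact WF2c hcr T h1 h2 h3 h4 h5 h6 hQ hX hY hXY hz (by omega)
  · -- second alternative
    obtain ⟨v0, hv0, v1, hv1, a1, a2, a3, a4⟩ := hP.dual
    have hli : ∀ r s : F, r • v0 + s • v1 = 0 → r = 0 ∧ s = 0 := by
      intro r s h
      have e1 := congrArg l h
      have e2 := congrArg m h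
      simp only [map_add, map_smul, a1, a2, a3, a4, smul_eq_mul, mul_one, mul_zero, add_zero,
        zero_add, map_zero] at e1 e2
      exact ⟨e1, e2⟩
    obtain ⟨x, hx, x0, x1, x2⟩ := exists_adapted2 hcr hn G h1 v0 v1 hv0 hv1 hli
    obtain ⟨S, hS, hw⟩ := exists_Stg_of_basis hcr hn x hx
    rw [← hw] at G
    have ht : 9 ≤ ∑ k ∈ Finset.Icc 1 6, Module.finrank F (D k) := by
      rw [hsumI]
      omega
    have h' := F_sweep hcr hG G hS x2 h1 ht 91 (by norm_num) (by norm_num)
    refine WF1 hcr G hS h' x2 ?_ ?_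
    · intro r s h
      rw [x0, x1] at h
      have e1 : v0 * v0 = s1 := by
        rw [hP.sq v0 hv0, a1, a2]
        simp
      have e2 : (2 : F) • (v0 * v1) = s2 := by
        rw [hP.polar hcr.two v0 hv0 v1 hv1, a1, a2, a3, a4]
        simp
      have h3 : (2 * r) • s1 + s • s2 = 0 := by
        rw [← e1, ← e2]
        have := congrArg (fun u => (2 : F) • u) h
        simp only [smul_add, smul_zero, smul_smul] at this
        rw [smul_smul, mul_comm s 2]
        exact this
      obtain ⟨h4, h5'⟩ := hP.li _ _ h3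
      exact ⟨(mul_eq_zero.mp h4).resolve_left hcr.two, h5'⟩
    · rw [x1, hP.sq v1 hv1, a3, zero_smul]

end JD
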