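import Pool.Agent.H74.JD.FIntro
import Pool.Agent.H74.JD.FCaseB
import Pool.Agent.H74.JD.FCaseA2
import Pool.Agent.H74.JD.FCaseA1b

set_option autoImplicit false
set_option linter.unusedSectionVars false

/-!
# JD FSweep: raising the weight of the third letter up to 120 (helper74)

* `FZ_false`: the cases `FZ.caseB`, `FZ.caseA2`, `FZ.caseA1a`, `FZ.caseA1b`, `FZ.caseA1c`.
* `F_sweep`. PROOF. `h.ne` gives a word `v` of length 6 with `S v ≠ 0`; it does not contain 2 (`GPic.zero_top` with `hz`), so `wt ![60, 60, W] v = 360` for all `W`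
  (`wt_cnt`). Induction on `W`. Base `W = 61`: `Stg.raise_cnt` with `L = (· = 2)`: `360 < 60 i + 60 j + 61 k`, `i + j + k ≤ 6` implies `i + j + k = 6`, `1 ≤ k`. Step `W → W + 1` (`W ≤ 119`): `exists_GPic` for the stage `W`: `A', D', π'`.
  `Two F x x S S (fun _ => 1) ![60, 60, W] 6 360 60 e ...`. If `π' W (x 2) ≠ 0`: `FZ_intro`, `FZ_false`. So `π' W (x 2) = 0`, `GPic.zero_top` and `Stg.raise_cnt` with `L = (· = 2)`: if
  `360 < 60 i + 60 j + (W+1) k` and `i + j + k ≤ 6` then `360 < 60 i + 60 j + W k` or (`= 360` and `1 ≤ k`): `interval_cases k`, `omega` (if `60 (i + j) + W k = 360 - t`, `0 ≤ t < k ≤ 6`, then `k ∣ 60` gives `k ∣ t`, `t = 0`).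
-/

namespace JD

universe u

variable {F : Type u} [Field F] {J : Type u} [NonUnitalNonAssocCommRing J] [Module F J]
  [IsScalarTower F J J] [SMulCommClass F J J] {x : Fin 3 → J} {S : List (Fin 3) → J} {e : J}
  {A : Type u} [NonUnitalNonAssocCommRing A] [Module F A] [IsScalarTower F A A]
  [SMulCommClass F A A] {D : ℕ → Submodule F A} {π : ℕ → J →ₗ[F] A}

theorem FZ_false {E : ℕ → Submodule F A} {a b c : A} {w t : ℕ} (h : FZ F A D E a b c w t) :
    False := by
  by_cases h1 : a * c = 0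
  swap
  · exact h.caseB (Or.inl h1)
  by_cases h2 : b * c = 0
  swap
  · exact h.caseB (Or.inr h2)
  by_cases h3 : (a * a) * c = 0
  swap
  · exact h.caseA2 h1 h2 (Or.inl h3)
  by_cases h4 : (a * b) * c = 0
  swap
  · exact h.caseA2 h1 h2 (Or.inr (Or.inl h4))
  by_cases h5 : (b * b) * c = 0
  swap
  · exact h.caseA2 h1 h2 (Or.inr (Or.inr h5))
  by_cases h6 : w = 90
  swap
  · exact h.caseA1a h1 h2 h3 h4 h5 h6
  by_cases h7 : c * c ∈ E 3
  · exact h.caseA1c h1 h2 h3 h4 h5 h6 h7
  · exact h.caseA1b h1 h2 h3 h4 h5 h6 h7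

theorem F_sweep [Infinite F] (hcr : Crit F J 6 e) (hG : GJ F A 6 D)
    (G : GPic F (wfil F S (fun _ => 1)) 6 A D π) (h : Stg F x S (fun _ => 1) 6 e)
    (hz : π 1 (x 2) = 0) (h1 : Module.finrank F (D 1) = 2)
    (ht : 9 ≤ ∑ k ∈ Finset.Icc 1 6, Module.finrank F (D k)) (W : ℕ) (hW : 61 ≤ W)
    (hW' : W ≤ 120) : Stg F x S ![60, 60, W] 360 e := by
  have hfin : Module.Finite F J := hcr.fin
  have hzt : ∀ w : List (Fin 3), wt (fun _ => 1) w = 6 → (2 : Fin 3) ∈ w → S w = 0 :=
    fun w hw h2w => G.zero_top hcr.two h (i := 2) hz w hw h2w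
  obtain ⟨v, hv, hSv⟩ := h.ne
  have hv2 : (2 : Fin 3) ∉ v := fun h2 => hSv (hzt v hv h2)
  have hv0 : v.count 2 = 0 := List.count_eq_zero.2 hv2
  have hvc : v.count 0 + v.count 1 = 6 := by
    have h2 := (wt_cnt (fun _ => 1) v).1
    rw [hv, hv0] at h2
    omega
  have hvW : ∀ W : ℕ, wt ![60, 60, W] v = 360 := by
    intro W
    have h2 := (wt_cnt ![60, 60, W] v).1
    rw [h2, hv0]
    simp only [Matrix.cons_val_zero, Matrix.cons_val_one, mul_zero, add_zero]
    omega
  have hpos : ∀ W : ℕ, 1 ≤ W → ∀ i : Fin 3, 1 ≤ (![60, 60, W] : Fin 3 → ℕ) i := by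
    intro W h1W i
    fin_cases i
    · simp
    · simp
    · simpa using h1W
  clear hv
  induction W, hW using Nat.le_induction with
  | base =>
    refine h.raise_cnt hcr (fun i => i = 2) ?_ ![60, 60, 61] 360 (hpos 61 (by norm_num)) ?_
      ⟨v, hvW 61, hSv⟩
    · rintro i rfl w hw hiw
      exact hzt w hw hiw
    · intro i j k hijk hlt
      have h3 : (360 : ℕ) < 60 * i + 60 * j + 61 * k := by simpa using hlt
      right
      refine ⟨?_, Or.inr (Or.inr ⟨rfl, ?_⟩)⟩
      · show 1 * i + 1 * j + 1 * k = 6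
        omega
      · omega
  | succ W hW ih =>
    have ih' := ih (by omega)
    obtain ⟨A', i1, i2, i3, i4, D', π', G'⟩ := exists_GPic hcr.two hcr.jordan ih'
    have T : Two F x x S S (fun _ => 1) ![60, 60, W] 6 360 60 e A D π A' D' π' :=
      { hm := by norm_num
        st := h
        st' := ih'
        G := G
        G' := G'
        a0 := by simp
        a1 := by simp
        hN := by norm_num
        SS := fun _ _ => rfl
        z0 := hz }
    by_cases hz' : π' W (x 2) = 0
    swap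
    · exact (FZ_false (FZ_intro hcr T hG h1 ht hW (by omega) hz')).elim
    refine ih'.raise_cnt hcr (fun i => i = 2) ?_ ![60, 60, W + 1] 360 (hpos (W + 1) (by omega)) ?_
      ⟨v, hvW (W + 1), hSv⟩
    · rintro i rfl w hw hiw
      exact G'.zero_top hcr.two ih' (i := 2) (by simpa using hz') w hw hiw
    · intro i j k hijk hlt
      have h3 : (360 : ℕ) < 60 * i + 60 * j + (W + 1) * k := by simpa using hlt
      have h4 : 360 < 60 * i + 60 * j + W * k ∨ (60 * i + 60 * j + W * k = 360 ∧ 1 ≤ k) := by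
        have hk : k ≤ 6 := by omega
        interval_cases k <;> omega
      rcases h4 with h4 | ⟨h4, h5⟩
      · left
        simpa using h4
      · right
        refine ⟨?_, Or.inr (Or.inr ⟨rfl, h5⟩)⟩
        simpa using h4

end JD
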