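import Pool.Agent.H9.JH.Defs

set_option autoImplicit false
set_option linter.unusedSectionVars false

/-!
# JD GJ5: graded cocyclic algebras of class 5 with one or two generators (helper74)

`a, b, d, v, w ∈ W = D 1`, `p, q, q' ∈ D 2`.

* `GJ5_one`. `D 2 ≤ F y y` (`gen2`), `D 3 ≤ F y (y y)` (`gen 3`; `q v ∈ F (y y) y`), `D 4 ≤ F y (y (y y))` (`gen 4`; `(y y)(y y) = y (y (y y))` by `gJ1 y y`), `D 5 ≤ F y (y (y (y y)))` (`gen 5`; `(y y)(y (y y)) = y ((y y)(y y))` by `gJ1 y (y y)`).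
  `finrank (D 5) = 1`, so `y (y (y (y y))) ≠ 0`.
* `GJ5_two`. PROOF. (a) `D 2 ≠ ⊥`: otherwise `D n = ⊥` for `n ≥ 3` (`gen`).
  (b) `D 3 ≠ ⊥`. Suppose `D 3 = ⊥`. `T(a; q; q') = a (q q')` is symmetric in `q, q'`. `gJ1 a q`: `a ((a a) q) = (a a)(a q) = 0` (`a q ∈ D 3`): `T(a; aa; q) = 0` (1). Polarisation (replace `a` by `a + b`, `a - b`): `T(b; aa; q) + 2 T(a; ab; q) = 0` (2).
  Basis `y, z` of `W`, `q, q' ∈ span {yy, yz, zz}`: (1) `T(y; yy; ·) = T(z; zz; ·) = 0`; (2) with `a = y, b = z`: `q = yy`: `T(z; yy; yy) = 0`; `q = yz`: `T(z; yy; yz) = -2 T(y; yz; yz)`; `q = zz`: `0 = T(z; yy; zz) = -2 T(y; yz; zz)`; (2) with `a = z, b = y`: `q = zz`: `T(y; zz; zz) = 0`; `q = yz`: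
  `T(y; zz; yz) = -2 T(z; yz; yz)`, so `T(z; yz; yz) = 0`; `q = yy`: `0 = T(y; zz; yy) = -2 T(z; yz; yy)`, so `T(y; yz; yz) = 0`. So `T = 0`: `a (q q') = 0`. `D 4 ≤ {q q'}`-span (`gen 4`, `D 3 = ⊥`), so `a h = 0` for `h ∈ D 4`, `D 5 = ⊥` by `gen 5`, contradiction.
  (c) `D 4 ≠ ⊥`. Suppose `D 4 = ⊥`: `a ((b c) ..)`: all elements of `D 4` vanish. `G(p; a; q) = p (a q) ∈ D 5`. `gJ1 a q`: `(a a)(a q) = a ((a a) q) = 0`. Polarise twice: `(a b)(d q) + (a d)(b q) + (b d)(a q) = 0`. `gJ4 a b d q`: `((a b) d) q = (a b)(d q) + (a d)(b q) + (b d)(a q) - a (d (b q)) - b (d (a q))`,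
  where `d (b q) ∈ D 4 = ⊥`. So `((a b) d) q = 0`, `h q = 0` for `h ∈ D 3` (`gen 3`, `gen2`), so `D 5 = ⊥` (`gen 5`), contradiction.
  (d) Suppose `finrank (D 2) = finrank (D 3) = finrank (D 4) = 1`: `D 2 = F s`, `w w' = b(w,w') s` (`exists_coord`). `gJ1 w h`: `b(w,w) (s (w h) - w (s h)) = 0`, so by `GJ.dense` `s (w h) = w (s h)` for all `w ∈ W` and all `h`. `finrank (D 3) = 1 < 2`: there is `v ≠ 0` in `W` with `s v = 0`. `D 4 ≤ F s s` (`gen 4`: `w (w' s) = s (w w') = b(w,w') s s`), so `s s ≠ 0`.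
  `b(w,v) s s = s (w v) = w (s v) = 0`, so `w v = 0` for all `w ∈ W`, and `q v = 0` for `q ∈ D 2`; `nd 1`: `v = 0`, contradiction. So the sum is at least 4.
-/

namespace JD

universe u

variable {F : Type u} [Field F] {A : Type u} [NonUnitalNonAssocCommRing A] [Module F A]
  [IsScalarTower F A A] [SMulCommClass F A A] {D : ℕ → Submodule F A}

private theorem GJ5_zero_of_le {T : Submodule F A} {x : A} (h : T ≤ Submodule.span F {x}) {a : A}
    (ha : a ∈ T) : ∃ r : F, a = r • x := by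
  obtain ⟨r, hr⟩ := Submodule.mem_span_singleton.mp (h ha)
  exact ⟨r, hr.symm⟩

private theorem GJ5_top_ne (hG : GJ F A 5 D) : D 5 ≠ ⊥ := by
  intro h
  have := hG.top
  rw [h, finrank_bot] at this
  exact absurd this (by norm_num)

theorem GJ5_one (hG : GJ F A 5 D) {y : A} (hy : y ∈ D 1) (h1 : D 1 ≤ Submodule.span F {y}) :
    y * (y * (y * (y * y))) ≠ 0 := by
  intro h0
  have e2 : D 2 ≤ Submodule.span F {y * y} := by
    refine hG.gen2 _ fun v hv w hw => ?_
    obtain ⟨r, rfl⟩ := GJ5_zero_of_le h1 hv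
    obtain ⟨t, rfl⟩ := GJ5_zero_of_le h1 hw
    rw [smul_mul_smul_comm]
    exact Submodule.smul_mem _ _ (Submodule.mem_span_singleton_self _)
  have e3 : D 3 ≤ Submodule.span F {y * (y * y)} := by
    refine hG.gen 3 (by norm_num) _ (fun v hv h hh => ?_) (fun q hq h hh => ?_)
    · obtain ⟨r, rfl⟩ := GJ5_zero_of_le h1 hv
      obtain ⟨t, rfl⟩ := GJ5_zero_of_le e2 hh
      rw [smul_mul_smul_comm]
      exact Submodule.smul_mem _ _ (Submodule.mem_span_singleton_self _)
    · obtain ⟨r, rfl⟩ := GJ5_zero_of_le e2 hq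
      obtain ⟨t, rfl⟩ := GJ5_zero_of_le h1 hh
      rw [smul_mul_smul_comm, mul_comm (y * y) y]
      exact Submodule.smul_mem _ _ (Submodule.mem_span_singleton_self _)
  have i1 : (y * y) * (y * y) = y * (y * (y * y)) := by
    rw [gJ1 hG.jordan y y, mul_comm (y * y) y]
  have i2 : (y * y) * (y * (y * y)) = y * (y * (y * (y * y))) := by
    rw [gJ1 hG.jordan y (y * y), i1]
  have e4 : D 4 ≤ Submodule.span F {y * (y * (y * y))} := by
    refine hG.gen 4 (by norm_num) _ (fun v hv h hh => ?_) (fun q hq h hh => ?_)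
    · obtain ⟨r, rfl⟩ := GJ5_zero_of_le h1 hv
      obtain ⟨t, rfl⟩ := GJ5_zero_of_le e3 hh
      rw [smul_mul_smul_comm]
      exact Submodule.smul_mem _ _ (Submodule.mem_span_singleton_self _)
    · obtain ⟨r, rfl⟩ := GJ5_zero_of_le e2 hq
      obtain ⟨t, rfl⟩ := GJ5_zero_of_le e2 hh
      rw [smul_mul_smul_comm, i1]
      exact Submodule.smul_mem _ _ (Submodule.mem_span_singleton_self _)
  have e5 : D 5 ≤ ⊥ := by
    refine hG.gen 5 (by norm_num) _ (fun v hv h hh => ?_) (fun q hq h hh => ?_)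
    · obtain ⟨r, rfl⟩ := GJ5_zero_of_le h1 hv
      obtain ⟨t, rfl⟩ := GJ5_zero_of_le e4 hh
      rw [smul_mul_smul_comm, h0, smul_zero]
      exact Submodule.zero_mem _
    · obtain ⟨r, rfl⟩ := GJ5_zero_of_le e2 hq
      obtain ⟨t, rfl⟩ := GJ5_zero_of_le e3 hh
      rw [smul_mul_smul_comm, i2, h0, smul_zero]
      exact Submodule.zero_mem _
  exact GJ5_top_ne hG (le_bot_iff.mp e5)

/-- the submodule of all `h` with `v * h ∈ T` for all `v ∈ S` -/
private def GJ5_col (S T : Submodule F A) : Submodule F A where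
  carrier := {h | ∀ v ∈ S, v * h ∈ T}
  add_mem' := by
    intro a b ha hb v hv
    rw [mul_add]
    exact T.add_mem (ha v hv) (hb v hv)
  zero_mem' := by
    intro v _
    rw [mul_zero]
    exact T.zero_mem
  smul_mem' := by
    intro r a ha v hv
    rw [mul_smul_comm]
    exact T.smul_mem r (ha v hv)

private theorem GJ5_a (hG : GJ F A 5 D) : D 2 ≠ ⊥ := by
  intro h2
  have e3 : D 3 ≤ ⊥ := by
    refine hG.gen 3 (by norm_num) _ (fun v hv h hh => ?_) (fun q hq h hh => ?_)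
    · have : h = 0 := by
        have hh' : h ∈ D 2 := hh
        rw [h2] at hh'
        exact (Submodule.mem_bot F).mp hh'
      rw [this, mul_zero]
      exact Submodule.zero_mem _
    · have : q = 0 := by
        rw [h2] at hq
        exact (Submodule.mem_bot F).mp hq
      rw [this, zero_mul]
      exact Submodule.zero_mem _
  have e4 : D 4 ≤ ⊥ := by
    refine hG.gen 4 (by norm_num) _ (fun v hv h hh => ?_) (fun q hq h hh => ?_)
    · have : h = 0 := (Submodule.mem_bot F).mp (e3 hh)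
      rw [this, mul_zero]
      exact Submodule.zero_mem _
    · have : q = 0 := by
        rw [h2] at hq
        exact (Submodule.mem_bot F).mp hq
      rw [this, zero_mul]
      exact Submodule.zero_mem _
  have e5 : D 5 ≤ ⊥ := by
    refine hG.gen 5 (by norm_num) _ (fun v hv h hh => ?_) (fun q hq h hh => ?_)
    · have : h = 0 := (Submodule.mem_bot F).mp (e4 hh)
      rw [this, mul_zero]
      exact Submodule.zero_mem _
    · have : q = 0 := by
        rw [h2] at hq
        exact (Submodule.mem_bot F).mp hq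
      rw [this, zero_mul]
      exact Submodule.zero_mem _
  exact GJ5_top_ne hG (le_bot_iff.mp e5)

private theorem GJ5_two_smul (h2 : (2 : F) ≠ 0) {x : A} (h : (2 : F) • x = 0) : x = 0 :=
  (smul_eq_zero.mp h).resolve_left h2

private theorem GJ5_b (hG : GJ F A 5 D) (h1 : Module.finrank F (D 1) = 2) : D 3 ≠ ⊥ := by
  intro h3
  have := hG.fin
  have z3 : ∀ v ∈ D 1, ∀ q ∈ D 2, v * q = 0 := by
    intro v hv q hq
    have := hG.mul_mem 1 2 le_rfl (by norm_num) v hv q hq
    rw [h3] at this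
    exact (Submodule.mem_bot F).mp this
  have z3' : ∀ h ∈ D 3, h = 0 := by
    intro h hh
    rw [h3] at hh
    exact (Submodule.mem_bot F).mp hh
  have m2 : ∀ v ∈ D 1, ∀ w ∈ D 1, v * w ∈ D 2 := fun v hv w hw =>
    hG.mul_mem 1 1 le_rfl le_rfl v hv w hw
  have t1 : ∀ a ∈ D 1, ∀ q ∈ D 2, a * ((a * a) * q) = 0 := by
    intro a ha q hq
    rw [← gJ1 hG.jordan a q, z3 a ha q hq, mul_zero]
  have t2 : ∀ a ∈ D 1, ∀ b ∈ D 1, ∀ q ∈ D 2,
      b * ((a * a) * q) + (2 : F) • (a * ((a * b) * q)) = 0 := by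
    intro a ha b hb q hq
    rw [← gJ2 F hG.two hG.jordan a b q, z3 a ha q hq, z3 b hb q hq, mul_zero, mul_zero, smul_zero,
      add_zero]
  obtain ⟨y, hy, z, hz, φ, ψ, -, -, -, -, hco⟩ := exists_coord2 h1
  have hyy := m2 y hy y hy
  have hyz := m2 y hy z hz
  have hzz := m2 z hz z hz
  have e2 : D 2 ≤ Submodule.span F {y * y, y * z, z * z} := by
    refine hG.gen2 _ fun v hv w hw => ?_
    rw [hco v hv, hco w hw, Submodule.mem_span_triple]
    refine ⟨φ v * φ w, φ v * ψ w + ψ v * φ w, ψ v * ψ w, ?_⟩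
    simp only [add_mul, mul_add, smul_mul_smul_comm, add_smul]
    rw [mul_comm z y]
    abel
  -- the twelve products
  have a1 : y * ((y * y) * (y * y)) = 0 := t1 y hy _ hyy
  have a2 : y * ((y * y) * (y * z)) = 0 := t1 y hy _ hyz
  have a3 : y * ((y * y) * (z * z)) = 0 := t1 y hy _ hzz
  have b1 : z * ((z * z) * (y * y)) = 0 := t1 z hz _ hyy
  have b2 : z * ((z * z) * (y * z)) = 0 := t1 z hz _ hyz
  have b3 : z * ((z * z) * (z * z)) = 0 := t1 z hz _ hzz
  have c1 : z * ((y * y) * (y * y)) = 0 := by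
    have := t2 y hy z hz _ hyy
    rwa [mul_comm (y * z) (y * y), a2, smul_zero, add_zero] at this
  have c3 : y * ((y * z) * (z * z)) = 0 := by
    have := t2 y hy z hz _ hzz
    rw [mul_comm (y * y) (z * z), b1, zero_add] at this
    exact GJ5_two_smul hG.two this
  have d1 : y * ((z * z) * (z * z)) = 0 := by
    have := t2 z hz y hy _ hzz
    rwa [mul_comm z y, mul_comm (y * z) (z * z), b2, smul_zero, add_zero] at this
  have d2 : z * ((y * z) * (y * z)) = 0 := by
    have := t2 z hz y hy _ hyz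
    rw [mul_comm z y, mul_comm (z * z) (y * z), c3, zero_add] at this
    exact GJ5_two_smul hG.two this
  have d3 : z * ((y * y) * (y * z)) = 0 := by
    have := t2 z hz y hy _ hyy
    rw [mul_comm z y, mul_comm (z * z) (y * y), a3, zero_add, mul_comm (y * z) (y * y)] at this
    exact GJ5_two_smul hG.two this
  have c2 : y * ((y * z) * (y * z)) = 0 := by
    have := t2 y hy z hz _ hyz
    rw [d3, zero_add] at this
    exact GJ5_two_smul hG.two this
  have key : ∀ q ∈ D 2, ∀ p ∈ D 2, y * (q * p) = 0 ∧ z * (q * p) = 0 := by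
    intro q hq p hp
    obtain ⟨r₁, r₂, r₃, rfl⟩ := Submodule.mem_span_triple.mp (e2 hq)
    obtain ⟨s₁, s₂, s₃, rfl⟩ := Submodule.mem_span_triple.mp (e2 hp)
    have f1 : (y * z) * (y * y) = (y * y) * (y * z) := mul_comm _ _
    have f2 : (z * z) * (y * y) = (y * y) * (z * z) := mul_comm _ _
    have f3 : (z * z) * (y * z) = (y * z) * (z * z) := mul_comm _ _
    rw [f2] at b1
    rw [f3] at b2
    constructor
    · simp only [add_mul, mul_add, smul_mul_assoc, mul_smul_comm, f1, f2, f3, a1, a2, a3, c2,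
        c3, d1, smul_zero, add_zero]
    · simp only [add_mul, mul_add, smul_mul_assoc, mul_smul_comm, f1, f2, f3, b1, b2, b3, c1,
        d2, d3, smul_zero, add_zero]
  have key2 : ∀ v ∈ D 1, ∀ q ∈ D 2, ∀ p ∈ D 2, v * (q * p) = 0 := by
    intro v hv q hq p hp
    rw [hco v hv, add_mul, smul_mul_assoc, smul_mul_assoc, (key q hq p hp).1, (key q hq p hp).2,
      smul_zero, smul_zero, add_zero]
  have e4 : D 4 ≤ GJ5_col (D 1) ⊥ := by
    refine hG.gen 4 (by norm_num) _ (fun v hv h hh => ?_) (fun q hq h hh => ?_)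
    · rw [z3' h hh, mul_zero]
      exact Submodule.zero_mem _
    · intro v hv
      rw [key2 v hv q hq h hh]
      exact Submodule.zero_mem _
  have e5 : D 5 ≤ ⊥ := by
    refine hG.gen 5 (by norm_num) _ (fun v hv h hh => ?_) (fun q hq h hh => ?_)
    · exact e4 hh v hv
    · rw [z3' h hh, mul_zero]
      exact Submodule.zero_mem _
  exact GJ5_top_ne hG (le_bot_iff.mp e5)

private theorem GJ5_c (hG : GJ F A 5 D) : D 4 ≠ ⊥ := by
  intro h4
  have z4 : ∀ h ∈ D 4, h = 0 := by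
    intro h hh
    rw [h4] at hh
    exact (Submodule.mem_bot F).mp hh
  have m2 : ∀ v ∈ D 1, ∀ w ∈ D 1, v * w ∈ D 2 := fun v hv w hw =>
    hG.mul_mem 1 1 le_rfl le_rfl v hv w hw
  have m3 : ∀ v ∈ D 1, ∀ w ∈ D 2, v * w ∈ D 3 := fun v hv w hw =>
    hG.mul_mem 1 2 le_rfl (by norm_num) v hv w hw
  have z22 : ∀ q ∈ D 2, ∀ p ∈ D 2, q * p = 0 := fun q hq p hp =>
    z4 _ (hG.mul_mem 2 2 (by norm_num) (by norm_num) q hq p hp)
  have z13 : ∀ v ∈ D 1, ∀ h ∈ D 3, v * h = 0 := fun q hq p hp =>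
    z4 _ (hG.mul_mem 1 3 (by norm_num) (by norm_num) q hq p hp)
  have key : ∀ a ∈ D 1, ∀ b ∈ D 1, ∀ d ∈ D 1, ∀ q ∈ D 2, ((a * b) * d) * q = 0 := by
    intro a ha b hb d hd q hq
    have j3 := gJ3 F hG.two hG.jordan a b d q
    rw [z22 _ (m2 a ha b hb) q hq, z22 _ (m2 b hb d hd) q hq, z22 _ (m2 d hd a ha) q hq,
      mul_zero, mul_zero, mul_zero, add_zero, add_zero] at j3
    rw [gJ4 F hG.two hG.jordan a b d q, z13 d hd _ (m3 b hb q hq), z13 d hd _ (m3 a ha q hq),
      mul_zero, mul_zero, sub_zero, sub_zero, mul_comm a d]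
    calc a * b * (d * q) + d * a * (b * q) + b * d * (a * q)
        = a * b * (d * q) + b * d * (a * q) + d * a * (b * q) := by abel
      _ = 0 := j3
  have e2 : D 2 ≤ GJ5_col (D 1) (GJ5_col (D 2) ⊥) := by
    refine hG.gen2 _ fun v hv w hw => ?_
    intro a ha q hq
    rw [mul_comm q, mul_comm a, key v hv w hw a ha q hq]
    exact Submodule.zero_mem _
  have e3 : D 3 ≤ GJ5_col (D 2) ⊥ := by
    refine hG.gen 3 (by norm_num) _ (fun v hv h hh => ?_) (fun q hq h hh => ?_)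
    · exact e2 hh v hv
    · rw [mul_comm q h]
      exact e2 hq h hh
  have e5 : D 5 ≤ ⊥ := by
    refine hG.gen 5 (by norm_num) _ (fun v hv h hh => ?_) (fun q hq h hh => ?_)
    · rw [z4 h hh, mul_zero]
      exact Submodule.zero_mem _
    · exact e3 hh q hq
  exact GJ5_top_ne hG (le_bot_iff.mp e5)

private theorem GJ5_d (hG : GJ F A 5 D) (h1 : Module.finrank F (D 1) = 2)
    (h2 : Module.finrank F (D 2) = 1) (h3 : Module.finrank F (D 3) = 1) : False := by
  have := hG.fin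
  obtain ⟨s, hs, hs0, φ, hφs, hφ⟩ := exists_coord h2
  have m2 : ∀ v ∈ D 1, ∀ w ∈ D 1, v * w ∈ D 2 := fun v hv w hw =>
    hG.mul_mem 1 1 le_rfl le_rfl v hv w hw
  -- s commutes with D 1
  let T : Submodule F A :=
    { carrier := {w | ∀ h, s * (w * h) = w * (s * h)}
      add_mem' := by
        intro a b ha hb h
        rw [add_mul, mul_add, add_mul, ha h, hb h]
      zero_mem' := by
        intro h
        rw [zero_mul, zero_mul, mul_zero]
      smul_mem' := by
        intro r a ha h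
        rw [smul_mul_assoc, smul_mul_assoc, mul_smul_comm, ha h] }
  have hT : D 1 ≤ T := by
    obtain ⟨v0, hv0, hne⟩ := hG.exists_sq_ne (GJ5_a hG)
    have hφ0 : φ (v0 * v0) ≠ 0 := by
      intro h0
      apply hne
      rw [hφ _ (m2 v0 hv0 v0 hv0), h0, zero_smul]
    refine hG.dense φ v0 hv0 hφ0 T fun w hw hw0 => ?_
    intro h
    have j := gJ1 hG.jordan w h
    rw [hφ _ (m2 w hw w hw), smul_mul_assoc, smul_mul_assoc, mul_smul_comm] at j
    exact smul_right_injective A hw0 j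
  -- v with s v = 0
  obtain ⟨v, hv, hv0, hsv⟩ : ∃ v ∈ D 1, v ≠ 0 ∧ s * v = 0 := by
    let f : D 1 →ₗ[F] D 3 := (LinearMap.mulLeft F s).restrict (p := D 1) (q := D 3) (by
      intro x hx
      rw [LinearMap.mulLeft_apply]
      exact hG.mul_mem 2 1 (by norm_num) le_rfl s hs x hx)
    have hf : LinearMap.ker f ≠ ⊥ := LinearMap.ker_ne_bot_of_finrank_lt (by rw [h1, h3]; norm_num)
    obtain ⟨x, hx, hx0⟩ := Submodule.exists_mem_ne_zero_of_ne_bot hf
    refine ⟨x, x.2, fun h => hx0 (Subtype.ext h), ?_⟩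
    have := congrArg Subtype.val (LinearMap.mem_ker.mp hx)
    exact this
  have e3 : D 3 ≤ GJ5_col (D 1) (Submodule.span F {s * s}) := by
    have aux : ∀ v ∈ D 1, ∀ h ∈ D 2, v * h ∈ GJ5_col (D 1) (Submodule.span F {s * s}) := by
      intro v hv h hh w hw
      rw [hφ h hh, mul_smul_comm, mul_smul_comm, mul_comm v s, ← hT hw v, hφ _ (m2 w hw v hv),
        mul_smul_comm]
      exact Submodule.smul_mem _ _ (Submodule.smul_mem _ _ (Submodule.mem_span_singleton_self _))
    refine hG.gen 3 (by norm_num) _ (fun v hv h hh => ?_) (fun q hq h hh => ?_)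
    · exact aux v hv h hh
    · rw [mul_comm q h]
      exact aux h hh q hq
  have e4 : D 4 ≤ Submodule.span F {s * s} := by
    refine hG.gen 4 (by norm_num) _ (fun v hv h hh => ?_) (fun q hq h hh => ?_)
    · exact e3 hh v hv
    · rw [hφ q hq, hφ h hh, smul_mul_smul_comm]
      exact Submodule.smul_mem _ _ (Submodule.mem_span_singleton_self _)
  have hss : s * s ≠ 0 := by
    intro h0
    apply GJ5_c hG
    rw [h0, Submodule.span_zero_singleton] at e4
    exact le_bot_iff.mp e4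
  apply hv0
  refine hG.nd 1 le_rfl (by norm_num) v hv (fun w hw => ?_) (fun q hq => ?_)
  · have h5 : s * (w * v) = 0 := by
      rw [hT hw v, hsv, mul_zero]
    rw [hφ _ (m2 w hw v hv), mul_smul_comm] at h5
    rw [hφ _ (m2 w hw v hv), (smul_eq_zero.mp h5).resolve_right hss, zero_smul]
  · rw [hφ q hq, smul_mul_assoc, hsv, smul_zero]

theorem GJ5_two (hG : GJ F A 5 D) (h1 : Module.finrank F (D 1) = 2) :
    4 ≤ Module.finrank F (D 2) + Module.finrank F (D 3) + Module.finrank F (D 4) := by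
  have := hG.fin
  have p2 : Module.finrank F (D 2) ≠ 0 := fun h => GJ5_a hG (Submodule.finrank_eq_zero.mp h)
  have p3 : Module.finrank F (D 3) ≠ 0 := fun h => GJ5_b hG h1 (Submodule.finrank_eq_zero.mp h)
  have p4 : Module.finrank F (D 4) ≠ 0 := fun h => GJ5_c hG (Submodule.finrank_eq_zero.mp h)
  by_contra hlt
  exact GJ5_d hG h1 (by omega) (by omega)

end JD
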