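import Pool.Agent.H74.JD.RaiseA
import Pool.Agent.H8.JD.CritPic

set_option autoImplicit false
set_option linter.unusedSectionVars false

/-!
# JD QuadA: the quadratic part of the extra relation (helper74)

`P : EPic F J x S e E` (from `crit_EPic`), `r = P.r`, `ρ = P.ρ`; `ge a s` = span of the words of weight `≥ s` in `E`. `J` critical of class 6.

* `ge_le_ge`: `Submodule.span_mono`.
* `r_ge_two`. PROOF. `Φ = jpow F J`, weights `1 = (fun _ => 1)`; `filt_jpow`. Step 0: `r ∈ ⊤ = ge 1 0`; every element of `E` is `α • 1 + b`, `b ∈ ge 1 1` (`P.span`); write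
  `r = α • 1 + b`. There is a word `w` with `|w| = 6`, `S w ≠ 0` (`h.gen`: `wfil_one_eq_jpow`, `jpow 6 = F e ≠ ⊥` is the span of the `S w` with `|w| ≥ 6`, and `S w = 0` for `|w| ≥ 7`). `ρ (r * word w) = det3 w • e = 0` (`rho_r_word`; `det3 F w = 0`
  as `|w| = 6`), `ρ (b * word w) ∈ jpow 7 = ⊥` (`rho_ge`). So `α • S w = 0`, `α = 0`. Step 1: `EPic.step` with `s = 1`, `ws = {[0], [1], [2]}`: `∑ c_i • S [i] = ∑ c_i • x i ∈ J^2` implies `c_i = 0` by `h.ind`. (`P.star_r`, `P.rho_r`.)
* `quad`: `EPic.exists_lead` with `a = 1`, `s = 2`, `ws = {[i, j] | i ≤ j}` (all words of length 2 are in `ws` or reversed in `ws`), applied to `b = r` (`r + star r = 2 r`); halve; `word [i,j] = X i * X j`. `c i j = c j i`.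
-/

namespace JD

universe u

variable {F : Type u} [Field F] {J : Type u} [NonUnitalNonAssocCommRing J] [Module F J]
  [IsScalarTower F J J] [SMulCommClass F J J] {x : Fin 3 → J} {S : List (Fin 3) → J}
  {a : Fin 3 → ℕ} {N : ℕ} {e : J} {E : Type u} [Ring E] [Algebra F E]

theorem EPic.ge_le_ge (P : EPic F J x S e E) {a b : Fin 3 → ℕ} {s t : ℕ}
    (h : ∀ w : List (Fin 3), s ≤ wt a w → t ≤ wt b w) : P.ge a s ≤ P.ge b t := by
  refine Submodule.span_mono ?_
  rintro _ ⟨w, hw, rfl⟩
  exact ⟨w, h w hw, rfl⟩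

private theorem QuadA_wt (w : List (Fin 3)) : wt (fun _ => 1) w = w.length := by
  unfold wt
  simp

private theorem QuadA_det {w : List (Fin 3)} (hw : w.length = 6) : det3 F w = 0 := by
  unfold det3
  rw [if_neg, if_neg]
  · rintro (rfl | rfl | rfl) <;> simp at hw
  · rintro (rfl | rfl | rfl) <;> simp at hw

/-- the constant term -/
private theorem QuadA_const (P : EPic F J x S e E) (y : E) :
    ∃ α : F, y - α • (1 : E) ∈ P.ge (fun _ => 1) 1 := by
  have hy : y ∈ Submodule.span F (Set.range (word P.X)) := by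
    rw [P.span]
    exact Submodule.mem_top
  induction hy using Submodule.span_induction with
  | mem y hy =>
    obtain ⟨w, rfl⟩ := hy
    rcases eq_or_ne w [] with h | h
    · subst h
      refine ⟨1, ?_⟩
      rw [word_nil, one_smul, sub_self]
      exact Submodule.zero_mem _
    · refine ⟨0, ?_⟩
      rw [zero_smul, sub_zero]
      apply P.word_mem_ge
      rw [QuadA_wt]
      exact List.length_pos_iff.mpr h
  | zero => exact ⟨0, by simp⟩
  | add y z _ _ hy hz =>
    obtain ⟨α, hα⟩ := hy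
    obtain ⟨β, hβ⟩ := hz
    refine ⟨α + β, ?_⟩
    have e : y + z - (α + β) • (1 : E) = (y - α • (1 : E)) + (z - β • (1 : E)) := by
      rw [add_smul]
      abel
    rw [e]
    exact Submodule.add_mem _ hα hβ
  | smul t y _ hy =>
    obtain ⟨α, hα⟩ := hy
    refine ⟨t * α, ?_⟩
    have e : t • y - (t * α) • (1 : E) = t • (y - α • (1 : E)) := by
      rw [smul_sub, smul_smul]
    rw [e]
    exact Submodule.smul_mem _ _ hα

/-- there is a word of length six with a nonzero value -/
private theorem QuadA_six (hcr : Crit F J 6 e) (h : Stg F x S a N e) :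
    ∃ w : List (Fin 3), w.length = 6 ∧ S w ≠ 0 := by
  by_contra hcon
  push Not at hcon
  have h1 : jpow F J 6 ≤ ⊥ := by
    rw [← wfil_one_eq_jpow hcr.two h.sys h.gen]
    unfold wfil
    rw [Submodule.span_le]
    rintro _ ⟨w, hw, rfl⟩
    have hw' : 6 ≤ w.length := by
      have := hw
      rw [Set.mem_ofPred_eq, QuadA_wt] at this
      exact this
    rcases Nat.lt_or_ge 6 w.length with h2 | h2
    · have := h.cls w h2
      simp [this]
    · have := hcon w (le_antisymm h2 hw')
      simp [this]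
  have h2 : e ∈ jpow F J 6 := by
    rw [hcr.top]
    exact Submodule.mem_span_singleton_self e
  exact hcr.ne (by simpa using h1 h2)

theorem EPic.r_ge_two (P : EPic F J x S e E) (hcr : Crit F J 6 e) (h : Stg F x S a N e) :
    P.r ∈ P.ge (fun _ => 1) 2 := by
  have hΦ : Filt F x (fun _ => 1) (jpow F J) := filt_jpow x
  -- the constant term vanishes
  have h1 : P.r ∈ P.ge (fun _ => 1) 1 := by
    obtain ⟨α, hα⟩ := QuadA_const P P.r
    obtain ⟨w, hw, hSw⟩ := QuadA_six hcr h
    have e1 := P.rho_r_word w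
    rw [QuadA_det hw, zero_smul] at e1
    have e2 : (P.r - α • (1 : E)) * word P.X w ∈ P.ge (fun _ => 1) (1 + 6) := by
      refine P.mul_mem_ge _ hα (P.word_mem_ge _ ?_)
      rw [QuadA_wt, hw]
    have e3 := P.rho_ge hcr.two h.sys hΦ e2
    have e4 : jpow F J (1 + 6) = ⊥ := hcr.bot
    rw [e4, Submodule.mem_bot, sub_mul, map_sub, e1, zero_sub, neg_eq_zero, smul_mul_assoc,
      one_mul, map_smul, P.ρ_word, smul_eq_zero] at e3
    have e5 := e3.resolve_right hSw
    rw [e5, zero_smul, sub_zero] at hα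
    exact hα
  refine P.step (fun _ => 1) hcr.two h.sys hΦ (s := 1)
    (Finset.univ.image (fun i : Fin 3 => [i])) ?_ ?_ h1 P.star_r ?_
  · intro w hw
    left
    rw [QuadA_wt, List.length_eq_one_iff] at hw
    obtain ⟨i, rfl⟩ := hw
    simp
  · intro c hc
    have hinj : Set.InjOn (fun i : Fin 3 => [i]) (Finset.univ : Finset (Fin 3)) := by
      intro i _ j _ hij
      simpa using hij
    rw [Finset.sum_image hinj] at hc ⊢
    have h2 : ∑ i, (fun i => c [i]) i • x i ∈ jpow F J 2 := by
      have e : ∀ i : Fin 3, c [i] • S [i] = c [i] • x i := fun i => by rw [h.sys.single]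
      simpa only [e] using hc
    have h3 := h.ind _ h2
    have h4 : ∀ i, c [i] = 0 := fun i => congrFun h3 i
    simp only [h4, zero_smul, Finset.sum_const_zero]
    exact Submodule.zero_mem _
  · rw [P.rho_r]
    exact Submodule.zero_mem _

theorem EPic.quad (P : EPic F J x S e E) (hcr : Crit F J 6 e) (h : Stg F x S a N e) :
    ∃ c : Fin 3 → Fin 3 → F, (∀ i j, c i j = c j i) ∧
      P.r - ∑ i, ∑ j, c i j • (P.X i * P.X j) ∈ P.ge (fun _ => 1) 3 := by
  obtain ⟨c, hc⟩ := P.exists_lead (fun _ => 1) (s := 2)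
    (Finset.univ.image (fun p : Fin 3 × Fin 3 => [p.1, p.2])) (by
      intro w hw
      left
      rw [QuadA_wt, List.length_eq_two] at hw
      obtain ⟨i, j, rfl⟩ := hw
      simp) (P.r_ge_two hcr h)
  have hinj : Set.InjOn (fun p : Fin 3 × Fin 3 => [p.1, p.2])
      (Finset.univ : Finset (Fin 3 × Fin 3)) := by
    rintro ⟨i, j⟩ _ ⟨k, l⟩ _ hij
    simpa using hij
  have e1 : ∑ w ∈ Finset.univ.image (fun p : Fin 3 × Fin 3 => [p.1, p.2]),
      c w • (word P.X w + word P.X w.reverse) =
      ∑ i, ∑ j, (c [i, j] + c [j, i]) • (P.X i * P.X j) := by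
    rw [Finset.sum_image hinj, Fintype.sum_prod_type]
    have e2 : ∀ i j : Fin 3, c [i, j] • (word P.X [i, j] + word P.X [i, j].reverse) =
        c [i, j] • (P.X i * P.X j) + c [i, j] • (P.X j * P.X i) := by
      intro i j
      simp [word]
    simp only [e2, add_smul, Finset.sum_add_distrib]
    congr 1
    exact Finset.sum_comm
  refine ⟨fun i j => (2 : F)⁻¹ * (c [i, j] + c [j, i]), fun i j => by simp only [add_comm], ?_⟩
  rw [e1, P.star_r] at hc
  have e3 : P.r - ∑ i, ∑ j, ((2 : F)⁻¹ * (c [i, j] + c [j, i])) • (P.X i * P.X j) =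
      (2 : F)⁻¹ • (P.r + P.r - ∑ i, ∑ j, (c [i, j] + c [j, i]) • (P.X i * P.X j)) := by
    rw [smul_sub, ← two_smul F P.r, smul_smul, inv_mul_cancel₀ hcr.two, one_smul]
    congr 1
    simp only [Finset.smul_sum, smul_smul]
  rw [e3]
  exact Submodule.smul_mem _ _ hc

end JD
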