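import Pool.Agent.H74.JD.GPicB

set_option autoImplicit false
set_option linter.unusedSectionVars false

/-!
# JD RaiseA: changing the weights of a stage (helper74)

`J` is a critical algebra of class 6 (`hcr : Crit F J 6 e`).

* `exists_Sj`: `exists_SSys7` (`J^8 = 0` because `J^7 = 0`).
* `GPic.zero_top`: `gS S a π w = 0` by `SSys.zero_of_letter` for `GPic.sys`; then `GPic.gS_top`.
* `Stg.raise`: `sys, gen, ind, cls, e0` are unchanged. `van`: `|w| ≥ 7`: `cls`. `|w| ≤ 6`: `hc` gives `N < wt a w` (old `van`), or `wt a w = N` and a letter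
  of `L` in `w` (`hL`). `top`: let `wt a' w = N'`. `S w ∈ wfil a' N'` and every `b ∈ J = wfil a' 1`, so `b * S w ∈ wfil a' (N'+1) = ⊥` (all words of weight `> N'` vanish).
  So `S w ∈ Ann J = F e` (`Crit.ann_le`).
* `Stg.raise_cnt`: `Stg.raise` with `wt_cnt` (letters in terms of counts; `1 ≤ w.count i ↔ i ∈ w`).
-/

namespace JD

universe u

variable {F : Type u} [Field F] {J : Type u} [NonUnitalNonAssocCommRing J] [Module F J]
  [IsScalarTower F J J] [SMulCommClass F J J] {x : Fin 3 → J} {S : List (Fin 3) → J}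
  {a : Fin 3 → ℕ} {N : ℕ} {e : J}

theorem exists_Sj (hcr : Crit F J 6 e) (x : Fin 3 → J) : ∃ S : List (Fin 3) → J, SSys F x S := by
  have h7 : jpow F J 7 = ⊥ := hcr.bot
  have h8 : jpow F J 8 = ⊥ := by
    rw [eq_bot_iff, ← h7]
    exact jpow_anti (by norm_num)
  obtain ⟨S, hS, _⟩ := exists_SSys7 hcr.two hcr.jordan h8 x
  exact ⟨S, hS⟩

/-- the first stage: the powers of `J` -/
theorem Stg.first (hcr : Crit F J 6 e) (hS : SSys F x S)
    (hg : Submodule.span F (Set.range S) = ⊤)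
    (hi : ∀ c : Fin 3 → F, ∑ i, c i • x i ∈ jpow F J 2 → c = 0) :
    Stg F x S (fun _ => 1) 6 e := by
  have h7 : jpow F J 7 = ⊥ := hcr.bot
  have hm : ∀ w : List (Fin 3), w ≠ [] → S w ∈ jpow F J w.length := by
    intro w hw
    have := hS.mem_filt hcr.two (filt_jpow x) w hw
    rwa [wt_one] at this
  have hcls : ∀ w : List (Fin 3), 7 ≤ w.length → S w = 0 := by
    intro w hw
    have h1 : w ≠ [] := by
      rintro rfl
      simp at hw
    have h3 := jpow_anti (F := F) (J := J) hw (hm w h1)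
    rwa [h7, Submodule.mem_bot] at h3
  refine ⟨hS, hg, hi, hcls, fun _ => le_rfl, ?_, ?_, ?_, hcr.ne⟩
  · intro w hw
    rw [wt_one] at hw
    exact hcls w hw
  · intro w hw
    rw [wt_one] at hw
    have h1 : w ≠ [] := by
      rintro rfl
      simp at hw
    rw [← hcr.top, ← hw]
    exact hm w h1
  · by_contra hcon
    push Not at hcon
    have h1 : jpow F J 6 = ⊥ := by
      rw [← wfil_one_eq_jpow hcr.two hS hg, eq_bot_iff]
      unfold wfil
      rw [Submodule.span_le]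
      rintro _ ⟨w, hw, rfl⟩
      rw [SetLike.mem_coe, Submodule.mem_bot]
      have hw' : 6 ≤ wt (fun _ => 1) w := hw
      rcases Nat.lt_or_ge 6 (wt (fun _ => 1) w) with h | h
      · rw [wt_one] at h
        exact hcls w h
      · exact hcon w (le_antisymm h hw')
    have h3 : e ∈ jpow F J 6 := by
      rw [hcr.top]
      exact Submodule.mem_span_singleton_self e
    rw [h1, Submodule.mem_bot] at h3
    exact hcr.ne h3

theorem GPic.zero_top {A : Type u} [NonUnitalNonAssocCommRing A] [Module F A]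
    [IsScalarTower F A A] [SMulCommClass F A A] {D : ℕ → Submodule F A} {π : ℕ → J →ₗ[F] A}
    (h2 : (2 : F) ≠ 0) (h : Stg F x S a N e) (G : GPic F (wfil F S a) N A D π) {i : Fin 3}
    (hi : π (a i) (x i) = 0) (w : List (Fin 3)) (hw : wt a w = N) (hiw : i ∈ w) : S w = 0 := by
  have h1 : gS S a π w = 0 := SSys.zero_of_letter h2 (G.sys h) (i := i) hi w hiw
  exact G.gS_top h w hw h1

theorem Stg.raise (hcr : Crit F J 6 e) (h : Stg F x S a N e) (L : Fin 3 → Prop)
    (hL : ∀ i, L i → ∀ w : List (Fin 3), wt a w = N → i ∈ w → S w = 0)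
    (a' : Fin 3 → ℕ) (N' : ℕ) (hpos : ∀ i, 1 ≤ a' i)
    (hc : ∀ w : List (Fin 3), w.length ≤ 6 → N' < wt a' w →
      N < wt a w ∨ (wt a w = N ∧ ∃ i ∈ w, L i))
    (hne : ∃ w, wt a' w = N' ∧ S w ≠ 0) : Stg F x S a' N' e := by
  have hvan : ∀ w, N' < wt a' w → S w = 0 := by
    intro w hw
    rcases Nat.lt_or_ge w.length 7 with h7 | h7
    · rcases hc w (by omega) hw with h1 | ⟨h1, i, hi, hLi⟩
      · exact h.van w h1
      · exact hL i hLi w h1 hi
    · exact h.cls w h7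
  have hbot : wfil F S a' (1 + N') = ⊥ := by
    rw [eq_bot_iff]
    unfold wfil
    rw [Submodule.span_le]
    rintro _ ⟨w, hw, rfl⟩
    rw [SetLike.mem_coe, Submodule.mem_bot]
    have hw' : 1 + N' ≤ wt a' w := hw
    exact hvan w (by omega)
  refine ⟨h.sys, h.gen, h.ind, h.cls, hpos, hvan, ?_, hne, h.e0⟩
  intro w hw
  have h1 : ∀ b : J, b * S w = 0 := by
    intro b
    have hb : b ∈ wfil F S a' 1 := by
      rw [wfil_one hpos h.sys h.gen]
      trivial
    have h3 := wfil_mul hcr.two h.sys hb (mem_wfil (F := F) (S := S) (a := a') (le_of_eq hw.symm))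
    rwa [hbot, Submodule.mem_bot] at h3
  obtain ⟨r, hr⟩ := hcr.ann_le (S w) h1
  rw [hr]
  exact Submodule.smul_mem _ _ (Submodule.mem_span_singleton_self e)

/-- the same in terms of the numbers of letters -/
theorem Stg.raise_cnt (hcr : Crit F J 6 e) (h : Stg F x S a N e) (L : Fin 3 → Prop)
    (hL : ∀ i, L i → ∀ w : List (Fin 3), wt a w = N → i ∈ w → S w = 0)
    (a' : Fin 3 → ℕ) (N' : ℕ) (hpos : ∀ i, 1 ≤ a' i)
    (hc : ∀ i j k : ℕ, i + j + k ≤ 6 → N' < a' 0 * i + a' 1 * j + a' 2 * k →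
      N < a 0 * i + a 1 * j + a 2 * k ∨ (a 0 * i + a 1 * j + a 2 * k = N ∧
        ((L 0 ∧ 1 ≤ i) ∨ (L 1 ∧ 1 ≤ j) ∨ (L 2 ∧ 1 ≤ k))))
    (hne : ∃ w, wt a' w = N' ∧ S w ≠ 0) : Stg F x S a' N' e := by
  refine Stg.raise hcr h L hL a' N' hpos ?_ hne
  intro w hw hN
  obtain ⟨h1, h3⟩ := wt_cnt a w
  obtain ⟨h4, _⟩ := wt_cnt a' w
  rw [h4] at hN
  rw [h1]
  rcases hc (w.count 0) (w.count 1) (w.count 2) (by omega) hN with h5 | ⟨h5, h6⟩
  · exact Or.inl h5
  · refine Or.inr ⟨h5, ?_⟩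
    rcases h6 with ⟨hl, hm⟩ | ⟨hl, hm⟩ | ⟨hl, hm⟩
    · exact ⟨0, List.count_pos_iff.1 hm, hl⟩
    · exact ⟨1, List.count_pos_iff.1 hm, hl⟩
    · exact ⟨2, List.count_pos_iff.1 hm, hl⟩

end JD
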