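import Pool.Agent.H9.JH.GrFilt
import Pool.Agent.H9.JH.Defs

set_option autoImplicit false
set_option linter.unusedSectionVars false

/-!
# JD S75: one essential letter, the picture of the stage `(4, 5, 5)`, `N = 24` (helper74)

`S75 F A D x`: graded algebra with top degree 24, `x ∈ D 4`, `W = D 5`; nonzero layers only in the degrees `4, 8, ..., 24, 5, 9, 10, 14, 15, 19`. Letters: `w, w', w'' ∈ D 5`, `t ∈ D 9`, `q, h, s ∈ D 10`, `g ∈ D 15`.
All products that fall in a degree outside the list vanish: `x t = 0` (13), `(x x) w = 0` (13), `(x x) q = 0` (18), `x g' = 0` for `g' ∈ D 14` (18), `t t' = 0` (18), `(x x) t` (17), ...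

* `D 19 = 0`:
  `S75_P`: `(x w)(w' h) = 0`. PROOF: `E(b) = (x w)(w' b) - w' ((x w) b)` is a derivation (`gder`). `E(w'') = (x w)(w' w'') - w' ((x w) w'') = 0 - 0` (`D 9 D 10 ⊆ D 19 = 0`, `w' D 14 ⊆ D 19 = 0`). So `E(w1 w2) = 0`, `E(h) = 0` for `h ∈ D 10` (`g10`); `E(h) = (x w)(w' h) - w' ((x w) h)`, `(x w) h ∈ D 19 = 0`.
  `S75_B`: `h (w' (x w)) + x (w' (w h)) = x ((w w') h)`: `gJ4 x w w' h`: `((x w) w') h = (x w)(w' h) + (x w')(w h) + (w w')(x h) - x (w' (w h)) - w (w' (x h))`, with `S75_P` and `w' (x h) ∈ D 19 = 0`: `h (w' (x w)) = (w w')(x h) - x (w' (w h))`; and `gJ3 x w w' h`: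
  `(x w)(w' h) + (w w')(x h) + (w' x)(w h) = w' ((x w) h) + x ((w w') h) + w ((w' x) h)`, so `(w w')(x h) = x ((w w') h)`; also `S75_C`: `q (x h) = x (q h)` (`g10`).
  nd: `S75_nd14`: `h ∈ D 14`, `q h = 0` for all `q` → `h = 0`; `S75_nd15`: `g ∈ D 15`, `w g = 0` for all `w` → `g = 0` (`(x w) g = 0` by `S75_P`, `D 15` spanned by `w' q`); `S75_nd9`: `w t = 0` for all `w` → `t = 0`; `S75_nd10`: `x q = 0`, `w q = 0`, `h q = 0` → `q = 0` (all by `S75.kill`).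
-/

namespace JD

universe u

/-- the picture of the stage `(4, 5, 5)` -/
structure S75 (F : Type u) [Field F] (A : Type u) [NonUnitalNonAssocCommRing A] [Module F A]
    [IsScalarTower F A A] [SMulCommClass F A A] (D : ℕ → Submodule F A) (x : A) : Prop where
  gf : GF F A 24 D
  xm : x ∈ D 4
  supp : ∀ s, 1 ≤ s → D s ≠ ⊥ → s = 4 ∨ s = 8 ∨ s = 12 ∨ s = 16 ∨ s = 20 ∨ s = 24 ∨ s = 5 ∨
    s = 9 ∨ s = 10 ∨ s = 14 ∨ s = 15 ∨ s = 19
  g9 : ∀ T : Submodule F A, (∀ w ∈ D 5, x * w ∈ T) → D 9 ≤ T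
  g10 : ∀ T : Submodule F A, (∀ w ∈ D 5, ∀ w' ∈ D 5, w * w' ∈ T) → D 10 ≤ T
  g14 : ∀ T : Submodule F A, (∀ q ∈ D 10, x * q ∈ T) → (∀ w ∈ D 5, ∀ t ∈ D 9, w * t ∈ T) →
    D 14 ≤ T
  g15 : ∀ T : Submodule F A, (∀ w ∈ D 5, ∀ q ∈ D 10, w * q ∈ T) → D 15 ≤ T
  g19 : ∀ T : Submodule F A, (∀ g ∈ D 15, x * g ∈ T) → (∀ w ∈ D 5, ∀ h ∈ D 14, w * h ∈ T) →
    (∀ t ∈ D 9, ∀ q ∈ D 10, t * q ∈ T) → D 19 ≤ T
  x20 : ∀ h ∈ D 20, x * h = 0 → h = 0
  kill : ∀ s, 1 ≤ s → s < 24 → ∀ h ∈ D s, x * h = 0 → (∀ w ∈ D 5, w * h = 0) →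
    (x * x) * h = 0 → (∀ w ∈ D 5, (x * w) * h = 0) →
    (∀ w ∈ D 5, ∀ w' ∈ D 5, (w * w') * h = 0) → h = 0

variable {F : Type u} [Field F] {A : Type u} [NonUnitalNonAssocCommRing A] [Module F A]
  [IsScalarTower F A A] [SMulCommClass F A A] {D : ℕ → Submodule F A} {x : A}

private theorem S75_zero (h : S75 F A D x) {i j s : ℕ} (hi : 1 ≤ i) (hj : 1 ≤ j) (hs : i + j = s)
    (hn : ¬ (s = 4 ∨ s = 8 ∨ s = 12 ∨ s = 16 ∨ s = 20 ∨ s = 24 ∨ s = 5 ∨
    s = 9 ∨ s = 10 ∨ s = 14 ∨ s = 15 ∨ s = 19)) {a b : A} (ha : a ∈ D i) (hb : b ∈ D j) :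
    a * b = 0 := by
  have h1 := h.gf.mul_mem i j hi hj a ha b hb
  have h2 : D (i + j) = ⊥ := by
    by_contra hne
    rw [hs] at hne
    exact hn (h.supp s (by omega) hne)
  rw [h2, Submodule.mem_bot] at h1
  exact h1

private theorem S75_z19 (h : S75 F A D x) (h19 : D 19 = ⊥) {i j : ℕ} (hi : 1 ≤ i) (hj : 1 ≤ j)
    (hs : i + j = 19) {a b : A} (ha : a ∈ D i) (hb : b ∈ D j) : a * b = 0 := by
  have h1 := h.gf.mul_mem i j hi hj a ha b hb
  rw [hs, h19, Submodule.mem_bot] at h1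
  exact h1

private theorem S75_x5 (h : S75 F A D x) {w : A} (hw : w ∈ D 5) : x * w ∈ D 9 :=
  h.gf.mul_mem 4 5 (by norm_num) (by norm_num) x h.xm w hw

private theorem S75_x10 (h : S75 F A D x) {p : A} (hp : p ∈ D 10) : x * p ∈ D 14 :=
  h.gf.mul_mem 4 10 (by norm_num) (by norm_num) x h.xm p hp

private theorem S75_xx (h : S75 F A D x) : x * x ∈ D 8 :=
  h.gf.mul_mem 4 4 (by norm_num) (by norm_num) x h.xm x h.xm

private theorem S75_55 (h : S75 F A D x) {w w' : A} (hw : w ∈ D 5) (hw' : w' ∈ D 5) :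
    w * w' ∈ D 10 :=
  h.gf.mul_mem 5 5 (by norm_num) (by norm_num) w hw w' hw'

theorem S75_P (h : S75 F A D x) (h19 : D 19 = ⊥) (w w' p : A) (hw : w ∈ D 5) (hw' : w' ∈ D 5)
    (hp : p ∈ D 10) : (x * w) * (w' * p) = 0 := by
  have hle : D 10 ≤ LinearMap.ker
      ((LinearMap.mul F A (x * w)).comp (LinearMap.mul F A w')) := by
    refine h.g10 _ fun w1 hw1 w2 hw2 => ?_
    rw [LinearMap.mem_ker]
    change (x * w) * (w' * (w1 * w2)) = 0
    have e := gder F h.gf.two h.gf.jordan (x * w) w' w1 w2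
    have hxw := S75_x5 h hw
    have z1 : ∀ v ∈ D 5, (x * w) * (w' * v) = 0 := fun v hv =>
      S75_z19 h h19 (i := 9) (j := 10) (by norm_num) (by norm_num) rfl hxw (S75_55 h hw' hv)
    have z2 : ∀ v ∈ D 5, w' * ((x * w) * v) = 0 := fun v hv =>
      S75_z19 h h19 (i := 5) (j := 14) (by norm_num) (by norm_num) rfl hw'
        (h.gf.mul_mem 9 5 (by norm_num) (by norm_num) _ hxw v hv)
    have z3 : (x * w) * (w1 * w2) = 0 :=
      S75_z19 h h19 (i := 9) (j := 10) (by norm_num) (by norm_num) rfl hxw (S75_55 h hw1 hw2)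
    rw [z1 w1 hw1, z1 w2 hw2, z2 w1 hw1, z2 w2 hw2, z3] at e
    simpa using e
  exact LinearMap.mem_ker.mp (hle hp)

theorem S75_C (h : S75 F A D x) (h19 : D 19 = ⊥) (q p : A) (hq : q ∈ D 10) (hp : p ∈ D 10) :
    q * (x * p) = x * (q * p) := by
  have hle : D 10 ≤ LinearMap.ker ((LinearMap.mul F A).flip (x * p) -
      (LinearMap.mul F A x).comp ((LinearMap.mul F A).flip p)) := by
    refine h.g10 _ fun w1 hw1 w2 hw2 => ?_
    rw [LinearMap.mem_ker]
    change (w1 * w2) * (x * p) - x * ((w1 * w2) * p) = 0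
    have e := gJ3 F h.gf.two h.gf.jordan w1 w2 x p
    have z1 : (w2 * x) * (w1 * p) = 0 := by
      rw [mul_comm w2 x]
      exact S75_P h h19 w2 w1 p hw2 hw1 hp
    have z2 : (x * w1) * (w2 * p) = 0 := S75_P h h19 w1 w2 p hw1 hw2 hp
    have z3 : (w2 * x) * p = 0 := by
      rw [mul_comm w2 x]
      exact S75_z19 h h19 (i := 9) (j := 10) (by norm_num) (by norm_num) rfl (S75_x5 h hw2) hp
    have z4 : (x * w1) * p = 0 :=
      S75_z19 h h19 (i := 9) (j := 10) (by norm_num) (by norm_num) rfl (S75_x5 h hw1) hp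
    rw [z1, z2, z3, z4, mul_zero, mul_zero, add_zero, add_zero, add_zero, add_zero] at e
    rw [e, sub_self]
  have e := LinearMap.mem_ker.mp (hle hq)
  exact sub_eq_zero.mp e

theorem S75_B (h : S75 F A D x) (h19 : D 19 = ⊥) (w w' p : A) (hw : w ∈ D 5) (hw' : w' ∈ D 5)
    (hp : p ∈ D 10) : p * (w' * (x * w)) + x * (w' * (w * p)) = x * ((w * w') * p) := by
  have e := gJ4 F h.gf.two h.gf.jordan x w w' p
  have z1 := S75_P h h19 w w' p hw hw' hp
  have z2 := S75_P h h19 w' w p hw' hw hp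
  have z3 : w' * (x * p) = 0 :=
    S75_z19 h h19 (i := 5) (j := 14) (by norm_num) (by norm_num) rfl hw' (S75_x10 h hp)
  have z4 := S75_C h h19 (w * w') p (S75_55 h hw hw') hp
  rw [z1, z2, z3, z4, mul_zero, zero_add, zero_add, sub_zero] at e
  rw [mul_comm p (w' * (x * w)), mul_comm w' (x * w), e, sub_add_cancel]

theorem S75_nd14 (h : S75 F A D x) (h19 : D 19 = ⊥) (p : A) (hp : p ∈ D 14)
    (h0 : ∀ q ∈ D 10, q * p = 0) : p = 0 := by
  refine h.kill 14 (by norm_num) (by norm_num) p hp ?_ ?_ ?_ ?_ ?_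
  · exact S75_zero h (i := 4) (j := 14) (by norm_num) (by norm_num) rfl (by norm_num) h.xm hp
  · intro w hw
    exact S75_z19 h h19 (i := 5) (j := 14) (by norm_num) (by norm_num) rfl hw hp
  · exact S75_zero h (i := 8) (j := 14) (by norm_num) (by norm_num) rfl (by norm_num) (S75_xx h) hp
  · intro w hw
    exact S75_zero h (i := 9) (j := 14) (by norm_num) (by norm_num) rfl (by norm_num)
      (S75_x5 h hw) hp
  · intro w hw w' hw'
    exact h0 _ (S75_55 h hw hw')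

theorem S75_nd15 (h : S75 F A D x) (h19 : D 19 = ⊥) (p : A) (hp : p ∈ D 15)
    (h0 : ∀ w ∈ D 5, w * p = 0) : p = 0 := by
  refine h.kill 15 (by norm_num) (by norm_num) p hp ?_ h0 ?_ ?_ ?_
  · exact S75_z19 h h19 (i := 4) (j := 15) (by norm_num) (by norm_num) rfl h.xm hp
  · exact S75_zero h (i := 8) (j := 15) (by norm_num) (by norm_num) rfl (by norm_num) (S75_xx h) hp
  · intro w hw
    have hle : D 15 ≤ LinearMap.ker (LinearMap.mul F A (x * w)) := by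
      refine h.g15 _ fun w' hw' q hq => ?_
      rw [LinearMap.mem_ker]
      exact S75_P h h19 w w' q hw hw' hq
    exact LinearMap.mem_ker.mp (hle hp)
  · intro w hw w' hw'
    exact S75_zero h (i := 10) (j := 15) (by norm_num) (by norm_num) rfl (by norm_num)
      (S75_55 h hw hw') hp

theorem S75_nd9 (h : S75 F A D x) (h19 : D 19 = ⊥) (p : A) (hp : p ∈ D 9)
    (h0 : ∀ w ∈ D 5, w * p = 0) : p = 0 := by
  refine h.kill 9 (by norm_num) (by norm_num) p hp ?_ h0 ?_ ?_ ?_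
  · exact S75_zero h (i := 4) (j := 9) (by norm_num) (by norm_num) rfl (by norm_num) h.xm hp
  · exact S75_zero h (i := 8) (j := 9) (by norm_num) (by norm_num) rfl (by norm_num) (S75_xx h) hp
  · intro w hw
    exact S75_zero h (i := 9) (j := 9) (by norm_num) (by norm_num) rfl (by norm_num)
      (S75_x5 h hw) hp
  · intro w hw w' hw'
    exact S75_z19 h h19 (i := 10) (j := 9) (by norm_num) (by norm_num) rfl (S75_55 h hw hw') hp

theorem S75_nd10 (h : S75 F A D x) (h19 : D 19 = ⊥) (p : A) (hp : p ∈ D 10)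
    (h1 : x * p = 0) (h0 : ∀ w ∈ D 5, w * p = 0) (h3 : ∀ q ∈ D 10, q * p = 0) : p = 0 := by
  refine h.kill 10 (by norm_num) (by norm_num) p hp h1 h0 ?_ ?_ ?_
  · exact S75_zero h (i := 8) (j := 10) (by norm_num) (by norm_num) rfl (by norm_num) (S75_xx h) hp
  · intro w hw
    exact S75_z19 h h19 (i := 9) (j := 10) (by norm_num) (by norm_num) rfl (S75_x5 h hw) hp
  · intro w hw w' hw'
    exact h3 _ (S75_55 h hw hw')

end JD
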