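import Pool.Agent.H74.JD.S75
import Pool.Agent.H9.JH.Defs

set_option autoImplicit false
set_option linter.unusedSectionVars false

/-!
# JD S75A: the case `D 19 ≠ 0` for the stage `(4, 5, 5)` (helper74)

`S75 F A D x`: graded algebra with top degree 24, `x ∈ D 4`, `W = D 5`; nonzero layers only in the degrees `4, 8, ..., 24, 5, 9, 10, 14, 15, 19`. Letters: `w, w', w'' ∈ D 5`, `t ∈ D 9`, `q, h, s ∈ D 10`, `g ∈ D 15`.
All products that fall in a degree outside the list vanish: `x t = 0` (13), `(x x) w = 0` (13), `(x x) q = 0` (18), `x g' = 0` for `g' ∈ D 14` (18), `t t' = 0` (18), `(x x) t` (17), ...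

* `S75_A` (`D 19 ≠ 0` implies `3 ≤ dim D 9 + dim D 10 + dim D 14 + dim D 15`). Write `f1, e2, f2, e3`.
  CASE `f2 = 0` (`D 14 = 0`). `x q = 0`, `w t = 0`. `D 19` is spanned by `x g` and `t q` (`g19`). `gJ3 w w' w'' x`: `(w w')(w'' x) + (w' w'')(w x) + (w'' w)(w' x) = w'' ((w w') x) + ... = 0`. `gJ4 w w' w'' x`: `((w w') w'') x = (w w')(w'' x) + (w w'')(w' x) + (w' w'')(w x) - w (w'' (w' x)) - w' (w'' (w x)) = 0`
  (the last two: `w'' (w' x) ∈ D 14 = 0`); so `x g = 0` for `g ∈ D 15` (`g15, g10`), and `D 19` is spanned by the `t q`; so `f1, e2 ≥ 1`. If the sum is `≤ 2` then `f1 = e2 = 1`, `e3 = 0`: `D 10 = F s`, `w w' = b(w,w') s`, `D 9 = F t`, `x w = ξ(w) t`, `D 19 = F (s t)`, `s t ≠ 0`.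
  `gJ1 w x`: `(w w)(w x) = w ((w w) x) = 0`: `b(w,w) ξ(w) = 0` for all `w ∈ W`; `b(w,w)` is not identically 0 (`D 10` is spanned by squares, char not 2), `ξ ≠ 0` (`D 9 ≠ 0`, `g9`): choose `w1` with `b(w1,w1) ≠ 0`, `w2` with `ξ(w2) ≠ 0`; `b(w,w) ξ(w)` at `w = w1 + a w2` is a nonzero polynomial in `a`
  (product of two nonzero polynomials), the field is infinite: contradiction.
  CASE `f2 ≥ 1`, sum `≤ 2`. `D 14` is spanned by `x q` and `w t`, so `e2 ≥ 1` or `f1 ≥ 1`; so `f2 = 1` and (`e2 = 1`, `f1 = e3 = 0`) or (`f1 = 1`, `e2 = e3 = 0`).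
  (`e2 = 1`): `x w = 0`, `D 15 = 0`, `D 14 = F x s`. `gJ1 w x`: `w ((w w) x) = (w w)(w x) = 0`: `b(w,w) w (s x) = 0`, so `w (s x) = 0` for all `w` (density: if `b(w,w) ≠ 0` it holds; polynomial argument, `mem_of_dense` in `Defs.lean` of JH). So `w h = 0` for `h ∈ D 14`, `D 19 = 0` (`g19`; `D 9 = D 15 = 0`), contradiction.
  (`f1 = 1`): `w w' = 0`. `x w = ξ(w) t`. `gJ2 w x h`: `(w w)(x h) + 2 (w x)(w h) = x ((w w) h) + 2 w ((w x) h)`: `ξ(w) (t (w h) - w (t h)) = 0`; density: `t (w h) = w (t h)` for all `w ∈ W` and all `h`. `w (w' t) = w (t w') = t (w w') = 0`. `D 14` is spanned by the `w' t`, so `D 19 = 0`, contradiction.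
-/

namespace JD

universe u

variable {F : Type u} [Field F] {A : Type u} [NonUnitalNonAssocCommRing A] [Module F A]
  [IsScalarTower F A A] [SMulCommClass F A A] {D : ℕ → Submodule F A} {x : A}

private theorem S75A_bot {s : ℕ} (hs : D s = ⊥) {a : A} (ha : a ∈ D s) : a = 0 := by
  rw [hs] at ha
  exact (Submodule.mem_bot F).mp ha

private theorem S75A_rank [Module.Finite F A] {s : ℕ} (hs : Module.finrank F (D s) = 0) :
    D s = ⊥ := Submodule.finrank_eq_zero.mp hs

private theorem S75A_rank_pos [Module.Finite F A] {s : ℕ} (hs : D s ≠ ⊥) :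
    1 ≤ Module.finrank F (D s) := by
  by_contra hcon
  exact hs (S75A_rank (by omega))

/-- the squares do not all vanish under a functional that is not zero on `D 10` -/
private theorem S75A_sq (h : S75 F A D x) (ψ : A →ₗ[F] F) {s : A} (hs : s ∈ D 10)
    (hs0 : ψ s ≠ 0) : ∃ w ∈ D 5, ψ (w * w) ≠ 0 := by
  by_contra hcon
  push Not at hcon
  apply hs0
  have h3 : D 10 ≤ LinearMap.ker ψ := by
    refine h.g10 _ fun w hw w' hw' => ?_
    rw [LinearMap.mem_ker]
    have h1 := hcon _ ((D 5).add_mem hw hw')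
    rw [add_mul, mul_add, mul_add, mul_comm w' w, map_add, map_add, map_add, hcon w hw,
      hcon w' hw', zero_add, add_zero, ← two_mul] at h1
    exact (mul_eq_zero.mp h1).resolve_left h.gf.two
  exact LinearMap.mem_ker.mp (h3 hs)

/-- the case `D 14 = 0` -/
private theorem S75A_case1 (h : S75 F A D x) (h14 : D 14 = ⊥) (h19 : D 19 ≠ ⊥) :
    1 ≤ Module.finrank F (D 9) ∧ 1 ≤ Module.finrank F (D 10) ∧
      ¬ (Module.finrank F (D 9) = 1 ∧ Module.finrank F (D 10) = 1) := by
  have hfin : Module.Finite F A := h.gf.fin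
  have h2 := h.gf.two
  have hJ := h.gf.jordan
  have mm := h.gf.mul_mem
  have hxm := h.xm
  -- products in `D 14`
  have p14 : ∀ w ∈ D 5, ∀ w' ∈ D 5, w * (w' * x) = 0 := fun w hw w' hw' =>
    S75A_bot h14 (mm 5 9 (by norm_num) (by norm_num) w hw _
      (mm 5 4 (by norm_num) (by norm_num) w' hw' x hxm))
  have q14 : ∀ w ∈ D 5, ∀ w' ∈ D 5, (w * w') * x = 0 := fun w hw w' hw' =>
    S75A_bot h14 (mm 10 4 (by norm_num) (by norm_num) _
      (mm 5 5 (by norm_num) (by norm_num) w hw w' hw') x hxm)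
  have key : ∀ w ∈ D 5, ∀ w' ∈ D 5, ∀ w'' ∈ D 5, ((w * w') * w'') * x = 0 := by
    intro w hw w' hw' w'' hw''
    have e3 := gJ3 F h2 hJ w w' w'' x
    rw [q14 w hw w' hw', q14 w' hw' w'' hw'', q14 w'' hw'' w hw, mul_zero, mul_zero, mul_zero,
      add_zero, add_zero] at e3
    have e4 := gJ4 F h2 hJ w w' w'' x
    rw [p14 w'' hw'' w' hw', p14 w'' hw'' w hw, mul_zero, mul_zero, sub_zero, sub_zero] at e4
    rw [e4, ← e3, mul_comm w'' w]
    abel
  have xg : ∀ g ∈ D 15, x * g = 0 := by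
    have h15 : D 15 ≤ LinearMap.ker (LinearMap.mulLeft F x) := by
      refine h.g15 _ fun w hw q hq => ?_
      have h10 : D 10 ≤ LinearMap.ker ((LinearMap.mulLeft F x).comp (LinearMap.mulLeft F w)) := by
        refine h.g10 _ fun w' hw' w'' hw'' => ?_
        rw [LinearMap.mem_ker, LinearMap.comp_apply, LinearMap.mulLeft_apply,
          LinearMap.mulLeft_apply, mul_comm x, mul_comm w]
        exact key w' hw' w'' hw'' w hw
      have := h10 hq
      rw [LinearMap.mem_ker, LinearMap.comp_apply] at this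
      exact LinearMap.mem_ker.mpr this
    intro g hg
    exact LinearMap.mem_ker.mp (h15 hg)
  -- `D 19` is spanned by the `t * q`
  have g19 : ∀ T : Submodule F A, (∀ t ∈ D 9, ∀ q ∈ D 10, t * q ∈ T) → D 19 ≤ T := by
    intro T hT
    refine h.g19 T (fun g hg => ?_) (fun w hw p hp => ?_) hT
    · rw [xg g hg]; exact zero_mem _
    · rw [S75A_bot h14 hp, mul_zero]; exact zero_mem _
  have h9 : D 9 ≠ ⊥ := by
    intro h9
    apply h19
    rw [eq_bot_iff]
    refine g19 _ fun t ht q hq => ?_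
    rw [S75A_bot h9 ht, zero_mul]; exact zero_mem _
  have h10 : D 10 ≠ ⊥ := by
    intro h10
    apply h19
    rw [eq_bot_iff]
    refine g19 _ fun t ht q hq => ?_
    rw [S75A_bot h10 hq, mul_zero]; exact zero_mem _
  refine ⟨S75A_rank_pos h9, S75A_rank_pos h10, ?_⟩
  rintro ⟨f1, e2⟩
  obtain ⟨t, ht, ht0, φ, hφ, hφ'⟩ := exists_coord f1
  obtain ⟨s, hs, hs0, ψ, hψ, hψ'⟩ := exists_coord e2
  have hts : s * t ≠ 0 := by
    intro hts
    apply h19
    rw [eq_bot_iff]
    refine g19 _ fun t' ht' q hq => ?_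
    rw [hφ' t' ht', hψ' q hq, smul_mul_smul_comm, mul_comm t s, hts, smul_zero]
    exact zero_mem _
  have hw5 : ∀ w ∈ D 5, ψ (w * w) * φ (w * x) = 0 := by
    intro w hw
    have e1 := gJ1 hJ w x
    have hww := mm 5 5 (by norm_num) (by norm_num) w hw w hw
    have hwx := mm 5 4 (by norm_num) (by norm_num) w hw x hxm
    rw [q14 w hw w hw, mul_zero, hψ' _ hww, hφ' _ hwx, smul_mul_smul_comm] at e1
    exact (smul_eq_zero.mp e1).resolve_right hts
  obtain ⟨w1, hw1, hw10⟩ := S75A_sq h ψ hs (by rw [hψ]; exact one_ne_zero)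
  obtain ⟨w2, hw2, hw20⟩ : ∃ w ∈ D 5, φ (w * x) ≠ 0 := by
    by_contra hcon
    push Not at hcon
    have h3 : D 9 ≤ LinearMap.ker φ := by
      refine h.g9 _ fun w hw => ?_
      rw [LinearMap.mem_ker, mul_comm]
      exact hcon w hw
    have := LinearMap.mem_ker.mp (h3 ht)
    rw [hφ] at this
    exact one_ne_zero this
  have a1 : φ (w1 * x) = 0 := (mul_eq_zero.mp (hw5 w1 hw1)).resolve_left hw10
  have a2 : ψ (w2 * w2) = 0 := (mul_eq_zero.mp (hw5 w2 hw2)).resolve_right hw20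
  have gen : ∀ a : F, (ψ (w1 * w1) + a * (2 * ψ (w1 * w2))) * (a * φ (w2 * x)) = 0 := by
    intro a
    have e := hw5 _ ((D 5).add_mem hw1 ((D 5).smul_mem a hw2))
    rw [add_mul, mul_add, mul_add, smul_mul_smul_comm, mul_smul_comm, smul_mul_assoc,
      mul_comm w2 w1, add_mul, smul_mul_assoc] at e
    simp only [map_add, map_smul, smul_eq_mul, a1, a2, mul_zero, add_zero, zero_add] at e
    rw [← e]
    ring
  have g1 := gen 1
  have g3 := gen (-1)
  have b1 : ψ (w1 * w1) + 1 * (2 * ψ (w1 * w2)) = 0 := by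
    refine (mul_eq_zero.mp g1).resolve_right ?_
    rw [one_mul]; exact hw20
  have b3 : ψ (w1 * w1) + (-1) * (2 * ψ (w1 * w2)) = 0 := by
    refine (mul_eq_zero.mp g3).resolve_right ?_
    rw [neg_one_mul]; exact neg_ne_zero.mpr hw20
  have b4 : 2 * ψ (w1 * w1) = 0 := by linear_combination b1 + b3
  exact hw10 ((mul_eq_zero.mp b4).resolve_left h2)

/-- a nonzero quadratic polynomial has a non-root -/
private theorem S75A_quad (h2 : (2 : F) ≠ 0) (c0 c1 c2 : F) (hc : c2 ≠ 0) :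
    ∃ a : F, c0 + c1 * a + c2 * (a * a) ≠ 0 := by
  by_contra hcon
  push Not at hcon
  have e0 := hcon 0
  have e1 := hcon 1
  have e3 := hcon (-1)
  have : 2 * c2 = 0 := by linear_combination e1 + e3 - 2 * e0
  exact hc ((mul_eq_zero.mp this).resolve_left h2)

/-- the case `D 9 = D 15 = 0`, `dim D 10 = 1` -/
private theorem S75A_case2 (h : S75 F A D x) (h9 : D 9 = ⊥) (h15 : D 15 = ⊥)
    (e2 : Module.finrank F (D 10) = 1) : D 19 = ⊥ := by
  have hfin : Module.Finite F A := h.gf.fin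
  have h2 := h.gf.two
  have hJ := h.gf.jordan
  have mm := h.gf.mul_mem
  have hxm := h.xm
  obtain ⟨s, hs, hs0, ψ, hψ, hψ'⟩ := exists_coord e2
  have hwx : ∀ w ∈ D 5, w * x = 0 := fun w hw =>
    S75A_bot h9 (mm 5 4 (by norm_num) (by norm_num) w hw x hxm)
  have h1 : ∀ w ∈ D 5, ψ (w * w) • (w * (s * x)) = 0 := by
    intro w hw
    have e1 := gJ1 hJ w x
    have hww := mm 5 5 (by norm_num) (by norm_num) w hw w hw
    rw [hwx w hw, mul_zero, hψ' _ hww, smul_mul_assoc, mul_smul_comm] at e1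
    exact e1.symm
  obtain ⟨w1, hw1, hw10⟩ := S75A_sq h ψ hs (by rw [hψ]; exact one_ne_zero)
  have y1 : w1 * (s * x) = 0 := (smul_eq_zero.mp (h1 w1 hw1)).resolve_left hw10
  have y : ∀ w ∈ D 5, w * (s * x) = 0 := by
    intro w hw
    obtain ⟨a, ha⟩ := S75A_quad h2 (ψ (w * w)) (2 * ψ (w * w1)) (ψ (w1 * w1)) hw10
    have e := h1 _ ((D 5).add_mem hw ((D 5).smul_mem a hw1))
    have e5 : ψ ((w + a • w1) * (w + a • w1)) =
        ψ (w * w) + 2 * ψ (w * w1) * a + ψ (w1 * w1) * (a * a) := by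
      rw [add_mul, mul_add, mul_add, smul_mul_smul_comm, mul_smul_comm, smul_mul_assoc,
        mul_comm w1 w]
      simp only [map_add, map_smul, smul_eq_mul]
      ring
    rw [e5, add_mul, smul_mul_assoc, y1, smul_zero, add_zero] at e
    exact (smul_eq_zero.mp e).resolve_left ha
  have h14 : ∀ w ∈ D 5, ∀ p ∈ D 14, w * p = 0 := by
    intro w hw
    have h3 : D 14 ≤ LinearMap.ker (LinearMap.mulLeft F w) := by
      refine h.g14 _ (fun q hq => ?_) (fun w' hw' t ht => ?_)
      · rw [LinearMap.mem_ker, LinearMap.mulLeft_apply, hψ' q hq, mul_smul_comm, mul_smul_comm,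
          mul_comm x s, y w hw, smul_zero]
      · rw [S75A_bot h9 ht, mul_zero]; exact zero_mem _
    intro p hp
    exact LinearMap.mem_ker.mp (h3 hp)
  rw [eq_bot_iff]
  refine h.g19 _ (fun g hg => ?_) (fun w hw p hp => ?_) (fun t ht q hq => ?_)
  · rw [S75A_bot h15 hg, mul_zero]; exact zero_mem _
  · rw [h14 w hw p hp]; exact zero_mem _
  · rw [S75A_bot h9 ht, zero_mul]; exact zero_mem _

/-- the case `D 10 = D 15 = 0`, `dim D 9 = 1` -/
private theorem S75A_case3 (h : S75 F A D x) (h10 : D 10 = ⊥) (h15 : D 15 = ⊥)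
    (f1 : Module.finrank F (D 9) = 1) : D 19 = ⊥ := by
  have hfin : Module.Finite F A := h.gf.fin
  have h2 := h.gf.two
  have hJ := h.gf.jordan
  have mm := h.gf.mul_mem
  have hxm := h.xm
  obtain ⟨t, ht, ht0, φ, hφ, hφ'⟩ := exists_coord f1
  have hww : ∀ w ∈ D 5, ∀ w' ∈ D 5, w * w' = 0 := fun w hw w' hw' =>
    S75A_bot h10 (mm 5 5 (by norm_num) (by norm_num) w hw w' hw')
  have h1 : ∀ w ∈ D 5, ∀ b : A, φ (w * x) • (t * (w * b) - w * (t * b)) = 0 := by
    intro w hw b
    have e1 := gJ2 F h2 hJ w x b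
    have hwx := mm 5 4 (by norm_num) (by norm_num) w hw x hxm
    rw [hww w hw w hw, zero_mul, zero_mul, mul_zero, zero_add, zero_add, hφ' _ hwx,
      smul_mul_assoc, smul_mul_assoc, mul_smul_comm] at e1
    have e5 : (2 : F) • (φ (w * x) • (t * (w * b) - w * (t * b))) = 0 := by
      rw [smul_sub, smul_sub, e1, sub_self]
    exact (smul_eq_zero.mp e5).resolve_left h2
  obtain ⟨w1, hw1, hw10⟩ : ∃ w ∈ D 5, φ (w * x) ≠ 0 := by
    by_contra hcon
    push Not at hcon
    have h3 : D 9 ≤ LinearMap.ker φ := by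
      refine h.g9 _ fun w hw => ?_
      rw [LinearMap.mem_ker, mul_comm]
      exact hcon w hw
    have := LinearMap.mem_ker.mp (h3 ht)
    rw [hφ] at this
    exact one_ne_zero this
  have y1 : ∀ b : A, t * (w1 * b) - w1 * (t * b) = 0 := fun b =>
    (smul_eq_zero.mp (h1 w1 hw1 b)).resolve_left hw10
  have y : ∀ w ∈ D 5, ∀ b : A, t * (w * b) = w * (t * b) := by
    intro w hw b
    rw [← sub_eq_zero]
    by_cases hc : φ (w * x) = 0
    · have e := h1 _ ((D 5).add_mem hw hw1) b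
      have e5 : t * ((w + w1) * b) - (w + w1) * (t * b) =
          (t * (w * b) - w * (t * b)) + (t * (w1 * b) - w1 * (t * b)) := by
        rw [add_mul, mul_add, add_mul]; abel
      rw [e5, y1 b, add_zero, add_mul, map_add, hc, zero_add] at e
      exact (smul_eq_zero.mp e).resolve_left hw10
    · exact (smul_eq_zero.mp (h1 w hw b)).resolve_left hc
  have h14 : ∀ w ∈ D 5, ∀ p ∈ D 14, w * p = 0 := by
    intro w hw
    have h3 : D 14 ≤ LinearMap.ker (LinearMap.mulLeft F w) := by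
      refine h.g14 _ (fun q hq => ?_) (fun w' hw' t' ht' => ?_)
      · rw [S75A_bot h10 hq, mul_zero]; exact zero_mem _
      · rw [LinearMap.mem_ker, LinearMap.mulLeft_apply, hφ' t' ht', mul_smul_comm, mul_smul_comm,
          mul_comm w' t, ← y w hw w', hww w hw w' hw', mul_zero, smul_zero]
    intro p hp
    exact LinearMap.mem_ker.mp (h3 hp)
  rw [eq_bot_iff]
  refine h.g19 _ (fun g hg => ?_) (fun w hw p hp => ?_) (fun t' ht' q hq => ?_)
  · rw [S75A_bot h15 hg, mul_zero]; exact zero_mem _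
  · rw [h14 w hw p hp]; exact zero_mem _
  · rw [S75A_bot h10 hq, mul_zero]; exact zero_mem _

theorem S75_A (h : S75 F A D x) (h19 : D 19 ≠ ⊥) :
    3 ≤ Module.finrank F (D 9) + Module.finrank F (D 10) + Module.finrank F (D 14) +
      Module.finrank F (D 15) := by
  have hfin : Module.Finite F A := h.gf.fin
  by_contra hlt
  push Not at hlt
  by_cases h14 : D 14 = ⊥
  · obtain ⟨a1, a2, a3⟩ := S75A_case1 h h14 h19
    apply a3
    omega
  · have f2 := S75A_rank_pos h14
    have h15 : 1 ≤ Module.finrank F (D 9) ∨ 1 ≤ Module.finrank F (D 10) := by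
      by_contra hcon
      push Not at hcon
      have h9 : D 9 = ⊥ := S75A_rank (by omega)
      have h10 : D 10 = ⊥ := S75A_rank (by omega)
      apply h14
      rw [eq_bot_iff]
      refine h.g14 _ (fun q hq => ?_) (fun w hw t ht => ?_)
      · rw [S75A_bot h10 hq, mul_zero]; exact zero_mem _
      · rw [S75A_bot h9 ht, mul_zero]; exact zero_mem _
    apply h19
    rcases h15 with h15 | h15
    · exact S75A_case3 h (S75A_rank (by omega)) (S75A_rank (by omega)) (by omega)
    · exact S75A_case2 h (S75A_rank (by omega)) (S75A_rank (by omega)) (by omega)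

end JD
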