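import Pool.Agent.H74.JD.Weight
import Pool.Agent.H74.JD.SGen
import Pool.Agent.H9.JH.GrQuot
import Pool.Agent.H8.JD.SSysEx

set_option autoImplicit false
set_option linter.unusedSectionVars false

/-!
# JD WFil: weight filtrations and their graded cocyclic quotients (helper74)

`wfil F S a s` = span of the `S w` with `s ≤ wt a w`; `pw F S a s` = span of the `S w`, `w` a word in the letters `0, 1` only, `wt a w = s`.

`Stg F x S a N e`: `S` is an S-system for the generators `x` (independent mod `J^2`), words of length `≥ 7` and words of weight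
`> N` have `S w = 0`, words of weight `N` have values in `F e`, not all `0`. `GPic F Φ N A D π`: the output of `exists_GF` for the
filtration `Φ` as a structure. `gS S a π w = π (wt a w) (S w)`: the S-system of `A`.

* `wfil_mul`: `p = ∑ c_v S v`, `q = ∑ d_w S w` (`Submodule.span_induction` twice), `4 (S v S w)` = a sum of four `S` of words of weight
  `wt v + wt w`; for `v = []` or `w = []` the product is `0` (`SSys.nil`). `4 ≠ 0`.
* `wfil_one_eq_jpow`: `funext`; `s = 0`: both are `⊤`. `≤`: `S w ∈ J^|w|` by `SSys.mem_filt` for `filt_jpow`, `wt (fun _ => 1) w = w.length`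
  (`wt_one`), `jpow_anti`. `≥` for `s ≥ 1` by strong induction on `s`: `s = 1`: every `S w`, `w ≠ []`, has `1 ≤ |w|`. `s ≥ 2`: `jpow_le_of` and `wfil_mul`.
* `Stg.wfil_bot`, `Stg.wfil_top`: immediate (`⊇`: `ne` gives `w` with `S w = r • e`, `r ≠ 0`).
* `exists_GPic`: `exists_GF` for `Φ = wfil F S a`.
* `wt_cnt`: induction on the word.
-/

namespace JD

universe u

variable {F : Type u} [Field F] {J : Type u} [NonUnitalNonAssocCommRing J] [Module F J]
  [IsScalarTower F J J] [SMulCommClass F J J]

/-- the weight filtration -/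
def wfil (F : Type u) [Field F] {J : Type u} [NonUnitalNonAssocCommRing J] [Module F J]
    (S : List (Fin 3) → J) (a : Fin 3 → ℕ) (s : ℕ) : Submodule F J :=
  Submodule.span F (S '' {w | s ≤ wt a w})

/-- the words in the letters `0, 1` of weight `s` -/
def pw (F : Type u) [Field F] {J : Type u} [NonUnitalNonAssocCommRing J] [Module F J]
    (S : List (Fin 3) → J) (a : Fin 3 → ℕ) (s : ℕ) : Submodule F J :=
  Submodule.span F (S '' {w | (∀ i ∈ w, i ≠ 2) ∧ wt a w = s})

/-- a weight vector `a` and a top weight `N` for which the weight filtration is good -/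
structure Stg (F : Type u) [Field F] {J : Type u} [NonUnitalNonAssocCommRing J] [Module F J]
    [IsScalarTower F J J] [SMulCommClass F J J]
    (x : Fin 3 → J) (S : List (Fin 3) → J) (a : Fin 3 → ℕ) (N : ℕ) (e : J) : Prop where
  sys : SSys F x S
  gen : Submodule.span F (Set.range S) = ⊤
  ind : ∀ c : Fin 3 → F, ∑ i, c i • x i ∈ jpow F J 2 → c = 0
  cls : ∀ w : List (Fin 3), 7 ≤ w.length → S w = 0
  pos : ∀ i, 1 ≤ a i
  van : ∀ w, N < wt a w → S w = 0
  top : ∀ w, wt a w = N → S w ∈ Submodule.span F {e}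
  ne : ∃ w, wt a w = N ∧ S w ≠ 0
  e0 : e ≠ 0

/-- the graded cocyclic quotient of a filtration -/
structure GPic (F : Type u) [Field F] {J : Type u} [NonUnitalNonAssocCommRing J] [Module F J]
    [IsScalarTower F J J] [SMulCommClass F J J] (Φ : ℕ → Submodule F J) (N : ℕ)
    (A : Type u) [NonUnitalNonAssocCommRing A] [Module F A] [IsScalarTower F A A]
    [SMulCommClass F A A] (D : ℕ → Submodule F A) (π : ℕ → J →ₗ[F] A) : Prop where
  gf : GF F A N D
  map : ∀ i, 1 ≤ i → (Φ i).map (π i) = D i
  mul : ∀ i j, 1 ≤ i → 1 ≤ j → ∀ a ∈ Φ i, ∀ b ∈ Φ j, π (i + j) (a * b) = π i a * π j b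
  ker : ∀ i, 1 ≤ i → ∀ a ∈ Φ i, (π i a = 0 ↔ a ∈ rdf Φ N i)
  kill : ∀ i, 1 ≤ i → ∀ a ∈ Φ (i + 1), π i a = 0
  inj : ∀ a ∈ Φ N, π N a = 0 → a = 0
  lay : ∀ i, 1 ≤ i → Module.finrank F (D i) + Module.finrank F (Φ (i + 1)) ≤
    Module.finrank F (Φ i)
  dim : ∑ i ∈ Finset.Icc 1 N, Module.finrank F (D i) ≤ Module.finrank F J

/-- the S-system of `A` -/
def gS {A : Type u} [NonUnitalNonAssocCommRing A] [Module F A] (S : List (Fin 3) → J)
    (a : Fin 3 → ℕ) (π : ℕ → J →ₗ[F] A) (w : List (Fin 3)) : A := π (wt a w) (S w)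

section basic

variable {x : Fin 3 → J} {S : List (Fin 3) → J} {a : Fin 3 → ℕ}

theorem wfil_anti {s t : ℕ} (h : s ≤ t) : wfil F S a t ≤ wfil F S a s := by
  refine Submodule.span_mono ?_
  rintro _ ⟨w, hw, rfl⟩
  exact ⟨w, h.trans hw, rfl⟩

theorem mem_wfil {s : ℕ} {w : List (Fin 3)} (h : s ≤ wt a w) : S w ∈ wfil F S a s :=
  Submodule.subset_span ⟨w, h, rfl⟩

private theorem WFil_span_mul (h2 : (2 : F) ≠ 0) (hS : SSys F x S)
    {A B C : Set (List (Fin 3))}
    (hC : ∀ v ∈ A, ∀ w ∈ B, v ++ w ∈ C ∧ v ++ w.reverse ∈ C ∧ v.reverse ++ w ∈ C ∧ w ++ v ∈ C)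
    {p q : J} (hp : p ∈ Submodule.span F (S '' A)) (hq : q ∈ Submodule.span F (S '' B)) :
    p * q ∈ Submodule.span F (S '' C) := by
  have h4 : (4 : F) ≠ 0 := by
    have : (4 : F) = 2 * 2 := by norm_num
    rw [this]; exact mul_ne_zero h2 h2
  induction hp using Submodule.span_induction with
  | mem p hp =>
    obtain ⟨v, hv, rfl⟩ := hp
    induction hq using Submodule.span_induction with
    | mem q hq =>
      obtain ⟨w, hw, rfl⟩ := hq
      by_cases hv0 : v = []
      · subst hv0; rw [hS.nil, zero_mul]; exact zero_mem _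
      · by_cases hw0 : w = []
        · subst hw0; rw [hS.nil, mul_zero]; exact zero_mem _
        · have := hS.mul v w hv0 hw0
          have e : S v * S w = (4 : F)⁻¹ • (S (v ++ w) + S (v ++ w.reverse) +
              S (v.reverse ++ w) + S (w ++ v)) := by
            rw [← this, smul_smul, inv_mul_cancel₀ h4, one_smul]
          rw [e]
          obtain ⟨c1, c2, c3, c4⟩ := hC v hv w hw
          exact Submodule.smul_mem _ _ (add_mem (add_mem (add_mem
            (Submodule.subset_span ⟨_, c1, rfl⟩) (Submodule.subset_span ⟨_, c2, rfl⟩))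
            (Submodule.subset_span ⟨_, c3, rfl⟩)) (Submodule.subset_span ⟨_, c4, rfl⟩))
    | zero => rw [mul_zero]; exact zero_mem _
    | add b c _ _ hb hc => rw [mul_add]; exact add_mem hb hc
    | smul r b _ hb => rw [mul_smul_comm]; exact Submodule.smul_mem _ _ hb
  | zero => rw [zero_mul]; exact zero_mem _
  | add b c _ _ hb hc => rw [add_mul]; exact add_mem hb hc
  | smul r b _ hb => rw [smul_mul_assoc]; exact Submodule.smul_mem _ _ hb

theorem wfil_mul (h2 : (2 : F) ≠ 0) (hS : SSys F x S) {s t : ℕ} {p q : J}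
    (hp : p ∈ wfil F S a s) (hq : q ∈ wfil F S a t) : p * q ∈ wfil F S a (s + t) := by
  refine WFil_span_mul h2 hS (fun v hv w hw => ?_) hp hq
  have hv' : s ≤ wt a v := hv
  have hw' : t ≤ wt a w := hw
  have e1 := wt_append a v w
  have e2 : wt a w.reverse = wt a w := wt_perm a w.reverse_perm
  have e3 : wt a v.reverse = wt a v := wt_perm a v.reverse_perm
  refine ⟨?_, ?_, ?_, ?_⟩ <;> show s + t ≤ wt a _ <;> rw [wt_append] <;> omega

theorem filt_wfil (h2 : (2 : F) ≠ 0) (hS : SSys F x S) : Filt F x a (wfil F S a) where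
  anti := fun _ _ h => wfil_anti h
  mul_mem := fun _ _ _ hp _ hq => wfil_mul h2 hS hp hq
  mem := fun i => by
    rw [← hS.single i]
    refine mem_wfil ?_
    simp [wt]

theorem wfil_one (ha : ∀ i, 1 ≤ a i) (hS : SSys F x S)
    (hg : Submodule.span F (Set.range S) = ⊤) : wfil F S a 1 = ⊤ := by
  rw [eq_top_iff, ← hg, Submodule.span_le]
  rintro _ ⟨w, rfl⟩
  rcases w with _ | ⟨i, w⟩
  · rw [hS.nil]; exact zero_mem _
  · refine mem_wfil ?_
    have := ha i
    simp only [wt, List.map_cons, List.sum_cons]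
    omega

theorem wfil_one_eq_jpow (h2 : (2 : F) ≠ 0) (hS : SSys F x S)
    (hg : Submodule.span F (Set.range S) = ⊤) : wfil F S (fun _ => 1) = jpow F J := by
  funext s
  apply le_antisymm
  · unfold wfil
    rw [Submodule.span_le]
    rintro _ ⟨w, hw, rfl⟩
    rcases eq_or_ne w [] with h | h
    · subst h; rw [hS.nil]; exact zero_mem _
    · exact jpow_anti hw (hS.mem_filt h2 (filt_jpow x) w h)
  · induction s using Nat.strong_induction_on with
    | _ s ih =>
      rcases Nat.lt_or_ge s 2 with hs | hs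
      · have h1 := wfil_one (a := fun _ => 1) (fun _ => le_rfl) hS hg
        have h3 : wfil F S (fun _ => 1) 1 ≤ wfil F S (fun _ => 1) s := wfil_anti (by omega)
        rw [h1] at h3
        exact le_top.trans h3
      · refine jpow_le_of hs _ fun i j hi hj hij p hp q hq => ?_
        rw [← hij]
        exact wfil_mul h2 hS (ih i (by omega) hp) (ih j (by omega) hq)

/-- `pw` is contained in the filtration and multiplicative -/
theorem pw_le {s : ℕ} : pw F S a s ≤ wfil F S a s := by
  refine Submodule.span_mono ?_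
  rintro _ ⟨w, hw, rfl⟩
  exact ⟨w, hw.2.ge, rfl⟩

theorem pw_mul (h2 : (2 : F) ≠ 0) (hS : SSys F x S) {s t : ℕ} {p q : J}
    (hp : p ∈ pw F S a s) (hq : q ∈ pw F S a t) : p * q ∈ pw F S a (s + t) := by
  refine WFil_span_mul h2 hS (fun v hv w hw => ?_) hp hq
  obtain ⟨hv1, hv2⟩ := hv
  obtain ⟨hw1, hw2⟩ := hw
  have e2 : wt a w.reverse = wt a w := wt_perm a w.reverse_perm
  have e3 : wt a v.reverse = wt a v := wt_perm a v.reverse_perm
  refine ⟨⟨?_, ?_⟩, ⟨?_, ?_⟩, ⟨?_, ?_⟩, ⟨?_, ?_⟩⟩
  · intro i hi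
    rcases List.mem_append.mp hi with h | h
    · exact hv1 i h
    · exact hw1 i h
  · rw [wt_append]; omega
  · intro i hi
    rcases List.mem_append.mp hi with h | h
    · exact hv1 i h
    · exact hw1 i (List.mem_reverse.mp h)
  · rw [wt_append]; omega
  · intro i hi
    rcases List.mem_append.mp hi with h | h
    · exact hv1 i (List.mem_reverse.mp h)
    · exact hw1 i h
  · rw [wt_append]; omega
  · intro i hi
    rcases List.mem_append.mp hi with h | h
    · exact hw1 i h
    · exact hv1 i h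
  · rw [wt_append]; omega

/-- the weight in terms of the numbers of letters -/
theorem wt_cnt (a : Fin 3 → ℕ) (w : List (Fin 3)) :
    wt a w = a 0 * w.count 0 + a 1 * w.count 1 + a 2 * w.count 2 ∧
      w.length = w.count 0 + w.count 1 + w.count 2 := by
  induction w with
  | nil => simp [wt]
  | cons i w ih =>
    obtain ⟨h1, h2⟩ := ih
    have e1 : wt a (i :: w) = a i + wt a w := by simp [wt]
    rw [e1, h1, List.length_cons, h2]
    fin_cases i
    · have c0 : List.count (0 : Fin 3) (0 :: w) = List.count 0 w + 1 := List.count_cons_self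
      have c1 : List.count (1 : Fin 3) (0 :: w) = List.count 1 w :=
        List.count_cons_of_ne (by decide)
      have c2 : List.count (2 : Fin 3) (0 :: w) = List.count 2 w :=
        List.count_cons_of_ne (by decide)
      show a 0 + _ = a 0 * List.count (0 : Fin 3) (0 :: w) + a 1 * List.count (1 : Fin 3) (0 :: w) +
        a 2 * List.count (2 : Fin 3) (0 :: w) ∧ _ = List.count (0 : Fin 3) (0 :: w) +
        List.count (1 : Fin 3) (0 :: w) + List.count (2 : Fin 3) (0 :: w)
      rw [c0, c1, c2]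
      constructor
      · ring
      · omega
    · have c0 : List.count (0 : Fin 3) (1 :: w) = List.count 0 w :=
        List.count_cons_of_ne (by decide)
      have c1 : List.count (1 : Fin 3) (1 :: w) = List.count 1 w + 1 := List.count_cons_self
      have c2 : List.count (2 : Fin 3) (1 :: w) = List.count 2 w :=
        List.count_cons_of_ne (by decide)
      show a 1 + _ = a 0 * List.count (0 : Fin 3) (1 :: w) + a 1 * List.count (1 : Fin 3) (1 :: w) +
        a 2 * List.count (2 : Fin 3) (1 :: w) ∧ _ = List.count (0 : Fin 3) (1 :: w) +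
        List.count (1 : Fin 3) (1 :: w) + List.count (2 : Fin 3) (1 :: w)
      rw [c0, c1, c2]
      constructor
      · ring
      · omega
    · have c0 : List.count (0 : Fin 3) (2 :: w) = List.count 0 w :=
        List.count_cons_of_ne (by decide)
      have c1 : List.count (1 : Fin 3) (2 :: w) = List.count 1 w :=
        List.count_cons_of_ne (by decide)
      have c2 : List.count (2 : Fin 3) (2 :: w) = List.count 2 w + 1 := List.count_cons_self
      show a 2 + _ = a 0 * List.count (0 : Fin 3) (2 :: w) + a 1 * List.count (1 : Fin 3) (2 :: w) +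
        a 2 * List.count (2 : Fin 3) (2 :: w) ∧ _ = List.count (0 : Fin 3) (2 :: w) +
        List.count (1 : Fin 3) (2 :: w) + List.count (2 : Fin 3) (2 :: w)
      rw [c0, c1, c2]
      constructor
      · ring
      · omega

end basic

section stage

variable {x : Fin 3 → J} {S : List (Fin 3) → J} {a : Fin 3 → ℕ} {N : ℕ} {e : J}

theorem Stg.wfil_bot (h : Stg F x S a N e) {s : ℕ} (hs : N < s) : wfil F S a s = ⊥ := by
  rw [eq_bot_iff]
  unfold wfil
  rw [Submodule.span_le]
  rintro _ ⟨w, hw, rfl⟩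
  exact (Submodule.mem_bot F).mpr (h.van w (lt_of_lt_of_le hs hw))

theorem Stg.wfil_top (h : Stg F x S a N e) : wfil F S a N = Submodule.span F {e} := by
  apply le_antisymm
  · unfold wfil
    rw [Submodule.span_le]
    rintro _ ⟨w, hw, rfl⟩
    rcases Nat.lt_or_ge N (wt a w) with h1 | h1
    · rw [h.van w h1]; exact zero_mem _
    · exact h.top w (le_antisymm h1 hw)
  · obtain ⟨w, hw, hw0⟩ := h.ne
    obtain ⟨c, hc⟩ := Submodule.mem_span_singleton.mp (h.top w hw)
    have hc0 : c ≠ 0 := by
      rintro rfl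
      rw [zero_smul] at hc
      exact hw0 hc.symm
    rw [Submodule.span_singleton_le_iff_mem]
    have e1 : e = c⁻¹ • S w := by
      rw [← hc, smul_smul, inv_mul_cancel₀ hc0, one_smul]
    rw [e1]
    exact Submodule.smul_mem _ _ (mem_wfil hw.ge)

theorem Stg.N_pos (h : Stg F x S a N e) : 1 ≤ N := by
  obtain ⟨w, hw, hw0⟩ := h.ne
  rcases w with _ | ⟨i, w⟩
  · exact absurd h.sys.nil hw0
  · have := h.pos i
    have e1 : wt a (i :: w) = a i + wt a w := by simp [wt]
    omega

theorem exists_GPic [Infinite F] [Module.Finite F J] (h2 : (2 : F) ≠ 0) (hJ : IsJordan J)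
    (h : Stg F x S a N e) :
    ∃ (A : Type u) (_ : NonUnitalNonAssocCommRing A) (_ : Module F A) (_ : IsScalarTower F A A)
      (_ : SMulCommClass F A A) (D : ℕ → Submodule F A) (π : ℕ → J →ₗ[F] A),
      GPic F (wfil F S a) N A D π := by
  obtain ⟨A, i1, i2, i3, i4, D, π, hGF, hmap, hπ, hker, hkill, htk, hdim, hsum⟩ :=
    exists_GF F J h2 hJ (wfil F S a) N h.N_pos e h.e0 (wfil_one h.pos h.sys h.gen)
      (fun i _ => wfil_anti (Nat.le_succ i))
      (fun i j _ _ a ha b hb => wfil_mul h2 h.sys ha hb) h.wfil_top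
      (h.wfil_bot (Nat.lt_succ_self N))
  exact ⟨A, i1, i2, i3, i4, D, π, ⟨hGF, hmap, hπ, hker, hkill, htk, hdim, hsum⟩⟩

end stage

end JD
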